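import Pool.Agent.Work.MP_56b8f5_nt.WA.Stmts

set_option autoImplicit false

open MeasureTheory Set Filter Topology

noncomputable section

namespace Pool.Agent.Work.MP_56b8f5_nt.WA

open Pool.Agent.Work.MP_56b8f5_nt.EM
open Pool.Agent.Work.MP_56b8f5_nt.WM

namespace I_Trig

/-- the harmonic `(i, l)` as a continuous expression. -/
def Tf (ω f V ab qq : ℂ) (i l : ℕ) : ℂ :=
  if (i + l) % 2 = 0 then
    if l ≤ i then ((starRingEnd ℂ) ω) ^ (i - l) * ((starRingEnd ℂ) V) ^ ((i - l) / 2) * (f * ab)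
    else ω ^ (l - i) * V ^ ((l - i) / 2) * (f * ab)
  else
    if l ≤ i then ((starRingEnd ℂ) ω) ^ (i - l) * ((starRingEnd ℂ) V) ^ ((i - l) / 2) * (f * qq)
    else ω ^ (l - i) * V ^ ((l - i) / 2) * ((starRingEnd ℂ) f * qq)

theorem sum_pt (n : ℕ) (z a b : ℂ) :
    ∑ i ∈ Finset.range (n + 1), ∑ l ∈ Finset.range (n + 1),
      ((n.choose i : ℂ) * (n.choose l : ℂ)) *
        (z ^ i * ((starRingEnd ℂ) z) ^ l * (if (i + l) % 2 = 0 then a else b)) =
    ((1 + z) ^ n * (1 + (starRingEnd ℂ) z) ^ n + (1 - z) ^ n * (1 - (starRingEnd ℂ) z) ^ n) / 2 * a +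
    ((1 + z) ^ n * (1 + (starRingEnd ℂ) z) ^ n - (1 - z) ^ n * (1 - (starRingEnd ℂ) z) ^ n) / 2 * b := by
  have h1 : ∀ x : ℂ, (1 + x) ^ n = ∑ i ∈ Finset.range (n + 1), (n.choose i : ℂ) * x ^ i := by
    intro x
    rw [add_comm 1 x, add_pow]
    refine Finset.sum_congr rfl fun i _ => ?_
    rw [one_pow, mul_one, mul_comm]
  have h2 : ∀ x : ℂ, (1 - x) ^ n = ∑ i ∈ Finset.range (n + 1), (n.choose i : ℂ) * ((-1) ^ i * x ^ i) := by
    intro x
    rw [sub_eq_add_neg, h1 (-x)]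
    refine Finset.sum_congr rfl fun i _ => ?_
    rw [neg_pow x i]
  rw [h1 z, h1 ((starRingEnd ℂ) z), h2 z, h2 ((starRingEnd ℂ) z), Finset.sum_mul_sum, Finset.sum_mul_sum]
  rw [← Finset.sum_add_distrib, ← Finset.sum_sub_distrib, Finset.sum_div, Finset.sum_div,
    Finset.sum_mul, Finset.sum_mul, ← Finset.sum_add_distrib]
  refine Finset.sum_congr rfl fun i _ => ?_
  rw [← Finset.sum_add_distrib, ← Finset.sum_sub_distrib, Finset.sum_div, Finset.sum_div,
    Finset.sum_mul, Finset.sum_mul, ← Finset.sum_add_distrib]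
  refine Finset.sum_congr rfl fun l _ => ?_
  by_cases hp : (i + l) % 2 = 0
  · rw [if_pos hp]
    have hs : ((-1 : ℂ)) ^ i * (-1) ^ l = 1 := by
      rw [← pow_add]
      exact Even.neg_one_pow (Nat.even_iff.mpr hp)
    have : (n.choose i : ℂ) * ((-1) ^ i * z ^ i) * ((n.choose l : ℂ) * ((-1) ^ l * ((starRingEnd ℂ) z) ^ l)) =
        ((n.choose i : ℂ) * (n.choose l : ℂ)) * (z ^ i * ((starRingEnd ℂ) z) ^ l) * (((-1 : ℂ)) ^ i * (-1) ^ l) := by
      ring
    rw [this, hs]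
    ring
  · rw [if_neg hp]
    have hs : ((-1 : ℂ)) ^ i * (-1) ^ l = -1 := by
      rw [← pow_add]
      exact Odd.neg_one_pow (Nat.odd_iff.mpr (by omega))
    have : (n.choose i : ℂ) * ((-1) ^ i * z ^ i) * ((n.choose l : ℂ) * ((-1) ^ l * ((starRingEnd ℂ) z) ^ l)) =
        ((n.choose i : ℂ) * (n.choose l : ℂ)) * (z ^ i * ((starRingEnd ℂ) z) ^ l) * (((-1 : ℂ)) ^ i * (-1) ^ l) := by
      ring
    rw [this, hs]
    ring

theorem Tf_eq {ω f V ab qq : ℂ} (hω : ‖ω‖ = 1) (hV : ‖V‖ = 1) (hf : f ≠ 0)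
    (hfV : (starRingEnd ℂ) f = V * f) (i l : ℕ) :
    Tf ω f V ab qq i l = (((starRingEnd ℂ) ω * (f / (‖f‖ : ℂ))) ^ i) * ((starRingEnd ℂ) ((starRingEnd ℂ) ω * (f / (‖f‖ : ℂ)))) ^ l *
      (if (i + l) % 2 = 0 then f * ab else (‖f‖ : ℂ) * qq) := by
  have hn : (‖f‖ : ℂ) ≠ 0 := by
    simpa using hf
  have hωω : ω * (starRingEnd ℂ) ω = 1 := by
    rw [Complex.mul_conj, Complex.normSq_eq_norm_sq, hω]; norm_num
  have hVV : V * (starRingEnd ℂ) V = 1 := by
    rw [Complex.mul_conj, Complex.normSq_eq_norm_sq, hV]; norm_num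
  have hff : f * (starRingEnd ℂ) f = (‖f‖ : ℂ) ^ 2 := by
    rw [Complex.mul_conj, Complex.normSq_eq_norm_sq]; push_cast; ring
  set z : ℂ := (starRingEnd ℂ) ω * (f / (‖f‖ : ℂ)) with hz
  have hcz : (starRingEnd ℂ) z = ω * ((starRingEnd ℂ) f / (‖f‖ : ℂ)) := by
    rw [hz, map_mul, map_div₀, Complex.conj_conj, Complex.conj_ofReal]
  have hzz : z * (starRingEnd ℂ) z = 1 := by
    rw [hcz, hz]
    have : (starRingEnd ℂ) ω * (f / (‖f‖ : ℂ)) * (ω * ((starRingEnd ℂ) f / (‖f‖ : ℂ))) =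
        (ω * (starRingEnd ℂ) ω) * (f * (starRingEnd ℂ) f) / (‖f‖ : ℂ) ^ 2 := by
      field_simp
    rw [this, hωω, hff, one_mul, div_self (pow_ne_zero 2 hn)]
  have hz2 : z ^ 2 = ((starRingEnd ℂ) ω) ^ 2 * (starRingEnd ℂ) V := by
    have e1 : f ^ 2 = (starRingEnd ℂ) V * (‖f‖ : ℂ) ^ 2 := by
      rw [← hff, hfV]
      calc f ^ 2 = (V * (starRingEnd ℂ) V) * f ^ 2 := by rw [hVV, one_mul]
        _ = (starRingEnd ℂ) V * (f * (V * f)) := by ring
    rw [hz, mul_pow, div_pow, e1, mul_div_assoc, div_self (pow_ne_zero 2 hn), mul_one]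
  have hcz2 : ((starRingEnd ℂ) z) ^ 2 = ω ^ 2 * V := by
    rw [← map_pow, hz2, map_mul, map_pow, Complex.conj_conj, Complex.conj_conj]
  have hz1 : z * (‖f‖ : ℂ) = (starRingEnd ℂ) ω * f := by
    rw [hz, mul_assoc, div_mul_cancel₀ _ hn]
  have hcz1 : (starRingEnd ℂ) z * (‖f‖ : ℂ) = ω * (starRingEnd ℂ) f := by
    rw [hcz, mul_assoc, div_mul_cancel₀ _ hn]
  unfold Tf
  by_cases hp : (i + l) % 2 = 0
  · rw [if_pos hp, if_pos hp]
    by_cases hl : l ≤ i
    · rw [if_pos hl]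
      obtain ⟨a, ha⟩ : ∃ a, i = l + 2 * a := ⟨(i - l) / 2, by omega⟩
      have e1 : i - l = 2 * a := by omega
      have e2 : (i - l) / 2 = a := by omega
      rw [e2, e1, ha]
      have : z ^ (l + 2 * a) * ((starRingEnd ℂ) z) ^ l = (z * (starRingEnd ℂ) z) ^ l * (z ^ 2) ^ a := by
        rw [pow_add, pow_mul, mul_pow]; ring
      rw [this, hzz, one_pow, one_mul, hz2, mul_pow, ← pow_mul]
    · rw [if_neg hl]
      obtain ⟨a, ha⟩ : ∃ a, l = i + 2 * a := ⟨(l - i) / 2, by omega⟩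
      have e1 : l - i = 2 * a := by omega
      have e2 : (l - i) / 2 = a := by omega
      rw [e2, e1, ha]
      have : z ^ i * ((starRingEnd ℂ) z) ^ (i + 2 * a) = (z * (starRingEnd ℂ) z) ^ i * (((starRingEnd ℂ) z) ^ 2) ^ a := by
        rw [pow_add, pow_mul, mul_pow]; ring
      rw [this, hzz, one_pow, one_mul, hcz2, mul_pow, ← pow_mul]
  · rw [if_neg hp, if_neg hp]
    by_cases hl : l ≤ i
    · rw [if_pos hl]
      obtain ⟨a, ha⟩ : ∃ a, i = l + (2 * a + 1) := ⟨(i - l) / 2, by omega⟩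
      have e1 : i - l = 2 * a + 1 := by omega
      have e2 : (i - l) / 2 = a := by omega
      rw [e2, e1, ha]
      have : z ^ (l + (2 * a + 1)) * ((starRingEnd ℂ) z) ^ l * ((‖f‖ : ℂ) * qq) =
          (z * (starRingEnd ℂ) z) ^ l * (z ^ 2) ^ a * (z * (‖f‖ : ℂ)) * qq := by
        rw [pow_add, pow_succ, pow_mul, mul_pow]; ring
      rw [this, hzz, one_pow, one_mul, hz2, mul_pow, ← pow_mul, hz1]
      ring
    · rw [if_neg hl]
      obtain ⟨a, ha⟩ : ∃ a, l = i + (2 * a + 1) := ⟨(l - i) / 2, by omega⟩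
      have e1 : l - i = 2 * a + 1 := by omega
      have e2 : (l - i) / 2 = a := by omega
      rw [e2, e1, ha]
      have : z ^ i * ((starRingEnd ℂ) z) ^ (i + (2 * a + 1)) * ((‖f‖ : ℂ) * qq) =
          (z * (starRingEnd ℂ) z) ^ i * (((starRingEnd ℂ) z) ^ 2) ^ a * ((starRingEnd ℂ) z * (‖f‖ : ℂ)) * qq := by
        rw [pow_add, pow_succ, pow_mul, mul_pow]; ring
      rw [this, hzz, one_pow, one_mul, hcz2, mul_pow, ← pow_mul, hcz1]
      ring

/-- The pointwise inequality. -/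
theorem pt {ω f V A B Q : ℂ} (hω : ‖ω‖ = 1) (hV : ‖V‖ = 1) (hfV : (starRingEnd ℂ) f = V * f)
    (hAB : ‖A‖ * ‖B‖ = ‖Q‖ ^ 2) (n : ℕ) {δ : ℝ} (hδ0 : 0 < δ) (hδ1 : δ ≤ 1) :
    (∑ i ∈ Finset.range (n + 1), ∑ l ∈ Finset.range (n + 1),
      ((n.choose i : ℂ) * (n.choose l : ℂ)) * Tf ω f V (A * (starRingEnd ℂ) B) (Q * (starRingEnd ℂ) Q) i l).re ≤
    4 ^ n * (if (1 - δ) * ‖f‖ < ((starRingEnd ℂ) ω * f).re then ‖f‖ * (‖A‖ * ‖B‖) else 0) +
      2 ^ n * (2 - δ) ^ n * (‖f‖ * (‖A‖ * ‖B‖)) := by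
  by_cases hf : f = 0
  · subst hf
    have : ∀ i l, Tf ω 0 V (A * (starRingEnd ℂ) B) (Q * (starRingEnd ℂ) Q) i l = 0 := by
      intro i l
      unfold Tf
      split_ifs <;> simp
    simp [this]
  have hn : (‖f‖ : ℂ) ≠ 0 := by simpa using hf
  have hn' : 0 < ‖f‖ := norm_pos_iff.mpr hf
  set z : ℂ := (starRingEnd ℂ) ω * (f / (‖f‖ : ℂ)) with hz
  have hznorm : ‖z‖ = 1 := by
    rw [hz, norm_mul, norm_div, RCLike.norm_conj, hω, Complex.norm_real, norm_norm,
      div_self hn'.ne', one_mul]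
  set x : ℝ := z.re with hx
  have hx1 : x ≤ 1 := (Complex.re_le_norm z).trans hznorm.le
  have hx2 : -1 ≤ x := by
    have := Complex.abs_re_le_norm z
    rw [hznorm] at this
    exact (abs_le.mp this).1
  have hzz : z * (starRingEnd ℂ) z = 1 := by
    rw [Complex.mul_conj, Complex.normSq_eq_norm_sq, hznorm]; norm_num
  have hadd : z + (starRingEnd ℂ) z = ((2 * x : ℝ) : ℂ) := by
    rw [Complex.add_conj]
  have hG : Q * (starRingEnd ℂ) Q = ((‖A‖ * ‖B‖ : ℝ) : ℂ) := by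
    rw [Complex.mul_conj, Complex.normSq_eq_norm_sq, hAB]
  have hsum := sum_pt n z (f * (A * (starRingEnd ℂ) B)) ((‖f‖ : ℂ) * (Q * (starRingEnd ℂ) Q))
  have hrew : ∑ i ∈ Finset.range (n + 1), ∑ l ∈ Finset.range (n + 1),
      ((n.choose i : ℂ) * (n.choose l : ℂ)) * Tf ω f V (A * (starRingEnd ℂ) B) (Q * (starRingEnd ℂ) Q) i l =
      ∑ i ∈ Finset.range (n + 1), ∑ l ∈ Finset.range (n + 1),
      ((n.choose i : ℂ) * (n.choose l : ℂ)) *
        (z ^ i * ((starRingEnd ℂ) z) ^ l * (if (i + l) % 2 = 0 then f * (A * (starRingEnd ℂ) B) else (‖f‖ : ℂ) * (Q * (starRingEnd ℂ) Q))) := by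
    refine Finset.sum_congr rfl fun i _ => Finset.sum_congr rfl fun l _ => ?_
    rw [Tf_eq hω hV hf hfV]
  rw [hrew, hsum]
  have hp1 : (1 + z) ^ n * (1 + (starRingEnd ℂ) z) ^ n = (((2 * (1 + x)) ^ n : ℝ) : ℂ) := by
    rw [← mul_pow]
    have : (1 + z) * (1 + (starRingEnd ℂ) z) = 1 + (z + (starRingEnd ℂ) z) + z * (starRingEnd ℂ) z := by ring
    rw [this, hadd, hzz]
    push_cast
    ring
  have hp2 : (1 - z) ^ n * (1 - (starRingEnd ℂ) z) ^ n = (((2 * (1 - x)) ^ n : ℝ) : ℂ) := by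
    rw [← mul_pow]
    have : (1 - z) * (1 - (starRingEnd ℂ) z) = 1 - (z + (starRingEnd ℂ) z) + z * (starRingEnd ℂ) z := by ring
    rw [this, hadd, hzz]
    push_cast
    ring
  rw [hp1, hp2, hG]
  set P1 : ℝ := (2 * (1 + x)) ^ n with hP1
  set P2 : ℝ := (2 * (1 - x)) ^ n with hP2
  have hP1n : 0 ≤ P1 := by rw [hP1]; exact pow_nonneg (by linarith) n
  have hP2n : 0 ≤ P2 := by rw [hP2]; exact pow_nonneg (by linarith) n
  have e1 : (((P1 : ℂ) + (P2 : ℂ)) / 2 * (f * (A * (starRingEnd ℂ) B)) +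
      ((P1 : ℂ) - (P2 : ℂ)) / 2 * ((‖f‖ : ℂ) * ((‖A‖ * ‖B‖ : ℝ) : ℂ))).re =
      (P1 + P2) / 2 * (f * (A * (starRingEnd ℂ) B)).re + (P1 - P2) / 2 * (‖f‖ * (‖A‖ * ‖B‖)) := by
    have a1 : ((P1 : ℂ) + (P2 : ℂ)) / 2 = (((P1 + P2) / 2 : ℝ) : ℂ) := by push_cast; ring
    have a2 : ((P1 : ℂ) - (P2 : ℂ)) / 2 = (((P1 - P2) / 2 : ℝ) : ℂ) := by push_cast; ring
    have a3 : (‖f‖ : ℂ) * ((‖A‖ * ‖B‖ : ℝ) : ℂ) = ((‖f‖ * (‖A‖ * ‖B‖) : ℝ) : ℂ) := by
      push_cast; ring
    rw [a1, a2, a3, Complex.add_re, Complex.re_ofReal_mul, Complex.re_ofReal_mul, Complex.ofReal_re]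
  rw [e1]
  have h3 : (f * (A * (starRingEnd ℂ) B)).re ≤ ‖f‖ * (‖A‖ * ‖B‖) := by
    refine (Complex.re_le_norm _).trans (le_of_eq ?_)
    rw [norm_mul, norm_mul, RCLike.norm_conj]
  have h4 : (P1 + P2) / 2 * (f * (A * (starRingEnd ℂ) B)).re + (P1 - P2) / 2 * (‖f‖ * (‖A‖ * ‖B‖)) ≤
      P1 * (‖f‖ * (‖A‖ * ‖B‖)) := by
    have := mul_le_mul_of_nonneg_left h3 (by linarith : 0 ≤ (P1 + P2) / 2)
    nlinarith
  refine h4.trans ?_
  have hFn : 0 ≤ ‖f‖ * (‖A‖ * ‖B‖) := by positivity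
  have hxre : ((starRingEnd ℂ) ω * f).re = ‖f‖ * x := by
    have : (starRingEnd ℂ) ω * f = (‖f‖ : ℂ) * z := by
      rw [hz]; field_simp
    rw [this, Complex.re_ofReal_mul]
  by_cases harc : (1 - δ) * ‖f‖ < ((starRingEnd ℂ) ω * f).re
  · rw [if_pos harc]
    have : P1 ≤ 4 ^ n := by
      rw [hP1]
      exact pow_le_pow_left₀ (by linarith) (by linarith) n
    have h5 : P1 * (‖f‖ * (‖A‖ * ‖B‖)) ≤ 4 ^ n * (‖f‖ * (‖A‖ * ‖B‖)) :=
      mul_le_mul_of_nonneg_right this hFn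
    have h6 : 0 ≤ 2 ^ n * (2 - δ) ^ n * (‖f‖ * (‖A‖ * ‖B‖)) := by
      have : 0 ≤ (2 - δ) ^ n := pow_nonneg (by linarith) n
      positivity
    linarith
  · rw [if_neg harc, mul_zero, zero_add]
    rw [hxre, not_lt] at harc
    have hx3 : x ≤ 1 - δ := by
      by_contra hcon
      rw [not_le] at hcon
      have := mul_lt_mul_of_pos_left hcon hn'
      linarith
    have : P1 ≤ 2 ^ n * (2 - δ) ^ n := by
      rw [hP1, ← mul_pow]
      exact pow_le_pow_left₀ (by linarith) (by linarith) n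
    exact mul_le_mul_of_nonneg_right this hFn

/-- The choice of `n`. -/
theorem choice {δ c₀ C₀ : ℝ} (hδ0 : 0 < δ) (hδ1 : δ ≤ 1) (hc : 0 < c₀) (hC : 0 < C₀) :
    ∃ n : ℕ, (1 - δ / 2) ^ n * C₀ ≤ c₀ / (4 * (2 * n + 1)) := by
  have hr0 : 0 ≤ 1 - δ / 2 := by linarith
  have hr1 : 1 - δ / 2 < 1 := by linarith
  have h1 : Tendsto (fun n : ℕ => (n : ℝ) * (1 - δ / 2) ^ n) atTop (𝓝 0) :=
    tendsto_self_mul_const_pow_of_lt_one hr0 hr1
  have h2 : Tendsto (fun n : ℕ => (1 - δ / 2) ^ n) atTop (𝓝 0) :=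
    tendsto_pow_atTop_nhds_zero_of_lt_one hr0 hr1
  have h3 : Tendsto (fun n : ℕ => (8 * C₀) * ((n : ℝ) * (1 - δ / 2) ^ n) + 4 * C₀ * (1 - δ / 2) ^ n)
      atTop (𝓝 0) := by
    have := (h1.const_mul (8 * C₀)).add (h2.const_mul (4 * C₀))
    simpa using this
  obtain ⟨n, hn⟩ := (h3.eventually (gt_mem_nhds hc)).exists
  refine ⟨n, ?_⟩
  rw [le_div_iff₀ (by positivity)]
  nlinarith

theorem cont_Tf {f V ab qq : ℝ → ℂ} (ω : ℂ) (hf : Continuous f) (hV : Continuous V)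
    (hab : Continuous ab) (hqq : Continuous qq) (i l : ℕ) :
    Continuous fun u => Tf ω (f u) (V u) (ab u) (qq u) i l := by
  have hcf : Continuous fun u => (starRingEnd ℂ) (f u) := Complex.continuous_conj.comp hf
  have hcV : Continuous fun u => (starRingEnd ℂ) (V u) := Complex.continuous_conj.comp hV
  unfold Tf
  split_ifs
  · exact (continuous_const.mul (hcV.pow _)).mul (hf.mul hab)
  · exact (continuous_const.mul (hV.pow _)).mul (hf.mul hab)
  · exact (continuous_const.mul (hcV.pow _)).mul (hf.mul hqq)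
  · exact (continuous_const.mul (hV.pow _)).mul (hcf.mul hqq)

/-- norm of an integral and of the integral of the conjugate. -/
theorem norm_conj_int (w : ℝ → ℝ) (g : ℝ → ℂ) :
    ‖∫ u : ℝ, (w u : ℂ) * (starRingEnd ℂ) (g u)‖ = ‖∫ u : ℝ, (w u : ℂ) * g u‖ := by
  have : ∀ u : ℝ, (w u : ℂ) * (starRingEnd ℂ) (g u) = (starRingEnd ℂ) ((w u : ℂ) * g u) := by
    intro u
    rw [map_mul, Complex.conj_ofReal]
  simp_rw [this]
  rw [integral_conj, RCLike.norm_conj]

theorem norm_const_int (w : ℝ → ℝ) (g : ℝ → ℂ) {c : ℂ} (hc : ‖c‖ = 1) :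
    ‖∫ u : ℝ, (w u : ℂ) * (c * g u)‖ = ‖∫ u : ℝ, (w u : ℂ) * g u‖ := by
  have : ∀ u : ℝ, (w u : ℂ) * (c * g u) = c * ((w u : ℂ) * g u) := by
    intro u; ring
  simp_rw [this]
  rw [integral_const_mul, norm_mul, hc, one_mul]

/-- All off-diagonal harmonics are small. -/
theorem small {w : ℝ → ℝ} {n : ℕ} {c₀ C₀ ε X : ℝ} {f V A B Q : ℝ → ℂ}
    (hV : ∀ u, ‖V u‖ = 1) (hfV : ∀ u, (starRingEnd ℂ) (f u) = V u * f u)
    (H : Hy w n c₀ C₀ ε X f V A B Q) {ω : ℂ} (hω : ‖ω‖ = 1) {i l : ℕ} (hi : i ≤ n) (hl : l ≤ n)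
    (hil : i ≠ l) :
    ‖∫ u : ℝ, (w u : ℂ) * Tf ω (f u) (V u) (A u * (starRingEnd ℂ) (B u)) (Q u * (starRingEnd ℂ) (Q u)) i l‖ ≤ ε * X := by
  have hcω : ‖(starRingEnd ℂ) ω‖ = 1 := by rw [RCLike.norm_conj, hω]
  simp only [Tf]
  by_cases hp : (i + l) % 2 = 0
  · simp only [if_pos hp]
    by_cases hli : l ≤ i
    · simp only [if_pos hli]
      obtain ⟨a, ha⟩ : ∃ a, i - l = 2 * (a + 1) := ⟨(i - l) / 2 - 1, by omega⟩
      have e2 : (i - l) / 2 = a + 1 := by omega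
      simp only [e2]
      have key : ∀ u, (w u : ℂ) * (((starRingEnd ℂ) ω) ^ (i - l) * ((starRingEnd ℂ) (V u)) ^ (a + 1) *
          (f u * (A u * (starRingEnd ℂ) (B u)))) = (w u : ℂ) * (((starRingEnd ℂ) ω) ^ (i - l) *
            (starRingEnd ℂ) (V u ^ (a + 1) * ((starRingEnd ℂ) (f u) * (B u * (starRingEnd ℂ) (A u))))) := by
        intro u
        simp only [map_mul, map_pow, Complex.conj_conj]
        ring
      simp_rw [key]
      rw [norm_const_int _ _ (by rw [norm_pow, hcω, one_pow]), norm_conj_int]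
      exact H.ev' (a + 1) (by omega) (by omega)
    · simp only [if_neg hli]
      obtain ⟨a, ha⟩ : ∃ a, l - i = 2 * (a + 1) := ⟨(l - i) / 2 - 1, by omega⟩
      have e2 : (l - i) / 2 = a + 1 := by omega
      simp only [e2]
      have key : ∀ u, (w u : ℂ) * (ω ^ (l - i) * (V u) ^ (a + 1) *
          (f u * (A u * (starRingEnd ℂ) (B u)))) = (w u : ℂ) * (ω ^ (l - i) *
            (V u ^ a * ((starRingEnd ℂ) (f u) * (A u * (starRingEnd ℂ) (B u))))) := by
        intro u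
        rw [hfV u, pow_succ]
        ring
      simp_rw [key]
      rw [norm_const_int _ _ (by rw [norm_pow, hω, one_pow])]
      rcases Nat.eq_zero_or_pos a with ha0 | ha0
      · subst ha0
        have key2 : ∀ u, (w u : ℂ) * (V u ^ 0 * ((starRingEnd ℂ) (f u) * (A u * (starRingEnd ℂ) (B u)))) =
            (w u : ℂ) * (starRingEnd ℂ) (f u * (B u * (starRingEnd ℂ) (A u))) := by
          intro u
          simp only [map_mul, Complex.conj_conj, pow_zero]
          ring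
        simp_rw [key2]
        rw [norm_conj_int]
        exact H.ev1
      · exact H.ev a (by omega) (by omega)
  · simp only [if_neg hp]
    by_cases hli : l ≤ i
    · simp only [if_pos hli]
      obtain ⟨a, ha⟩ : ∃ a, i - l = 2 * a + 1 := ⟨(i - l) / 2, by omega⟩
      have e2 : (i - l) / 2 = a := by omega
      simp only [e2]
      have key : ∀ u, (w u : ℂ) * (((starRingEnd ℂ) ω) ^ (i - l) * ((starRingEnd ℂ) (V u)) ^ a *
          (f u * (Q u * (starRingEnd ℂ) (Q u)))) = (w u : ℂ) * (((starRingEnd ℂ) ω) ^ (i - l) *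
            (starRingEnd ℂ) (V u ^ a * ((starRingEnd ℂ) (f u) * (Q u * (starRingEnd ℂ) (Q u))))) := by
        intro u
        simp only [map_mul, map_pow, Complex.conj_conj]
        ring
      simp_rw [key]
      rw [norm_const_int _ _ (by rw [norm_pow, hcω, one_pow]), norm_conj_int]
      rcases Nat.eq_zero_or_pos a with ha0 | ha0
      · subst ha0
        have key2 : ∀ u, (w u : ℂ) * (V u ^ 0 * ((starRingEnd ℂ) (f u) * (Q u * (starRingEnd ℂ) (Q u)))) =
            (w u : ℂ) * (starRingEnd ℂ) (f u * (Q u * (starRingEnd ℂ) (Q u))) := by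
          intro u
          simp only [map_mul, Complex.conj_conj, pow_zero]
          ring
        simp_rw [key2]
        rw [norm_conj_int]
        exact H.od0
      · exact H.od a (by omega) (by omega)
    · simp only [if_neg hli]
      obtain ⟨a, ha⟩ : ∃ a, l - i = 2 * a + 1 := ⟨(l - i) / 2, by omega⟩
      have e2 : (l - i) / 2 = a := by omega
      simp only [e2]
      have key : ∀ u, (w u : ℂ) * (ω ^ (l - i) * (V u) ^ a *
          ((starRingEnd ℂ) (f u) * (Q u * (starRingEnd ℂ) (Q u)))) = (w u : ℂ) * (ω ^ (l - i) *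
            (V u ^ a * ((starRingEnd ℂ) (f u) * (Q u * (starRingEnd ℂ) (Q u))))) := by
        intro u
        ring
      simp_rw [key]
      rw [norm_const_int _ _ (by rw [norm_pow, hω, one_pow])]
      rcases Nat.eq_zero_or_pos a with ha0 | ha0
      · subst ha0
        have key2 : ∀ u, (w u : ℂ) * (V u ^ 0 * ((starRingEnd ℂ) (f u) * (Q u * (starRingEnd ℂ) (Q u)))) =
            (w u : ℂ) * (starRingEnd ℂ) (f u * (Q u * (starRingEnd ℂ) (Q u))) := by
          intro u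
          simp only [map_mul, Complex.conj_conj, pow_zero]
          ring
        simp_rw [key2]
        rw [norm_conj_int]
        exact H.od0
      · exact H.od a (by omega) (by omega)

theorem diag {ω f V ab qq : ℂ} (i : ℕ) : Tf ω f V ab qq i i = f * ab := by
  unfold Tf
  rw [if_pos (by omega), if_pos le_rfl]
  simp

theorem choose_sum (n : ℕ) :
    ∑ i ∈ Finset.range (n + 1), ∑ l ∈ Finset.range (n + 1),
      ((n.choose i : ℝ) * (n.choose l : ℝ)) = 4 ^ n := by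
  rw [← Finset.sum_mul_sum]
  have : ∑ i ∈ Finset.range (n + 1), (n.choose i : ℝ) = 2 ^ n := by
    exact_mod_cast Nat.sum_range_choose n
  rw [this, ← mul_pow]
  norm_num

theorem choose_sq (n : ℕ) :
    (4 : ℝ) ^ n / (2 * n + 1) ≤ ∑ i ∈ Finset.range (n + 1), ((n.choose i : ℝ) * (n.choose i : ℝ)) := by
  have h1 := sq_sum_le_card_mul_sum_sq (s := Finset.range (n + 1)) (f := fun i => (n.choose i : ℝ))
  have h2 : ∑ i ∈ Finset.range (n + 1), (n.choose i : ℝ) = 2 ^ n := by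
    exact_mod_cast Nat.sum_range_choose n
  rw [h2, Finset.card_range] at h1
  have h3 : ∑ i ∈ Finset.range (n + 1), ((n.choose i : ℝ)) ^ 2 =
      ∑ i ∈ Finset.range (n + 1), ((n.choose i : ℝ) * (n.choose i : ℝ)) :=
    Finset.sum_congr rfl fun i _ => sq _
  rw [h3] at h1
  have h4 : ((2 : ℝ) ^ n) ^ 2 = 4 ^ n := by
    rw [← pow_mul, mul_comm, pow_mul]; norm_num
  rw [h4] at h1
  have h5 : 0 ≤ ∑ i ∈ Finset.range (n + 1), ((n.choose i : ℝ) * (n.choose i : ℝ)) :=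
    Finset.sum_nonneg fun i _ => by positivity
  rw [div_le_iff₀ (by positivity)]
  push_cast at h1
  have hn : (0 : ℝ) ≤ n := Nat.cast_nonneg n
  nlinarith

end I_Trig

open I_Trig in
theorem Trig_pf : S_Trig := by
  intro δ c₀ C₀ hδ hc hC
  set δ' : ℝ := min δ 1 with hδ'
  have hd0 : 0 < δ' := lt_min hδ one_pos
  have hd1 : δ' ≤ 1 := min_le_right _ _
  obtain ⟨n, hn⟩ := choice hd0 hd1 hc hC
  refine ⟨n, c₀ / (8 * (2 * n + 1)), c₀ / (2 * (2 * n + 1)), by positivity, by positivity, ?_⟩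
  intro w hwc hws hw0 X f V A B Q hX hf hV hA hB hQ hV1 hfV hAB H ω hω
  set ε : ℝ := c₀ / (8 * (2 * n + 1)) with hε
  have hcB : Continuous fun u => (starRingEnd ℂ) (B u) := Complex.continuous_conj.comp hB
  have hcQ : Continuous fun u => (starRingEnd ℂ) (Q u) := Complex.continuous_conj.comp hQ
  have hab : Continuous fun u => A u * (starRingEnd ℂ) (B u) := hA.mul hcB
  have hqq : Continuous fun u => Q u * (starRingEnd ℂ) (Q u) := hQ.mul hcQ
  have hwC : Continuous fun u => (w u : ℂ) := Complex.continuous_ofReal.comp hwc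
  have hwCs : HasCompactSupport fun u => (w u : ℂ) := hws.comp_left Complex.ofReal_zero
  -- integrability
  have hIT : ∀ i l, Integrable fun u => (w u : ℂ) *
      Tf ω (f u) (V u) (A u * (starRingEnd ℂ) (B u)) (Q u * (starRingEnd ℂ) (Q u)) i l := by
    intro i l
    exact (hwC.mul (cont_Tf ω hf hV hab hqq i l)).integrable_of_hasCompactSupport hwCs.mul_right
  set F : ℝ → ℝ := fun u => ‖f u‖ * (‖A u‖ * ‖B u‖) with hF
  have hFc : Continuous F := hf.norm.mul (hA.norm.mul hB.norm)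
  have hF0 : ∀ u, 0 ≤ F u := fun u => by rw [hF]; positivity
  have hIF : Integrable fun u => w u * F u :=
    (hwc.mul hFc).integrable_of_hasCompactSupport hws.mul_right
  have hwF0 : ∀ u, 0 ≤ w u * F u := fun u => mul_nonneg (hw0 u) (hF0 u)
  -- the arcs
  have hmeas : MeasurableSet (arc δ' ω f) := by
    unfold arc
    exact (isOpen_lt (continuous_const.mul hf.norm)
      (Complex.continuous_re.comp (continuous_const.mul hf))).measurableSet
  have hsub : arc δ' ω f ⊆ arc δ ω f := by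
    intro u hu
    have hu' : (1 - δ') * ‖f u‖ < ((starRingEnd ℂ) ω * f u).re := hu
    show (1 - δ) * ‖f u‖ < ((starRingEnd ℂ) ω * f u).re
    have : (1 - δ) * ‖f u‖ ≤ (1 - δ') * ‖f u‖ :=
      mul_le_mul_of_nonneg_right (by linarith [min_le_left δ 1]) (norm_nonneg _)
    linarith
  have hmono : ∫ u in arc δ' ω f, w u * F u ≤ ∫ u in arc δ ω f, w u * F u :=
    setIntegral_mono_set hIF.integrableOn (Eventually.of_forall hwF0) hsub.eventuallyLE
  refine le_trans ?_ hmono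
  -- the double sum
  set S : ℝ → ℂ := fun u => ∑ i ∈ Finset.range (n + 1), ∑ l ∈ Finset.range (n + 1),
    ((n.choose i : ℂ) * (n.choose l : ℂ)) * ((w u : ℂ) *
      Tf ω (f u) (V u) (A u * (starRingEnd ℂ) (B u)) (Q u * (starRingEnd ℂ) (Q u)) i l) with hS
  have hIS : Integrable S := by
    refine integrable_finsetSum _ fun i _ => integrable_finsetSum _ fun l _ => ?_
    exact (hIT i l).const_mul _
  have hSint : ∫ u, S u = ∑ i ∈ Finset.range (n + 1), ∑ l ∈ Finset.range (n + 1),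
      ((n.choose i : ℂ) * (n.choose l : ℂ)) * ∫ u, (w u : ℂ) *
        Tf ω (f u) (V u) (A u * (starRingEnd ℂ) (B u)) (Q u * (starRingEnd ℂ) (Q u)) i l := by
    rw [hS, integral_finsetSum _ fun i _ => integrable_finsetSum _ fun l _ => (hIT i l).const_mul _]
    refine Finset.sum_congr rfl fun i _ => ?_
    rw [integral_finsetSum _ fun l _ => (hIT i l).const_mul _]
    refine Finset.sum_congr rfl fun l _ => ?_
    rw [integral_const_mul]
  -- upper bound of the real part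
  have hup : (∫ u, S u).re ≤ 4 ^ n * (∫ u in arc δ' ω f, w u * F u) +
      2 ^ n * (2 - δ') ^ n * (∫ u, w u * F u) := by
    have h1 : (∫ u, S u).re = ∫ u, (S u).re := by
      have := integral_re hIS
      simpa using this.symm
    rw [h1, ← integral_indicator hmeas, ← integral_const_mul, ← integral_const_mul,
      ← integral_add ((hIF.indicator hmeas).const_mul _) (hIF.const_mul _)]
    refine integral_mono hIS.re (((hIF.indicator hmeas).const_mul _).add (hIF.const_mul _)) ?_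
    intro u
    have hpt := pt (A := A u) (B := B u) (Q := Q u) hω (hV1 u) (hfV u) (hAB u) n hd0 hd1
    have hSu : S u = (w u : ℂ) * ∑ i ∈ Finset.range (n + 1), ∑ l ∈ Finset.range (n + 1),
        ((n.choose i : ℂ) * (n.choose l : ℂ)) *
          Tf ω (f u) (V u) (A u * (starRingEnd ℂ) (B u)) (Q u * (starRingEnd ℂ) (Q u)) i l := by
      rw [hS, Finset.mul_sum]
      refine Finset.sum_congr rfl fun i _ => ?_
      rw [Finset.mul_sum]
      refine Finset.sum_congr rfl fun l _ => ?_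
      ring
    have h2 : RCLike.re (S u) = w u * (∑ i ∈ Finset.range (n + 1), ∑ l ∈ Finset.range (n + 1),
        ((n.choose i : ℂ) * (n.choose l : ℂ)) *
          Tf ω (f u) (V u) (A u * (starRingEnd ℂ) (B u)) (Q u * (starRingEnd ℂ) (Q u)) i l).re := by
      rw [hSu]
      exact Complex.re_ofReal_mul _ _
    show RCLike.re (S u) ≤ _
    rw [h2]
    refine (mul_le_mul_of_nonneg_left hpt (hw0 u)).trans (le_of_eq ?_)
    simp only [Set.indicator, arc, Set.mem_setOf_eq, hF]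
    split_ifs <;> ring
  -- lower bound of the real part
  have hlow : (4 : ℝ) ^ n / (2 * n + 1) * (c₀ * X) - 4 ^ n * (ε * X) ≤ (∫ u, S u).re := by
    rw [hSint, Complex.re_sum]
    simp_rw [Complex.re_sum]
    have hterm : ∀ i ∈ Finset.range (n + 1), ∀ l ∈ Finset.range (n + 1),
        ((n.choose i : ℝ) * (n.choose l : ℝ)) * (if i = l then c₀ * X else 0) -
          ((n.choose i : ℝ) * (n.choose l : ℝ)) * (ε * X) ≤
        (((n.choose i : ℂ) * (n.choose l : ℂ)) * ∫ u, (w u : ℂ) *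
          Tf ω (f u) (V u) (A u * (starRingEnd ℂ) (B u)) (Q u * (starRingEnd ℂ) (Q u)) i l).re := by
      intro i hi l hl
      have hi' : i ≤ n := by simpa [Nat.lt_succ_iff] using hi
      have hl' : l ≤ n := by simpa [Nat.lt_succ_iff] using hl
      have e : ((n.choose i : ℂ) * (n.choose l : ℂ)) = (((n.choose i : ℝ) * (n.choose l : ℝ) : ℝ) : ℂ) := by
        push_cast; ring
      rw [e, Complex.re_ofReal_mul, ← mul_sub]
      refine mul_le_mul_of_nonneg_left ?_ (by positivity)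
      by_cases hil : i = l
      · subst hil
        rw [if_pos rfl]
        have hεX : 0 ≤ ε * X := mul_nonneg (by rw [hε]; positivity) hX
        have := H.main
        simp_rw [diag]
        linarith
      · rw [if_neg hil]
        have := small hV1 hfV H hω hi' hl' hil
        have h2 := Complex.abs_re_le_norm (∫ u, (w u : ℂ) *
          Tf ω (f u) (V u) (A u * (starRingEnd ℂ) (B u)) (Q u * (starRingEnd ℂ) (Q u)) i l)
        have h3 := (abs_le.mp (h2.trans this)).1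
        linarith
    refine le_trans ?_ (Finset.sum_le_sum fun i hi => Finset.sum_le_sum fun l hl => hterm i hi l hl)
    simp_rw [Finset.sum_sub_distrib, ← Finset.sum_mul]
    have h5 : ∑ i ∈ Finset.range (n + 1), ∑ l ∈ Finset.range (n + 1),
        ((n.choose i : ℝ) * (n.choose l : ℝ)) * (if i = l then c₀ * X else 0) =
        (∑ i ∈ Finset.range (n + 1), ((n.choose i : ℝ) * (n.choose i : ℝ))) * (c₀ * X) := by
      rw [Finset.sum_mul]
      refine Finset.sum_congr rfl fun i hi => ?_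
      simp only [mul_ite, mul_zero]
      rw [Finset.sum_ite_eq, if_pos hi]
    rw [h5]
    simp_rw [Finset.sum_mul]
    have h6 : ∑ i ∈ Finset.range (n + 1), ∑ l ∈ Finset.range (n + 1),
        ((n.choose i : ℝ) * (n.choose l : ℝ)) * (ε * X) = 4 ^ n * (ε * X) := by
      rw [← choose_sum n, Finset.sum_mul]
      refine Finset.sum_congr rfl fun i _ => ?_
      rw [Finset.sum_mul]
    rw [h6, ← Finset.sum_mul]
    have h7 := mul_le_mul_of_nonneg_right (choose_sq n) (mul_nonneg hc.le hX)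
    linarith
  have htot : ∫ u, w u * F u ≤ C₀ * X := H.tot
  -- conclusion
  have h4n : (0 : ℝ) < 4 ^ n := by positivity
  have hr : (2 : ℝ) ^ n * (2 - δ') ^ n = 4 ^ n * (1 - δ' / 2) ^ n := by
    rw [← mul_pow, ← mul_pow]
    congr 1
    ring
  have hrn : 0 ≤ (1 - δ' / 2) ^ n := pow_nonneg (by linarith) n
  have h8 : (1 - δ' / 2) ^ n * (∫ u, w u * F u) ≤ c₀ / (4 * (2 * n + 1)) * X := by
    calc (1 - δ' / 2) ^ n * (∫ u, w u * F u) ≤ (1 - δ' / 2) ^ n * (C₀ * X) :=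
          mul_le_mul_of_nonneg_left htot hrn
      _ = (1 - δ' / 2) ^ n * C₀ * X := by ring
      _ ≤ c₀ / (4 * (2 * n + 1)) * X := mul_le_mul_of_nonneg_right hn hX
  have h9 : (4 : ℝ) ^ n * (c₀ / (2 * n + 1) * X - ε * X) ≤
      4 ^ n * ((∫ u in arc δ' ω f, w u * F u) + (1 - δ' / 2) ^ n * (∫ u, w u * F u)) := by
    have := hlow.trans hup
    rw [hr] at this
    calc (4 : ℝ) ^ n * (c₀ / (2 * n + 1) * X - ε * X) =
        (4 : ℝ) ^ n / (2 * n + 1) * (c₀ * X) - 4 ^ n * (ε * X) := by ring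
      _ ≤ _ := this
      _ = _ := by ring
  have h10 := le_of_mul_le_mul_left h9 h4n
  have h11 : c₀ / (2 * (2 * (n : ℝ) + 1)) * X + c₀ / (4 * (2 * n + 1)) * X + ε * X ≤
      c₀ / (2 * n + 1) * X := by
    have hpos : (0 : ℝ) < 2 * n + 1 := by positivity
    have e : c₀ / (2 * n + 1) * X - (c₀ / (2 * (2 * (n : ℝ) + 1)) * X +
        c₀ / (4 * (2 * n + 1)) * X + c₀ / (8 * (2 * n + 1)) * X) = c₀ / (8 * (2 * n + 1)) * X := by
      field_simp
      ring
    have e2 : 0 ≤ c₀ / (8 * (2 * (n : ℝ) + 1)) * X := mul_nonneg (by positivity) hX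
    rw [hε]
    linarith
  show c₀ / (2 * (2 * (n : ℝ) + 1)) * X ≤ ∫ u in arc δ' ω f, w u * F u
  linarith

end Pool.Agent.Work.MP_56b8f5_nt.WA
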