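import Pool.Agent.Work.MP_56b8f5_nt.WA.Defs

/-!
MP_56b8f5_nt, block WA (window theorem in sectors), captain helper98: statements of the items, with proofs.

Goal (`S_MainA`): for every `k ≥ 2` and `δ > 0` there are `c, C > 0` such that for all large `T` and all `|ω| = 1` the
values `zeta(1/2+it)`, `T ≤ t ≤ 2T`, in the sector `Re (conj ω z) > (1-δ)|z|` and with
`|log |zeta| - k log log T| ≤ C √(log log T)` contribute at least `c T (log T)^(k²)` to the `2k`-th moment; and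
(`S_MainVA`) large values of every size `e^V`, `log log T ≤ V ≤ k log log T`, with the expected frequency in every sector.

Plan. `U = conj ζ/ζ` is the quotient of Gamma factors. Weight in `x = arg ζ - arg ω`: `(1 + cos x)^n - (2-δ)^n`, which is
`≤ 0` outside the sector. Even harmonics of `|ζ| |A| |B|` (`A = M^m₁ H^(2k-2)`, `B = M^(m₁+q) H^(2k)`): bounded below by
`Re ∫ w U^a ζ A conj B`; `a = 0` is the main term (`FMr`), `U ζ = conj ζ` gives a smaller power of `log T` (`Sm`), and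
`U^(j+1) ζ = U^j conj ζ` oscillates without stationary point (`Os`). Odd harmonics: `ζ U^a |Q|²`,
`Q = M^(m₁+q/2) H^(2k-1)`. Landed facts of EM / WM used as hypotheses: `StW`, `StPc`, `S_ZP`, `S_MVb`, `S_TSb`, `S_FMx`,
`S_PeMul`, `S_PeBas`, `S_PeSum`, `S_Gcd`, `S_Sq`, `S_Mert`, `S_LowR`, `S_LowSr`, `S_Num`, `S_FinG`, `S_GWr`, `S_Wts`.
-/

set_option autoImplicit false

open MeasureTheory Set Filter Topology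

noncomputable section

namespace Pool.Agent.Work.MP_56b8f5_nt.WA

open Pool.Agent.Work.MP_56b8f5_nt.EM
open Pool.Agent.Work.MP_56b8f5_nt.WM

/-! ### Arithmetic -/

/-- **A1 (CCp).** The coefficients of `M^m H^j`. As `S_BBp` (copy `WM/I_BBp.lean`): `um ≤ pa aM`, `uh ≤ pa aH'`
(`aM(p) = 1/q` for `p ≤ y`, `aH'(p) = 1/2` for `y < p ≤ z`), `um^m * uh^j ≤ pa (m aM + j aH')`, and `ab = m aM + j aH'`. -/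
def S_CCp : Prop := ∀ q y z m j : ℕ, 1 ≤ q → y ≤ z →
  (∀ n, 0 ≤ CC q y z m j n ∧ CC q y z m j n ≤ pe (ab q y z m j) n) ∧
  (∀ n, CC q y z m j n ≠ 0 → n ≤ y ^ m * z ^ j) ∧
  (∀ n₁ n₂, 1 ≤ n₁ → n₁ ≤ y → 1 ≤ n₂ → n₂ ≤ z → (∀ p, p.Prime → p ∣ n₂ → y < p) →
    CC q y z m j (n₁ * n₂) = pe (ab q y z m j) (n₁ * n₂)) ∧
  (∀ X : ℕ, y ^ m * z ^ j ≤ X → ∀ t : ℝ, DP (CC q y z m j) X t = MH q y z m j t)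

/-- **A2 (LowMh).** As `S_LowMr` (copy `WM/I_LowMr.lean`): for `l = n₁ n₂`, `n₁ ≤ y` squarefree, `n₂ ≤ z` squarefree with all
primes `> y`: `CC (m₁+q) (2k) l = β^{ω(n₁)} k^{ω(n₂)}` (`2k/2 = k`), and `∑_{h ∣ l} CC m₁ (2(k-1)) h` is the same. -/
def S_LowMh : Prop := ∀ k : ℕ, 1 ≤ k → ∃ c : ℝ, 0 < c ∧ ∀ q y z X m₁ : ℕ, 1 ≤ q → 2 ≤ y → y ≤ z →
  y * z ≤ X → m₁ + q ≤ q * k → c * Xb k q y z m₁ ≤ ∑ l ∈ Finset.range (X + 1),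
    CC q y z (m₁ + q) (2 * k) l / (l : ℝ) * ∑ h ∈ l.divisors, CC q y z m₁ (2 * (k - 1)) h

/-- **A3 (UpF).** `l = h n`: `b (h n) ≤ pe b' h pe b' n` (`S_PeBas`), so the sum is at most
`(∑_h pe a' h pe b' h/h) (∑_n pe b' n/n)`. `pe a' h pe b' h ≤ pe (a' b') h` (`1/(v!)² ≤ 1/v!`), and `pe a n/n = pe (a/p) n`;
then `S_PeSum`. -/
def S_UpF : Prop := ∀ (a' b' a b : ℕ → ℝ) (z X : ℕ), (∀ p, 0 ≤ a' p) → (∀ p, 0 ≤ b' p) →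
  (∀ p, z < p → a' p = 0) → (∀ p, z < p → b' p = 0) → (∀ n, 0 ≤ a n) → (∀ n, 0 ≤ b n) →
  (∀ n, a n ≤ pe a' n) → (∀ n, b n ≤ pe b' n) →
    ∑ l ∈ Finset.range (X + 1), b l / (l : ℝ) * ∑ h ∈ l.divisors, a h ≤
      Real.exp (∑ p ∈ pr z, (a' p * b' p + b' p) / (p : ℝ))

/-! ### The phase -/

/-- **B0 (Conj).** `s ↦ conj (ζ (conj s))` and `ζ` are differentiable on the preconnected open set `{1}ᶜ` and agree for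
`Re s > 1` (`zeta_eq_tsum_one_div_nat_cpow`); identity theorem. -/
def S_Conj : Prop := ∀ s : ℂ, s ≠ 1 → riemannZeta ((starRingEnd ℂ) s) = (starRingEnd ℂ) (riemannZeta s)

/-- **B1 (UZ).** `Gp t ≠ 0` (`Complex.Gamma_ne_zero`), so `U` is continuous of absolute value one.
`Complex.Gammaℝ (1/2+it) = π^(-1/4) Gp t`, `Gammaℝ (conj s) = conj (Gammaℝ s)`, and `1 - s = conj s` for `s = 1/2+it`:
`ζ(conj s) Gammaℝ (conj s) = Λ(1-s) = Λ(s) = ζ(s) Gammaℝ s` (`riemannZeta_def_of_ne_zero`, `completedRiemannZeta_one_sub`);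
B0. -/
def S_UZ : Prop := Continuous U ∧ Continuous zt ∧ (∀ t, ‖U t‖ = 1) ∧
  ∀ t, (starRingEnd ℂ) (zt t) = U t * zt t

/-- **B2 (Ulim).** `s = 1/4+it/2`, `X_n = π^(-it/2) GammaSeq s n → Gp t ≠ 0` (`Complex.GammaSeq_tendsto_Gamma`), so
`X_n / conj X_n → U t`. For `n ≥ 1`, `X_n = (n/π)^(it/2) n^(1/4) n!/∏_{k ≤ n} (s+k)`, and `(s+k)/conj (s+k) = e^{2i arg(s+k)}`,
`arg (s+k) = arctan ((t/2)/(k+1/4)) = arctan (2t/(4k+1))`: `X_n/conj X_n = e^{i Psi n t}`. -/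
def S_Ulim : Prop := ∀ t : ℝ,
  Tendsto (fun n : ℕ => Complex.exp (Complex.I * (Psi n t : ℝ))) atTop (𝓝 (U t))

/-- **B3 (PsiD).** Derivatives; with `a = 4k+1`: `(arctan (2t/a))' = 2a/(a²+4t²)`, `(a/(a²+4t²))' = -8t a/(a²+4t²)²`,
`(a/(a²+4t²)²)' = -16 t a/(a²+4t²)³`. -/
def S_PsiD : Prop := ∀ (n : ℕ) (t : ℝ), HasDerivAt (Psi n) (psi n t) t ∧
  HasDerivAt (psi n) (psi1 n t) t ∧ HasDerivAt (psi1 n) (psi2 n t) t ∧ Continuous (psi2 n)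

/-- **B4 (PsiB).** `a = 4k+1`. First: terms with `a ≤ 2t+4`: `4a/(a²+4t²) ≤ 1/t`, at most `t/2+2` of them, sum `≤ 3`. Terms
with `a > 2t+4`: `4a/(a²+4t²) ≤ 4/a ≤ ∫_{a-4}^a dx/x`, sum `≤ log ((4n+1)/(2t)) ≤ log (n/t) + 1`. So
`psi n t ≥ log n - log π - 3 - log (n/t) - 1`. Second: `∑ a/(a²+4t²)² ≤ C/t²`: terms with `a ≤ 2t`: `≤ 2t/(16 t⁴)`, at
most `t/2+1`; terms with `a > 2t`: `≤ 1/a³ ≤ ∫_{a-4}^a`, or `1/a³ ≤ (1/2t)(1/(a-4) - 1/a)/4` for `a > 2t+4`. Third: the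
first part as before, and `512 t²/(a²+4t²)³ ≤ 128/(a²+4t²)²`. -/
def S_PsiB : Prop := ∃ C : ℝ, 0 ≤ C ∧ ∀ t : ℝ, 1 ≤ t → ∀ n : ℕ, t ≤ (n : ℝ) →
  Real.log t - C ≤ psi n t ∧ |psi1 n t| ≤ C / t ∧ |psi2 n t| ≤ C / t ^ 2

/-- **B5 (NS), no stationary point.** `w` and `w'` vanish at `c` and at `1` and outside of `[c, 1]`. Integrate by parts twice on
`[c, 1]`: `∫ w e^{ig} = (1/(iT))² ∫ ((w/D)'/D)' e^{ig}`, and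
`|((w/D)'/D)'| ≤ |w''| + 3 |w'| |D1| + |w| (|D2| + 3 D1²)` as `D ≥ 1`. -/
def S_NS : Prop := ∀ w : ℝ → ℝ, IsW w → ∀ c C₁ : ℝ, 0 < c → 0 ≤ C₁ →
  (∀ u, w u ≠ 0 → c ≤ u ∧ u ≤ 1) → ∃ C : ℝ, 0 ≤ C ∧ ∀ T : ℝ, 0 < T → ∀ g D D1 D2 : ℝ → ℝ,
  (∀ u, 0 < u → HasDerivAt g (T * D u) u) → (∀ u, 0 < u → HasDerivAt D (D1 u) u) →
  (∀ u, 0 < u → HasDerivAt D1 (D2 u) u) → ContinuousOn D2 (Ioi 0) →
  (∀ u, c ≤ u → u ≤ 1 → 1 ≤ D u ∧ |D1 u| ≤ C₁ ∧ |D2 u| ≤ C₁) →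
    ‖∫ u : ℝ, (w u : ℂ) * Complex.exp (Complex.I * (g u : ℝ))‖ ≤ C / T ^ 2

/-- **B6 (Osc).** For `n ≥ T` B5 with `g(u) = j Psi n (T u) + T u lam`: `D(u) = j psi n (T u) + lam ≥ log (T c) - C - (log T)/2
≥ 1` for large `T` (B4, `psi ≥ 0`, `j ≥ 1`), `D1 = j T psi1 n (T u)`, `|D1| ≤ j C/u ≤ j C/c`, `D2 = j T² psi2 n (T u)`,
`|D2| ≤ j C/c²`. Let `n → ∞`: `e^{i j Psi n (Tu)} → U(Tu)^j` (B2), dominated convergence (dominated by `w`). -/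
def S_Osc : Prop := ∀ w : ℝ → ℝ, IsW w → ∀ j : ℕ, 1 ≤ j → ∃ C T₀ : ℝ, 0 ≤ C ∧ 1 ≤ T₀ ∧
  ∀ T : ℝ, T₀ ≤ T → ∀ lam : ℝ, -(1 / 2 * Real.log T) ≤ lam →
    ‖∫ u : ℝ, (w u : ℂ) * (U (T * u) ^ j * Complex.exp (Complex.I * (T * u * lam : ℝ)))‖ ≤
      C / T ^ 2

/-! ### Twisted first moments -/

/-- **C1 (FMr).** As `S_FMb` (adapt `WM/I_FMb.lean`: it proves this before taking absolute values). Replace `ζ` by `P(T³)`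
(`S_ZP`; error `≤ C T^(-1/2) (∫ w|A|²)^(1/2) (∫ w|B|²)^(1/2)`, `S_MVb`), expand (`S_FMx`): the terms with `k h = l` give
`W0 w ∑_l b_l/l ∑_{h ∣ l} a_h e^{-(l/h)/T³}`, between half of and all of `W0 w ∑_l b_l/l ∑_{h ∣ l} a_h`, `W0 w ≤ 1`; the others are
`≤ C T^(-1/4) …` as in `S_FMb`. -/
def S_FMr : Prop := ∀ w : ℝ → ℝ, IsW w → 0 < W0 w → ∃ c C T₀ : ℝ, 0 < c ∧ 0 ≤ C ∧ 1 ≤ T₀ ∧
  ∀ T : ℝ, T₀ ≤ T → ∀ X : ℕ, (X : ℝ) ^ 3 ≤ T → ∀ a b : ℕ → ℝ, a 0 = 0 → b 0 = 0 →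
  (∀ n, 0 ≤ a n) → (∀ n, 0 ≤ b n) →
  (c * ∑ l ∈ Finset.range (X + 1), b l / (l : ℝ) * ∑ h ∈ l.divisors, a h ≤
    (∫ u : ℝ, (w u : ℂ) * (zt (T * u) * (DP a X (T * u) * (starRingEnd ℂ) (DP b X (T * u))))).re +
        C / T ^ (1 / 4 : ℝ) * (Real.sqrt (Q2 a X) * Real.sqrt (Q2 b X))) ∧
  ‖∫ u : ℝ, (w u : ℂ) * (zt (T * u) * (DP a X (T * u) * (starRingEnd ℂ) (DP b X (T * u))))‖ ≤
    (∑ l ∈ Finset.range (X + 1), b l / (l : ℝ) * ∑ h ∈ l.divisors, a h) +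
      C / T ^ (1 / 4 : ℝ) * (Real.sqrt (Q2 a X) * Real.sqrt (Q2 b X))

/-- **C3 (OscZ).** Replace `ζ` by `P(T³)` (`S_ZP`, `|U| = 1`; error as in C1). Expand:
`conj P = ∑_k e^{-k/K} k^(-1/2+it)`, `A = ∑ a_h h^(-1/2-it)`, `conj B = ∑ b_l l^(-1/2+it)`; the exponentials are
`e^{i T u lam}`, `lam = log (k l/h) ≥ -log X ≥ -(log T)/3` (`k, h, l ≥ 1`), so each integral is `≤ C/T²` (B6). Finally
`∑_k e^{-k/K}/√k ≤ 2 T^(3/2)` (`StPc`; interchange of sum and integral by absolute convergence), `∑ |a_h|/√h ≤ (X Q2 a X)^(1/2)`,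
`X ≤ T^(1/3)`, and `T^(-2+3/2+1/3) = T^(-1/6)`. -/
def S_OscZ : Prop := ∀ w : ℝ → ℝ, IsW w → ∀ j : ℕ, 1 ≤ j → ∃ C T₀ : ℝ, 0 ≤ C ∧ 1 ≤ T₀ ∧
  ∀ T : ℝ, T₀ ≤ T → ∀ X : ℕ, (X : ℝ) ^ 3 ≤ T → ∀ a b : ℕ → ℝ, a 0 = 0 → b 0 = 0 →
  ‖∫ u : ℝ, (w u : ℂ) * (U (T * u) ^ j * ((starRingEnd ℂ) (zt (T * u)) *
      (DP a X (T * u) * (starRingEnd ℂ) (DP b X (T * u)))))‖ ≤
    C / T ^ (1 / 8 : ℝ) * (Real.sqrt (Q2 a X) * Real.sqrt (Q2 b X))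

/-! ### Moments -/

/-- **D1 (Jbh).** As `S_Jb` (copy `WM/I_Jb.lean`): `S_MVb`, `S_TSb` for `b = CC q y z m (2j)`, with `S_Gcd`, `S_Sq`, A1; note that
`ab q y z m (2j)` is `m/q` for `p ≤ y` and `j` for `y < p ≤ z`. -/
def S_Jbh : Prop := ∀ w : ℝ → ℝ, IsW w → ∃ C T₀ : ℝ, 1 ≤ C ∧ ∀ T : ℝ, T₀ ≤ T → ∀ q y z m j : ℕ,
  1 ≤ q → y ≤ z → ((y ^ m * z ^ (2 * j) : ℕ) : ℝ) ^ 3 ≤ T →
    J0h w q y z T m j ≤ C * Real.exp (((m : ℝ) / q) ^ 2 * S1 y + (j : ℝ) ^ 2 * S2 y z) ∧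
    J2h w q y z T m j ≤ C * Real.log T *
      Real.exp ((2 * ((m : ℝ) / q) + ((m : ℝ) / q) ^ 2) * S1 y + (2 * (j : ℝ) + (j : ℝ) ^ 2) * S2 y z)

/-- **D2 (TenRh).** As `S_TenR` (copy `WM/I_TenR.lean`), from D1 instead of `S_Jb`; the lengths are
`≤ y^(qk+1) z^(2(k+1))` (`hlen2`). -/
def S_TenRh : Prop := ∀ w : ℝ → ℝ, IsW w → ∀ (k : ℕ) (C : ℝ), 2 ≤ k → 1 ≤ C → ∃ C' T₀ : ℝ,
  1 ≤ C' ∧ ∀ T : ℝ, T₀ ≤ T → ∀ q y z m₁ : ℕ, IsPa k C T q y z → 1 ≤ m₁ → m₁ + q ≤ q * k →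
    UBm m₁ k q (Xb k q y z m₁) (Real.exp (be q m₁ / q * S1 y)) ((q : ℝ) ^ (2 * k + 1)) C'
      (J0h w q y z T) (J2h w q y z T)

/-- **D3 (ParA).** As `S_Par` (adapt `WM/I_Par.lean`): `θ = 1/(24(k+1))`, `q = 2⌈√(log log T)⌉`, `z = ⌊T^θ⌋`,
`y = ⌊T^(θ/q)⌋`: `y^q ≤ z`, `y^(qk+1) z^(2(k+1)) ≤ z^(3(k+1)) ≤ T^(1/8)`. -/
def S_ParA : Prop := ∀ k : ℕ, 1 ≤ k → ∃ C : ℝ, 1 ≤ C ∧ ∀ᶠ T : ℝ in atTop, ∃ q y z : ℕ,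
  IsPa k C T q y z

/-- **D4 (Mn), main term.** First part of C1 for `a = CC m₁ (2(k-1))`, `b = CC (m₁+q) (2k)`, `X = y^(qk) z^(2k)` (both are `MH` by
A1; `X³ ≤ T` by `hlen2`), A2; the error is `≤ C T^(-1/4) (Q2 a Q2 b)^(1/2) ≤ C T^(-1/4) Xb` by `S_Sq`, A1
(`(β-1)² ≤ β²`, `S1, S2 ≥ 0`). Compare `WM/I_LowF.lean`. -/
def S_Mn : Prop := ∀ w : ℝ → ℝ, IsW w → 0 < W0 w → ∀ (k : ℕ) (C : ℝ), 2 ≤ k → 1 ≤ C →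
  ∃ c T₀ : ℝ, 0 < c ∧ ∀ T : ℝ, T₀ ≤ T → ∀ q y z m₁ : ℕ, IsPa k C T q y z → m₁ + q ≤ q * k →
    c * Xb k q y z m₁ ≤ (∫ u : ℝ, (w u : ℂ) * (zt (T * u) * (MH q y z m₁ (2 * (k - 1)) (T * u) *
      (starRingEnd ℂ) (MH q y z (m₁ + q) (2 * k) (T * u))))).re

/-- **D5 (Sm), the two non-oscillating harmonics.** Second part of C1 and A3, `β = (m₁+q)/q`, `X = y^(qk) z^(2k)`. First: here the first
polynomial has exponents `β`, `k`, the conjugated one `β-1`, `k-1`: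
`exp((β(β-1)+β-1) S1 + (k(k-1)+k-1) S2) = Xb e^(-(S1+S2))`. Second: both have exponents `β-1/2`, `k-1/2` (`q` is even):
`x² + x = β² - 1/4` for `x = β-1/2`: `Xb e^(-(S1+S2)/4)`. `log T ≤ C log z ≤ C' e^(S1+S2)` (`hz`, `S_Mert`,
`S1 z = S1 y + S2 y z`). The `T^(-1/4)` error is `≤ C T^(-1/4) Xb` as in D4, and `T^(-1/4) ≤ (log T)^(-1/4)`. -/
def S_Sm : Prop := ∀ w : ℝ → ℝ, IsW w → 0 < W0 w → ∀ (k : ℕ) (C : ℝ), 2 ≤ k → 1 ≤ C →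
  ∃ C' T₀ : ℝ, 0 ≤ C' ∧ 3 ≤ T₀ ∧ ∀ T : ℝ, T₀ ≤ T → ∀ q y z m₁ : ℕ, IsPa k C T q y z → m₁ + q ≤ q * k →
    ‖∫ u : ℝ, (w u : ℂ) * (zt (T * u) * (MH q y z (m₁ + q) (2 * k) (T * u) *
      (starRingEnd ℂ) (MH q y z m₁ (2 * (k - 1)) (T * u))))‖ ≤
        C' / Real.log T ^ (1 / 4 : ℝ) * Xb k q y z m₁ ∧
    ‖∫ u : ℝ, (w u : ℂ) * (zt (T * u) * (MH q y z (m₁ + q / 2) (2 * k - 1) (T * u) *
      (starRingEnd ℂ) (MH q y z (m₁ + q / 2) (2 * k - 1) (T * u))))‖ ≤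
        C' / Real.log T ^ (1 / 4 : ℝ) * Xb k q y z m₁

/-- **D6 (Os), the oscillating harmonics.** C3 with A1 and `S_Sq` (`X = y^(qk) z^(2k)`, `√(Q2 a) √(Q2 b) ≤ Xb` in the three
cases, as all exponents are `≤ β` and `≤ k`). -/
def S_Os : Prop := ∀ w : ℝ → ℝ, IsW w → ∀ (k : ℕ) (C : ℝ) (j : ℕ), 2 ≤ k → 1 ≤ C → 1 ≤ j →
  ∃ C' T₀ : ℝ, 0 ≤ C' ∧ 1 ≤ T₀ ∧ ∀ T : ℝ, T₀ ≤ T → ∀ q y z m₁ : ℕ, IsPa k C T q y z → m₁ + q ≤ q * k →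
    ‖∫ u : ℝ, (w u : ℂ) * (U (T * u) ^ j * ((starRingEnd ℂ) (zt (T * u)) *
      (MH q y z m₁ (2 * (k - 1)) (T * u) * (starRingEnd ℂ) (MH q y z (m₁ + q) (2 * k) (T * u)))))‖ ≤
        C' / T ^ (1 / 8 : ℝ) * Xb k q y z m₁ ∧
    ‖∫ u : ℝ, (w u : ℂ) * (U (T * u) ^ j * ((starRingEnd ℂ) (zt (T * u)) *
      (MH q y z (m₁ + q) (2 * k) (T * u) * (starRingEnd ℂ) (MH q y z m₁ (2 * (k - 1)) (T * u)))))‖ ≤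
        C' / T ^ (1 / 8 : ℝ) * Xb k q y z m₁ ∧
    ‖∫ u : ℝ, (w u : ℂ) * (U (T * u) ^ j * ((starRingEnd ℂ) (zt (T * u)) *
      (MH q y z (m₁ + q / 2) (2 * k - 1) (T * u) *
        (starRingEnd ℂ) (MH q y z (m₁ + q / 2) (2 * k - 1) (T * u)))))‖ ≤
        C' / T ^ (1 / 8 : ℝ) * Xb k q y z m₁

/-- **D7 (Har).** D4, D5, D6 (maximum of the `T₀` over `1 ≤ j ≤ n`), and `tot`:
`‖A‖ = aM^m₁ aH^(k-1)`, `‖B‖ = aM^(m₁+q) aH^k`, so by Cauchy-Schwarz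
`∫ w |ζ| ‖A‖ ‖B‖ ≤ (J2h m₁ (k-1))^(1/2) (J0h (m₁+q) k)^(1/2) ≤ C' Xb` (D2: `a1`, `a2`). -/
def S_Har : Prop := ∀ w : ℝ → ℝ, IsW w → 0 < W0 w → ∀ (k : ℕ) (C : ℝ), 2 ≤ k → 1 ≤ C →
  ∃ c₀ C₀ : ℝ, 0 < c₀ ∧ 0 < C₀ ∧ ∀ (n : ℕ) (ε : ℝ), 0 < ε → ∃ T₀ : ℝ, ∀ T : ℝ, T₀ ≤ T →
  ∀ q y z m₁ : ℕ, IsPa k C T q y z → 1 ≤ m₁ → m₁ + q ≤ q * k →
    Hy w n c₀ C₀ ε (Xb k q y z m₁) (fun u => zt (T * u)) (fun u => U (T * u))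
      (fun u => MH q y z m₁ (2 * (k - 1)) (T * u)) (fun u => MH q y z (m₁ + q) (2 * k) (T * u))
      (fun u => MH q y z (m₁ + q / 2) (2 * k - 1) (T * u))

/-- **D8 (Trig), the sector argument.** `arc δ` increases with `δ`, so let `δ ≤ 1`. Put `G = ‖A‖ ‖B‖ = ‖Q‖²`. Where `f ≠ 0` let
`z = conj ω f/‖f‖`, `|z| = 1`, `x = Re z`; `(1+x)^n = 2^(-n) (1+z)^n (1+z⁻¹)^n = 2^(-n) ∑_{|m| ≤ n} C(2n,n+m) z^m`.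
Even part `E = ((1+x)^n + (1-x)^n)/2 = 2^(-n) ∑_{m even} C(2n,n+m) z^m ≥ 0`, so `‖f‖ G E ≥ Re (E f A conj B)`, and
`z^(2a) = (conj ω)^(2a) V^(-a)`, as `(f/‖f‖)² = f/conj f = V⁻¹`. `V^(-a) f A conj B`: `a = 0`: `main`. `a = -1`: `V f = conj f`,
the conjugate of `f B conj A`: `ev1`. `a = -j-1`: `V^j conj f A conj B`: `ev`. `a = j ≥ 1`: the conjugate of
`V^j conj f B conj A`: `ev'` (`V⁻¹ = conj V`). Odd part: `‖f‖ z^(2a+1) G = (conj ω)^(2a+1) V^(-a) f ‖Q‖²`: `od0`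
(`a = 0`, `-1`), `od` (the others, `a = j` and `a = -j-1`). The sum of all coefficients is `2^n`, and `2^(-n) C(2n,n) ≥ 2^n/(2n+1)`, so
`∫ w ‖f‖ G (1+x)^n ≥ (2^n c₀/(2n+1) - 2^n 2 ε) X`. Outside of the arc `x ≤ 1-δ`, `(1+x)^n ≤ (2-δ)^n`, and by `tot`
`2^n ∫_{arc} w ‖f‖ G ≥ (2^n c₀/(2n+1) - 2^(n+1) ε - (2-δ)^n C₀) X`. Choose `n` with
`(1-δ/2)^n C₀ ≤ c₀/(4(2n+1))`, `ε = c₀/(8(2n+1))`, `c₁ = c₀/(2(2n+1))`. -/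
def S_Trig : Prop := ∀ δ c₀ C₀ : ℝ, 0 < δ → 0 < c₀ → 0 < C₀ → ∃ (n : ℕ) (ε c₁ : ℝ), 0 < ε ∧ 0 < c₁ ∧
  ∀ w : ℝ → ℝ, Continuous w → HasCompactSupport w → (∀ u, 0 ≤ w u) →
  ∀ (X : ℝ) (f V A B Q : ℝ → ℂ), 0 ≤ X → Continuous f → Continuous V → Continuous A → Continuous B →
    Continuous Q → (∀ u, ‖V u‖ = 1) → (∀ u, (starRingEnd ℂ) (f u) = V u * f u) →
    (∀ u, ‖A u‖ * ‖B u‖ = ‖Q u‖ ^ 2) → Hy w n c₀ C₀ ε X f V A B Q →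
    ∀ ω : ℂ, ‖ω‖ = 1 → c₁ * X ≤ ∫ u in arc δ ω f, w u * (‖f u‖ * (‖A u‖ * ‖B u‖))

/-- **D9 (ArcF).** D7 and D8 (`c₀, C₀` from D7, then `n, ε, c₁` from D8, then `T₀` from D7), B1;
`‖A‖ ‖B‖ = aM^(2m₁+q) aH^(2k-1) = ‖Q‖²` as `q` is even, `m₁ + q/2` doubled is `2m₁+q`. -/
def S_ArcF : Prop := ∀ w : ℝ → ℝ, IsW w → 0 < W0 w → ∀ (k : ℕ) (C δ : ℝ), 2 ≤ k → 1 ≤ C → 0 < δ →
  ∃ c T₀ : ℝ, 0 < c ∧ ∀ T : ℝ, T₀ ≤ T → ∀ q y z m₁ : ℕ, IsPa k C T q y z → 1 ≤ m₁ →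
    m₁ + q ≤ q * k → ∀ ω : ℂ, ‖ω‖ = 1 →
      c * Xb k q y z m₁ ≤ ∫ u in arc δ ω (fun u => zt (T * u)), w u * (az (T * u) *
        (aM q y (T * u) ^ (2 * m₁ + q) * aH y z (T * u) ^ (2 * k - 1)))

/-! ### Conclusion -/

/-- **E1 (WinA), sectors at scale `T`.** `m₁ = q(k-1) ≥ 1`, `β = k`. `S_FinG` for `ν = w 1_arc du` (the restriction to the arc only
decreases `j0`, `j2`, so D2 gives `UBm`), D9; on the set of `S_FinG`, `F = φ (m^q r)^(2k-1) ≤ η^(-(2k-1)) φ^(2k)` and the window is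
`S_GWr` with `α = k`; `Xb = exp(k² S1 z) ≥ c (log z)^(k²) ≥ c' (log T)^(k²)` (`S_Mert`, `hz`). Compare
`WM/I_WinS.lean`, `WM/I_WinV.lean`. -/
def S_WinA : Prop := ∀ w : ℝ → ℝ, IsW w → 0 < W0 w → ∀ (k : ℕ) (C δ : ℝ), 2 ≤ k → 1 ≤ C → 0 < δ →
  ∃ c C' T₀ : ℝ, 0 < c ∧ 1 ≤ C' ∧ ∀ T : ℝ, T₀ ≤ T → ∀ q y z : ℕ, IsPa k C T q y z →
    ∀ ω : ℂ, ‖ω‖ = 1 → c * Real.log T ^ (k ^ 2) ≤
      ∫ u in ({u | w u ≠ 0} ∩ arc δ ω (fun u => zt (T * u))) ∩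
        {u | |Real.log (az (T * u)) - k * Real.log (Real.log T)| ≤
          C' * Real.sqrt (Real.log (Real.log T))}, az (T * u) ^ (2 * k)

/-- **E2 (WinVA), large values in sectors at scale `T`.** As `S_WinV` (adapt `WM/I_WinV.lean`), with `ν = w 1_arc du` and D2, D9
instead of `S_TenR`, `S_LowF`. -/
def S_WinVA : Prop := ∀ w : ℝ → ℝ, IsW w → 0 < W0 w → ∀ (k : ℕ) (C δ : ℝ), 2 ≤ k → 1 ≤ C → 0 < δ →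
  ∃ C' T₀ : ℝ, 1 ≤ C' ∧ ∀ T : ℝ, T₀ ≤ T → ∀ q y z : ℕ, IsPa k C T q y z →
    ∀ α : ℝ, 1 + 1 / (q : ℝ) ≤ α → α ≤ k → ∀ ω : ℂ, ‖ω‖ = 1 →
      Real.exp (-(α ^ 2 * Real.log (Real.log T)) - C' * Real.sqrt (Real.log (Real.log T))) ≤
        volume.real (({u | w u ≠ 0} ∩ arc δ ω (fun u => zt (T * u))) ∩
          {u | |Real.log (az (T * u)) - α * Real.log (Real.log T)| ≤
            C' * Real.sqrt (Real.log (Real.log T))})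

/-- **E3 (MainA), the final theorem.** Scale `T' = 4T` as in `S_Sca` (`WM/I_Sca.lean`): parameters from D3 for `T'`, weight
`w₁` of `S_Wts`, E1, `t = T' u`; `log log (4T) ≤ log log T + log 2` and `≤ 2 log log T`, `log (4T) ≥ log T`. -/
def S_MainA : Prop := ∀ (k : ℕ) (δ : ℝ), 2 ≤ k → 0 < δ → ∃ c C : ℝ, 0 < c ∧ 1 ≤ C ∧
  ∀ᶠ T : ℝ in atTop, ∀ ω : ℂ, ‖ω‖ = 1 →
    c * T * Real.log T ^ (k ^ 2) ≤ ∫ t in {t | t ∈ Icc T (2 * T) ∧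
      (1 - δ) * az t < ((starRingEnd ℂ) ω * zt t).re ∧
      |Real.log (az t) - k * Real.log (Real.log T)| ≤ C * Real.sqrt (Real.log (Real.log T))},
        az t ^ (2 * k)

/-- **E4 (MainVA), the final theorem on large values.** As `S_MainV` (adapt `WM/I_MainV.lean`), from D3, `S_Wts`, E2. -/
def S_MainVA : Prop := ∀ (k : ℕ) (δ : ℝ), 2 ≤ k → 0 < δ → ∃ C : ℝ, 1 ≤ C ∧ ∀ᶠ T : ℝ in atTop,
  ∀ V : ℝ, Real.log (Real.log T) ≤ V → V ≤ k * Real.log (Real.log T) → ∀ ω : ℂ, ‖ω‖ = 1 →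
    T * Real.exp (-(V ^ 2 / Real.log (Real.log T)) - C * Real.sqrt (Real.log (Real.log T))) ≤
      volume.real {t | t ∈ Icc T (2 * T) ∧ (1 - δ) * az t < ((starRingEnd ℂ) ω * zt t).re ∧
        |Real.log (az t) - V| ≤ C * Real.sqrt (Real.log (Real.log T))}

end Pool.Agent.Work.MP_56b8f5_nt.WA
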