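import Pool.Agent.Work.MP_56b8f5_nt.WA.StmtsB
import Pool.Agent.Work.MP_56b8f5_nt.WA.I_Trig

set_option autoImplicit false

open MeasureTheory Set Filter Topology

noncomputable section

namespace Pool.Agent.Work.MP_56b8f5_nt.WA

open Pool.Agent.Work.MP_56b8f5_nt.EM
open Pool.Agent.Work.MP_56b8f5_nt.WM

namespace I_TrigL

/-- Real form of the parity argument. -/
theorem parity (n : ℕ) (c a F : ℝ) (r : ℕ → ℝ) (haF : a ≤ F)
    (hE : 0 ≤ c + 2 * ∑ m ∈ Finset.Icc 1 n, r m)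
    (hO : 0 ≤ c + 2 * ∑ m ∈ Finset.Icc 1 n, (-1) ^ m * r m) :
    c * a + ∑ m ∈ Finset.Icc 1 n, 2 * r m * (if m % 2 = 0 then a else F) ≤
      (c + 2 * ∑ m ∈ Finset.Icc 1 n, r m) * F := by
  have h1 : ∑ m ∈ Finset.Icc 1 n, 2 * r m * (if m % 2 = 0 then a else F) =
      2 * (∑ m ∈ Finset.Icc 1 n, r m) * F -
        (F - a) * ((∑ m ∈ Finset.Icc 1 n, r m) + ∑ m ∈ Finset.Icc 1 n, (-1) ^ m * r m) := by
    rw [← Finset.sum_add_distrib, Finset.mul_sum, Finset.mul_sum, Finset.sum_mul,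
      ← Finset.sum_sub_distrib]
    refine Finset.sum_congr rfl fun m _ => ?_
    by_cases hp : m % 2 = 0
    · rw [if_pos hp, Even.neg_one_pow (Nat.even_iff.mpr hp)]
      ring
    · rw [if_neg hp, Odd.neg_one_pow (Nat.odd_iff.mpr (by omega))]
      ring
  rw [h1]
  have h2 : 0 ≤ (F - a) * (c + ((∑ m ∈ Finset.Icc 1 n, r m) + ∑ m ∈ Finset.Icc 1 n, (-1) ^ m * r m)) :=
    mul_nonneg (by linarith) (by linarith)
  nlinarith

/-- One pair of harmonics. -/
theorem pair {ω f V ab qq : ℂ} (hω : ‖ω‖ = 1) (hV : ‖V‖ = 1) (hf : f ≠ 0)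
    (hfV : (starRingEnd ℂ) f = V * f) (m : ℕ) (p : ℂ) :
    p * I_Trig.Tf ω f V ab qq m 0 + (starRingEnd ℂ) p * I_Trig.Tf ω f V ab qq 0 m =
      ((2 * (p * ((starRingEnd ℂ) ω * (f / (‖f‖ : ℂ))) ^ m).re : ℝ) : ℂ) *
        (if m % 2 = 0 then f * ab else (‖f‖ : ℂ) * qq) := by
  rw [I_Trig.Tf_eq hω hV hf hfV, I_Trig.Tf_eq hω hV hf hfV]
  set z : ℂ := (starRingEnd ℂ) ω * (f / (‖f‖ : ℂ)) with hz
  have h1 : p * z ^ m + (starRingEnd ℂ) p * ((starRingEnd ℂ) z) ^ m =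
      ((2 * (p * z ^ m).re : ℝ) : ℂ) := by
    have := Complex.add_conj (p * z ^ m)
    rw [map_mul, map_pow] at this
    rw [this]
  rw [add_zero, zero_add, ← h1]
  simp only [pow_zero, one_mul, mul_one]
  ring

/-- The pointwise inequality. -/
theorem pt {ω f V A B Q : ℂ} (hω : ‖ω‖ = 1) (hV : ‖V‖ = 1) (hfV : (starRingEnd ℂ) f = V * f)
    (hAB : ‖A‖ * ‖B‖ = ‖Q‖ ^ 2) (n : ℕ) (p0 : ℝ) (p : ℕ → ℂ) (θ τ : ℝ)
    (hK : ∀ z : ℂ, ‖z‖ = 1 → 0 ≤ TP n p0 p z + τ ∧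
      TP n p0 p z - τ ≤ (if Real.cos θ < z.re then 1 else 0)) :
    (((p0 + τ : ℝ) : ℂ) * I_Trig.Tf ω f V (A * (starRingEnd ℂ) B) (Q * (starRingEnd ℂ) Q) 0 0 +
      ∑ m ∈ Finset.Icc 1 n,
        (p m * I_Trig.Tf ω f V (A * (starRingEnd ℂ) B) (Q * (starRingEnd ℂ) Q) m 0 +
          (starRingEnd ℂ) (p m) *
            I_Trig.Tf ω f V (A * (starRingEnd ℂ) B) (Q * (starRingEnd ℂ) Q) 0 m)).re ≤
    (if Real.cos θ * ‖f‖ < ((starRingEnd ℂ) ω * f).re then ‖f‖ * (‖A‖ * ‖B‖) else 0) +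
      2 * τ * (‖f‖ * (‖A‖ * ‖B‖)) := by
  by_cases hf : f = 0
  · subst hf
    have : ∀ i l, I_Trig.Tf ω 0 V (A * (starRingEnd ℂ) B) (Q * (starRingEnd ℂ) Q) i l = 0 := by
      intro i l
      unfold I_Trig.Tf
      split_ifs <;> simp
    simp [this]
  have hn : (‖f‖ : ℂ) ≠ 0 := by simpa using hf
  have hn' : 0 < ‖f‖ := norm_pos_iff.mpr hf
  have hp : ∀ m ∈ Finset.Icc 1 n,
      p m * I_Trig.Tf ω f V (A * (starRingEnd ℂ) B) (Q * (starRingEnd ℂ) Q) m 0 +
          (starRingEnd ℂ) (p m) *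
            I_Trig.Tf ω f V (A * (starRingEnd ℂ) B) (Q * (starRingEnd ℂ) Q) 0 m =
      ((2 * (p m * ((starRingEnd ℂ) ω * (f / (‖f‖ : ℂ))) ^ m).re : ℝ) : ℂ) *
        (if m % 2 = 0 then f * (A * (starRingEnd ℂ) B) else (‖f‖ : ℂ) * (Q * (starRingEnd ℂ) Q)) :=
    fun m _ => pair hω hV hf hfV m (p m)
  rw [Finset.sum_congr rfl hp, I_Trig.diag]
  set z : ℂ := (starRingEnd ℂ) ω * (f / (‖f‖ : ℂ)) with hz
  have hznorm : ‖z‖ = 1 := by
    rw [hz, norm_mul, norm_div, RCLike.norm_conj, hω, Complex.norm_real, norm_norm,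
      div_self hn'.ne', one_mul]
  have hznorm' : ‖-z‖ = 1 := by rw [norm_neg, hznorm]
  have hG : (‖f‖ : ℂ) * (Q * (starRingEnd ℂ) Q) = ((‖f‖ * (‖A‖ * ‖B‖) : ℝ) : ℂ) := by
    rw [Complex.mul_conj, Complex.normSq_eq_norm_sq, hAB]
    push_cast
    ring
  set F : ℝ := ‖f‖ * (‖A‖ * ‖B‖) with hF
  set a : ℝ := (f * (A * (starRingEnd ℂ) B)).re with ha
  have haF : a ≤ F := by
    refine (Complex.re_le_norm _).trans (le_of_eq ?_)
    rw [norm_mul, norm_mul, RCLike.norm_conj]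
  have hre : ((((p0 + τ : ℝ) : ℂ) * (f * (A * (starRingEnd ℂ) B)) + ∑ m ∈ Finset.Icc 1 n,
      ((2 * (p m * z ^ m).re : ℝ) : ℂ) *
        (if m % 2 = 0 then f * (A * (starRingEnd ℂ) B) else (‖f‖ : ℂ) * (Q * (starRingEnd ℂ) Q))).re) =
      (p0 + τ) * a + ∑ m ∈ Finset.Icc 1 n, 2 * (p m * z ^ m).re * (if m % 2 = 0 then a else F) := by
    rw [Complex.add_re, Complex.re_ofReal_mul, Complex.re_sum]
    congr 1
    refine Finset.sum_congr rfl fun m _ => ?_
    rw [Complex.re_ofReal_mul]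
    congr 1
    by_cases hm : m % 2 = 0
    · rw [if_pos hm, if_pos hm]
    · rw [if_neg hm, if_neg hm, hG, Complex.ofReal_re]
  rw [hre]
  have hT : ∀ x : ℂ, TP n p0 p x = p0 + 2 * ∑ m ∈ Finset.Icc 1 n, (p m * x ^ m).re := by
    intro x
    rw [TP, Complex.re_sum]
  have hneg : ∑ m ∈ Finset.Icc 1 n, (p m * (-z) ^ m).re =
      ∑ m ∈ Finset.Icc 1 n, (-1) ^ m * (p m * z ^ m).re := by
    refine Finset.sum_congr rfl fun m _ => ?_
    have : p m * (-z) ^ m = (((-1) ^ m : ℝ) : ℂ) * (p m * z ^ m) := by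
      rw [neg_pow z m]
      push_cast
      ring
    rw [this, Complex.re_ofReal_mul]
  have h1 := (hK z hznorm).1
  have h2 := (hK (-z) hznorm').1
  have h3 := (hK z hznorm).2
  rw [hT] at h1 h2 h3
  rw [hneg] at h2
  have hFn : 0 ≤ F := by rw [hF]; positivity
  have h4 := parity n (p0 + τ) a F (fun m => (p m * z ^ m).re) haF (by linarith) (by linarith)
  refine h4.trans ?_
  have hxre : ((starRingEnd ℂ) ω * f).re = ‖f‖ * z.re := by
    have : (starRingEnd ℂ) ω * f = (‖f‖ : ℂ) * z := by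
      rw [hz]; field_simp
    rw [this, Complex.re_ofReal_mul]
  have hiff : Real.cos θ * ‖f‖ < ((starRingEnd ℂ) ω * f).re ↔ Real.cos θ < z.re := by
    rw [hxre, mul_comm (Real.cos θ)]
    exact mul_lt_mul_iff_right₀ hn'
  by_cases harc : Real.cos θ < z.re
  · rw [if_pos (hiff.mpr harc)]
    rw [if_pos harc] at h3
    have : (p0 + τ + 2 * ∑ m ∈ Finset.Icc 1 n, (p m * z ^ m).re) ≤ 1 + 2 * τ := by linarith
    have h5 := mul_le_mul_of_nonneg_right this hFn
    linarith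
  · rw [if_neg (fun h => harc (hiff.mp h))]
    rw [if_neg harc] at h3
    have : (p0 + τ + 2 * ∑ m ∈ Finset.Icc 1 n, (p m * z ^ m).re) ≤ 2 * τ := by linarith
    have h5 := mul_le_mul_of_nonneg_right this hFn
    linarith

end I_TrigL

open I_TrigL in
theorem TrigL_pf (h1 : S_KerL) : S_TrigL := by
  intro c₀ C₀ hc hC
  refine ⟨c₀ / (4 * Real.pi), by have := Real.pi_pos; positivity, ?_⟩
  intro θ hθ hθπ
  have hpi := Real.pi_pos
  set τ : ℝ := c₀ * θ / (16 * Real.pi * C₀) with hτ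
  have hτ0 : 0 < τ := by rw [hτ]; positivity
  obtain ⟨n, p0, p, hp0, hK⟩ := h1 θ τ hθ hθπ hτ0
  set SP : ℝ := ∑ m ∈ Finset.Icc 1 n, ‖p m‖ with hSP
  have hSP0 : 0 ≤ SP := Finset.sum_nonneg fun m _ => norm_nonneg _
  set ε : ℝ := c₀ * θ / (8 * Real.pi * (1 + 2 * SP)) with hε
  have hε0 : 0 < ε := by rw [hε]; positivity
  refine ⟨n, ε, hε0, ?_⟩
  intro w hwc hws hw0 X f V A B Q hX hf hV hA hB hQ hV1 hfV hAB H ω hω
  have hcB : Continuous fun u => (starRingEnd ℂ) (B u) := Complex.continuous_conj.comp hB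
  have hcQ : Continuous fun u => (starRingEnd ℂ) (Q u) := Complex.continuous_conj.comp hQ
  have hab : Continuous fun u => A u * (starRingEnd ℂ) (B u) := hA.mul hcB
  have hqq : Continuous fun u => Q u * (starRingEnd ℂ) (Q u) := hQ.mul hcQ
  have hwC : Continuous fun u => (w u : ℂ) := Complex.continuous_ofReal.comp hwc
  have hwCs : HasCompactSupport fun u => (w u : ℂ) := hws.comp_left Complex.ofReal_zero
  -- integrability
  set T : ℕ → ℕ → ℝ → ℂ := fun i l u => (w u : ℂ) *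
      I_Trig.Tf ω (f u) (V u) (A u * (starRingEnd ℂ) (B u)) (Q u * (starRingEnd ℂ) (Q u)) i l with hT
  have hIT : ∀ i l, Integrable (T i l) := by
    intro i l
    exact (hwC.mul (I_Trig.cont_Tf ω hf hV hab hqq i l)).integrable_of_hasCompactSupport
      hwCs.mul_right
  set F : ℝ → ℝ := fun u => ‖f u‖ * (‖A u‖ * ‖B u‖) with hF
  have hFc : Continuous F := hf.norm.mul (hA.norm.mul hB.norm)
  have hIF : Integrable fun u => w u * F u :=
    (hwc.mul hFc).integrable_of_hasCompactSupport hws.mul_right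
  have hmeas : MeasurableSet (sec θ ω f) := by
    unfold sec
    exact (isOpen_lt (continuous_const.mul hf.norm)
      (Complex.continuous_re.comp (continuous_const.mul hf))).measurableSet
  -- the combination
  set S : ℝ → ℂ := fun u => ((p0 + τ : ℝ) : ℂ) * T 0 0 u + ∑ m ∈ Finset.Icc 1 n,
    (p m * T m 0 u + (starRingEnd ℂ) (p m) * T 0 m u) with hS
  have hI2 : ∀ m, Integrable fun u => p m * T m 0 u + (starRingEnd ℂ) (p m) * T 0 m u :=
    fun m => ((hIT m 0).const_mul _).add ((hIT 0 m).const_mul _)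
  have hIsum : Integrable fun u => ∑ m ∈ Finset.Icc 1 n,
      (p m * T m 0 u + (starRingEnd ℂ) (p m) * T 0 m u) :=
    integrable_finsetSum _ fun m _ => hI2 m
  have hIS : Integrable S := ((hIT 0 0).const_mul _).add hIsum
  have hSint : ∫ u, S u = ((p0 + τ : ℝ) : ℂ) * (∫ u, T 0 0 u) + ∑ m ∈ Finset.Icc 1 n,
      (p m * (∫ u, T m 0 u) + (starRingEnd ℂ) (p m) * ∫ u, T 0 m u) := by
    rw [hS, integral_add ((hIT 0 0).const_mul _) hIsum, integral_const_mul,
      integral_finsetSum _ fun m _ => hI2 m]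
    congr 1
    refine Finset.sum_congr rfl fun m _ => ?_
    rw [integral_add ((hIT m 0).const_mul _) ((hIT 0 m).const_mul _), integral_const_mul,
      integral_const_mul]
  -- upper bound of the real part
  have hup : (∫ u, S u).re ≤ (∫ u in sec θ ω f, w u * F u) + 2 * τ * (∫ u, w u * F u) := by
    have e1 : (∫ u, S u).re = ∫ u, (S u).re := by
      have := integral_re hIS
      simpa using this.symm
    rw [e1, ← integral_indicator hmeas, ← integral_const_mul,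
      ← integral_add (hIF.indicator hmeas) (hIF.const_mul _)]
    refine integral_mono hIS.re ((hIF.indicator hmeas).add (hIF.const_mul _)) ?_
    intro u
    have hpt := pt (A := A u) (B := B u) (Q := Q u) hω (hV1 u) (hfV u) (hAB u) n p0 p θ τ hK
    have hSu : S u = (w u : ℂ) * (((p0 + τ : ℝ) : ℂ) *
        I_Trig.Tf ω (f u) (V u) (A u * (starRingEnd ℂ) (B u)) (Q u * (starRingEnd ℂ) (Q u)) 0 0 +
        ∑ m ∈ Finset.Icc 1 n, (p m *
          I_Trig.Tf ω (f u) (V u) (A u * (starRingEnd ℂ) (B u)) (Q u * (starRingEnd ℂ) (Q u)) m 0 +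
          (starRingEnd ℂ) (p m) *
          I_Trig.Tf ω (f u) (V u) (A u * (starRingEnd ℂ) (B u)) (Q u * (starRingEnd ℂ) (Q u)) 0 m)) := by
      simp only [hS, hT]
      rw [mul_add, Finset.mul_sum]
      congr 1
      · ring
      · refine Finset.sum_congr rfl fun m _ => ?_
        ring
    show RCLike.re (S u) ≤ _
    rw [hSu]
    have h2 : RCLike.re ((w u : ℂ) * (((p0 + τ : ℝ) : ℂ) *
        I_Trig.Tf ω (f u) (V u) (A u * (starRingEnd ℂ) (B u)) (Q u * (starRingEnd ℂ) (Q u)) 0 0 +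
        ∑ m ∈ Finset.Icc 1 n, (p m *
          I_Trig.Tf ω (f u) (V u) (A u * (starRingEnd ℂ) (B u)) (Q u * (starRingEnd ℂ) (Q u)) m 0 +
          (starRingEnd ℂ) (p m) *
          I_Trig.Tf ω (f u) (V u) (A u * (starRingEnd ℂ) (B u)) (Q u * (starRingEnd ℂ) (Q u)) 0 m))) =
        w u * (((p0 + τ : ℝ) : ℂ) *
        I_Trig.Tf ω (f u) (V u) (A u * (starRingEnd ℂ) (B u)) (Q u * (starRingEnd ℂ) (Q u)) 0 0 +
        ∑ m ∈ Finset.Icc 1 n, (p m *
          I_Trig.Tf ω (f u) (V u) (A u * (starRingEnd ℂ) (B u)) (Q u * (starRingEnd ℂ) (Q u)) m 0 +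
          (starRingEnd ℂ) (p m) *
          I_Trig.Tf ω (f u) (V u) (A u * (starRingEnd ℂ) (B u)) (Q u * (starRingEnd ℂ) (Q u)) 0 m)).re :=
      Complex.re_ofReal_mul _ _
    rw [h2]
    refine (mul_le_mul_of_nonneg_left hpt (hw0 u)).trans (le_of_eq ?_)
    simp only [Set.indicator, sec, Set.mem_ofPred_eq, hF]
    split_ifs <;> ring
  -- lower bound of the real part
  have hlow : θ / (2 * Real.pi) * (c₀ * X) - 2 * SP * (ε * X) ≤ (∫ u, S u).re := by
    rw [hSint, Complex.add_re, Complex.re_ofReal_mul, Complex.re_sum]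
    have hm : c₀ * X ≤ (∫ u, T 0 0 u).re := by
      have := H.main
      simp only [hT]
      simp_rw [I_Trig.diag]
      exact this
    have hcX : 0 ≤ c₀ * X := mul_nonneg hc.le hX
    have h3 : θ / (2 * Real.pi) * (c₀ * X) ≤ (p0 + τ) * (∫ u, T 0 0 u).re := by
      have hpp : θ / (2 * Real.pi) ≤ p0 + τ := by linarith
      have hp1 : 0 ≤ p0 + τ := le_trans (by positivity) hpp
      exact mul_le_mul hpp hm hcX hp1
    have hterm : ∀ m ∈ Finset.Icc 1 n, -(2 * ‖p m‖ * (ε * X)) ≤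
        (p m * (∫ u, T m 0 u) + (starRingEnd ℂ) (p m) * ∫ u, T 0 m u).re := by
      intro m hmm
      obtain ⟨hm1, hm2⟩ := Finset.mem_Icc.mp hmm
      have s1 : ‖∫ u, T m 0 u‖ ≤ ε * X :=
        I_Trig.small hV1 hfV H hω hm2 (Nat.zero_le n) (by omega)
      have s2 : ‖∫ u, T 0 m u‖ ≤ ε * X :=
        I_Trig.small hV1 hfV H hω (Nat.zero_le n) hm2 (by omega)
      have s3 : ‖p m * (∫ u, T m 0 u) + (starRingEnd ℂ) (p m) * ∫ u, T 0 m u‖ ≤
          2 * ‖p m‖ * (ε * X) := by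
        refine (norm_add_le _ _).trans ?_
        rw [norm_mul, norm_mul, RCLike.norm_conj]
        have t1 := mul_le_mul_of_nonneg_left s1 (norm_nonneg (p m))
        have t2 := mul_le_mul_of_nonneg_left s2 (norm_nonneg (p m))
        linarith
      have s4 := Complex.abs_re_le_norm (p m * (∫ u, T m 0 u) + (starRingEnd ℂ) (p m) * ∫ u, T 0 m u)
      exact (abs_le.mp (s4.trans s3)).1
    have h4 := Finset.sum_le_sum hterm
    have h5 : ∑ m ∈ Finset.Icc 1 n, -(2 * ‖p m‖ * (ε * X)) = -(2 * SP * (ε * X)) := by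
      rw [Finset.sum_neg_distrib, hSP, Finset.mul_sum, Finset.sum_mul]
    rw [h5] at h4
    linarith
  have htot : ∫ u, w u * F u ≤ C₀ * X := H.tot
  -- conclusion
  have h8 : 2 * τ * (∫ u, w u * F u) ≤ c₀ * θ / (8 * Real.pi) * X := by
    calc 2 * τ * (∫ u, w u * F u) ≤ 2 * τ * (C₀ * X) :=
          mul_le_mul_of_nonneg_left htot (by linarith)
      _ = c₀ * θ / (8 * Real.pi) * X := by
          rw [hτ]
          field_simp
          ring
  have h9 : 2 * SP * (ε * X) ≤ c₀ * θ / (8 * Real.pi) * X := by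
    have e : 2 * SP * ε ≤ c₀ * θ / (8 * Real.pi) := by
      have e1 : (1 + 2 * SP) * ε = c₀ * θ / (8 * Real.pi) := by
        rw [hε]
        have : (1 + 2 * SP) ≠ 0 := by positivity
        field_simp
      nlinarith
    calc 2 * SP * (ε * X) = 2 * SP * ε * X := by ring
      _ ≤ _ := mul_le_mul_of_nonneg_right e hX
  have h10 : c₀ / (4 * Real.pi) * θ * X = θ / (2 * Real.pi) * (c₀ * X) -
      c₀ * θ / (8 * Real.pi) * X - c₀ * θ / (8 * Real.pi) * X := by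
    field_simp
    ring
  show c₀ / (4 * Real.pi) * θ * X ≤ ∫ u in sec θ ω f, w u * F u
  rw [h10]
  linarith

end Pool.Agent.Work.MP_56b8f5_nt.WA
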