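import Pool.Agent.Work.MP_56b8f5_nt.WA.Stmts

/-!
MP_56b8f5_nt, block WB (sectors, constants linear in the opening angle, two-sided), captain helper98: statements of the
items, with proofs.

Goal (`S_MainB`): for every `k ≥ 2` there are `c, C > 0` and Dirichlet polynomials `N_T` such that for every
`0 < θ ≤ π`, all large `T` (depending on `θ`) and all `|ω| = 1`, the part of the `2k`-th moment on `[T,2T]` with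
`|arg (ζ/ω)| < θ` (written `cos θ |ζ| < Re (conj ω ζ)`), `|ζ| ≤ C |N_T|` and in the window is at least
`c θ T (log T)^(k²)`, and the part with `|arg (ζ/ω)| < θ`, `|ζ| ≤ A |N_T|` is at most `C A^(2k-2) θ T (log T)^(k²)`.

New against block WA: (1) trigonometric polynomials approximating a tent (lower bound, `KerL`) and a trapezoid in the double
angle (upper bound, `KerU`), so that everything is linear in `θ`; (2) the harmonics `U^a |A|²`, `U^a |ζ|² |A|²`, `a ≥ 1`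
(`U |ζ|² = conj ζ²`, `U^(j+1) |ζ|² = U^j conj ζ²`), three integrations by parts.
-/

set_option autoImplicit false

open MeasureTheory Set Filter Topology

noncomputable section

namespace Pool.Agent.Work.MP_56b8f5_nt.WA

open Pool.Agent.Work.MP_56b8f5_nt.EM
open Pool.Agent.Work.MP_56b8f5_nt.WM

/-! ### Definitions -/

/-- The sector `|arg (f/ω)| < θ`. -/
def sec (θ : ℝ) (ω : ℂ) (f : ℝ → ℂ) : Set ℝ :=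
  {u | Real.cos θ * ‖f u‖ < ((starRingEnd ℂ) ω * f u).re}

/-- The real trigonometric polynomial `p0 + 2 Re ∑_{m=1}^n p_m z^m`. -/
def TP (n : ℕ) (p0 : ℝ) (p : ℕ → ℂ) (z : ℂ) : ℝ :=
  p0 + 2 * (∑ m ∈ Finset.Icc 1 n, p m * z ^ m).re

/-- Fourth derivative of `Psi n`. -/
def psi3 (n : ℕ) (t : ℝ) : ℝ :=
  12288 * t ^ 3 * ∑ k ∈ Finset.range (n + 1), (4 * (k : ℝ) + 1) /
    ((4 * (k : ℝ) + 1) ^ 2 + 4 * t ^ 2) ^ 4 -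
  1536 * t * ∑ k ∈ Finset.range (n + 1), (4 * (k : ℝ) + 1) /
    ((4 * (k : ℝ) + 1) ^ 2 + 4 * t ^ 2) ^ 3

/-! ### Trigonometric polynomials -/

/-- **T1 (SWr).** Stone-Weierstrass for real functions on the circle: a complex trigonometric polynomial `h` with
`|g - h| ≤ τ` (`span_fourier_closure_eq_top` on `AddCircle (2π)`); its real part is of the form `TP`. The mean value of `TP` over the circle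
is `p0`, and `g - TP` is at most `τ` in absolute value. -/
def S_SWr : Prop := ∀ g : ℝ → ℝ, Continuous g → (∀ x, g (x + 2 * Real.pi) = g x) → ∀ τ : ℝ, 0 < τ →
  ∃ (n : ℕ) (p0 : ℝ) (p : ℕ → ℂ),
    (∀ x : ℝ, |g x - TP n p0 p (Complex.exp (Complex.I * (x : ℝ)))| ≤ τ) ∧
    |p0 - 1 / (2 * Real.pi) * ∫ x in (0 : ℝ)..(2 * Real.pi), g x| ≤ τ

/-- **T2 (KerL), lower kernel.** `g(x) = max 0 (1 - arccos (cos x)/θ)`: continuous, periodic, `0 ≤ g ≤ 1`, `g(x) = 0`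
unless `arccos (cos x) < θ`, i.e. `cos x > cos θ`; mean value `(1/π) ∫_0^π max 0 (1-x/θ) dx = θ/(2π)`. T1. -/
def S_KerL : Prop := ∀ θ τ : ℝ, 0 < θ → θ ≤ Real.pi → 0 < τ → ∃ (n : ℕ) (p0 : ℝ) (p : ℕ → ℂ),
  θ / (2 * Real.pi) - τ ≤ p0 ∧ ∀ z : ℂ, ‖z‖ = 1 → 0 ≤ TP n p0 p z + τ ∧
    TP n p0 p z - τ ≤ (if Real.cos θ < z.re then 1 else 0)

/-- **T3 (KerU), upper kernel.** `h(y) = min 1 (max 0 (2 - arccos (cos y)/(2θ)))`: continuous, periodic, `0 ≤ h`, mean value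
`≤ (1/π)(2θ+θ) ≤ θ`. If `cos x > cos θ` then `arccos (cos (2x)) ≤ 2 arccos (cos x) ≤ 2θ`, so `h(2x) = 1`. T1. -/
def S_KerU : Prop := ∀ θ τ : ℝ, 0 < θ → θ ≤ Real.pi → 0 < τ → ∃ (n : ℕ) (p0 : ℝ) (p : ℕ → ℂ),
  p0 ≤ θ + τ ∧ ∀ z : ℂ, ‖z‖ = 1 → 0 ≤ TP n p0 p z + τ ∧
    (if Real.cos θ < z.re then (1 : ℝ) else 0) ≤ TP n p0 p (z ^ 2) + τ

/-- **T4 (TrigL).** As `S_Trig` (adapt `WA/I_Trig.lean`: `small`, `Tf_eq`, integrability), with `P = TP n p0 p` of T2 for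
`τ = c₀ θ/(16 π C₀)` instead of `(1+x)^n`. Put `F = ‖f‖ ‖A‖ ‖B‖`, `z = conj ω f/‖f‖`, `R = P + τ ≥ 0`. Even part
`E(z) = (R(z) + R(-z))/2 ≥ 0` (the terms `z^m` with `m` even), `F E ≥ Re (E f A conj B)`; odd part: the terms with `m` odd. As in
`S_Trig` (`main`; `ev1`, `ev`, `ev'`; `od0`, `od`, for `z^m` and `conj z^m`): `∫ w F R ≥ (p0+τ) c₀ X - 2 ∑ |p_m| ε X`, and
`∫_{sec} w F ≥ ∫ w F (P-τ) = ∫ w F R - 2τ ∫ w F ≥ (c₀ θ/(2π) - 2 ∑|p_m| ε - 2 τ C₀) X`. `ε` with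
`2 ∑|p_m| ε ≤ c₀ θ/(8π)`, `c₁ = c₀/(4π)`. -/
def S_TrigL : Prop := ∀ c₀ C₀ : ℝ, 0 < c₀ → 0 < C₀ → ∃ c₁ : ℝ, 0 < c₁ ∧
  ∀ θ : ℝ, 0 < θ → θ ≤ Real.pi → ∃ (n : ℕ) (ε : ℝ), 0 < ε ∧
  ∀ w : ℝ → ℝ, Continuous w → HasCompactSupport w → (∀ u, 0 ≤ w u) →
  ∀ (X : ℝ) (f V A B Q : ℝ → ℂ), 0 ≤ X → Continuous f → Continuous V → Continuous A → Continuous B →
    Continuous Q → (∀ u, ‖V u‖ = 1) → (∀ u, (starRingEnd ℂ) (f u) = V u * f u) →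
    (∀ u, ‖A u‖ * ‖B u‖ = ‖Q u‖ ^ 2) → Hy w n c₀ C₀ ε X f V A B Q →
    ∀ ω : ℂ, ‖ω‖ = 1 → c₁ * θ * X ≤ ∫ u in sec θ ω f, w u * (‖f u‖ * (‖A u‖ * ‖B u‖))

/-- **T5 (TrigU).** `P = TP n p0 p` of T3 with `τ = θ/4`. Let `v(u) = conj(ω)² conj(V u)`, `|v| = 1`. Where `f u ≠ 0`,
`v = z²`, `z = conj ω f/‖f‖` (`(f/‖f‖)² = f/conj f = conj V`); in the sector `f u ≠ 0` and `cos θ < z.re`, so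
`1 ≤ P(v)+τ`; everywhere `0 ≤ P(v)+τ`. Hence
`∫_{sec} w G ≤ ∫ w G (P(v)+τ) ≤ (p0+τ) C₀ X + 2 ∑ |p_m| ε X ≤ (3/2) θ C₀ X + θ X` for small `ε`
(`∫ w G v^m = conj(ω)^(2m) conj ∫ w G V^m`). `C₁ = 2 C₀ + 1`. -/
def S_TrigU : Prop := ∀ C₀ : ℝ, 0 < C₀ → ∃ C₁ : ℝ, 0 < C₁ ∧
  ∀ θ : ℝ, 0 < θ → θ ≤ Real.pi → ∃ (n : ℕ) (ε : ℝ), 0 < ε ∧
  ∀ w : ℝ → ℝ, Continuous w → HasCompactSupport w → (∀ u, 0 ≤ w u) →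
  ∀ (X : ℝ) (f V : ℝ → ℂ) (G : ℝ → ℝ), 0 ≤ X → Continuous f → Continuous V → Continuous G →
    (∀ u, 0 ≤ G u) → (∀ u, ‖V u‖ = 1) → (∀ u, (starRingEnd ℂ) (f u) = V u * f u) →
    ∫ u : ℝ, w u * G u ≤ C₀ * X →
    (∀ a : ℕ, 1 ≤ a → a ≤ n → ‖∫ u : ℝ, (w u : ℂ) * (V u ^ a * (G u : ℂ))‖ ≤ ε * X) →
    ∀ ω : ℂ, ‖ω‖ = 1 → ∫ u in sec θ ω f, w u * G u ≤ C₁ * θ * X

/-! ### Three integrations by parts -/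

/-- **P1 (PsiD3).** `a = 4k+1`: `(1/(a²+4t²)²)' = -16t/(a²+4t²)³`, `(t²/(a²+4t²)³)' = 2t/(a²+4t²)³ - 24 t³/(a²+4t²)⁴`. -/
def S_PsiD3 : Prop := ∀ (n : ℕ) (t : ℝ), HasDerivAt (psi2 n) (psi3 n t) t ∧ Continuous (psi3 n)

/-- **P2 (PsiB3).** `∑ a/(a²+4t²)² ≤ C/t²` (contained in `WA/I_PsiB.lean`), and `1/(a²+4t²) ≤ 1/(4t²)`. -/
def S_PsiB3 : Prop := ∃ C : ℝ, 0 ≤ C ∧ ∀ t : ℝ, 1 ≤ t → ∀ n : ℕ, |psi3 n t| ≤ C / t ^ 3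

/-- **P3 (NS3).** As `S_NS` (adapt `WA/I_NS.lean`), three integrations by parts: `∫ w e^{ig} = (i/T)³ ∫ (((w/D)'/D)'/D)' e^{ig}`;
`w`, `w'`, `w''` vanish at `c`, at `1` and outside of `[c, 1]`. -/
def S_NS3 : Prop := ∀ w : ℝ → ℝ, IsW w → ∀ c C₁ : ℝ, 0 < c → 0 ≤ C₁ →
  (∀ u, w u ≠ 0 → c ≤ u ∧ u ≤ 1) → ∃ C : ℝ, 0 ≤ C ∧ ∀ T : ℝ, 0 < T → ∀ g D D1 D2 D3 : ℝ → ℝ,
  (∀ u, 0 < u → HasDerivAt g (T * D u) u) → (∀ u, 0 < u → HasDerivAt D (D1 u) u) →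
  (∀ u, 0 < u → HasDerivAt D1 (D2 u) u) → (∀ u, 0 < u → HasDerivAt D2 (D3 u) u) →
  ContinuousOn D3 (Ioi 0) →
  (∀ u, c ≤ u → u ≤ 1 → 1 ≤ D u ∧ |D1 u| ≤ C₁ ∧ |D2 u| ≤ C₁ ∧ |D3 u| ≤ C₁) →
    ‖∫ u : ℝ, (w u : ℂ) * Complex.exp (Complex.I * (g u : ℝ))‖ ≤ C / T ^ 3

/-- **P4 (Osc3).** As `S_Osc` (adapt `WA/I_Osc.lean`), with P1, P2, P3: `D3 = j T³ psi3 n (T u)`. -/
def S_Osc3 : Prop := ∀ w : ℝ → ℝ, IsW w → ∀ j : ℕ, 1 ≤ j → ∃ C T₀ : ℝ, 0 ≤ C ∧ 1 ≤ T₀ ∧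
  ∀ T : ℝ, T₀ ≤ T → ∀ lam : ℝ, -(1 / 2 * Real.log T) ≤ lam →
    ‖∫ u : ℝ, (w u : ℂ) * (U (T * u) ^ j * Complex.exp (Complex.I * (T * u * lam : ℝ)))‖ ≤
      C / T ^ 3

/-! ### Second moments with phase -/

/-- **Q1 (ZPK).** `StZ` with `K = T^(11/5)`, `t = T u`, `c T ≤ t ≤ T`: `t/√K ≤ T^(-1/10)`, `√K/t³ ≤ c⁻³ T^(-19/10)`. -/
def S_ZPK : Prop := ∀ w : ℝ → ℝ, IsW w → ∃ C T₀ : ℝ, 0 ≤ C ∧ 1 ≤ T₀ ∧ ∀ T : ℝ, T₀ ≤ T →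
  ∀ u : ℝ, w u ≠ 0 → ‖zt (T * u) - P (T ^ (11 / 5 : ℝ)) (T * u)‖ ≤ C / T ^ (1 / 10 : ℝ)

/-- **Q2 (OscZ2).** As `S_OscZ` (adapt `WA/I_OscZ.lean`). Replace `ζ²` by `P(K)²`, `K = T^(11/5)` (Q1; error
`≤ C T^(-1/10) ∫ w (2|ζ| + C) |A|² ≤ C' T^(-1/10) (∫ w |A|² + ∫ w |ζ|² |A|²) ≤ C'' T^(-1/10) log T · GS`, `S_MVb`, `S_TSb`,
`Q2 b X ≤ GS b X`). Expand `conj P² = ∑_{k₁,k₂} e^{-(k₁+k₂)/K} (k₁k₂)^(-1/2) e^{it log(k₁k₂)}`, `A conj A`: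
`lam = log(k₁ k₂ l/h) ≥ -(log T)/3`, each integral `≤ C/T³` (P4); `(∑_k e^{-k/K}/√k)² ≤ 4K` (`StPc`),
`(∑ b_h/√h)² ≤ X Q2 b X`; `T^(11/5 + 1/3 - 3) ≤ T^(-2/5)`. -/
def S_OscZ2 : Prop := ∀ w : ℝ → ℝ, IsW w → ∀ j : ℕ, 1 ≤ j → ∃ C T₀ : ℝ, 0 ≤ C ∧ 1 ≤ T₀ ∧
  ∀ T : ℝ, T₀ ≤ T → ∀ X : ℕ, (X : ℝ) ^ 3 ≤ T → ∀ b : ℕ → ℝ, b 0 = 0 → (∀ n, 0 ≤ b n) →
  ‖∫ u : ℝ, (w u : ℂ) * (U (T * u) ^ j * ((starRingEnd ℂ) (zt (T * u)) ^ 2 *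
      (DP b X (T * u) * (starRingEnd ℂ) (DP b X (T * u)))))‖ ≤ C / T ^ (1 / 20 : ℝ) * GS b X

/-- **Q3 (FM2).** Replace `ζ²` by `P(K)²` as in Q2. Expand: the integrals are `W w 0 (T log (l/(k₁k₂h)))`. Terms with
`k₁ k₂ h = l`: `W0 w ≤ 1`, `(k₁k₂hl)^(-1/2) = 1/l`, at most `d(l/h)` pairs `(k₁,k₂)`. Other terms:
`|log (l/(k₁k₂h))| ≥ 1/(2X) ≥ T^(-1/3)/2`, `|W| ≤ C T^(-4)` (`StW`, `A = 6`), total `≤ C T^(-4) 4K X Q2 b X`. -/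
def S_FM2 : Prop := ∀ w : ℝ → ℝ, IsW w → ∃ C T₀ : ℝ, 0 ≤ C ∧ 1 ≤ T₀ ∧
  ∀ T : ℝ, T₀ ≤ T → ∀ X : ℕ, (X : ℝ) ^ 3 ≤ T → ∀ b : ℕ → ℝ, b 0 = 0 → (∀ n, 0 ≤ b n) →
  ‖∫ u : ℝ, (w u : ℂ) * (zt (T * u) ^ 2 *
      (DP b X (T * u) * (starRingEnd ℂ) (DP b X (T * u))))‖ ≤
    (∑ l ∈ Finset.range (X + 1), b l / (l : ℝ) * ∑ h ∈ l.divisors,
      b h * ((l / h).divisors.card : ℝ)) + C / T ^ (1 / 20 : ℝ) * GS b X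

/-- **Q4 (UpF2).** `l = h n`: `b (hn) ≤ pe a' h pe a' n`; `pe a' h ² ≤ pe (a'²) h`, and `d(n) pe a' n ≤ pe (2a') n`
(`(v+1) a^v/v! ≤ (2a)^v/v!`). Then as `S_UpF` (`WA/I_UpF.lean`). -/
def S_UpF2 : Prop := ∀ (a' b : ℕ → ℝ) (z X : ℕ), (∀ p, 0 ≤ a' p) → (∀ p, z < p → a' p = 0) →
  (∀ n, 0 ≤ b n) → (∀ n, b n ≤ pe a' n) →
    ∑ l ∈ Finset.range (X + 1), b l / (l : ℝ) * ∑ h ∈ l.divisors,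
      b h * ((l / h).divisors.card : ℝ) ≤
      Real.exp (∑ p ∈ pr z, (2 * a' p + a' p ^ 2) / (p : ℝ))

/-- **Q5 (OscA).** Expand `A conj A`: `lam = log(l/h) ≥ -(log T)/3`, each integral `≤ C/T²` (`S_Osc`),
`(∑ |b_h|/√h)² ≤ X Q2 b X ≤ T Q2 b X`. -/
def S_OscA : Prop := ∀ w : ℝ → ℝ, IsW w → ∀ a : ℕ, 1 ≤ a → ∃ C T₀ : ℝ, 0 ≤ C ∧ 1 ≤ T₀ ∧
  ∀ T : ℝ, T₀ ≤ T → ∀ X : ℕ, (X : ℝ) ^ 3 ≤ T → ∀ b : ℕ → ℝ, b 0 = 0 →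
  ‖∫ u : ℝ, (w u : ℂ) * (U (T * u) ^ a *
      (DP b X (T * u) * (starRingEnd ℂ) (DP b X (T * u))))‖ ≤ C / T * Q2 b X

/-- **Q6 (Jah).** `b = CC q y z m (2j)`, `aM^(2m) aH^(2j) = DP b X conj (DP b X)` (`S_CCp`, `X = y^m z^(2j)`). First part: Q5 and
`S_Sq`. Second part: `U |ζ|² = conj (ζ²)`, Q3, Q4 and conjugation (`a = 1`); `U^(j'+1) |ζ|² = U^j' conj ζ²`, Q2
(`a = j'+1`); `GS b X ≤ exp(…)` by `S_Gcd`. The exponents `ab q y z m (2j)` are `m/q` for `p ≤ y` and `j` for `y < p ≤ z`.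
Compare `WA/I_Jbh.lean`. -/
def S_Jah : Prop := ∀ w : ℝ → ℝ, IsW w → ∀ a : ℕ, 1 ≤ a → ∃ C T₀ : ℝ, 0 ≤ C ∧ 3 ≤ T₀ ∧
  ∀ T : ℝ, T₀ ≤ T → ∀ q y z m j : ℕ, 1 ≤ q → y ≤ z → ((y ^ m * z ^ (2 * j) : ℕ) : ℝ) ^ 3 ≤ T →
    ‖∫ u : ℝ, (w u : ℂ) * (U (T * u) ^ a *
      ((aM q y (T * u) ^ (2 * m) * aH y z (T * u) ^ (2 * j) : ℝ) : ℂ))‖ ≤
        C / Real.log T * Real.exp (((m : ℝ) / q) ^ 2 * S1 y + (j : ℝ) ^ 2 * S2 y z) ∧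
    ‖∫ u : ℝ, (w u : ℂ) * (U (T * u) ^ a *
      ((az (T * u) ^ 2 * (aM q y (T * u) ^ (2 * m) * aH y z (T * u) ^ (2 * j)) : ℝ) : ℂ))‖ ≤
        C * Real.exp ((2 * ((m : ℝ) / q) + ((m : ℝ) / q) ^ 2) * S1 y +
          (2 * (j : ℝ) + (j : ℝ) ^ 2) * S2 y z)

/-- **Q7 (Jarc), moments in sectors.** `S_Jbh` gives the constant `C₀` of T5, T5 gives `C₁` and for `θ` the numbers `n`, `ε`; then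
Q6 for `1 ≤ a ≤ n`, `T₀` with `C/log T₀ ≤ ε` (`X` of T5 is the exponential, in the second case `log T` times the exponential).
`f(u) = zt (T u)`, `V(u) = U (T u)`, `S_UZ`. -/
def S_Jarc : Prop := ∀ w : ℝ → ℝ, IsW w → ∃ C₁ : ℝ, 0 < C₁ ∧ ∀ θ : ℝ, 0 < θ → θ ≤ Real.pi →
  ∃ T₀ : ℝ, ∀ T : ℝ, T₀ ≤ T → ∀ q y z m j : ℕ, 1 ≤ q → y ≤ z →
    ((y ^ m * z ^ (2 * j) : ℕ) : ℝ) ^ 3 ≤ T → ∀ ω : ℂ, ‖ω‖ = 1 →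
    ∫ u in sec θ ω (fun u => zt (T * u)), w u *
      (aM q y (T * u) ^ (2 * m) * aH y z (T * u) ^ (2 * j)) ≤
        C₁ * θ * Real.exp (((m : ℝ) / q) ^ 2 * S1 y + (j : ℝ) ^ 2 * S2 y z) ∧
    ∫ u in sec θ ω (fun u => zt (T * u)), w u *
      (az (T * u) ^ 2 * (aM q y (T * u) ^ (2 * m) * aH y z (T * u) ^ (2 * j))) ≤
        C₁ * θ * Real.log T * Real.exp ((2 * ((m : ℝ) / q) + ((m : ℝ) / q) ^ 2) * S1 y +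
          (2 * (j : ℝ) + (j : ℝ) ^ 2) * S2 y z)

/-! ### Conclusion -/

/-- **R1 (TenAbs).** The algebra of `S_TenRh` (adapt `WA/I_TenRh.lean`) for arbitrary `j0`, `j2` and a factor `κ`. -/
def S_TenAbs : Prop := ∀ (k : ℕ) (C : ℝ), 2 ≤ k → 1 ≤ C → ∃ C' T₀ : ℝ, 1 ≤ C' ∧
  ∀ T : ℝ, T₀ ≤ T → ∀ q y z m₁ : ℕ, IsPa k C T q y z → 1 ≤ m₁ → m₁ + q ≤ q * k →
  ∀ (κ : ℝ) (j0 j2 : ℕ → ℕ → ℝ), 0 < κ → (∀ m j : ℕ, m ≤ q * k + 1 → j ≤ k + 1 →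
    (m ≤ q * k ∨ j ≤ k) →
    j0 m j ≤ κ * Real.exp (((m : ℝ) / q) ^ 2 * S1 y + (j : ℝ) ^ 2 * S2 y z) ∧
    j2 m j ≤ κ * Real.log T *
      Real.exp ((2 * ((m : ℝ) / q) + ((m : ℝ) / q) ^ 2) * S1 y +
        (2 * (j : ℝ) + (j : ℝ) ^ 2) * S2 y z)) →
    UBm m₁ k q (κ * Xb k q y z m₁) (Real.exp (be q m₁ / q * S1 y)) ((q : ℝ) ^ (2 * k + 1)) C' j0 j2

/-- **R2 (ArcFu).** As `S_ArcF` (adapt `WA/I_ArcF.lean`): `S_Har` and T4. -/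
def S_ArcFu : Prop := ∀ w : ℝ → ℝ, IsW w → 0 < W0 w → ∀ (k : ℕ) (C : ℝ), 2 ≤ k → 1 ≤ C →
  ∃ c : ℝ, 0 < c ∧ ∀ θ : ℝ, 0 < θ → θ ≤ Real.pi → ∃ T₀ : ℝ, ∀ T : ℝ, T₀ ≤ T → ∀ q y z m₁ : ℕ,
    IsPa k C T q y z → 1 ≤ m₁ → m₁ + q ≤ q * k → ∀ ω : ℂ, ‖ω‖ = 1 →
      c * θ * Xb k q y z m₁ ≤ ∫ u in sec θ ω (fun u => zt (T * u)), w u * (az (T * u) *
        (aM q y (T * u) ^ (2 * m₁ + q) * aH y z (T * u) ^ (2 * k - 1)))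

/-- **R3 (WinAu), lower bound at scale `T`.** As `S_WinA` (adapt `WA/I_WinA.lean`): `m₁ = q(k-1)`, `ν = w 1_sec du`; Q7 and R1 with
`κ = C₁ θ` give `UBm` with `X = C₁ θ Xb`, R2 gives `(c/C₁) X ≤ ∫ F dν`: so `A, η, κ` of `S_FinG` do not depend on `θ`. On the set of
`S_FinG`: `φ ≤ A (m^q r)` and the window by `S_GWr`, `F ≤ η^(-(2k-1)) φ^(2k)`; `Xb ≥ c (log T)^(k²)`. -/
def S_WinAu : Prop := ∀ w : ℝ → ℝ, IsW w → 0 < W0 w → ∀ (k : ℕ) (C : ℝ), 2 ≤ k → 1 ≤ C →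
  ∃ c C' : ℝ, 0 < c ∧ 1 ≤ C' ∧ ∀ θ : ℝ, 0 < θ → θ ≤ Real.pi → ∃ T₀ : ℝ, ∀ T : ℝ, T₀ ≤ T →
    ∀ q y z : ℕ, IsPa k C T q y z → ∀ ω : ℂ, ‖ω‖ = 1 → c * θ * Real.log T ^ (k ^ 2) ≤
      ∫ u in ({u | w u ≠ 0} ∩ sec θ ω (fun u => zt (T * u))) ∩
        {u | az (T * u) ≤ C' * (aM q y (T * u) ^ q * aH y z (T * u)) ∧
          |Real.log (az (T * u)) - k * Real.log (Real.log T)| ≤
            C' * Real.sqrt (Real.log (Real.log T))}, az (T * u) ^ (2 * k)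

/-- **R4 (UpAu), upper bound at scale `T`.** On the set `az^(2k) ≤ A^(2k-2) az² (aM^q aH)^(2k-2)`; Q7 with `m = q(k-1)`,
`j = k-1`: `log T · exp((k²-1)(S1+S2)) ≤ C (log T)^(k²)` (`S_Num`). Compare `WM/I_UpS.lean`. -/
def S_UpAu : Prop := ∀ w : ℝ → ℝ, IsW w → ∀ (k : ℕ) (C : ℝ), 2 ≤ k → 1 ≤ C →
  ∃ C' : ℝ, 1 ≤ C' ∧ ∀ θ : ℝ, 0 < θ → θ ≤ Real.pi → ∃ T₀ : ℝ, ∀ T : ℝ, T₀ ≤ T →
    ∀ q y z : ℕ, IsPa k C T q y z → ∀ ω : ℂ, ‖ω‖ = 1 → ∀ A : ℝ, 1 ≤ A →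
      ∫ u in sec θ ω (fun u => zt (T * u)) ∩
        {u | az (T * u) ≤ A * (aM q y (T * u) ^ q * aH y z (T * u))},
        w u * az (T * u) ^ (2 * k) ≤ C' * A ^ (2 * k - 2) * θ * Real.log T ^ (k ^ 2)

/-- **R5 (MainB), the final theorem.** For all large `T` choose the parameters `(q,y,z)` of `S_ParA` at the scale `4T`;
`X T = y^q z²`, `a T = CC q y z q 2` (`0 ≤ a ≤ pe (ab q y z q 2) ≤ 1`, `‖DP‖ = aM^q aH` by `S_CCp`), zero for the other `T`.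
`(y^q z²)^6 ≤ y^(6q) z^18 ≤ (y^(qk+1) z^(2(k+1)))³ ≤ 4T`, so `X T ≤ (4T)^(1/6) ≤ T^(1/5)`. Then R3 (weight `w₁` of `S_Wts`) and R4
(weight `w₂`, equal to `1` on `[1/4, 1/2]`), `t = 4T u`; compare `WA/I_MainA.lean`, `WM/I_Sca.lean`. -/
def S_MainB : Prop := ∀ k : ℕ, 2 ≤ k → ∃ (c C : ℝ) (X : ℝ → ℕ) (a : ℝ → ℕ → ℝ), 0 < c ∧ 1 ≤ C ∧
  ∀ θ : ℝ, 0 < θ → θ ≤ Real.pi → ∀ᶠ T : ℝ in atTop,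
    (X T : ℝ) ≤ T ^ (1 / 5 : ℝ) ∧ (∀ n, 0 ≤ a T n ∧ a T n ≤ 1) ∧
    ∀ ω : ℂ, ‖ω‖ = 1 →
      (c * θ * T * Real.log T ^ (k ^ 2) ≤ ∫ t in {t | t ∈ Icc T (2 * T) ∧
        Real.cos θ * az t < ((starRingEnd ℂ) ω * zt t).re ∧ az t ≤ C * ‖DP (a T) (X T) t‖ ∧
        |Real.log (az t) - k * Real.log (Real.log T)| ≤ C * Real.sqrt (Real.log (Real.log T))},
          az t ^ (2 * k)) ∧
      ∀ A : ℝ, 1 ≤ A → ∫ t in {t | t ∈ Icc T (2 * T) ∧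
        Real.cos θ * az t < ((starRingEnd ℂ) ω * zt t).re ∧ az t ≤ A * ‖DP (a T) (X T) t‖},
          az t ^ (2 * k) ≤ C * A ^ (2 * k - 2) * θ * T * Real.log T ^ (k ^ 2)

end Pool.Agent.Work.MP_56b8f5_nt.WA
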