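import Pool.Agent.Work.MP_56b8f5_nt.WA.I_Har

/-!
MP_56b8f5_nt, block WA (window theorem in sectors), item D9 (ArcF): sectors for `F` at scale `T`.
-/

set_option autoImplicit false

open MeasureTheory Set Filter Topology

noncomputable section

namespace Pool.Agent.Work.MP_56b8f5_nt.WA

open Pool.Agent.Work.MP_56b8f5_nt.EM
open Pool.Agent.Work.MP_56b8f5_nt.WM

namespace I_ArcF

theorem nMH (q y z m j : ℕ) (t : ℝ) :
    ‖MH q y z m j t‖ = aM q y t ^ m * ‖DP (uh y z) z t‖ ^ j := by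
  unfold MH aM
  rw [norm_mul, norm_pow, norm_pow]

/-- `‖A‖ ‖B‖` in terms of `aM` and `aH`. -/
theorem nAB {q y z m₁ k : ℕ} (hk : 2 ≤ k) (t : ℝ) :
    ‖MH q y z m₁ (2 * (k - 1)) t‖ * ‖MH q y z (m₁ + q) (2 * k) t‖ =
      aM q y t ^ (2 * m₁ + q) * aH y z t ^ (2 * k - 1) := by
  rw [nMH, nMH]
  unfold aH
  have h1 : 2 * (2 * k - 1) = 2 * (k - 1) + 2 * k := by omega
  rw [← pow_mul, h1, show 2 * m₁ + q = m₁ + (m₁ + q) by ring, pow_add _ m₁ (m₁ + q),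
    pow_add _ (2 * (k - 1)) (2 * k)]
  ring

theorem nQ {q y z m₁ k : ℕ} (hq : 2 ∣ q) (hk : 2 ≤ k) (t : ℝ) :
    ‖MH q y z m₁ (2 * (k - 1)) t‖ * ‖MH q y z (m₁ + q) (2 * k) t‖ =
      ‖MH q y z (m₁ + q / 2) (2 * k - 1) t‖ ^ 2 := by
  rw [nAB hk, nMH]
  unfold aH
  obtain ⟨r, rfl⟩ := hq
  rw [Nat.mul_div_cancel_left r (by norm_num : 0 < 2), mul_pow, ← pow_mul, ← pow_mul, ← pow_mul]
  congr 2
  · ring
  · ring

end I_ArcF

open I_ArcF in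
/-- **D9 (ArcF).** -/
theorem ArcF_pf (h1 : S_Har) (h2 : S_Trig) (h3 : S_UZ) : S_ArcF := by
  intro w hw hW k C δ hk hC hδ
  obtain ⟨c₀, C₀, hc₀, hC₀, H⟩ := h1 w hw hW k C hk hC
  obtain ⟨n, ε, c₁, hε, hc₁, Ht⟩ := h2 δ c₀ C₀ hδ hc₀ hC₀
  obtain ⟨T₀, HT⟩ := H n ε hε
  refine ⟨c₁, T₀, hc₁, fun T hT q y z m₁ hp hm₁ hm₁k ω hω => ?_⟩
  have hcont : Continuous fun u : ℝ => T * u := continuous_const.mul continuous_id
  have hX : 0 ≤ Xb k q y z m₁ := (Real.exp_pos _).le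
  have h := Ht w hw.smooth.continuous (I_Har.hcs hw) hw.nonneg (Xb k q y z m₁)
    (fun u => zt (T * u)) (fun u => U (T * u))
    (fun u => MH q y z m₁ (2 * (k - 1)) (T * u)) (fun u => MH q y z (m₁ + q) (2 * k) (T * u))
    (fun u => MH q y z (m₁ + q / 2) (2 * k - 1) (T * u)) hX
    (h3.2.1.comp hcont) (h3.1.comp hcont)
    ((I_Har.cMH q y z m₁ (2 * (k - 1))).comp hcont)
    ((I_Har.cMH q y z (m₁ + q) (2 * k)).comp hcont)
    ((I_Har.cMH q y z (m₁ + q / 2) (2 * k - 1)).comp hcont)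
    (fun u => h3.2.2.1 _) (fun u => h3.2.2.2 _) (fun u => nQ hp.hev hk _)
    (HT T hT q y z m₁ hp hm₁ hm₁k) ω hω
  refine h.trans (le_of_eq ?_)
  congr 1
  funext u
  rw [nAB hk]
  rfl

end Pool.Agent.Work.MP_56b8f5_nt.WA
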