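import Pool.Agent.Work.MP_56b8f5_nt.WA.Stmts
import Pool.Agent.Work.MP_56b8f5_nt.WM.I_BBp

/-!
MP_56b8f5_nt, block WA, item A1 (CCp): the coefficients of `M^m H^j`.
-/

set_option autoImplicit false

open Finset

noncomputable section

namespace Pool.Agent.Work.MP_56b8f5_nt.WA

open Pool.Agent.Work.MP_56b8f5_nt.EM
open Pool.Agent.Work.MP_56b8f5_nt.WM

open WM.I_BBp in
/-- **A1.** The coefficients of `M^m H^j`. -/
theorem CCp_pf (h1 : S_PeMul) (h2 : S_PeBas) : S_CCp := by
  intro q y z m j hq hyz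
  have hq0 : (0 : ℝ) < q := by exact_mod_cast hq
  -- the two local exponents
  set aM : ℕ → ℝ := fun p => if p ≤ y then 1 / (q : ℝ) else 0 with haM
  set aR : ℕ → ℝ := fun p => if y < p ∧ p ≤ z then 1 / 2 else 0 with haR
  have hM0 : ∀ p, 0 ≤ aM p := by
    intro p
    simp only [haM]
    split_ifs
    · positivity
    · exact le_rfl
  have hR0 : ∀ p, 0 ≤ aR p := by
    intro p
    simp only [haR]
    split_ifs
    · norm_num
    · exact le_rfl
  have hum : ∀ n, 0 ≤ um q y n ∧ um q y n ≤ pa aM n := by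
    intro n
    show 0 ≤ (if n ≤ y then pe aM n else 0) ∧ (if n ≤ y then pe aM n else 0) ≤ pe aM n
    have := (h2 aM hM0).1 n
    split_ifs
    · exact ⟨this, le_rfl⟩
    · exact ⟨le_rfl, this⟩
  have hur : ∀ n, 0 ≤ uh y z n ∧ uh y z n ≤ pa aR n := by
    intro n
    show 0 ≤ (if n ≤ z then pe aR n else 0) ∧ (if n ≤ z then pe aR n else 0) ≤ pe aR n
    have := (h2 aR hR0).1 n
    split_ifs
    · exact ⟨this, le_rfl⟩
    · exact ⟨le_rfl, this⟩
  have hums : ∀ n, um q y n ≠ 0 → n ≤ y := by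
    intro n h
    by_contra hn
    exact h (if_neg hn)
  have hurs : ∀ n, uh y z n ≠ 0 → n ≤ z := by
    intro n h
    by_contra hn
    exact h (if_neg hn)
  -- the product of the two powers
  have hprod : pa (ab q y z m j) = pa aM ^ m * pa aR ^ j := by
    rw [← pa_pow h1 h2, ← pa_pow h1 h2, ← h1.2]
    congr 1
    funext p
    simp only [haM, haR, ab]
    by_cases hp : p ≤ y
    · rw [if_pos hp, if_pos hp, if_neg (by omega)]
      ring
    · rw [if_neg hp, if_neg hp]
      by_cases hpz : p ≤ z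
      · rw [if_pos hpz, if_pos ⟨by omega, hpz⟩]
        ring
      · rw [if_neg hpz, if_neg (by omega)]
        ring
  have part1 : ∀ n, 0 ≤ CC q y z m j n ∧ CC q y z m j n ≤ pe (ab q y z m j) n := by
    intro n
    have h := mul_mono (pow_mono hum m) (pow_mono hur j) n
    rw [← hprod] at h
    exact h
  have ha0 : ∀ p, 0 ≤ ab q y z m j p := by
    intro p
    simp only [ab]
    split_ifs <;> positivity
  refine ⟨part1, ?_, ?_, ?_⟩
  · exact supp_mul (supp_pow hums m) (supp_pow hurs j)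
  · intro n₁ n₂ hn1 hn1y hn2 hn2z hp
    apply le_antisymm (part1 _).2
    have hcop : Nat.Coprime n₁ n₂ := by
      apply Nat.Coprime.symm
      apply Nat.Coprime.symm
      apply Nat.coprime_of_dvd
      intro p hpp hd1 hd2
      have e1 := hp p hpp hd2
      have e2 := Nat.le_of_dvd hn1 hd1
      omega
    obtain ⟨-, -, -, e4, -, e6, -⟩ := h2 _ ha0
    rw [e6 _ _ hcop]
    have f1 : pe (ab q y z m j) n₁ = ((um q y) ^ m) n₁ := by
      have g1 : pe (ab q y z m j) n₁ = pe (fun p => (m : ℝ) * aM p) n₁ := by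
        apply e4
        intro p _ hd
        have hpy : p ≤ y := (Nat.le_of_dvd hn1 hd).trans hn1y
        simp only [ab, haM, if_pos hpy]
        ring
      rw [g1]
      show pa (fun p => (m : ℝ) * aM p) n₁ = _
      rw [pa_pow h1 h2]
      refine (pow_congr ?_ m n₁ dvd_rfl).symm
      intro d hd
      exact if_pos ((Nat.le_of_dvd hn1 hd).trans hn1y)
    have f2 : pe (ab q y z m j) n₂ = ((uh y z) ^ j) n₂ := by
      have g1 : pe (ab q y z m j) n₂ = pe (fun p => (j : ℝ) * aR p) n₂ := by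
        apply e4
        intro p hpp hd
        have hpz : p ≤ z := (Nat.le_of_dvd hn2 hd).trans hn2z
        have hpy : y < p := hp p hpp hd
        simp only [ab, haR, if_neg (not_le.2 hpy), if_pos hpz, if_pos (⟨hpy, hpz⟩ : y < p ∧ p ≤ z)]
        ring
      rw [g1]
      show pa (fun p => (j : ℝ) * aR p) n₂ = _
      rw [pa_pow h1 h2]
      refine (pow_congr ?_ j n₂ dvd_rfl).symm
      intro d hd
      exact if_pos ((Nat.le_of_dvd hn2 hd).trans hn2z)
    rw [f1, f2]
    show _ ≤ ((um q y) ^ m * (uh y z) ^ j) (n₁ * n₂)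
    rw [ArithmeticFunction.mul_apply]
    refine Finset.single_le_sum (f := fun x : ℕ × ℕ => ((um q y) ^ m) x.1 * ((uh y z) ^ j) x.2)
      (fun x _ => mul_nonneg (pow_mono hum m _).1 (pow_mono hur j _).1) (a := (n₁, n₂)) ?_
    rw [Nat.mem_divisorsAntidiagonal]
    refine ⟨rfl, mul_ne_zero (by omega) (by omega)⟩
  · intro X hX t
    show DP ((um q y) ^ m * (uh y z) ^ j : ArithmeticFunction ℝ) X t = _
    rw [DP_mul (supp_pow hums m) (supp_pow hurs j) hX t, DP_pow hums t m, DP_pow hurs t j]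
    rfl

end Pool.Agent.Work.MP_56b8f5_nt.WA
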