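import Pool.Agent.Work.MP_56b8f5_nt.WA.Stmts
import Mathlib.NumberTheory.Harmonic.ZetaAsymp

/-!
MP_56b8f5_nt, block WA, item B0 (Conj): zeta commutes with complex conjugation.
-/

set_option autoImplicit false

noncomputable section

namespace Pool.Agent.Work.MP_56b8f5_nt.WA

/-- **B0 (Conj).** -/
theorem Conj_pf : S_Conj := fun s _ => riemannZeta_conj s

end Pool.Agent.Work.MP_56b8f5_nt.WA
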