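import Pool.Agent.Work.MP_56b8f5_nt.WA.Stmts
import Pool.Agent.Work.MP_56b8f5_nt.WM.I_FMb

/-!
MP_56b8f5_nt, block WA: item C1 (FMr), the twisted first moment: lower bound of the real part and upper bound of the
absolute value.
-/

set_option autoImplicit false

open MeasureTheory Set Filter Topology

noncomputable section

namespace Pool.Agent.Work.MP_56b8f5_nt.WA

open Pool.Agent.Work.MP_56b8f5_nt.EM
open Pool.Agent.Work.MP_56b8f5_nt.WM

namespace I_FMr

open Pool.Agent.Work.MP_56b8f5_nt.WM.I_FMb (hcs intw ne0 cDP cs Q2nn l1 loglow diag)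

theorem czt : Continuous zt := by
  unfold zt
  rw [continuous_iff_continuousAt]
  intro t
  have h1 : (1 / 2 + (t : ℂ) * Complex.I) ≠ 1 := by
    intro h
    have h1 := congrArg Complex.re h
    norm_num at h1
  have h2 : ContinuousAt riemannZeta (1 / 2 + (t : ℂ) * Complex.I) :=
    (differentiableAt_riemannZeta h1).continuousAt
  exact ContinuousAt.comp (f := fun t : ℝ => (1 / 2 + (t : ℂ) * Complex.I)) h2 (by fun_prop)

theorem intwc {w : ℝ → ℝ} (hw : IsW w) {f : ℝ → ℂ} (hf : Continuous f) :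
    Integrable (fun u => (w u : ℂ) * f u) := by
  have h1 : Continuous fun u => (w u : ℂ) := Complex.continuous_ofReal.comp hw.smooth.continuous
  have h2 : HasCompactSupport fun u => (w u : ℂ) := by
    obtain ⟨c, _, h⟩ := hw.supp
    apply HasCompactSupport.intro (isCompact_Icc (a := c) (b := 1))
    intro x hx
    by_contra hne
    apply hx
    apply h x
    intro h0
    apply hne
    rw [h0]
    simp
  exact (h1.mul hf).integrable_of_hasCompactSupport (h2.mul_right)

/-- the inner sum over `k` -/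
theorem inner' (hW : StW) (hP : StPc) (w : ℝ → ℝ) (hw : IsW w) (C2 : ℝ)
    (hC2 : ∀ y, ‖W w 0 y‖ ≤ C2 / (1 + |y|) ^ 6) (hC : 0 ≤ C2) (T : ℝ) (hT : 1 ≤ T) (X : ℕ)
    (hX : (X : ℝ) ^ 3 ≤ T) (l h : ℕ) (hl : 1 ≤ l) (hlX : l ≤ X) (hh : 1 ≤ h) :
    ‖(∑' k : ℕ, ((Real.exp (-((k : ℝ) / T ^ 3)) / Real.sqrt k : ℝ) : ℂ) *
          W w 0 (T * Real.log ((l : ℝ) / ((k : ℝ) * h)))) -
      ((if h ∣ l then Real.exp (-(((l / h : ℕ) : ℝ) / T ^ 3)) / Real.sqrt ((l / h : ℕ) : ℝ) * W0 w
        else 0 : ℝ) : ℂ)‖ ≤ 128 * C2 / T ^ 2 := by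
  classical
  have hK : (1 : ℝ) ≤ T ^ 3 := one_le_pow₀ hT
  obtain ⟨-, -, -, hsum, hsle⟩ := hP (T ^ 3) hK
  obtain ⟨-, -, hWle, hW0, hW0n, hW01⟩ := hW w hw
  set g : ℕ → ℝ := fun k => Real.exp (-((k : ℝ) / T ^ 3)) / Real.sqrt k with hg
  have hgn : ∀ k, 0 ≤ g k := fun k => by positivity
  set f : ℕ → ℂ := fun k => ((g k : ℝ) : ℂ) * W w 0 (T * Real.log ((l : ℝ) / ((k : ℝ) * h))) with hf
  set e : ℕ → ℂ := fun k => if k * h = l then ((g k * W0 w : ℝ) : ℂ) else 0 with he
  set D : ℝ := 64 * C2 / T ^ 4 with hD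
  have hDn : 0 ≤ D := by positivity
  have hT0 : 0 < T := by linarith
  have hdiff : ∀ k, ‖f k - e k‖ ≤ g k * D := by
    intro k
    rcases Nat.eq_zero_or_pos k with hk0 | hk0
    · subst hk0
      have hg0 : g 0 = 0 := by
        simp [hg]
      have h1 : e 0 = 0 := by
        simp only [he]
        rw [if_neg (by omega)]
      have h2 : f 0 = 0 := by
        simp only [hf]
        rw [hg0]
        simp
      rw [h1, h2, hg0]
      simp
    · by_cases hkl : k * h = l
      · have h1 : (l : ℝ) / ((k : ℝ) * h) = 1 := by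
          rw [← hkl]
          push_cast
          apply div_self
          positivity
        have h2 : f k - e k = 0 := by
          simp only [hf, he]
          rw [if_pos hkl, h1, Real.log_one, mul_zero, hW0]
          push_cast
          ring
        rw [h2, norm_zero]
        exact mul_nonneg (hgn k) hDn
      · have h1 : e k = 0 := by
          simp only [he]
          rw [if_neg hkl]
        rw [h1, sub_zero]
        simp only [hf]
        rw [norm_mul, Complex.norm_real, Real.norm_of_nonneg (hgn k)]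
        apply mul_le_mul_of_nonneg_left _ (hgn k)
        refine (hC2 _).trans ?_
        have h3 := loglow X l h k hl hlX hh hk0 hkl
        rw [abs_mul, abs_of_pos hT0]
        have hX1 : 1 ≤ X := hl.trans hlX
        have hX' : (1 : ℝ) ≤ X := by exact_mod_cast hX1
        have h4 : T / (2 * (X : ℝ)) ≤ 1 + T * |Real.log ((l : ℝ) / ((k : ℝ) * h))| := by
          have h5 := mul_le_mul_of_nonneg_left h3 hT0.le
          have h6 : T * (1 / (2 * (X : ℝ))) = T / (2 * (X : ℝ)) := by ring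
          linarith
        have h5 : (T / (2 * (X : ℝ))) ^ 6 ≤ (1 + T * |Real.log ((l : ℝ) / ((k : ℝ) * h))|) ^ 6 :=
          pow_le_pow_left₀ (by positivity) h4 6
        have h6 : T ^ 4 / 64 ≤ (T / (2 * (X : ℝ))) ^ 6 := by
          have h7 : (X : ℝ) ^ 6 ≤ T ^ 2 := by
            have := pow_le_pow_left₀ (by positivity) hX 2
            calc (X : ℝ) ^ 6 = ((X : ℝ) ^ 3) ^ 2 := by ring
              _ ≤ T ^ 2 := this
          rw [div_pow, mul_pow, div_le_div_iff₀ (by norm_num) (by positivity)]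
          calc T ^ 4 * (2 ^ 6 * (X : ℝ) ^ 6) ≤ T ^ 4 * (2 ^ 6 * T ^ 2) := by
                gcongr
            _ = T ^ 6 * 64 := by ring
        have h7 : T ^ 4 / 64 ≤ (1 + T * |Real.log ((l : ℝ) / ((k : ℝ) * h))|) ^ 6 := h6.trans h5
        rw [hD]
        calc C2 / (1 + T * |Real.log ((l : ℝ) / ((k : ℝ) * h))|) ^ 6 ≤ C2 / (T ^ 4 / 64) := by
              apply div_le_div_of_nonneg_left hC (by positivity) h7
          _ = 64 * C2 / T ^ 4 := by
              field_simp
  have hsf : Summable f := by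
    apply Summable.of_norm_bounded (g := fun k => g k * W0 w) (hsum.mul_right _)
    intro k
    simp only [hf]
    rw [norm_mul, Complex.norm_real, Real.norm_of_nonneg (hgn k)]
    exact mul_le_mul_of_nonneg_left (hWle _) (hgn k)
  have hsd : Summable fun k => f k - e k :=
    Summable.of_norm_bounded (g := fun k => g k * D) (hsum.mul_right _) hdiff
  have hse : Summable e := by
    have := hsf.sub hsd
    simpa using this
  have h1 : ∑' k, f k = ∑' k, e k + ∑' k, (f k - e k) := by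
    rw [← Summable.tsum_add hse hsd]
    congr 1
    funext k
    ring
  have h2 : ‖∑' k, (f k - e k)‖ ≤ 128 * C2 / T ^ 2 := by
    have h3 : ‖∑' k, (f k - e k)‖ ≤ ∑' k, g k * D :=
      tsum_of_norm_bounded (hsum.mul_right D).hasSum hdiff
    rw [tsum_mul_right] at h3
    have h4 : ∑' k, g k ≤ 2 * T ^ 2 := by
      refine hsle.trans ?_
      have h5 : Real.sqrt (T ^ 3) ≤ T ^ 2 := by
        rw [Real.sqrt_le_left (by positivity)]
        have : T ^ 3 ≤ T ^ 4 := pow_le_pow_right₀ hT (by norm_num)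
        calc T ^ 3 ≤ T ^ 4 := this
          _ = (T ^ 2) ^ 2 := by ring
      linarith
    calc ‖∑' k, (f k - e k)‖ ≤ (∑' k, g k) * D := h3
      _ ≤ (2 * T ^ 2) * D := mul_le_mul_of_nonneg_right h4 hDn
      _ = 128 * C2 / T ^ 2 := by
          rw [hD]
          field_simp
          ring
  have h3 : (∑' k, e k) = ((if h ∣ l then Real.exp (-(((l / h : ℕ) : ℝ) / T ^ 3)) /
      Real.sqrt ((l / h : ℕ) : ℝ) * W0 w else 0 : ℝ) : ℂ) := by
    by_cases hd : h ∣ l
    · rw [if_pos hd]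
      have h4 : ∑' k, e k = e (l / h) := by
        apply tsum_eq_single
        intro k hk
        simp only [he]
        rw [if_neg]
        intro hkl
        apply hk
        rw [← hkl]
        exact (Nat.mul_div_cancel k hh).symm
      rw [h4]
      simp only [he]
      rw [if_pos (Nat.div_mul_cancel hd)]
    · rw [if_neg hd]
      have h4 : ∀ k, e k = 0 := by
        intro k
        simp only [he]
        rw [if_neg]
        intro hkl
        exact hd ⟨k, by rw [← hkl]; ring⟩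
      rw [tsum_congr h4, tsum_zero, Complex.ofReal_zero]
  have h6 : (∑' k : ℕ, ((Real.exp (-((k : ℝ) / T ^ 3)) / Real.sqrt k : ℝ) : ℂ) *
          W w 0 (T * Real.log ((l : ℝ) / ((k : ℝ) * h)))) = ∑' k, f k := rfl
  rw [h6, ← h3, h1, add_sub_cancel_left]
  exact h2

/-- the diagonal terms from above -/
theorem diagU (T : ℝ) (hT : 2 ≤ T) (l h : ℕ) (hl : 1 ≤ l) (hh : 1 ≤ h) (hd : h ∣ l) :
    1 / Real.sqrt ((h : ℝ) * l) *
      (Real.exp (-(((l / h : ℕ) : ℝ) / T ^ 3)) / Real.sqrt ((l / h : ℕ) : ℝ)) ≤ 1 / (l : ℝ) := by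
  have hl' : (1 : ℝ) ≤ l := by exact_mod_cast hl
  have hh' : (1 : ℝ) ≤ h := by exact_mod_cast hh
  obtain ⟨k, rfl⟩ := hd
  have hk : 1 ≤ k := by
    rcases Nat.eq_zero_or_pos k with h0 | h0
    · subst h0
      simp at hl
    · exact h0
  have hk' : (1 : ℝ) ≤ k := by exact_mod_cast hk
  rw [Nat.mul_div_cancel_left k hh]
  have h1 : Real.sqrt ((h : ℝ) * ((h * k : ℕ) : ℝ)) * Real.sqrt (k : ℝ) = ((h * k : ℕ) : ℝ) := by
    rw [← Real.sqrt_mul (by positivity)]
    have : (h : ℝ) * ((h * k : ℕ) : ℝ) * (k : ℝ) = ((h * k : ℕ) : ℝ) ^ 2 := by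
      push_cast
      ring
    rw [this, Real.sqrt_sq (by positivity)]
  have h3 : Real.exp (-((k : ℝ) / T ^ 3)) ≤ 1 := by
    rw [Real.exp_le_one_iff]
    have : 0 ≤ (k : ℝ) / T ^ 3 := by positivity
    linarith
  have h4 : 1 / Real.sqrt ((h : ℝ) * ((h * k : ℕ) : ℝ)) *
      (Real.exp (-((k : ℝ) / T ^ 3)) / Real.sqrt (k : ℝ)) =
      Real.exp (-((k : ℝ) / T ^ 3)) * (1 / ((h * k : ℕ) : ℝ)) := by
    rw [div_mul_div_comm, h1, one_mul]
    ring
  rw [h4]
  have h5 : (0 : ℝ) ≤ 1 / ((h * k : ℕ) : ℝ) := by positivity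
  have h6 := mul_le_mul_of_nonneg_right h3 h5
  linarith

/-- The sum over divisors as a sum over a square. -/
theorem sumdiv (X : ℕ) (c : ℝ) (a b : ℕ → ℝ) :
    ∑ l ∈ Finset.range (X + 1), ∑ h ∈ Finset.range (X + 1),
      (if h ∣ l ∧ l ≠ 0 then c * (b l / (l : ℝ) * a h) else 0) =
      c * ∑ l ∈ Finset.range (X + 1), b l / (l : ℝ) * ∑ h ∈ l.divisors, a h := by
  classical
  rw [Finset.mul_sum]
  apply Finset.sum_congr rfl
  intro l hl
  rw [Finset.mul_sum, Finset.mul_sum, ← Finset.sum_filter]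
  apply Finset.sum_congr
  · ext h
    rw [Finset.mem_filter, Nat.mem_divisors, Finset.mem_range]
    constructor
    · rintro ⟨_, h2⟩
      exact h2
    · rintro ⟨h2, h3⟩
      refine ⟨?_, h2, h3⟩
      have h4 := Nat.le_of_dvd (Nat.pos_of_ne_zero h3) h2
      have h5 := Finset.mem_range.1 hl
      omega
  · intro h _
    rfl

end I_FMr

open I_FMr in
open Pool.Agent.Work.MP_56b8f5_nt.WM.I_FMb (hcs intw ne0 cDP cs Q2nn l1 loglow diag) in
/-- **C1 (FMr).** -/
theorem FMr_pf (hW : StW) (hP : StPc) (h0 : S_ZP) (h1 : S_MVb) (hx : S_FMx) : S_FMr := by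
  classical
  intro w hw hW0pos
  obtain ⟨C0, T0, hC0, hT0, hz⟩ := h0 w hw
  obtain ⟨C1, hC1, hm⟩ := h1 w hw
  obtain ⟨C2, hC2, hd⟩ := (hW w hw).2.1 0 6
  have hW01 : W0 w ≤ 1 := (hW w hw).2.2.2.2.2
  refine ⟨W0 w / 2, C0 * C1 + 256 * C2, max T0 2, by positivity, by positivity,
    hT0.trans (le_max_left _ _), ?_⟩
  intro T hT X hX a b ha0 hb0 ha hb
  have hTT0 : T0 ≤ T := (le_max_left _ _).trans hT
  have hT2 : 2 ≤ T := (le_max_right _ _).trans hT
  have hT1 : 1 ≤ T := by linarith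
  have hTpos : 0 < T := by linarith
  have hK : (1 : ℝ) ≤ T ^ 3 := one_le_pow₀ hT1
  have hQa := Q2nn a X
  have hQb := Q2nn b X
  set Q : ℝ := Real.sqrt (Q2 a X) * Real.sqrt (Q2 b X) with hQ
  have hQn : 0 ≤ Q := by positivity
  -- continuity
  have hA : Continuous fun u : ℝ => DP a X (T * u) :=
    (cDP a X).comp (continuous_const.mul continuous_id)
  have hB : Continuous fun u : ℝ => DP b X (T * u) :=
    (cDP b X).comp (continuous_const.mul continuous_id)
  have hZ : Continuous fun u : ℝ => zt (T * u) := czt.comp (continuous_const.mul continuous_id)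
  have hPc : Continuous fun u : ℝ => P (T ^ 3) (T * u) :=
    (hP (T ^ 3) hK).1.comp (continuous_const.mul continuous_id)
  have hBc : Continuous fun u : ℝ => (starRingEnd ℂ) (DP b X (T * u)) :=
    Complex.continuous_conj.comp hB
  have hAn := hA.norm
  have hBn := hB.norm
  set I1 : ℂ := ∫ u : ℝ, (w u : ℂ) * (zt (T * u) * (DP a X (T * u) *
      (starRingEnd ℂ) (DP b X (T * u)))) with hI1
  set I2 : ℂ := ∫ u : ℝ, (w u : ℂ) * (P (T ^ 3) (T * u) * (DP a X (T * u) *
      (starRingEnd ℂ) (DP b X (T * u)))) with hI2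
  -- step 1
  have s2 := cs hw C1 T X a b hC1 (hm T hT1 X hX a ha0) (hm T hT1 X hX b hb0) hQa hQb
  rw [← hQ] at s2
  have s1 : ‖I1 - I2‖ ≤ C0 / Real.sqrt T * (C1 * Q) := by
    have i1 : Integrable (fun u : ℝ => (w u : ℂ) * (zt (T * u) * (DP a X (T * u) *
      (starRingEnd ℂ) (DP b X (T * u))))) := intwc hw (hZ.mul (hA.mul hBc))
    have i2 : Integrable (fun u : ℝ => (w u : ℂ) * (P (T ^ 3) (T * u) * (DP a X (T * u) *
      (starRingEnd ℂ) (DP b X (T * u))))) := intwc hw (hPc.mul (hA.mul hBc))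
    rw [hI1, hI2, ← integral_sub i1 i2]
    refine (norm_integral_le_integral_norm _).trans ?_
    have h2 : ∫ u : ℝ, ‖(w u : ℂ) * (zt (T * u) * (DP a X (T * u) *
      (starRingEnd ℂ) (DP b X (T * u)))) - (w u : ℂ) * (P (T ^ 3) (T * u) * (DP a X (T * u) *
      (starRingEnd ℂ) (DP b X (T * u))))‖ ≤
        ∫ u : ℝ, C0 / Real.sqrt T * (w u * (‖DP a X (T * u)‖ * ‖DP b X (T * u)‖)) := by
      apply integral_mono (i1.sub i2).norm ((intw hw (hAn.mul hBn)).const_mul _)
      intro u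
      change ‖(w u : ℂ) * (zt (T * u) * (DP a X (T * u) *
      (starRingEnd ℂ) (DP b X (T * u)))) - (w u : ℂ) * (P (T ^ 3) (T * u) * (DP a X (T * u) *
      (starRingEnd ℂ) (DP b X (T * u))))‖ ≤
        C0 / Real.sqrt T * (w u * (‖DP a X (T * u)‖ * ‖DP b X (T * u)‖))
      have h3 : (w u : ℂ) * (zt (T * u) * (DP a X (T * u) *
        (starRingEnd ℂ) (DP b X (T * u)))) - (w u : ℂ) * (P (T ^ 3) (T * u) * (DP a X (T * u) *
        (starRingEnd ℂ) (DP b X (T * u)))) =
          (w u : ℂ) * ((zt (T * u) - P (T ^ 3) (T * u)) * (DP a X (T * u) *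
        (starRingEnd ℂ) (DP b X (T * u)))) := by ring
      rw [h3, norm_mul, norm_mul, norm_mul, RCLike.norm_conj, Complex.norm_real,
        Real.norm_of_nonneg (hw.nonneg u)]
      by_cases hwu : w u = 0
      · rw [hwu]
        simp
      · have h4 : ‖zt (T * u) - P (T ^ 3) (T * u)‖ ≤ C0 / Real.sqrt T := hz T hTT0 u hwu
        have h5 : 0 ≤ ‖DP a X (T * u)‖ * ‖DP b X (T * u)‖ := by positivity
        have h6 := mul_le_mul_of_nonneg_left (mul_le_mul_of_nonneg_right h4 h5) (hw.nonneg u)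
        linarith
    refine h2.trans ?_
    rw [integral_const_mul]
    exact mul_le_mul_of_nonneg_left s2 (by positivity)
  -- step 2
  set E : ℕ → ℕ → ℝ := fun l h => if h ∣ l then Real.exp (-(((l / h : ℕ) : ℝ) / T ^ 3)) /
      Real.sqrt ((l / h : ℕ) : ℝ) * W0 w else 0 with hE
  set M : ℝ := ∑ l ∈ Finset.range (X + 1), ∑ h ∈ Finset.range (X + 1),
      a h * b l / Real.sqrt ((h : ℝ) * l) * E l h with hM
  have hcoef : ∀ l h : ℕ, a h * b l / Real.sqrt ((h : ℝ) * l) =
      (a h / Real.sqrt h) * (b l / Real.sqrt l) := by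
    intro l h
    rw [Real.sqrt_mul (by positivity), div_mul_div_comm]
  have hcn : ∀ l h : ℕ, 0 ≤ a h * b l / Real.sqrt ((h : ℝ) * l) := by
    intro l h
    have := ha h
    have := hb l
    positivity
  have hI2' : I2 = ∑ l ∈ Finset.range (X + 1), ∑ h ∈ Finset.range (X + 1),
      ((a h * b l / Real.sqrt ((h : ℝ) * l) : ℝ) : ℂ) *
        ∑' k : ℕ, ((Real.exp (-((k : ℝ) / T ^ 3)) / Real.sqrt k : ℝ) : ℂ) *
          W w 0 (T * Real.log ((l : ℝ) / ((k : ℝ) * h))) := hx w hw (T ^ 3) T X a b hK hTpos ha0 hb0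
  have s4 : ‖I2 - (M : ℂ)‖ ≤ 128 * C2 / T ^ 2 * ((∑ h ∈ Finset.range (X + 1), a h / Real.sqrt h) *
          ∑ l ∈ Finset.range (X + 1), b l / Real.sqrt l) := by
    rw [hI2', hM]
    push_cast
    rw [← Finset.sum_sub_distrib]
    have e1 : 128 * C2 / T ^ 2 * ((∑ h ∈ Finset.range (X + 1), a h / Real.sqrt h) *
          ∑ l ∈ Finset.range (X + 1), b l / Real.sqrt l) =
        ∑ l ∈ Finset.range (X + 1), ∑ h ∈ Finset.range (X + 1),
          (a h * b l / Real.sqrt ((h : ℝ) * l)) * (128 * C2 / T ^ 2) := by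
      rw [Finset.sum_mul_sum, Finset.mul_sum, Finset.sum_comm]
      apply Finset.sum_congr rfl
      intro h _
      rw [Finset.mul_sum]
      apply Finset.sum_congr rfl
      intro l _
      rw [hcoef]
      ring
    rw [e1]
    refine (norm_sum_le _ _).trans (Finset.sum_le_sum fun l hl => ?_)
    rw [← Finset.sum_sub_distrib]
    refine (norm_sum_le _ _).trans (Finset.sum_le_sum fun h hh => ?_)
    rcases Nat.eq_zero_or_pos l with hl0 | hl0
    · subst hl0
      rw [hb0]
      simp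
    · rcases Nat.eq_zero_or_pos h with hh0 | hh0
      · subst hh0
        rw [ha0]
        simp
      · have hlX : l ≤ X := by
          have := Finset.mem_range.1 hl
          omega
        have h2 := inner' hW hP w hw C2 hd hC2 T hT1 X hX l h hl0 hlX hh0
        have h3 : (((a h : ℂ) * (b l : ℂ) / ((Real.sqrt ((h : ℝ) * l) : ℝ) : ℂ)) : ℂ) =
            ((a h * b l / Real.sqrt ((h : ℝ) * l) : ℝ) : ℂ) := by
          push_cast
          ring
        push_cast at h2
        rw [h3, ← mul_sub, norm_mul, Complex.norm_real, Real.norm_of_nonneg (hcn l h)]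
        exact mul_le_mul_of_nonneg_left h2 (hcn l h)
  -- bounds of `M`
  have hterm : ∀ l ∈ Finset.range (X + 1), ∀ h ∈ Finset.range (X + 1),
      (if h ∣ l ∧ l ≠ 0 then W0 w / 2 * (b l / (l : ℝ) * a h) else 0) ≤
        a h * b l / Real.sqrt ((h : ℝ) * l) * E l h ∧
      a h * b l / Real.sqrt ((h : ℝ) * l) * E l h ≤
        (if h ∣ l ∧ l ≠ 0 then 1 * (b l / (l : ℝ) * a h) else 0) := by
    intro l hl h hh
    rcases Nat.eq_zero_or_pos l with hl0 | hl0
    · subst hl0
      rw [if_neg (by simp), if_neg (by simp), hb0]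
      simp
    · rcases Nat.eq_zero_or_pos h with hh0 | hh0
      · subst hh0
        rw [ha0]
        simp
      · have hlX : l ≤ X := by
          have := Finset.mem_range.1 hl
          omega
        by_cases hdv : h ∣ l
        · rw [if_pos ⟨hdv, hl0.ne'⟩, if_pos ⟨hdv, hl0.ne'⟩]
          simp only [hE]
          rw [if_pos hdv]
          have h7 : 0 ≤ a h * b l * W0 w := by
            have := ha h
            have := hb l
            positivity
          have h9 : a h * b l / Real.sqrt ((h : ℝ) * l) *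
              (Real.exp (-(((l / h : ℕ) : ℝ) / T ^ 3)) / Real.sqrt ((l / h : ℕ) : ℝ) * W0 w) =
              a h * b l * W0 w * (1 / Real.sqrt ((h : ℝ) * l) *
                (Real.exp (-(((l / h : ℕ) : ℝ) / T ^ 3)) / Real.sqrt ((l / h : ℕ) : ℝ))) := by
            ring
          rw [h9]
          constructor
          · have h6 := diag T hT2 X hX l h hl0 hlX hh0 hdv
            have h8 := mul_le_mul_of_nonneg_left h6 h7
            refine le_trans (le_of_eq ?_) h8
            ring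
          · have h6 := diagU T hT2 l h hl0 hh0 hdv
            have h8 := mul_le_mul_of_nonneg_left h6 h7
            refine h8.trans ?_
            have h10 : 0 ≤ b l / (l : ℝ) * a h := by
              have := ha h
              have := hb l
              positivity
            have h11 := mul_le_mul_of_nonneg_right hW01 h10
            refine le_trans (le_of_eq ?_) h11
            ring
        · rw [if_neg (fun h9 => hdv h9.1), if_neg (fun h9 => hdv h9.1)]
          simp only [hE]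
          rw [if_neg hdv, mul_zero]
          exact ⟨le_refl _, le_refl _⟩
  have hMlow : W0 w / 2 * ∑ l ∈ Finset.range (X + 1), b l / (l : ℝ) * ∑ h ∈ l.divisors, a h ≤
      M := by
    rw [← sumdiv]
    exact Finset.sum_le_sum fun l hl => Finset.sum_le_sum fun h hh => (hterm l hl h hh).1
  have hMup : M ≤ ∑ l ∈ Finset.range (X + 1), b l / (l : ℝ) * ∑ h ∈ l.divisors, a h := by
    have h2 : (∑ l ∈ Finset.range (X + 1), b l / (l : ℝ) * ∑ h ∈ l.divisors, a h) =
        1 * ∑ l ∈ Finset.range (X + 1), b l / (l : ℝ) * ∑ h ∈ l.divisors, a h := (one_mul _).symm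
    rw [h2, ← sumdiv]
    exact Finset.sum_le_sum fun l hl => Finset.sum_le_sum fun h hh => (hterm l hl h hh).2
  -- the error term
  have hnn : ∀ (c : ℕ → ℝ), (∀ n, 0 ≤ c n) → 0 ≤ ∑ h ∈ Finset.range (X + 1), c h / Real.sqrt h :=
    fun c hc => Finset.sum_nonneg fun n _ => div_nonneg (hc n) (Real.sqrt_nonneg _)
  have hXT : (X : ℝ) ≤ T := by
    rcases Nat.eq_zero_or_pos X with h2 | h2
    · rw [h2]
      simpa using hTpos.le
    · have h3 : (1 : ℝ) ≤ X := by exact_mod_cast h2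
      have h4 : (X : ℝ) ≤ (X : ℝ) ^ 3 := by
        calc (X : ℝ) = (X : ℝ) ^ 1 := by ring
          _ ≤ (X : ℝ) ^ 3 := pow_le_pow_right₀ h3 (by norm_num)
      linarith
  have s8 : 128 * C2 / T ^ 2 * ((∑ h ∈ Finset.range (X + 1), a h / Real.sqrt h) *
          ∑ l ∈ Finset.range (X + 1), b l / Real.sqrt l) ≤ 256 * C2 / T * Q := by
    have e1 := l1 a X
    have e2 := l1 b X
    have e3 : (∑ h ∈ Finset.range (X + 1), a h / Real.sqrt h) *
          ∑ l ∈ Finset.range (X + 1), b l / Real.sqrt l ≤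
        (Real.sqrt ((X : ℝ) + 1) * Real.sqrt (Q2 a X)) *
          (Real.sqrt ((X : ℝ) + 1) * Real.sqrt (Q2 b X)) :=
      mul_le_mul e1 e2 (hnn b hb) (by positivity)
    have e4 : (Real.sqrt ((X : ℝ) + 1) * Real.sqrt (Q2 a X)) *
          (Real.sqrt ((X : ℝ) + 1) * Real.sqrt (Q2 b X)) = ((X : ℝ) + 1) * Q := by
      have := Real.mul_self_sqrt (by positivity : (0 : ℝ) ≤ (X : ℝ) + 1)
      rw [hQ]
      linear_combination (Real.sqrt (Q2 a X) * Real.sqrt (Q2 b X)) * this
    rw [e4] at e3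
    have e5 : ((X : ℝ) + 1) * Q ≤ (2 * T) * Q := mul_le_mul_of_nonneg_right (by linarith) hQn
    calc 128 * C2 / T ^ 2 * ((∑ h ∈ Finset.range (X + 1), a h / Real.sqrt h) *
          ∑ l ∈ Finset.range (X + 1), b l / Real.sqrt l) ≤ 128 * C2 / T ^ 2 * ((2 * T) * Q) :=
          mul_le_mul_of_nonneg_left (e3.trans e5) (by positivity)
      _ = 256 * C2 / T * Q := by
          field_simp
          ring
  -- powers of T
  have hroot : T ^ (1 / 4 : ℝ) ≤ Real.sqrt T := by
    rw [Real.sqrt_eq_rpow]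
    exact Real.rpow_le_rpow_of_exponent_le hT1 (by norm_num)
  have hroot2 : T ^ (1 / 4 : ℝ) ≤ T := by
    calc T ^ (1 / 4 : ℝ) ≤ T ^ (1 : ℝ) := Real.rpow_le_rpow_of_exponent_le hT1 (by norm_num)
      _ = T := Real.rpow_one T
  have hrpos : 0 < T ^ (1 / 4 : ℝ) := Real.rpow_pos_of_pos hTpos _
  have s9 : C0 / Real.sqrt T * (C1 * Q) ≤ C0 * C1 / T ^ (1 / 4 : ℝ) * Q := by
    have e1 : C0 / Real.sqrt T ≤ C0 / T ^ (1 / 4 : ℝ) :=
      div_le_div_of_nonneg_left hC0 hrpos hroot
    calc C0 / Real.sqrt T * (C1 * Q) ≤ C0 / T ^ (1 / 4 : ℝ) * (C1 * Q) :=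
          mul_le_mul_of_nonneg_right e1 (by positivity)
      _ = C0 * C1 / T ^ (1 / 4 : ℝ) * Q := by ring
  have s10 : 256 * C2 / T * Q ≤ 256 * C2 / T ^ (1 / 4 : ℝ) * Q := by
    apply mul_le_mul_of_nonneg_right _ hQn
    exact div_le_div_of_nonneg_left (by positivity) hrpos hroot2
  have s12 : (C0 * C1 + 256 * C2) / T ^ (1 / 4 : ℝ) * Q =
      C0 * C1 / T ^ (1 / 4 : ℝ) * Q + 256 * C2 / T ^ (1 / 4 : ℝ) * Q := by ring
  have s13 : ‖I1 - (M : ℂ)‖ ≤ (C0 * C1 + 256 * C2) / T ^ (1 / 4 : ℝ) * Q := by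
    have h2 : I1 - (M : ℂ) = (I1 - I2) + (I2 - (M : ℂ)) := by ring
    rw [h2, s12]
    refine (norm_add_le _ _).trans ?_
    linarith
  constructor
  · have h2 := Complex.abs_re_le_norm (I1 - (M : ℂ))
    have h3 := neg_abs_le (I1 - (M : ℂ)).re
    have h4 : (I1 - (M : ℂ)).re = I1.re - M := by
      rw [Complex.sub_re, Complex.ofReal_re]
    rw [h4] at h3 h2
    linarith
  · have h2 : I1 = (M : ℂ) + (I1 - (M : ℂ)) := by ring
    have h3 : ‖I1‖ ≤ ‖(M : ℂ)‖ + ‖I1 - (M : ℂ)‖ := by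
      calc ‖I1‖ = ‖(M : ℂ) + (I1 - (M : ℂ))‖ := by rw [← h2]
        _ ≤ _ := norm_add_le _ _
    have h4 : ‖(M : ℂ)‖ = M := by
      rw [Complex.norm_real, Real.norm_of_nonneg]
      refine le_trans ?_ hMlow
      apply mul_nonneg (by positivity)
      apply Finset.sum_nonneg
      intro l _
      apply mul_nonneg (div_nonneg (hb l) (by positivity))
      exact Finset.sum_nonneg fun h _ => ha h
    rw [h4] at h3
    linarith

end Pool.Agent.Work.MP_56b8f5_nt.WA
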