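import Pool.Agent.Work.MP_56b8f5_nt.WA.Stmts

/-!
MP_56b8f5_nt, block WA, item D1 (Jbh): upper bounds for the twisted moments `J0h` and `J2h`.
-/

set_option autoImplicit false

open MeasureTheory Set Filter Topology

noncomputable section

namespace Pool.Agent.Work.MP_56b8f5_nt.WA

open Pool.Agent.Work.MP_56b8f5_nt.EM
open Pool.Agent.Work.MP_56b8f5_nt.WM

namespace I_Jbh

theorem ab_nonneg (q y z m j p : ℕ) : 0 ≤ ab q y z m j p := by
  unfold ab
  split_ifs
  · positivity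
  · positivity
  · exact le_rfl

theorem ab_zero {q y z m j p : ℕ} (hyz : y ≤ z) (hp : z < p) : ab q y z m j p = 0 := by
  unfold ab
  rw [if_neg (by omega), if_neg (by omega)]

/-- Sums of functions of `ab` over the primes up to `z`. -/
theorem sum_ab (q y z m j : ℕ) (hyz : y ≤ z) (F : ℝ → ℝ) :
    ∑ p ∈ pr z, F (ab q y z m (2 * j) p) / (p : ℝ) =
      F ((m : ℝ) / q) * S1 y + F (j : ℝ) * S2 y z := by
  have h1 : (pr z).filter (fun p => ¬ y < p) = pr y := by
    ext p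
    simp only [pr, Finset.mem_filter, Finset.mem_range]
    constructor
    · rintro ⟨⟨_, h2⟩, h3⟩
      exact ⟨by omega, h2⟩
    · rintro ⟨h2, h3⟩
      exact ⟨⟨by omega, h3⟩, by omega⟩
  rw [← Finset.sum_filter_add_sum_filter_not (pr z) (fun p => y < p), h1, add_comm]
  unfold S1 S2
  rw [Finset.mul_sum, Finset.mul_sum]
  congr 1
  · refine Finset.sum_congr rfl fun p hp => ?_
    have hp' : p ≤ y := by
      simp only [pr, Finset.mem_filter, Finset.mem_range] at hp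
      omega
    have : ab q y z m (2 * j) p = (m : ℝ) / q := by
      unfold ab
      rw [if_pos hp']
    rw [this, mul_one_div]
  · refine Finset.sum_congr rfl fun p hp => ?_
    have hp' : y < p ∧ p ≤ z := by
      simp only [pr, Finset.mem_filter, Finset.mem_range] at hp
      exact ⟨hp.2, by omega⟩
    have : ab q y z m (2 * j) p = (j : ℝ) := by
      unfold ab
      rw [if_neg (by omega), if_pos hp'.2]
      push_cast
      ring
    rw [this, mul_one_div]

theorem norm_sq (h8 : S_CCp) {q y z : ℕ} (m j : ℕ) (hq : 1 ≤ q) (hyz : y ≤ z) (t : ℝ) :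
    aM q y t ^ (2 * m) * aH y z t ^ (2 * j) =
      ‖DP (CC q y z m (2 * j)) (y ^ m * z ^ (2 * j)) t‖ ^ 2 := by
  rw [(h8 q y z m (2 * j) hq hyz).2.2.2 _ le_rfl t]
  unfold MH
  rw [norm_mul, norm_pow, norm_pow]
  unfold aM aH
  rw [mul_pow, ← pow_mul, ← pow_mul, ← pow_mul, mul_comm m 2]
  congr 2
  ring

end I_Jbh

open I_Jbh in
/-- **D1.** -/
theorem Jbh_pf (h1 : S_MVb) (h2 : S_TSb) (h4 : S_Gcd) (h5 : S_Sq) (h8 : S_CCp) : S_Jbh := by
  intro w hw
  obtain ⟨C₁, hC₁, H1⟩ := h1 w hw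
  obtain ⟨C₂, T₂, hC₂, H2⟩ := h2 w hw
  refine ⟨1 + C₁ + C₂, max 1 T₂, by linarith, fun T hT q y z m j hq hyz hX => ?_⟩
  have hT1 : 1 ≤ T := le_trans (le_max_left _ _) hT
  have hT2 : T₂ ≤ T := le_trans (le_max_right _ _) hT
  have hlog : 0 ≤ Real.log T := Real.log_nonneg hT1
  have hb0 : CC q y z m (2 * j) 0 = 0 := ArithmeticFunction.map_zero
  have hbn : ∀ n, 0 ≤ CC q y z m (2 * j) n := fun n => ((h8 q y z m (2 * j) hq hyz).1 n).1
  have hba : ∀ n, CC q y z m (2 * j) n ≤ pe (ab q y z m (2 * j)) n :=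
    fun n => ((h8 q y z m (2 * j) hq hyz).1 n).2
  constructor
  · have hA := H1 T hT1 (y ^ m * z ^ (2 * j)) hX (CC q y z m (2 * j)) hb0
    have hB := h5 (ab q y z m (2 * j)) (CC q y z m (2 * j)) z (y ^ m * z ^ (2 * j))
      (ab_nonneg q y z m (2 * j)) (fun p hp => ab_zero hyz hp) hbn hba
    rw [sum_ab q y z m j hyz (fun x => x ^ 2)] at hB
    have hE : J0h w q y z T m j =
        ∫ u : ℝ, w u * ‖DP (CC q y z m (2 * j)) (y ^ m * z ^ (2 * j)) (T * u)‖ ^ 2 := by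
      unfold J0h
      congr 1
      funext u
      rw [norm_sq h8 m j hq hyz]
    rw [hE]
    calc _ ≤ C₁ * Q2 (CC q y z m (2 * j)) (y ^ m * z ^ (2 * j)) := hA
      _ ≤ C₁ * Real.exp (((m : ℝ) / q) ^ 2 * S1 y + (j : ℝ) ^ 2 * S2 y z) :=
        mul_le_mul_of_nonneg_left hB hC₁
      _ ≤ _ := mul_le_mul_of_nonneg_right (by linarith) (Real.exp_pos _).le
  · have hA := H2 T hT2 (y ^ m * z ^ (2 * j)) hX (CC q y z m (2 * j)) hb0 hbn
    have hB := h4 (ab q y z m (2 * j)) (CC q y z m (2 * j)) z (y ^ m * z ^ (2 * j))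
      (ab_nonneg q y z m (2 * j)) (fun p hp => ab_zero hyz hp) hbn hba
    rw [sum_ab q y z m j hyz (fun x => 2 * x + x ^ 2)] at hB
    have hE : J2h w q y z T m j = ∫ u : ℝ, w u * (az (T * u) ^ 2 *
        ‖DP (CC q y z m (2 * j)) (y ^ m * z ^ (2 * j)) (T * u)‖ ^ 2) := by
      unfold J2h
      congr 1
      funext u
      rw [norm_sq h8 m j hq hyz]
    rw [hE]
    calc _ ≤ C₂ * Real.log T * GS (CC q y z m (2 * j)) (y ^ m * z ^ (2 * j)) := hA
      _ ≤ C₂ * Real.log T * Real.exp ((2 * ((m : ℝ) / q) + ((m : ℝ) / q) ^ 2) * S1 y +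
          (2 * (j : ℝ) + (j : ℝ) ^ 2) * S2 y z) :=
        mul_le_mul_of_nonneg_left hB (mul_nonneg hC₂ hlog)
      _ ≤ _ := mul_le_mul_of_nonneg_right (mul_le_mul_of_nonneg_right (by linarith) hlog)
        (Real.exp_pos _).le

end Pool.Agent.Work.MP_56b8f5_nt.WA
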