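import Pool.Agent.Work.MP_56b8f5_nt.WA.Stmts
import Pool.Agent.Work.MP_56b8f5_nt.WM.I_Sca

/-!
MP_56b8f5_nt, block WA, item E3 (MainA): the final theorem, from the scale `4T` to `[T, 2T]`.
-/

set_option autoImplicit false

open MeasureTheory Set Filter Topology

noncomputable section

namespace Pool.Agent.Work.MP_56b8f5_nt.WA

open Pool.Agent.Work.MP_56b8f5_nt.EM
open Pool.Agent.Work.MP_56b8f5_nt.WM

namespace I_MainA

lemma cont_zt : Continuous zt := by
  unfold zt
  refine continuous_iff_continuousAt.2 fun t => ?_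
  have h1 : (1 / 2 + (t : ℂ) * Complex.I) ≠ 1 := by
    intro h
    have := congrArg Complex.re h
    norm_num at this
  have h2 : ContinuousAt riemannZeta (1 / 2 + (t : ℂ) * Complex.I) :=
    (differentiableAt_riemannZeta h1).continuousAt
  have h3 : ContinuousAt (fun t : ℝ => (1 / 2 + (t : ℂ) * Complex.I)) t := by fun_prop
  exact ContinuousAt.comp (f := fun t : ℝ => (1 / 2 + (t : ℂ) * Complex.I)) h2 h3

lemma meas_sec (δ : ℝ) (ω : ℂ) :
    MeasurableSet {t : ℝ | (1 - δ) * az t < ((starRingEnd ℂ) ω * zt t).re} := by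
  refine measurableSet_lt ?_ ?_
  · exact (I_Sca.cont_az.const_mul (1 - δ) : Continuous fun t => (1 - δ) * az t).measurable
  · have h : Continuous fun t : ℝ => ((starRingEnd ℂ) ω * zt t).re :=
      Complex.continuous_re.comp (cont_zt.const_mul _)
    exact h.measurable

end I_MainA

open I_MainA in
/-- **E3 (MainA).** -/
theorem MainA_pf (h1 : S_ParA) (h2 : S_WinA) (h4 : S_Wts) : S_MainA := by
  intro k δ hk hδ
  obtain ⟨w₁, _, hw1, _, hW0, hs1, _⟩ := h4
  obtain ⟨C₁, hC₁, hpar⟩ := h1 k (by omega)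
  obtain ⟨c₂, C₂, T₂, hc₂, hC₂, hWin⟩ := h2 w₁ hw1 hW0 k C₁ δ hk hC₁ hδ
  have hk0 : (0 : ℝ) ≤ k := Nat.cast_nonneg k
  have h4T : Tendsto (fun T : ℝ => 4 * T) atTop atTop :=
    tendsto_id.const_mul_atTop (by norm_num)
  refine ⟨c₂, 2 * C₂ + k, hc₂, by linarith, ?_⟩
  filter_upwards [h4T.eventually hpar, eventually_ge_atTop (65536 : ℝ),
    eventually_ge_atTop T₂] with T hpT hT hT2
  intro ω hω
  obtain ⟨q, y, z, hp⟩ := hpT
  have hT0 : (0 : ℝ) < T := by linarith
  have h4T0 : (0 : ℝ) < 4 * T := by linarith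
  obtain ⟨l1, l2, l3, l4, l5⟩ := I_Sca.logs hT
  have hlog : 0 < Real.log T := Real.log_pos (by linarith : 1 < T)
  have hW := hWin (4 * T) (by linarith) q y z hp ω hω
  set C : ℝ := 2 * C₂ + k with hCd
  have hSm : MeasurableSet {t | t ∈ Icc T (2 * T) ∧
      (1 - δ) * az t < ((starRingEnd ℂ) ω * zt t).re ∧
      |Real.log (az t) - k * Real.log (Real.log T)| ≤ C * Real.sqrt (Real.log (Real.log T))} := by
    refine measurableSet_Icc.inter ((meas_sec δ ω).inter ?_)
    have h7 : Measurable fun t : ℝ => Real.log (az t) :=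
      Real.measurable_log.comp I_Sca.cont_az.measurable
    have h8 : Measurable fun t : ℝ => |Real.log (az t) - k * Real.log (Real.log T)| :=
      continuous_abs.measurable.comp (h7.sub_const _)
    exact measurableSet_le h8 measurable_const
  rw [I_Sca.cov h4T0 hSm]
  have cφ : Continuous fun u : ℝ => az (4 * T * u) := I_Sca.cont_az.comp (by fun_prop)
  set V : Set ℝ := {u | 4 * T * u ∈ {t | t ∈ Icc T (2 * T) ∧
    (1 - δ) * az t < ((starRingEnd ℂ) ω * zt t).re ∧
    |Real.log (az t) - k * Real.log (Real.log T)| ≤ C * Real.sqrt (Real.log (Real.log T))}}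
    with hVd
  have hVI : V ⊆ Icc (0 : ℝ) 1 := by
    intro u hu
    have h5 : T ≤ 4 * T * u := hu.1.1
    have h6 : 4 * T * u ≤ 2 * T := hu.1.2
    refine ⟨?_, ?_⟩
    · by_contra hc
      push Not at hc
      nlinarith
    · by_contra hc
      push Not at hc
      nlinarith
  have hint : IntegrableOn (fun u => az (4 * T * u) ^ (2 * k)) V :=
    ((cφ.pow (2 * k)).integrableOn_Icc (a := 0) (b := 1)).mono_set hVI
  have hsub : ({u | w₁ u ≠ 0} ∩ arc δ ω (fun u => zt (4 * T * u))) ∩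
      {u | |Real.log (az (4 * T * u)) - k * Real.log (Real.log (4 * T))| ≤
        C₂ * Real.sqrt (Real.log (Real.log (4 * T)))} ⊆ V := by
    rintro u ⟨⟨hu, hu1⟩, hu2⟩
    obtain ⟨h5, h6⟩ := hs1 u hu
    refine ⟨⟨by nlinarith, by nlinarith⟩, hu1, ?_⟩
    set s : ℝ := Real.sqrt (Real.log (Real.log T)) with hs
    have hs1' : 1 ≤ s := by
      rw [hs]
      exact Real.one_le_sqrt.2 l1
    have hs2' : Real.sqrt (Real.log (Real.log (4 * T))) ≤ 2 * s := by
      rw [Real.sqrt_le_left (by linarith), mul_pow, hs, Real.sq_sqrt (by linarith)]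
      linarith
    have h8 : |Real.log (az (4 * T * u)) - k * Real.log (Real.log (4 * T))| ≤ C₂ * (2 * s) :=
      le_trans hu2 (mul_le_mul_of_nonneg_left hs2' (by linarith))
    have h9 : (k : ℝ) * Real.log (Real.log T) ≤ k * Real.log (Real.log (4 * T)) :=
      mul_le_mul_of_nonneg_left l4 hk0
    have h10 : (k : ℝ) * Real.log (Real.log (4 * T)) ≤ k * Real.log (Real.log T) + k * s := by
      nlinarith [mul_le_mul_of_nonneg_left l5 hk0, mul_le_mul_of_nonneg_left hs1' hk0]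
    have h12 : C * s = C₂ * (2 * s) + k * s := by
      rw [hCd]
      ring
    have h13 : 0 ≤ (k : ℝ) * s := mul_nonneg hk0 (by linarith)
    rw [abs_le] at h8 ⊢
    rw [h12]
    constructor
    · linarith [h8.1]
    · linarith [h8.2]
  have e1 : ∫ u in ({u | w₁ u ≠ 0} ∩ arc δ ω (fun u => zt (4 * T * u))) ∩
      {u | |Real.log (az (4 * T * u)) - k * Real.log (Real.log (4 * T))| ≤
        C₂ * Real.sqrt (Real.log (Real.log (4 * T)))}, az (4 * T * u) ^ (2 * k) ≤
      ∫ u in V, az (4 * T * u) ^ (2 * k) :=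
    setIntegral_mono_set hint (ae_of_all _ fun x => pow_nonneg (norm_nonneg _) _)
      (LE.le.eventuallyLE hsub)
  have e2 : Real.log T ^ (k ^ 2) ≤ Real.log (4 * T) ^ (k ^ 2) :=
    pow_le_pow_left₀ hlog.le l2 _
  have e3 : c₂ * Real.log T ^ (k ^ 2) ≤ ∫ u in V, az (4 * T * u) ^ (2 * k) :=
    (mul_le_mul_of_nonneg_left e2 hc₂.le).trans (hW.trans e1)
  have e4 : 0 ≤ c₂ * Real.log T ^ (k ^ 2) := by positivity
  calc c₂ * T * Real.log T ^ (k ^ 2) = T * (c₂ * Real.log T ^ (k ^ 2)) := by ring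
    _ ≤ 4 * T * (c₂ * Real.log T ^ (k ^ 2)) := by nlinarith
    _ ≤ 4 * T * ∫ u in V, az (4 * T * u) ^ (2 * k) := mul_le_mul_of_nonneg_left e3 h4T0.le

end Pool.Agent.Work.MP_56b8f5_nt.WA
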