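import Pool.Agent.Work.MP_56b8f5_nt.WA.Stmts
import Pool.Agent.Work.MP_56b8f5_nt.WM.I_MainV

/-!
MP_56b8f5_nt, block WA (window theorem in sectors): item E4 (MainVA), the final theorem on large values in sectors.
-/

set_option autoImplicit false

open MeasureTheory Set Filter Topology

noncomputable section

namespace Pool.Agent.Work.MP_56b8f5_nt.WA

open Pool.Agent.Work.MP_56b8f5_nt.EM
open Pool.Agent.Work.MP_56b8f5_nt.WM

/-- **E4 (MainVA).** -/
theorem MainVA_pf (h1 : S_ParA) (h2 : S_WinVA) (h4 : S_Wts) : S_MainVA := by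
  intro k δ hk hδ
  obtain ⟨CP, hCP, hP⟩ := h1 k (by omega)
  obtain ⟨w, _, hw, _, hw0, hsupp, _⟩ := h4
  obtain ⟨C', T0, hC', hWin⟩ := h2 w hw hw0 k CP δ hk hCP hδ
  refine ⟨2 * C' + 6, by linarith, ?_⟩
  have e1 : ∀ᶠ T : ℝ in atTop, ∃ q y z, IsPa k CP (4 * T) q y z :=
    (tendsto_id.const_mul_atTop (by norm_num : (0 : ℝ) < 4)).eventually hP
  filter_upwards [e1, eventually_ge_atTop 4, eventually_ge_atTop (Real.exp (Real.exp 1)),
    eventually_ge_atTop T0] with T hpar hT4 hTe hT0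
  intro V hV hV2 ω hω
  obtain ⟨q, y, z, hp⟩ := hpar
  obtain ⟨hL, hLL, hLL2⟩ := I_MainV.loglog hT4 hTe
  set L := Real.log (Real.log T) with hLdef
  set L' := Real.log (Real.log (4 * T)) with hL'def
  obtain ⟨α, ha1, ha2, ha3, ha4⟩ :=
    I_MainV.alpha (V := V) hk hp.hq hL hLL hLL2 hp.hq2 hV hV2
  have hTpos : 0 < T := by linarith
  have hw' := hWin (4 * T) (by linarith) q y z hp α ha1 ha2 ω hω
  rw [← hL'def] at hw'
  have hs1 : 1 ≤ Real.sqrt L := by
    rw [show (1 : ℝ) = Real.sqrt 1 from Real.sqrt_one.symm]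
    exact Real.sqrt_le_sqrt hL
  have hs2 : Real.sqrt L' ≤ 2 * Real.sqrt L := by
    rw [show 2 * Real.sqrt L = Real.sqrt (4 * L) by
      rw [Real.sqrt_mul (by norm_num)]
      congr 1
      rw [show (4 : ℝ) = 2 ^ 2 by norm_num]
      exact (Real.sqrt_sq (by norm_num)).symm]
    exact Real.sqrt_le_sqrt (by linarith)
  have hsc := I_MainV.scale (T' := 4 * T) (by linarith)
    (({u | w u ≠ 0} ∩ arc δ ω (fun u => zt (4 * T * u))) ∩
      {u | |Real.log (az (4 * T * u)) - α * L'| ≤ C' * Real.sqrt L'})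
    {t | t ∈ Icc T (2 * T) ∧ (1 - δ) * az t < ((starRingEnd ℂ) ω * zt t).re ∧
      |Real.log (az t) - V| ≤ (2 * C' + 6) * Real.sqrt L}
    (by
      refine ne_top_of_le_ne_top ?_ (measure_mono (t := Icc T (2 * T)) fun t ht => ht.1)
      rw [Real.volume_Icc]
      exact ENNReal.ofReal_ne_top)
    (by
      rintro u ⟨⟨hu1, harc⟩, hu2⟩
      obtain ⟨hu3, hu4⟩ := hsupp u hu1
      refine ⟨⟨by nlinarith, by nlinarith⟩, harc, ?_⟩
      have hu2' : |Real.log (az (4 * T * u)) - α * L'| ≤ C' * Real.sqrt L' := hu2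
      have t1 : |Real.log (az (4 * T * u)) - V| ≤
          |Real.log (az (4 * T * u)) - α * L'| + |α * L' - V| := by
        have := abs_add_le (Real.log (az (4 * T * u)) - α * L') (α * L' - V)
        rw [sub_add_sub_cancel] at this
        exact this
      have t2 : C' * Real.sqrt L' ≤ C' * (2 * Real.sqrt L) :=
        mul_le_mul_of_nonneg_left hs2 (by linarith)
      linarith)
  have hexp : Real.exp (-(V ^ 2 / L) - (2 * C' + 6) * Real.sqrt L) ≤
      Real.exp (-(α ^ 2 * L') - C' * Real.sqrt L') := by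
    apply Real.exp_le_exp.2
    have t2 : C' * Real.sqrt L' ≤ C' * (2 * Real.sqrt L) :=
      mul_le_mul_of_nonneg_left hs2 (by linarith)
    linarith
  calc T * Real.exp (-(V ^ 2 / L) - (2 * C' + 6) * Real.sqrt L)
      ≤ 4 * T * Real.exp (-(α ^ 2 * L') - C' * Real.sqrt L') := by
        nlinarith [mul_le_mul_of_nonneg_left hexp hTpos.le,
          mul_pos hTpos (Real.exp_pos (-(α ^ 2 * L') - C' * Real.sqrt L'))]
    _ ≤ 4 * T * volume.real (({u | w u ≠ 0} ∩ arc δ ω (fun u => zt (4 * T * u))) ∩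
          {u | |Real.log (az (4 * T * u)) - α * L'| ≤ C' * Real.sqrt L'}) :=
        mul_le_mul_of_nonneg_left hw' (by linarith)
    _ ≤ _ := hsc

end Pool.Agent.Work.MP_56b8f5_nt.WA
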