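import Pool.Agent.Work.MP_56b8f5_nt.WA.Stmts

/-!
MP_56b8f5_nt, block WA, item D4 (Mn): the main term for the parameters (helper3, adapting WM/I_LowF.lean).
-/

set_option autoImplicit false

open MeasureTheory Set Filter Topology

noncomputable section

namespace Pool.Agent.Work.MP_56b8f5_nt.WA

open Pool.Agent.Work.MP_56b8f5_nt.EM
open Pool.Agent.Work.MP_56b8f5_nt.WM

namespace I_Mn

lemma ab_nonneg (q y z m j p : ℕ) : 0 ≤ ab q y z m j p := by
  unfold ab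
  split_ifs <;> positivity

lemma ab_zero (q y z m j p : ℕ) (hyz : y ≤ z) (hp : z < p) : ab q y z m j p = 0 := by
  unfold ab
  rw [if_neg (by omega), if_neg (by omega)]

lemma S1_nonneg (y : ℕ) : 0 ≤ S1 y := Finset.sum_nonneg fun _ _ => by positivity

lemma S2_nonneg (y z : ℕ) : 0 ≤ S2 y z := Finset.sum_nonneg fun _ _ => by positivity

lemma sum_ab (q y z m j : ℕ) (hyz : y ≤ z) :
    ∑ p ∈ pr z, ab q y z m j p ^ 2 / (p : ℝ) =
      ((m : ℝ) / q) ^ 2 * S1 y + ((j : ℝ) / 2) ^ 2 * S2 y z := by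
  unfold S1 S2
  rw [← Finset.sum_filter_add_sum_filter_not (pr z) (fun p => p ≤ y), Finset.mul_sum,
    Finset.mul_sum]
  congr 1
  · have h : (pr z).filter (fun p => p ≤ y) = pr y := by
      ext p
      simp only [pr, Finset.mem_filter, Finset.mem_range]
      constructor
      · rintro ⟨⟨h1, h2⟩, h3⟩
        exact ⟨by omega, h2⟩
      · rintro ⟨h1, h2⟩
        exact ⟨⟨by omega, h2⟩, by omega⟩
    rw [h]
    refine Finset.sum_congr rfl fun p hp => ?_
    have hp' : p ≤ y := by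
      have := (Finset.mem_filter.1 hp).1
      rw [Finset.mem_range] at this
      omega
    unfold ab
    rw [if_pos hp', mul_one_div]
  · have h : (pr z).filter (fun p => ¬ p ≤ y) = (pr z).filter (fun p => y < p) := by
      ext p
      simp only [Finset.mem_filter, not_le]
    rw [h]
    refine Finset.sum_congr rfl fun p hp => ?_
    obtain ⟨h1, h2⟩ := Finset.mem_filter.1 hp
    have hp' : p ≤ z := by
      have := (Finset.mem_filter.1 h1).1
      rw [Finset.mem_range] at this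
      omega
    unfold ab
    rw [if_neg (by omega), if_pos hp', mul_one_div]

lemma Q2_le (h8 : S_CCp) (h5 : S_Sq) (q y z m j m' k X : ℕ) (hq : 1 ≤ q) (hyz : y ≤ z)
    (hm : m ≤ m') (hj : j ≤ 2 * k) :
    Q2 (CC q y z m j) X ≤ Real.exp (((m' : ℝ) / q) ^ 2 * S1 y + (k : ℝ) ^ 2 * S2 y z) := by
  obtain ⟨h81, -, -, -⟩ := h8 q y z m j hq hyz
  refine le_trans (h5 (ab q y z m j) (CC q y z m j) z X (ab_nonneg q y z m j)
    (fun p hp => ab_zero q y z m j p hyz hp) (fun n => (h81 n).1) (fun n => (h81 n).2)) ?_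
  apply Real.exp_le_exp.mpr
  rw [sum_ab q y z m j hyz]
  have hm' : (m : ℝ) ≤ m' := by exact_mod_cast hm
  have hj' : (j : ℝ) / 2 ≤ k := by
    have : (j : ℝ) ≤ 2 * k := by exact_mod_cast hj
    linarith
  have hq' : (0 : ℝ) ≤ q := by positivity
  apply add_le_add
  · apply mul_le_mul_of_nonneg_right _ (S1_nonneg y)
    exact pow_le_pow_left₀ (by positivity) (div_le_div_of_nonneg_right hm' hq') 2
  · apply mul_le_mul_of_nonneg_right _ (S2_nonneg y z)
    exact pow_le_pow_left₀ (by positivity) hj' 2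

end I_Mn

open I_Mn in
theorem Mn_pf (h3 : S_FMr) (h8 : S_CCp) (hM : S_LowMh) (h5 : S_Sq) : S_Mn := by
  intro w hw hw0 k C hk hC
  obtain ⟨c₁, C₁, T₁, hc₁, hC₁, hT₁, H3⟩ := h3 w hw hw0
  obtain ⟨c₂, hc₂, HM⟩ := hM k (by omega)
  set K : ℝ := 2 * C₁ / (c₁ * c₂) with hK
  have hK0 : 0 ≤ K := by positivity
  refine ⟨c₁ * c₂ / 2, max T₁ (max 1 (K ^ 4)), by positivity, ?_⟩
  intro T hT q y z m₁ hp hmq
  have hT1 : T₁ ≤ T := le_trans (le_max_left _ _) hT
  have hT3 : 1 ≤ T := le_trans (le_trans (le_max_left _ _) (le_max_right _ _)) hT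
  have hTK : K ^ 4 ≤ T := le_trans (le_trans (le_max_right _ _) (le_max_right _ _)) hT
  have hq := hp.hq
  have hy := hp.hy
  have hyz := hp.hyz
  have hy1 : 1 ≤ y := by omega
  have hz1 : 1 ≤ z := by omega
  set X : ℕ := y ^ (q * k) * z ^ (2 * k) with hX
  have hXT : (X : ℝ) ^ 3 ≤ T := by
    refine le_trans ?_ hp.hlen2
    apply pow_le_pow_left₀ (by positivity)
    have : X ≤ y ^ (q * k + 1) * z ^ (2 * (k + 1)) :=
      Nat.mul_le_mul (Nat.pow_le_pow_right hy1 (by omega)) (Nat.pow_le_pow_right hz1 (by omega))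
    exact_mod_cast this
  have hyzX : y * z ≤ X := by
    apply Nat.mul_le_mul
    · calc y = y ^ 1 := (pow_one y).symm
        _ ≤ y ^ (q * k) := Nat.pow_le_pow_right hy1 (Nat.mul_pos hq (by omega))
    · calc z = z ^ 1 := (pow_one z).symm
        _ ≤ z ^ (2 * k) := Nat.pow_le_pow_right hz1 (by omega)
  obtain ⟨ha1, -, -, ha4⟩ := h8 q y z m₁ (2 * (k - 1)) hq hyz
  obtain ⟨hb1, -, -, hb4⟩ := h8 q y z (m₁ + q) (2 * k) hq hyz
  have haX : y ^ m₁ * z ^ (2 * (k - 1)) ≤ X :=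
    Nat.mul_le_mul (Nat.pow_le_pow_right hy1 (by omega)) (Nat.pow_le_pow_right hz1 (by omega))
  have hbX : y ^ (m₁ + q) * z ^ (2 * k) ≤ X :=
    Nat.mul_le_mul (Nat.pow_le_pow_right hy1 hmq) le_rfl
  have hmain := (H3 T hT1 X hXT (CC q y z m₁ (2 * (k - 1))) (CC q y z (m₁ + q) (2 * k))
    (ArithmeticFunction.map_zero) (ArithmeticFunction.map_zero) (fun n => (ha1 n).1)
    (fun n => (hb1 n).1)).1
  have hlow := HM q y z X m₁ hq hy hyz hyzX hmq
  -- the integrand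
  have hint : (∫ u : ℝ, (w u : ℂ) * (zt (T * u) * (DP (CC q y z m₁ (2 * (k - 1))) X (T * u) *
      (starRingEnd ℂ) (DP (CC q y z (m₁ + q) (2 * k)) X (T * u))))) =
      ∫ u : ℝ, (w u : ℂ) * (zt (T * u) * (MH q y z m₁ (2 * (k - 1)) (T * u) *
        (starRingEnd ℂ) (MH q y z (m₁ + q) (2 * k) (T * u)))) := by
    apply integral_congr_ae
    refine Eventually.of_forall fun u => ?_
    show (w u : ℂ) * (zt (T * u) * (DP (CC q y z m₁ (2 * (k - 1))) X (T * u) *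
      (starRingEnd ℂ) (DP (CC q y z (m₁ + q) (2 * k)) X (T * u)))) =
      (w u : ℂ) * (zt (T * u) * (MH q y z m₁ (2 * (k - 1)) (T * u) *
        (starRingEnd ℂ) (MH q y z (m₁ + q) (2 * k) (T * u))))
    rw [ha4 X haX, hb4 X hbX]
  rw [hint] at hmain
  -- the error
  have hXb : Xb k q y z m₁ =
      Real.exp ((((m₁ + q : ℕ) : ℝ) / q) ^ 2 * S1 y + (k : ℝ) ^ 2 * S2 y z) := rfl
  have hX0 : 0 < Xb k q y z m₁ := Real.exp_pos _
  have hQ : ∀ m j : ℕ, m ≤ m₁ + q → j ≤ 2 * k →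
      Real.sqrt (Q2 (CC q y z m j) X) ≤ Real.sqrt (Xb k q y z m₁) := by
    intro m j hm hj
    apply Real.sqrt_le_sqrt
    rw [hXb]
    exact Q2_le h8 h5 q y z m j (m₁ + q) k X hq hyz hm hj
  have hQQ : Real.sqrt (Q2 (CC q y z m₁ (2 * (k - 1))) X) *
      Real.sqrt (Q2 (CC q y z (m₁ + q) (2 * k)) X) ≤ Xb k q y z m₁ := by
    calc _ ≤ Real.sqrt (Xb k q y z m₁) * Real.sqrt (Xb k q y z m₁) :=
          mul_le_mul (hQ _ _ (by omega) (by omega))
            (hQ _ _ le_rfl le_rfl) (Real.sqrt_nonneg _) (Real.sqrt_nonneg _)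
      _ = _ := Real.mul_self_sqrt hX0.le
  have hT0 : 0 < T := by linarith
  have hT4 : 0 < T ^ (1 / 4 : ℝ) := Real.rpow_pos_of_pos hT0 _
  have hKT : K ≤ T ^ (1 / 4 : ℝ) := by
    calc K = (K ^ 4) ^ (1 / 4 : ℝ) := by
          rw [← Real.rpow_natCast, ← Real.rpow_mul hK0]
          norm_num
      _ ≤ T ^ (1 / 4 : ℝ) := Real.rpow_le_rpow (by positivity) hTK (by norm_num)
  have herr : C₁ / T ^ (1 / 4 : ℝ) ≤ c₁ * c₂ / 2 := by
    have h1 : 2 * C₁ ≤ T ^ (1 / 4 : ℝ) * (c₁ * c₂) := by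
      rw [hK, div_le_iff₀ (by positivity)] at hKT
      exact hKT
    rw [div_le_div_iff₀ hT4 (by norm_num)]
    linarith
  have e3 : C₁ / T ^ (1 / 4 : ℝ) * (Real.sqrt (Q2 (CC q y z m₁ (2 * (k - 1))) X) *
      Real.sqrt (Q2 (CC q y z (m₁ + q) (2 * k)) X)) ≤ c₁ * c₂ / 2 * Xb k q y z m₁ :=
    (mul_le_mul_of_nonneg_left hQQ (by positivity)).trans
      (mul_le_mul_of_nonneg_right herr hX0.le)
  have e4 : c₁ * c₂ * Xb k q y z m₁ ≤
      c₁ * ∑ l ∈ Finset.range (X + 1),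
        CC q y z (m₁ + q) (2 * k) l / (l : ℝ) *
          ∑ h ∈ l.divisors, CC q y z m₁ (2 * (k - 1)) h := by
    rw [mul_assoc]
    exact mul_le_mul_of_nonneg_left hlow hc₁.le
  linarith

end Pool.Agent.Work.MP_56b8f5_nt.WA
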