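import Pool.Agent.Work.MP_56b8f5_nt.WA.Stmts

/-!
MP_56b8f5_nt, block WA, item D6 (Os): the oscillating harmonics (helper3).
-/

set_option autoImplicit false

open MeasureTheory Set Filter Topology

noncomputable section

namespace Pool.Agent.Work.MP_56b8f5_nt.WA

open Pool.Agent.Work.MP_56b8f5_nt.EM
open Pool.Agent.Work.MP_56b8f5_nt.WM

namespace I_Os

lemma ab_nonneg (q y z m j p : ℕ) : 0 ≤ ab q y z m j p := by
  unfold ab
  split_ifs <;> positivity

lemma ab_zero (q y z m j p : ℕ) (hyz : y ≤ z) (hp : z < p) : ab q y z m j p = 0 := by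
  unfold ab
  rw [if_neg (by omega), if_neg (by omega)]

lemma S1_nonneg (y : ℕ) : 0 ≤ S1 y := Finset.sum_nonneg fun _ _ => by positivity

lemma S2_nonneg (y z : ℕ) : 0 ≤ S2 y z := Finset.sum_nonneg fun _ _ => by positivity

lemma sum_ab (q y z m j : ℕ) (hyz : y ≤ z) :
    ∑ p ∈ pr z, ab q y z m j p ^ 2 / (p : ℝ) =
      ((m : ℝ) / q) ^ 2 * S1 y + ((j : ℝ) / 2) ^ 2 * S2 y z := by
  unfold S1 S2
  rw [← Finset.sum_filter_add_sum_filter_not (pr z) (fun p => p ≤ y), Finset.mul_sum,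
    Finset.mul_sum]
  congr 1
  · have h : (pr z).filter (fun p => p ≤ y) = pr y := by
      ext p
      simp only [pr, Finset.mem_filter, Finset.mem_range]
      constructor
      · rintro ⟨⟨h1, h2⟩, h3⟩
        exact ⟨by omega, h2⟩
      · rintro ⟨h1, h2⟩
        exact ⟨⟨by omega, h2⟩, by omega⟩
    rw [h]
    refine Finset.sum_congr rfl fun p hp => ?_
    have hp' : p ≤ y := by
      have := (Finset.mem_filter.1 hp).1
      rw [Finset.mem_range] at this
      omega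
    unfold ab
    rw [if_pos hp', mul_one_div]
  · have h : (pr z).filter (fun p => ¬ p ≤ y) = (pr z).filter (fun p => y < p) := by
      ext p
      simp only [Finset.mem_filter, not_le]
    rw [h]
    refine Finset.sum_congr rfl fun p hp => ?_
    obtain ⟨h1, h2⟩ := Finset.mem_filter.1 hp
    have hp' : p ≤ z := by
      have := (Finset.mem_filter.1 h1).1
      rw [Finset.mem_range] at this
      omega
    unfold ab
    rw [if_neg (by omega), if_pos hp', mul_one_div]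

lemma Q2_le (h8 : S_CCp) (h5 : S_Sq) (q y z m j m' k X : ℕ) (hq : 1 ≤ q) (hyz : y ≤ z)
    (hm : m ≤ m') (hj : j ≤ 2 * k) :
    Q2 (CC q y z m j) X ≤ Real.exp (((m' : ℝ) / q) ^ 2 * S1 y + (k : ℝ) ^ 2 * S2 y z) := by
  obtain ⟨h81, -, -, -⟩ := h8 q y z m j hq hyz
  refine le_trans (h5 (ab q y z m j) (CC q y z m j) z X (ab_nonneg q y z m j)
    (fun p hp => ab_zero q y z m j p hyz hp) (fun n => (h81 n).1) (fun n => (h81 n).2)) ?_
  apply Real.exp_le_exp.mpr
  rw [sum_ab q y z m j hyz]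
  have hm' : (m : ℝ) ≤ m' := by exact_mod_cast hm
  have hj' : (j : ℝ) / 2 ≤ k := by
    have : (j : ℝ) ≤ 2 * k := by exact_mod_cast hj
    linarith
  have hq' : (0 : ℝ) ≤ q := by positivity
  apply add_le_add
  · apply mul_le_mul_of_nonneg_right _ (S1_nonneg y)
    exact pow_le_pow_left₀ (by positivity) (div_le_div_of_nonneg_right hm' hq') 2
  · apply mul_le_mul_of_nonneg_right _ (S2_nonneg y z)
    exact pow_le_pow_left₀ (by positivity) hj' 2

end I_Os

open I_Os in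
theorem Os_pf (h3 : S_OscZ) (h8 : S_CCp) (h5 : S_Sq) : S_Os := by
  intro w hw k C j hk hC hj
  obtain ⟨C₁, T₁, hC₁, hT₁, H3⟩ := h3 w hw j hj
  refine ⟨C₁, T₁, hC₁, hT₁, ?_⟩
  intro T hT q y z m₁ hp hmq
  have hT0 : 0 < T := by linarith
  have hq := hp.hq
  have hy := hp.hy
  have hyz := hp.hyz
  have hy1 : 1 ≤ y := by omega
  have hz1 : 1 ≤ z := by omega
  set X : ℕ := y ^ (q * k) * z ^ (2 * k) with hX
  have hXT : (X : ℝ) ^ 3 ≤ T := by
    refine le_trans ?_ hp.hlen2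
    apply pow_le_pow_left₀ (by positivity)
    have : X ≤ y ^ (q * k + 1) * z ^ (2 * (k + 1)) :=
      Nat.mul_le_mul (Nat.pow_le_pow_right hy1 (by omega)) (Nat.pow_le_pow_right hz1 (by omega))
    exact_mod_cast this
  have hX0 : 0 < Xb k q y z m₁ := Real.exp_pos _
  have key : ∀ m j₁ m' j₂ : ℕ, m ≤ m₁ + q → j₁ ≤ 2 * k → m' ≤ m₁ + q → j₂ ≤ 2 * k →
      ‖∫ u : ℝ, (w u : ℂ) * (U (T * u) ^ j * ((starRingEnd ℂ) (zt (T * u)) *
        (MH q y z m j₁ (T * u) * (starRingEnd ℂ) (MH q y z m' j₂ (T * u)))))‖ ≤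
          C₁ / T ^ (1 / 8 : ℝ) * Xb k q y z m₁ := by
    intro m j₁ m' j₂ hm hj₁ hm' hj₂
    obtain ⟨ha1, -, -, ha4⟩ := h8 q y z m j₁ hq hyz
    obtain ⟨hb1, -, -, hb4⟩ := h8 q y z m' j₂ hq hyz
    have haX : y ^ m * z ^ j₁ ≤ X :=
      Nat.mul_le_mul (Nat.pow_le_pow_right hy1 (by omega)) (Nat.pow_le_pow_right hz1 hj₁)
    have hbX : y ^ m' * z ^ j₂ ≤ X :=
      Nat.mul_le_mul (Nat.pow_le_pow_right hy1 (by omega)) (Nat.pow_le_pow_right hz1 hj₂)
    have hmain := H3 T hT X hXT (CC q y z m j₁) (CC q y z m' j₂)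
      (ArithmeticFunction.map_zero) (ArithmeticFunction.map_zero)
    have hint : (∫ u : ℝ, (w u : ℂ) * (U (T * u) ^ j * ((starRingEnd ℂ) (zt (T * u)) *
        (DP (CC q y z m j₁) X (T * u) *
          (starRingEnd ℂ) (DP (CC q y z m' j₂) X (T * u)))))) =
        ∫ u : ℝ, (w u : ℂ) * (U (T * u) ^ j * ((starRingEnd ℂ) (zt (T * u)) *
          (MH q y z m j₁ (T * u) * (starRingEnd ℂ) (MH q y z m' j₂ (T * u))))) := by
      apply integral_congr_ae
      refine Eventually.of_forall fun u => ?_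
      show (w u : ℂ) * (U (T * u) ^ j * ((starRingEnd ℂ) (zt (T * u)) *
        (DP (CC q y z m j₁) X (T * u) *
          (starRingEnd ℂ) (DP (CC q y z m' j₂) X (T * u))))) =
        (w u : ℂ) * (U (T * u) ^ j * ((starRingEnd ℂ) (zt (T * u)) *
          (MH q y z m j₁ (T * u) * (starRingEnd ℂ) (MH q y z m' j₂ (T * u)))))
      rw [ha4 X haX, hb4 X hbX]
    rw [hint] at hmain
    refine hmain.trans ?_
    apply mul_le_mul_of_nonneg_left _ (div_nonneg hC₁ (Real.rpow_nonneg hT0.le _))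
    have hXb : Xb k q y z m₁ =
        Real.exp ((((m₁ + q : ℕ) : ℝ) / q) ^ 2 * S1 y + (k : ℝ) ^ 2 * S2 y z) := rfl
    have hQ : ∀ m j : ℕ, m ≤ m₁ + q → j ≤ 2 * k →
        Real.sqrt (Q2 (CC q y z m j) X) ≤ Real.sqrt (Xb k q y z m₁) := by
      intro m j hm hj
      apply Real.sqrt_le_sqrt
      rw [hXb]
      exact Q2_le h8 h5 q y z m j (m₁ + q) k X hq hyz hm hj
    calc _ ≤ Real.sqrt (Xb k q y z m₁) * Real.sqrt (Xb k q y z m₁) :=
          mul_le_mul (hQ _ _ hm hj₁) (hQ _ _ hm' hj₂) (Real.sqrt_nonneg _) (Real.sqrt_nonneg _)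
      _ = _ := Real.mul_self_sqrt hX0.le
  refine ⟨key _ _ _ _ (by omega) (by omega) le_rfl le_rfl, key _ _ _ _ le_rfl le_rfl (by omega)
    (by omega), key _ _ _ _ ?_ (by omega) ?_ (by omega)⟩
  · have := Nat.div_le_self q 2
    omega
  · have := Nat.div_le_self q 2
    omega

end Pool.Agent.Work.MP_56b8f5_nt.WA
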