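import Pool.Agent.Work.MP_56b8f5_nt.WA.Stmts
import Pool.Agent.Work.MP_56b8f5_nt.WM.I_FMx
import Pool.Agent.Work.MP_56b8f5_nt.WM.I_FMb

/-!
MP_56b8f5_nt, block WA: item C3 (OscZ), the twisted first moment with `U^j conj zeta`.
-/

set_option autoImplicit false

open MeasureTheory Set Filter Topology

noncomputable section

namespace Pool.Agent.Work.MP_56b8f5_nt.WA

open Pool.Agent.Work.MP_56b8f5_nt.EM
open Pool.Agent.Work.MP_56b8f5_nt.WM

namespace I_OscZ

open WM.I_FMx (bc bc_nonneg bc_zero term_eq dp_eq dp_conj exp_norm w_cont w_comp)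

/-- `conj P = ∑_k bc k e^{i t log k}` -/
lemma conjP (K t : ℝ) : (starRingEnd ℂ) (P K t) = ∑' k : ℕ, (bc K k : ℂ) *
    Complex.exp (Complex.I * ((t * Real.log k : ℝ) : ℂ)) := by
  have h1 : P K t = ∑' k : ℕ, (bc K k : ℂ) *
      Complex.exp (Complex.I * ((-(t * Real.log k) : ℝ) : ℂ)) := by
    unfold P
    exact tsum_congr fun k => term_eq K t k
  rw [h1, Complex.conj_tsum]
  refine tsum_congr fun k => ?_
  rw [map_mul, Complex.conj_ofReal, ← Complex.exp_conj, map_mul, Complex.conj_I,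
    Complex.conj_ofReal]
  congr 2
  push_cast
  ring

/-- the integrand for `k` -/
def gq (w : ℝ → ℝ) (j : ℕ) (K T x : ℝ) (k : ℕ) (u : ℝ) : ℂ :=
  (bc K k : ℂ) * ((w u : ℂ) * (U (T * u) ^ j *
    Complex.exp (Complex.I * ((T * u * (x + Real.log k) : ℝ) : ℂ))))

lemma gq_norm (hU : ∀ t, ‖U t‖ = 1) (w : ℝ → ℝ) (hw : ∀ u, 0 ≤ w u) (j : ℕ) (K T x : ℝ) (k : ℕ)
    (u : ℝ) : ‖gq w j K T x k u‖ = bc K k * w u := by
  unfold gq
  rw [norm_mul, norm_mul, norm_mul, exp_norm, norm_pow, hU, one_pow, mul_one, mul_one,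
    Complex.norm_real, Complex.norm_real, Real.norm_of_nonneg (bc_nonneg _ _),
    Real.norm_of_nonneg (hw u)]

lemma cs_mul {w : ℝ → ℝ} (hw : IsW w) {f : ℝ → ℂ} (hf : Continuous f) :
    Integrable (fun u : ℝ => (w u : ℂ) * f u) := by
  refine Continuous.integrable_of_hasCompactSupport ?_ ?_
  · have := w_cont hw
    fun_prop
  · refine (w_comp hw).mono ?_
    intro u hu
    rw [Function.mem_support] at hu ⊢
    intro h
    apply hu
    simp [h]

lemma gq_int (hUc : Continuous U) {w : ℝ → ℝ} (hw : IsW w) (j : ℕ) (K T x : ℝ) (k : ℕ) :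
    Integrable (gq w j K T x k) := by
  unfold gq
  apply Integrable.const_mul
  apply cs_mul hw
  fun_prop

lemma gq_tsum (w : ℝ → ℝ) (j : ℕ) (K T x u : ℝ) :
    ∑' k : ℕ, gq w j K T x k u =
      (w u : ℂ) * (U (T * u) ^ j * ((starRingEnd ℂ) (P K (T * u)) *
        Complex.exp (Complex.I * ((T * u * x : ℝ) : ℂ)))) := by
  rw [conjP, ← tsum_mul_right, ← tsum_mul_left, ← tsum_mul_left]
  refine tsum_congr fun k => ?_
  have e4 : Complex.exp (Complex.I * ((T * u * (x + Real.log k) : ℝ) : ℂ)) =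
      Complex.exp (Complex.I * ((T * u * Real.log k : ℝ) : ℂ)) *
        Complex.exp (Complex.I * ((T * u * x : ℝ) : ℂ)) := by
    rw [← Complex.exp_add]
    congr 1
    push_cast
    ring
  unfold gq
  rw [e4]
  ring

lemma one_bd (hP : StPc) (hUc : Continuous U) (hU : ∀ t, ‖U t‖ = 1) {w : ℝ → ℝ} (hw : IsW w)
    (j : ℕ) {K : ℝ} (hK : 1 ≤ K) (T x M : ℝ)
    (hM : ∀ k : ℕ, 1 ≤ k → ‖∫ u : ℝ, (w u : ℂ) * (U (T * u) ^ j *
      Complex.exp (Complex.I * ((T * u * (x + Real.log k) : ℝ) : ℂ)))‖ ≤ M) :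
    ‖∫ u : ℝ, (w u : ℂ) * (U (T * u) ^ j * ((starRingEnd ℂ) (P K (T * u)) *
      Complex.exp (Complex.I * ((T * u * x : ℝ) : ℂ))))‖ ≤ 2 * Real.sqrt K * M := by
  have hM0 : 0 ≤ M := (norm_nonneg _).trans (hM 1 le_rfl)
  obtain ⟨-, -, -, hbs, hbl⟩ := hP K hK
  have hbs' : Summable (bc K) := hbs
  have hbl' : ∑' k, bc K k ≤ 2 * Real.sqrt K := hbl
  have hsum : Summable fun k : ℕ => ∫ u, ‖gq w j K T x k u‖ := by
    have h1 : ∀ k : ℕ, ∫ u, ‖gq w j K T x k u‖ = bc K k * ∫ u, w u := by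
      intro k
      rw [← integral_const_mul]
      exact integral_congr_ae (Filter.Eventually.of_forall fun u =>
        gq_norm hU w hw.nonneg j K T x k u)
    simp only [h1]
    exact hbs'.mul_right _
  have hS := hasSum_integral_of_summable_integral_norm (fun k => gq_int hUc hw j K T x k) hsum
  have e2 : (∫ u, ∑' k, gq w j K T x k u) = ∫ u : ℝ, (w u : ℂ) * (U (T * u) ^ j *
      ((starRingEnd ℂ) (P K (T * u)) * Complex.exp (Complex.I * ((T * u * x : ℝ) : ℂ)))) :=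
    integral_congr_ae (Filter.Eventually.of_forall fun u => gq_tsum w j K T x u)
  rw [← e2, ← hS.tsum_eq]
  have h3 : ∀ k : ℕ, ‖∫ u, gq w j K T x k u‖ ≤ bc K k * M := by
    intro k
    have h4 : ∫ u, gq w j K T x k u = (bc K k : ℂ) * ∫ u : ℝ, (w u : ℂ) * (U (T * u) ^ j *
        Complex.exp (Complex.I * ((T * u * (x + Real.log k) : ℝ) : ℂ))) := by
      unfold gq
      rw [integral_const_mul]
    rw [h4, norm_mul, Complex.norm_real, Real.norm_of_nonneg (bc_nonneg _ _)]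
    rcases Nat.eq_zero_or_pos k with hk | hk
    · subst hk
      rw [bc_zero]
      simp
    · exact mul_le_mul_of_nonneg_left (hM k hk) (bc_nonneg _ _)
  have h5 : ‖∑' k, ∫ u, gq w j K T x k u‖ ≤ ∑' k, bc K k * M :=
    tsum_of_norm_bounded (hbs'.mul_right M).hasSum h3
  rw [tsum_mul_right] at h5
  exact h5.trans (mul_le_mul_of_nonneg_right hbl' hM0)

lemma integrand_eq (w : ℝ → ℝ) (j : ℕ) (K T : ℝ) (X : ℕ) (a b : ℕ → ℝ) (ha : a 0 = 0)
    (hb : b 0 = 0) (u : ℝ) :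
    (w u : ℂ) * (U (T * u) ^ j * ((starRingEnd ℂ) (P K (T * u)) *
      (DP a X (T * u) * (starRingEnd ℂ) (DP b X (T * u))))) =
      ∑ l ∈ Finset.range (X + 1), ∑ h ∈ Finset.range (X + 1),
        (((a h / Real.sqrt h) * (b l / Real.sqrt l) : ℝ) : ℂ) * ((w u : ℂ) * (U (T * u) ^ j *
          ((starRingEnd ℂ) (P K (T * u)) *
          Complex.exp (Complex.I * ((T * u * (Real.log l - Real.log h) : ℝ) : ℂ))))) := by
  rw [dp_eq a ha, dp_conj b hb, Finset.sum_mul_sum, Finset.sum_comm, Finset.mul_sum,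
    Finset.mul_sum, Finset.mul_sum]
  refine Finset.sum_congr rfl fun l _ => ?_
  rw [Finset.mul_sum, Finset.mul_sum, Finset.mul_sum]
  refine Finset.sum_congr rfl fun h _ => ?_
  have e4 : Complex.exp (Complex.I * ((T * u * (Real.log l - Real.log h) : ℝ) : ℂ)) =
      Complex.exp (Complex.I * ((-(T * u * Real.log h) : ℝ) : ℂ)) *
        Complex.exp (Complex.I * ((T * u * Real.log l : ℝ) : ℂ)) := by
    rw [← Complex.exp_add]
    congr 1
    push_cast
    ring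
  rw [e4]
  push_cast
  ring

/-- `∑ |a_h|/√h ≤ √(X+1) √Q2` -/
lemma l1abs (a : ℕ → ℝ) (X : ℕ) :
    ∑ h ∈ Finset.range (X + 1), |a h / Real.sqrt h| ≤
      Real.sqrt ((X : ℝ) + 1) * Real.sqrt (Q2 a X) := by
  have h1 := WM.I_FMb.l1 (fun n => |a n|) X
  have h2 : Q2 (fun n => |a n|) X = Q2 a X := by
    unfold Q2
    exact Finset.sum_congr rfl fun n _ => by rw [sq_abs]
  rw [h2] at h1
  refine le_trans (le_of_eq ?_) h1
  exact Finset.sum_congr rfl fun n _ => by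
    rw [abs_div, abs_of_nonneg (Real.sqrt_nonneg _)]

end I_OscZ

open I_OscZ in
/-- **C3 (OscZ).** -/
theorem OscZ_pf (hP : StPc) (h0 : S_ZP) (h1 : S_MVb) (h2 : S_UZ) (h3 : S_Osc) : S_OscZ := by
  intro w hw j hj
  obtain ⟨hUc, hzc, hU, -⟩ := h2
  obtain ⟨C0, T0, hC0, hT0, hz⟩ := h0 w hw
  obtain ⟨C1, hC1, hm⟩ := h1 w hw
  obtain ⟨C3, T3, hC3, hT3, ho⟩ := h3 w hw j hj
  refine ⟨C0 * C1 + 4 * C3, max T0 T3, by positivity, hT0.trans (le_max_left _ _), ?_⟩
  intro T hT X hX a b ha0 hb0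
  have hTT0 : T0 ≤ T := (le_max_left _ _).trans hT
  have hTT3 : T3 ≤ T := (le_max_right _ _).trans hT
  have hT1 : 1 ≤ T := hT0.trans hTT0
  have hTpos : 0 < T := by linarith
  have hK : (1 : ℝ) ≤ T ^ 3 := one_le_pow₀ hT1
  have hQa := WM.I_FMb.Q2nn a X
  have hQb := WM.I_FMb.Q2nn b X
  set Q : ℝ := Real.sqrt (Q2 a X) * Real.sqrt (Q2 b X) with hQ
  have hQn : 0 ≤ Q := by positivity
  -- continuity
  have hA : Continuous fun u : ℝ => DP a X (T * u) :=
    (WM.I_FMb.cDP a X).comp (continuous_const.mul continuous_id)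
  have hB : Continuous fun u : ℝ => DP b X (T * u) :=
    (WM.I_FMb.cDP b X).comp (continuous_const.mul continuous_id)
  have hBc : Continuous fun u : ℝ => (starRingEnd ℂ) (DP b X (T * u)) :=
    Complex.continuous_conj.comp hB
  have hZ : Continuous fun u : ℝ => (starRingEnd ℂ) (zt (T * u)) :=
    Complex.continuous_conj.comp (hzc.comp (continuous_const.mul continuous_id))
  have hPc : Continuous fun u : ℝ => (starRingEnd ℂ) (P (T ^ 3) (T * u)) :=
    Complex.continuous_conj.comp ((hP (T ^ 3) hK).1.comp (continuous_const.mul continuous_id))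
  have hUj : Continuous fun u : ℝ => U (T * u) ^ j :=
    (hUc.comp (continuous_const.mul continuous_id)).pow j
  -- step 1: replace zeta
  have iZ : Integrable (fun u : ℝ => (w u : ℂ) * (U (T * u) ^ j * ((starRingEnd ℂ) (zt (T * u)) *
      (DP a X (T * u) * (starRingEnd ℂ) (DP b X (T * u)))))) :=
    cs_mul hw (hUj.mul (hZ.mul (hA.mul hBc)))
  have iP : Integrable (fun u : ℝ => (w u : ℂ) * (U (T * u) ^ j *
      ((starRingEnd ℂ) (P (T ^ 3) (T * u)) *
      (DP a X (T * u) * (starRingEnd ℂ) (DP b X (T * u)))))) :=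
    cs_mul hw (hUj.mul (hPc.mul (hA.mul hBc)))
  have s1 : ‖(∫ u : ℝ, (w u : ℂ) * (U (T * u) ^ j * ((starRingEnd ℂ) (zt (T * u)) *
      (DP a X (T * u) * (starRingEnd ℂ) (DP b X (T * u)))))) -
      ∫ u : ℝ, (w u : ℂ) * (U (T * u) ^ j * ((starRingEnd ℂ) (P (T ^ 3) (T * u)) *
      (DP a X (T * u) * (starRingEnd ℂ) (DP b X (T * u)))))‖ ≤
      C0 / Real.sqrt T * (C1 * Q) := by
    rw [← integral_sub iZ iP]
    have hb2 := WM.I_FMb.cs hw C1 T X a b hC1 (hm T hT1 X hX a ha0) (hm T hT1 X hX b hb0) hQa hQb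
    rw [← hQ] at hb2
    have hc : 0 ≤ C0 / Real.sqrt T := by positivity
    refine le_trans ?_ (mul_le_mul_of_nonneg_left hb2 hc)
    rw [← integral_const_mul]
    refine (norm_integral_le_integral_norm _).trans ?_
    apply integral_mono (iZ.sub iP).norm
      ((WM.I_FMb.intw hw (hA.norm.mul hB.norm)).const_mul _)
    intro u
    simp only [Pi.sub_apply, Pi.mul_apply]
    have e1 : (w u : ℂ) * (U (T * u) ^ j * ((starRingEnd ℂ) (zt (T * u)) *
        (DP a X (T * u) * (starRingEnd ℂ) (DP b X (T * u))))) -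
        (w u : ℂ) * (U (T * u) ^ j * ((starRingEnd ℂ) (P (T ^ 3) (T * u)) *
        (DP a X (T * u) * (starRingEnd ℂ) (DP b X (T * u))))) =
        (w u : ℂ) * (U (T * u) ^ j * ((starRingEnd ℂ) (zt (T * u) - P (T ^ 3) (T * u)) *
        (DP a X (T * u) * (starRingEnd ℂ) (DP b X (T * u))))) := by
      rw [map_sub]
      ring
    rw [e1, norm_mul, norm_mul, norm_mul, norm_mul, norm_pow, hU, one_pow, one_mul,
      RCLike.norm_conj, RCLike.norm_conj, Complex.norm_real, Real.norm_of_nonneg (hw.nonneg u)]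
    by_cases hwu : w u = 0
    · rw [hwu]
      simp
    · have h2 : ‖zt (T * u) - P (T ^ 3) (T * u)‖ ≤ C0 / Real.sqrt T := hz T hTT0 u hwu
      have h4 : 0 ≤ ‖DP a X (T * u)‖ * ‖DP b X (T * u)‖ := by positivity
      have h5 := mul_le_mul_of_nonneg_right h2 h4
      have h6 := mul_le_mul_of_nonneg_left h5 (hw.nonneg u)
      linarith
  -- step 2: the main part
  have hX1 : ∀ h ∈ Finset.range (X + 1), h ≠ 0 → 0 ≤ Real.log h ∧
      Real.log h ≤ 1 / 3 * Real.log T := by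
    intro h hh hne
    have hhX : h ≤ X := by
      have := Finset.mem_range.1 hh
      omega
    have hh1 : (1 : ℝ) ≤ h := by exact_mod_cast Nat.pos_of_ne_zero hne
    have hhX' : (h : ℝ) ≤ X := by exact_mod_cast hhX
    refine ⟨Real.log_nonneg hh1, ?_⟩
    have h5 : (h : ℝ) ^ 3 ≤ T := (pow_le_pow_left₀ (by positivity) hhX' 3).trans hX
    have h6 := Real.log_le_log (by positivity) h5
    rw [Real.log_pow] at h6
    push_cast at h6
    linarith
  have hlT : 0 ≤ Real.log T := Real.log_nonneg hT1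
  have hsq : Real.sqrt (T ^ 3) = T ^ (3 / 2 : ℝ) := by
    rw [Real.sqrt_eq_rpow, ← Real.rpow_natCast, ← Real.rpow_mul hTpos.le]
    norm_num
  have s2 : ∀ l ∈ Finset.range (X + 1), ∀ h ∈ Finset.range (X + 1),
      ‖∫ u : ℝ, (((a h / Real.sqrt h) * (b l / Real.sqrt l) : ℝ) : ℂ) * ((w u : ℂ) *
        (U (T * u) ^ j * ((starRingEnd ℂ) (P (T ^ 3) (T * u)) *
          Complex.exp (Complex.I * ((T * u * (Real.log l - Real.log h) : ℝ) : ℂ)))))‖ ≤
      |a h / Real.sqrt h| * |b l / Real.sqrt l| * (2 * Real.sqrt (T ^ 3) * (C3 / T ^ 2)) := by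
    intro l hl h hh
    rw [integral_const_mul, norm_mul, Complex.norm_real, Real.norm_eq_abs, abs_mul]
    by_cases hl0 : l = 0
    · subst hl0
      rw [hb0]
      simp
    by_cases hh0 : h = 0
    · subst hh0
      rw [ha0]
      simp
    apply mul_le_mul_of_nonneg_left _ (by positivity)
    apply one_bd hP hUc hU hw j hK
    intro k hk
    apply ho T hTT3
    have e1 := (hX1 l hl hl0).1
    have e2 := (hX1 h hh hh0).2
    have e3 : 0 ≤ Real.log k := Real.log_nonneg (by exact_mod_cast hk)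
    linarith
  have s3 : ‖∫ u : ℝ, (w u : ℂ) * (U (T * u) ^ j * ((starRingEnd ℂ) (P (T ^ 3) (T * u)) *
      (DP a X (T * u) * (starRingEnd ℂ) (DP b X (T * u)))))‖ ≤
      ((X : ℝ) + 1) * Q * (2 * Real.sqrt (T ^ 3) * (C3 / T ^ 2)) := by
    have hi : ∀ l h : ℕ, Integrable (fun u : ℝ =>
        (((a h / Real.sqrt h) * (b l / Real.sqrt l) : ℝ) : ℂ) * ((w u : ℂ) *
        (U (T * u) ^ j * ((starRingEnd ℂ) (P (T ^ 3) (T * u)) *
          Complex.exp (Complex.I * ((T * u * (Real.log l - Real.log h) : ℝ) : ℂ)))))) := by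
      intro l h
      apply Integrable.const_mul
      apply cs_mul hw
      exact hUj.mul (hPc.mul (by fun_prop))
    have e0 : ∀ u : ℝ, _ := fun u => integrand_eq w j (T ^ 3) T X a b ha0 hb0 u
    rw [integral_congr_ae (Filter.Eventually.of_forall e0), integral_finsetSum]
    swap
    · intro l _
      exact integrable_finsetSum _ fun h _ => hi l h
    refine (norm_sum_le _ _).trans ?_
    have e1 : ∀ l ∈ Finset.range (X + 1), ‖∫ u : ℝ, ∑ h ∈ Finset.range (X + 1),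
        (((a h / Real.sqrt h) * (b l / Real.sqrt l) : ℝ) : ℂ) * ((w u : ℂ) *
        (U (T * u) ^ j * ((starRingEnd ℂ) (P (T ^ 3) (T * u)) *
          Complex.exp (Complex.I * ((T * u * (Real.log l - Real.log h) : ℝ) : ℂ)))))‖ ≤
        ∑ h ∈ Finset.range (X + 1), |a h / Real.sqrt h| * |b l / Real.sqrt l| *
          (2 * Real.sqrt (T ^ 3) * (C3 / T ^ 2)) := by
      intro l hl
      rw [integral_finsetSum]
      swap
      · intro h _
        exact hi l h
      refine (norm_sum_le _ _).trans ?_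
      exact Finset.sum_le_sum (s2 l hl)
    refine (Finset.sum_le_sum e1).trans ?_
    have e2 : ∑ l ∈ Finset.range (X + 1), ∑ h ∈ Finset.range (X + 1),
        |a h / Real.sqrt h| * |b l / Real.sqrt l| * (2 * Real.sqrt (T ^ 3) * (C3 / T ^ 2)) =
        ((∑ h ∈ Finset.range (X + 1), |a h / Real.sqrt h|) *
          ∑ l ∈ Finset.range (X + 1), |b l / Real.sqrt l|) *
          (2 * Real.sqrt (T ^ 3) * (C3 / T ^ 2)) := by
      rw [Finset.sum_mul_sum, Finset.sum_comm, Finset.sum_mul]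
      exact Finset.sum_congr rfl fun h _ => by rw [Finset.sum_mul]
    rw [e2]
    apply mul_le_mul_of_nonneg_right _ (by positivity)
    have e3 := l1abs a X
    have e4 := l1abs b X
    have e5 := mul_le_mul e3 e4 (Finset.sum_nonneg fun n _ => abs_nonneg _) (by positivity)
    have e6 : (Real.sqrt ((X : ℝ) + 1) * Real.sqrt (Q2 a X)) *
          (Real.sqrt ((X : ℝ) + 1) * Real.sqrt (Q2 b X)) = ((X : ℝ) + 1) * Q := by
      have := Real.mul_self_sqrt (by positivity : (0 : ℝ) ≤ (X : ℝ) + 1)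
      rw [hQ]
      linear_combination (Real.sqrt (Q2 a X) * Real.sqrt (Q2 b X)) * this
    rw [e6] at e5
    exact e5
  -- powers of T
  have hX13 : (X : ℝ) ≤ T ^ (1 / 3 : ℝ) := by
    have h5 : ((X : ℝ) ^ 3) ^ (1 / 3 : ℝ) ≤ T ^ (1 / 3 : ℝ) :=
      Real.rpow_le_rpow (by positivity) hX (by norm_num)
    have h6 : ((X : ℝ) ^ 3) ^ (1 / 3 : ℝ) = X := by
      rw [← Real.rpow_natCast, ← Real.rpow_mul (by positivity)]
      norm_num
    rwa [h6] at h5
  have h13 : 1 ≤ T ^ (1 / 3 : ℝ) := Real.one_le_rpow hT1 (by norm_num)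
  have hXp : (X : ℝ) + 1 ≤ 2 * T ^ (1 / 3 : ℝ) := by linarith
  have hrpos : 0 < T ^ (1 / 8 : ℝ) := Real.rpow_pos_of_pos hTpos _
  have s4 : ((X : ℝ) + 1) * Q * (2 * Real.sqrt (T ^ 3) * (C3 / T ^ 2)) ≤
      4 * C3 / T ^ (1 / 8 : ℝ) * Q := by
    have e1 : ((X : ℝ) + 1) * Q * (2 * Real.sqrt (T ^ 3) * (C3 / T ^ 2)) ≤
        (2 * T ^ (1 / 3 : ℝ)) * Q * (2 * Real.sqrt (T ^ 3) * (C3 / T ^ 2)) := by
      apply mul_le_mul_of_nonneg_right _ (by positivity)
      exact mul_le_mul_of_nonneg_right hXp hQn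
    refine e1.trans ?_
    rw [hsq]
    have e2 : (2 * T ^ (1 / 3 : ℝ)) * Q * (2 * T ^ (3 / 2 : ℝ) * (C3 / T ^ 2)) =
        4 * C3 * Q * (T ^ (1 / 3 : ℝ) * T ^ (3 / 2 : ℝ) / T ^ 2) := by ring
    rw [e2]
    have e3 : T ^ (1 / 3 : ℝ) * T ^ (3 / 2 : ℝ) / T ^ 2 = T ^ (-(1 / 6) : ℝ) := by
      rw [← Real.rpow_add hTpos, ← Real.rpow_natCast, ← Real.rpow_sub hTpos]
      norm_num
    rw [e3]
    have e4 : T ^ (-(1 / 6) : ℝ) ≤ 1 / T ^ (1 / 8 : ℝ) := by
      have e5 : T ^ (-(1 / 8) : ℝ) = 1 / T ^ (1 / 8 : ℝ) := by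
        rw [Real.rpow_neg hTpos.le]
        exact inv_eq_one_div _
      rw [← e5]
      exact Real.rpow_le_rpow_of_exponent_le hT1 (by norm_num)
    calc 4 * C3 * Q * T ^ (-(1 / 6) : ℝ) ≤ 4 * C3 * Q * (1 / T ^ (1 / 8 : ℝ)) :=
          mul_le_mul_of_nonneg_left e4 (by positivity)
      _ = 4 * C3 / T ^ (1 / 8 : ℝ) * Q := by ring
  have s5 : C0 / Real.sqrt T * (C1 * Q) ≤ C0 * C1 / T ^ (1 / 8 : ℝ) * Q := by
    have hroot : T ^ (1 / 8 : ℝ) ≤ Real.sqrt T := by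
      rw [Real.sqrt_eq_rpow]
      exact Real.rpow_le_rpow_of_exponent_le hT1 (by norm_num)
    have e1 : C0 / Real.sqrt T ≤ C0 / T ^ (1 / 8 : ℝ) :=
      div_le_div_of_nonneg_left hC0 hrpos hroot
    calc C0 / Real.sqrt T * (C1 * Q) ≤ C0 / T ^ (1 / 8 : ℝ) * (C1 * Q) :=
          mul_le_mul_of_nonneg_right e1 (by positivity)
      _ = C0 * C1 / T ^ (1 / 8 : ℝ) * Q := by ring
  have s6 : (C0 * C1 + 4 * C3) / T ^ (1 / 8 : ℝ) * Q =
      C0 * C1 / T ^ (1 / 8 : ℝ) * Q + 4 * C3 / T ^ (1 / 8 : ℝ) * Q := by ring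
  rw [s6]
  have s7 := norm_sub_norm_le (∫ u : ℝ, (w u : ℂ) * (U (T * u) ^ j * ((starRingEnd ℂ) (zt (T * u)) *
      (DP a X (T * u) * (starRingEnd ℂ) (DP b X (T * u))))))
      (∫ u : ℝ, (w u : ℂ) * (U (T * u) ^ j * ((starRingEnd ℂ) (P (T ^ 3) (T * u)) *
      (DP a X (T * u) * (starRingEnd ℂ) (DP b X (T * u))))))
  linarith

end Pool.Agent.Work.MP_56b8f5_nt.WA
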