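import Pool.Agent.Work.MP_56b8f5_nt.WA.Stmts

/-!
MP_56b8f5_nt, block WA, item B4 (PsiB): bounds for `psi`, `psi1`, `psi2` by telescoping sums.
-/

set_option autoImplicit false

open MeasureTheory Set Filter Topology

noncomputable section

namespace Pool.Agent.Work.MP_56b8f5_nt.WA

open Pool.Agent.Work.MP_56b8f5_nt.EM
open Pool.Agent.Work.MP_56b8f5_nt.WM

namespace I_PsiB

theorem sumInv (n : ℕ) : ∑ k ∈ Finset.range (n + 1), 1 / (4 * (k : ℝ) + 1) ^ 2 ≤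
    5 / 4 - 1 / (4 * (4 * (n : ℝ) + 1)) := by
  induction n with
  | zero => norm_num
  | succ n ih =>
    rw [Finset.sum_range_succ]
    have hn : (0 : ℝ) ≤ n := Nat.cast_nonneg n
    have key : 1 / (4 * ((n + 1 : ℕ) : ℝ) + 1) ^ 2 ≤
        1 / (4 * (4 * (n : ℝ) + 1)) - 1 / (4 * (4 * ((n + 1 : ℕ) : ℝ) + 1)) := by
      have h1 : (0 : ℝ) < 4 * (n : ℝ) + 1 := by linarith
      have h2 : (0 : ℝ) < 4 * ((n + 1 : ℕ) : ℝ) + 1 := by push_cast; linarith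
      have e : 1 / (4 * (4 * (n : ℝ) + 1)) - 1 / (4 * (4 * ((n + 1 : ℕ) : ℝ) + 1)) =
          1 / ((4 * (n : ℝ) + 1) * (4 * ((n + 1 : ℕ) : ℝ) + 1)) := by
        have h1' := h1.ne'
        have h2' := h2.ne'
        field_simp
        push_cast
        ring
      rw [e]
      apply one_div_le_one_div_of_le (mul_pos h1 h2)
      rw [sq]
      apply mul_le_mul_of_nonneg_right _ h2.le
      push_cast
      linarith
    linarith

theorem sumInv' (n : ℕ) : ∑ k ∈ Finset.range (n + 1), 1 / (4 * (k : ℝ) + 1) ^ 2 ≤ 5 / 4 := by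
  have h := sumInv n
  have h1 : (0 : ℝ) ≤ 1 / (4 * (4 * (n : ℝ) + 1)) := by positivity
  linarith

theorem logStep {X Y : ℝ} (hX : 0 < X) (hY : 0 < Y) : (Y - X) / Y ≤ Real.log Y - Real.log X := by
  have h := Real.log_le_sub_one_of_pos (div_pos hX hY)
  rw [Real.log_div hX.ne' hY.ne'] at h
  have e : (Y - X) / Y = 1 - X / Y := by
    field_simp
  rw [e]
  linarith

theorem term1 {a t : ℝ} (ha : 1 ≤ a) (ht : 0 < t) : a / (a ^ 2 + 4 * t ^ 2) ≤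
    1 / 8 * (Real.log (a ^ 2 + 4 * t ^ 2) - Real.log ((a - 4) ^ 2 + 4 * t ^ 2)) +
      2 * (1 / a ^ 2) := by
  have hY : 0 < a ^ 2 + 4 * t ^ 2 := by positivity
  have hX : 0 < (a - 4) ^ 2 + 4 * t ^ 2 := by positivity
  have h := logStep hX hY
  have h2 : 2 / (a ^ 2 + 4 * t ^ 2) ≤ 2 * (1 / a ^ 2) := by
    rw [mul_one_div]
    apply div_le_div_of_nonneg_left (by norm_num) (by positivity)
    nlinarith [sq_nonneg t]
  have e : a / (a ^ 2 + 4 * t ^ 2) =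
      1 / 8 * ((a ^ 2 + 4 * t ^ 2 - ((a - 4) ^ 2 + 4 * t ^ 2)) / (a ^ 2 + 4 * t ^ 2)) +
        2 / (a ^ 2 + 4 * t ^ 2) := by
    field_simp
    ring
  rw [e]
  linarith

theorem sum1 {t : ℝ} (ht : 0 < t) (n : ℕ) :
    ∑ k ∈ Finset.range (n + 1), (4 * (k : ℝ) + 1) / ((4 * (k : ℝ) + 1) ^ 2 + 4 * t ^ 2) ≤
      1 / 8 * (Real.log ((4 * (n : ℝ) + 1) ^ 2 + 4 * t ^ 2) - Real.log (9 + 4 * t ^ 2)) +
        2 * ∑ k ∈ Finset.range (n + 1), 1 / (4 * (k : ℝ) + 1) ^ 2 := by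
  induction n with
  | zero =>
    have h := term1 (a := 1) (t := t) le_rfl ht
    simp only [zero_add, Finset.range_one, Finset.sum_singleton, Nat.cast_zero, mul_zero]
    have e : ((1 : ℝ) - 4) ^ 2 + 4 * t ^ 2 = 9 + 4 * t ^ 2 := by ring
    rw [e] at h
    exact h
  | succ n ih =>
    rw [Finset.sum_range_succ, Finset.sum_range_succ (fun k : ℕ => 1 / (4 * (k : ℝ) + 1) ^ 2)]
    have hn : (0 : ℝ) ≤ n := Nat.cast_nonneg n
    have h := term1 (a := 4 * ((n + 1 : ℕ) : ℝ) + 1) (t := t) (by push_cast; linarith) ht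
    have e : (4 * ((n + 1 : ℕ) : ℝ) + 1 - 4) ^ 2 + 4 * t ^ 2 =
        (4 * (n : ℝ) + 1) ^ 2 + 4 * t ^ 2 := by push_cast; ring
    rw [e] at h
    linarith

theorem term2 {a t : ℝ} (ha : 1 ≤ a) (ht : 0 < t) : a / (a ^ 2 + 4 * t ^ 2) ^ 2 ≤
    1 / 8 * (1 / ((a - 4) ^ 2 + 4 * t ^ 2) - 1 / (a ^ 2 + 4 * t ^ 2)) +
      1 / (2 * t ^ 2) * (1 / a ^ 2) := by
  have hY : 0 < a ^ 2 + 4 * t ^ 2 := by positivity
  have hX : 0 < (a - 4) ^ 2 + 4 * t ^ 2 := by positivity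
  have h1 : 2 / (a ^ 2 + 4 * t ^ 2) ^ 2 ≤ 1 / (2 * t ^ 2) * (1 / a ^ 2) := by
    rw [one_div_mul_one_div]
    have e : 1 / (2 * t ^ 2 * a ^ 2) = 2 / (4 * t ^ 2 * a ^ 2) := by
      have ha' : a ≠ 0 := by positivity
      field_simp
      norm_num
    rw [e]
    apply div_le_div_of_nonneg_left (by norm_num) (by positivity)
    rw [sq (a ^ 2 + 4 * t ^ 2)]
    apply mul_le_mul _ _ (by positivity) hY.le
    · nlinarith [sq_nonneg a]
    · nlinarith [sq_nonneg t]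
  have h2 : 1 / 8 * ((8 * a - 16) / (a ^ 2 + 4 * t ^ 2) ^ 2) ≤
      1 / 8 * (1 / ((a - 4) ^ 2 + 4 * t ^ 2) - 1 / (a ^ 2 + 4 * t ^ 2)) := by
    have e : 1 / ((a - 4) ^ 2 + 4 * t ^ 2) - 1 / (a ^ 2 + 4 * t ^ 2) -
        (8 * a - 16) / (a ^ 2 + 4 * t ^ 2) ^ 2 =
        (8 * a - 16) ^ 2 / (((a - 4) ^ 2 + 4 * t ^ 2) * (a ^ 2 + 4 * t ^ 2) ^ 2) := by
      field_simp
      ring
    have h3 : 0 ≤ (8 * a - 16) ^ 2 / (((a - 4) ^ 2 + 4 * t ^ 2) * (a ^ 2 + 4 * t ^ 2) ^ 2) := by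
      positivity
    linarith
  have e : a / (a ^ 2 + 4 * t ^ 2) ^ 2 = 1 / 8 * ((8 * a - 16) / (a ^ 2 + 4 * t ^ 2) ^ 2) +
      2 / (a ^ 2 + 4 * t ^ 2) ^ 2 := by
    field_simp
    ring
  rw [e]
  linarith

theorem sum2 {t : ℝ} (ht : 0 < t) (n : ℕ) :
    ∑ k ∈ Finset.range (n + 1), (4 * (k : ℝ) + 1) / ((4 * (k : ℝ) + 1) ^ 2 + 4 * t ^ 2) ^ 2 ≤
      1 / 8 * (1 / (9 + 4 * t ^ 2) - 1 / ((4 * (n : ℝ) + 1) ^ 2 + 4 * t ^ 2)) +
        1 / (2 * t ^ 2) * ∑ k ∈ Finset.range (n + 1), 1 / (4 * (k : ℝ) + 1) ^ 2 := by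
  induction n with
  | zero =>
    have h := term2 (a := 1) (t := t) le_rfl ht
    simp only [zero_add, Finset.range_one, Finset.sum_singleton, Nat.cast_zero, mul_zero]
    have e : ((1 : ℝ) - 4) ^ 2 + 4 * t ^ 2 = 9 + 4 * t ^ 2 := by ring
    rw [e] at h
    exact h
  | succ n ih =>
    rw [Finset.sum_range_succ, Finset.sum_range_succ (fun k : ℕ => 1 / (4 * (k : ℝ) + 1) ^ 2)]
    have hn : (0 : ℝ) ≤ n := Nat.cast_nonneg n
    have h := term2 (a := 4 * ((n + 1 : ℕ) : ℝ) + 1) (t := t) (by push_cast; linarith) ht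
    have e : (4 * ((n + 1 : ℕ) : ℝ) + 1 - 4) ^ 2 + 4 * t ^ 2 =
        (4 * (n : ℝ) + 1) ^ 2 + 4 * t ^ 2 := by push_cast; ring
    rw [e] at h
    rw [mul_add]
    linarith

theorem sum2' {t : ℝ} (ht : 0 < t) (n : ℕ) :
    ∑ k ∈ Finset.range (n + 1), (4 * (k : ℝ) + 1) / ((4 * (k : ℝ) + 1) ^ 2 + 4 * t ^ 2) ^ 2 ≤
      1 / t ^ 2 := by
  have h := sum2 ht n
  have h0 : 1 / (2 * t ^ 2) * ∑ k ∈ Finset.range (n + 1), 1 / (4 * (k : ℝ) + 1) ^ 2 ≤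
      1 / (2 * t ^ 2) * (5 / 4) := mul_le_mul_of_nonneg_left (sumInv' n) (by positivity)
  have h1 : 1 / (9 + 4 * t ^ 2) ≤ 1 / (4 * t ^ 2) := by
    apply one_div_le_one_div_of_le (by positivity)
    linarith
  have h2 : (0 : ℝ) ≤ 1 / ((4 * (n : ℝ) + 1) ^ 2 + 4 * t ^ 2) := by positivity
  have e1 : 1 / (2 * t ^ 2) = 1 / 2 * (1 / t ^ 2) := by
    field_simp
  have e2 : 1 / (4 * t ^ 2) = 1 / 4 * (1 / t ^ 2) := by
    field_simp
  have h3 : 0 ≤ 1 / t ^ 2 := by positivity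
  rw [e1] at h h0
  rw [e2] at h1
  linarith

theorem sum3 {t : ℝ} (ht : 0 < t) (n : ℕ) :
    t ^ 2 * ∑ k ∈ Finset.range (n + 1), (4 * (k : ℝ) + 1) /
      ((4 * (k : ℝ) + 1) ^ 2 + 4 * t ^ 2) ^ 3 ≤ 1 / 4 *
    ∑ k ∈ Finset.range (n + 1), (4 * (k : ℝ) + 1) / ((4 * (k : ℝ) + 1) ^ 2 + 4 * t ^ 2) ^ 2 := by
  rw [Finset.mul_sum, Finset.mul_sum]
  apply Finset.sum_le_sum
  intro k _
  have ha : (0 : ℝ) < 4 * (k : ℝ) + 1 := by positivity
  have hY : 0 < (4 * (k : ℝ) + 1) ^ 2 + 4 * t ^ 2 := by positivity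
  have e : 1 / 4 * ((4 * (k : ℝ) + 1) / ((4 * (k : ℝ) + 1) ^ 2 + 4 * t ^ 2) ^ 2) -
      t ^ 2 * ((4 * (k : ℝ) + 1) / ((4 * (k : ℝ) + 1) ^ 2 + 4 * t ^ 2) ^ 3) =
      1 / 4 * ((4 * (k : ℝ) + 1) ^ 3 / ((4 * (k : ℝ) + 1) ^ 2 + 4 * t ^ 2) ^ 3) := by
    field_simp
    ring
  have h : 0 ≤ 1 / 4 * ((4 * (k : ℝ) + 1) ^ 3 / ((4 * (k : ℝ) + 1) ^ 2 + 4 * t ^ 2) ^ 3) := by
    positivity
  linarith

theorem nonneg2 (t : ℝ) (n : ℕ) : 0 ≤
    ∑ k ∈ Finset.range (n + 1), (4 * (k : ℝ) + 1) / ((4 * (k : ℝ) + 1) ^ 2 + 4 * t ^ 2) ^ 2 := by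
  apply Finset.sum_nonneg
  intro k _
  positivity

theorem nonneg3 (t : ℝ) (n : ℕ) : 0 ≤
    ∑ k ∈ Finset.range (n + 1), (4 * (k : ℝ) + 1) / ((4 * (k : ℝ) + 1) ^ 2 + 4 * t ^ 2) ^ 3 := by
  apply Finset.sum_nonneg
  intro k _
  positivity

end I_PsiB

open I_PsiB in
theorem PsiB_pf : S_PsiB := by
  refine ⟨Real.log Real.pi + 10 + 1 / 2 * Real.log 29 + 1000, ?_, ?_⟩
  · have h1 : 0 ≤ Real.log Real.pi := Real.log_nonneg (by linarith [Real.pi_gt_three])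
    have h2 : 0 ≤ Real.log 29 := Real.log_nonneg (by norm_num)
    linarith
  intro t ht n hn
  have hl1 : 0 ≤ Real.log Real.pi := Real.log_nonneg (by linarith [Real.pi_gt_three])
  have hl2 : 0 ≤ Real.log 29 := Real.log_nonneg (by norm_num)
  have ht0 : 0 < t := by linarith
  have hn1 : (1 : ℝ) ≤ n := ht.trans hn
  have hn0 : (0 : ℝ) < n := by linarith
  refine ⟨?_, ?_, ?_⟩
  · unfold psi
    have h := sum1 ht0 n
    have h' := sumInv' n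
    have h1 : Real.log ((4 * (n : ℝ) + 1) ^ 2 + 4 * t ^ 2) ≤ Real.log 29 + 2 * Real.log n := by
      have e : Real.log 29 + 2 * Real.log n = Real.log (29 * (n : ℝ) ^ 2) := by
        rw [Real.log_mul (by norm_num) (by positivity), Real.log_pow]
        push_cast
        ring
      rw [e]
      apply Real.log_le_log (by positivity)
      have h2 : t ^ 2 ≤ (n : ℝ) ^ 2 := pow_le_pow_left₀ ht0.le hn 2
      nlinarith
    have h2 : 2 * Real.log t ≤ Real.log (9 + 4 * t ^ 2) := by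
      have e : 2 * Real.log t = Real.log (t ^ 2) := by
        rw [Real.log_pow]
        push_cast
        ring
      rw [e]
      apply Real.log_le_log (by positivity)
      nlinarith [sq_nonneg t]
    rw [Real.log_div hn0.ne' Real.pi_ne_zero]
    linarith
  · unfold psi1
    have h := sum2' ht0 n
    have h0 := nonneg2 t n
    rw [abs_of_nonneg (by positivity)]
    have h1 : 32 * t * ∑ k ∈ Finset.range (n + 1), (4 * (k : ℝ) + 1) /
        ((4 * (k : ℝ) + 1) ^ 2 + 4 * t ^ 2) ^ 2 ≤ 32 * t * (1 / t ^ 2) :=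
      mul_le_mul_of_nonneg_left h (by positivity)
    have e : 32 * t * (1 / t ^ 2) = 32 / t := by
      field_simp
    rw [e] at h1
    apply h1.trans
    apply div_le_div_of_nonneg_right _ ht0.le
    linarith
  · unfold psi2
    have h := sum2' ht0 n
    have h0 := nonneg2 t n
    have h3 := sum3 ht0 n
    have h4 := nonneg3 t n
    have h5 : 0 ≤ t ^ 2 * ∑ k ∈ Finset.range (n + 1), (4 * (k : ℝ) + 1) /
        ((4 * (k : ℝ) + 1) ^ 2 + 4 * t ^ 2) ^ 3 := mul_nonneg (by positivity) h4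
    have h6 : 160 * (1 / t ^ 2) ≤ (Real.log Real.pi + 10 + 1 / 2 * Real.log 29 + 1000) / t ^ 2 := by
      rw [mul_one_div]
      apply div_le_div_of_nonneg_right _ (by positivity)
      linarith
    refine le_trans ?_ h6
    rw [abs_le]
    constructor
    · linarith
    · linarith

end Pool.Agent.Work.MP_56b8f5_nt.WA
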