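import Pool.Agent.Work.MP_56b8f5_nt.WA.Stmts

/-!
MP_56b8f5_nt, block WA, item B3 (PsiD): derivatives of `Psi n`.
-/

set_option autoImplicit false

open MeasureTheory Set Filter Topology

noncomputable section

namespace Pool.Agent.Work.MP_56b8f5_nt.WA

open Pool.Agent.Work.MP_56b8f5_nt.EM
open Pool.Agent.Work.MP_56b8f5_nt.WM

namespace I_PsiD

theorem apos (k : ℕ) : (0 : ℝ) < 4 * (k : ℝ) + 1 := by positivity

theorem dpos (k : ℕ) (t : ℝ) : (0 : ℝ) < (4 * (k : ℝ) + 1) ^ 2 + 4 * t ^ 2 := by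
  have := apos k
  positivity

theorem dden (k : ℕ) (t : ℝ) :
    HasDerivAt (fun t : ℝ => (4 * (k : ℝ) + 1) ^ 2 + 4 * t ^ 2) (8 * t) t := by
  have h := ((hasDerivAt_id t).pow 2).const_mul (4 : ℝ) |>.const_add ((4 * (k : ℝ) + 1) ^ 2)
  refine h.congr_deriv ?_
  simp
  ring

theorem d1 (k : ℕ) (t : ℝ) : HasDerivAt (fun t : ℝ => Real.arctan (2 * t / (4 * (k : ℝ) + 1)))
    (2 * ((4 * (k : ℝ) + 1) / ((4 * (k : ℝ) + 1) ^ 2 + 4 * t ^ 2))) t := by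
  have ha := apos k
  have hd := dpos k t
  have h0 : HasDerivAt (fun t : ℝ => 2 * t / (4 * (k : ℝ) + 1)) (2 / (4 * (k : ℝ) + 1)) t := by
    have := ((hasDerivAt_id t).const_mul (2 : ℝ)).div_const (4 * (k : ℝ) + 1)
    refine this.congr_deriv ?_
    simp
  refine h0.arctan.congr_deriv ?_
  have h1 : (1 : ℝ) + (2 * t / (4 * (k : ℝ) + 1)) ^ 2 =
      ((4 * (k : ℝ) + 1) ^ 2 + 4 * t ^ 2) / (4 * (k : ℝ) + 1) ^ 2 := by
    field_simp
    ring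
  rw [h1]
  field_simp

theorem d2 (k : ℕ) (t : ℝ) :
    HasDerivAt (fun t : ℝ => (4 * (k : ℝ) + 1) / ((4 * (k : ℝ) + 1) ^ 2 + 4 * t ^ 2))
      (-(8 * t * ((4 * (k : ℝ) + 1) / ((4 * (k : ℝ) + 1) ^ 2 + 4 * t ^ 2) ^ 2))) t := by
  have hd := dpos k t
  have h := (hasDerivAt_const t (4 * (k : ℝ) + 1)).div (dden k t) hd.ne'
  refine h.congr_deriv ?_
  field_simp
  ring

theorem d3 (k : ℕ) (t : ℝ) :
    HasDerivAt (fun t : ℝ => (4 * (k : ℝ) + 1) / ((4 * (k : ℝ) + 1) ^ 2 + 4 * t ^ 2) ^ 2)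
      (-(16 * t * ((4 * (k : ℝ) + 1) / ((4 * (k : ℝ) + 1) ^ 2 + 4 * t ^ 2) ^ 3))) t := by
  have hd := dpos k t
  have h := (hasDerivAt_const t (4 * (k : ℝ) + 1)).div ((dden k t).pow 2) (pow_pos hd 2).ne'
  refine h.congr_deriv ?_
  simp only [Pi.pow_apply]
  push_cast
  field_simp
  ring

theorem dPsi (n : ℕ) (t : ℝ) : HasDerivAt (Psi n) (psi n t) t := by
  have hs : HasDerivAt (fun t : ℝ => ∑ k ∈ Finset.range (n + 1),
      Real.arctan (2 * t / (4 * (k : ℝ) + 1)))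
      (∑ k ∈ Finset.range (n + 1),
        2 * ((4 * (k : ℝ) + 1) / ((4 * (k : ℝ) + 1) ^ 2 + 4 * t ^ 2))) t :=
    HasDerivAt.fun_sum fun k _ => d1 k t
  have h := ((hasDerivAt_id t).mul_const (Real.log ((n : ℝ) / Real.pi))).sub (hs.const_mul 2)
  refine h.congr_deriv ?_
  unfold psi
  rw [← Finset.mul_sum]
  ring

theorem dpsi (n : ℕ) (t : ℝ) : HasDerivAt (psi n) (psi1 n t) t := by
  have hs : HasDerivAt (fun t : ℝ => ∑ k ∈ Finset.range (n + 1),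
      (4 * (k : ℝ) + 1) / ((4 * (k : ℝ) + 1) ^ 2 + 4 * t ^ 2))
      (∑ k ∈ Finset.range (n + 1),
        (-(8 * t * ((4 * (k : ℝ) + 1) / ((4 * (k : ℝ) + 1) ^ 2 + 4 * t ^ 2) ^ 2)))) t :=
    HasDerivAt.fun_sum fun k _ => d2 k t
  have h := (hs.const_mul 4).const_sub (Real.log ((n : ℝ) / Real.pi))
  refine h.congr_deriv ?_
  unfold psi1
  rw [Finset.sum_neg_distrib, ← Finset.mul_sum]
  ring

theorem dpsi1 (n : ℕ) (t : ℝ) : HasDerivAt (psi1 n) (psi2 n t) t := by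
  have hs : HasDerivAt (fun t : ℝ => ∑ k ∈ Finset.range (n + 1),
      (4 * (k : ℝ) + 1) / ((4 * (k : ℝ) + 1) ^ 2 + 4 * t ^ 2) ^ 2)
      (∑ k ∈ Finset.range (n + 1),
        (-(16 * t * ((4 * (k : ℝ) + 1) / ((4 * (k : ℝ) + 1) ^ 2 + 4 * t ^ 2) ^ 3)))) t :=
    HasDerivAt.fun_sum fun k _ => d3 k t
  have h := ((hasDerivAt_id t).const_mul 32).mul hs
  refine h.congr_deriv ?_
  unfold psi2
  rw [Finset.sum_neg_distrib, ← Finset.mul_sum]
  simp only [id]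
  ring

theorem cpsi2 (n : ℕ) : Continuous (psi2 n) := by
  unfold psi2
  have h1 : ∀ (e : ℕ) (k : ℕ), Continuous fun t : ℝ =>
      (4 * (k : ℝ) + 1) / ((4 * (k : ℝ) + 1) ^ 2 + 4 * t ^ 2) ^ e := by
    intro e k
    refine continuous_const.div (by fun_prop) fun t => (pow_pos (dpos k t) e).ne'
  refine ((continuous_const.mul (continuous_finset_sum _ fun k _ => h1 2 k))).sub
    ((by fun_prop : Continuous fun t : ℝ => 512 * t ^ 2).mul
      (continuous_finset_sum _ fun k _ => h1 3 k))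

end I_PsiD

theorem PsiD_pf : S_PsiD := fun n t =>
  ⟨I_PsiD.dPsi n t, I_PsiD.dpsi n t, I_PsiD.dpsi1 n t, I_PsiD.cpsi2 n⟩

end Pool.Agent.Work.MP_56b8f5_nt.WA
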