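import Pool.Agent.Work.MP_56b8f5_nt.WA.Stmts

/-!
MP_56b8f5_nt, block WA, item D5 (Sm): the two non-oscillating harmonics.
-/

set_option autoImplicit false

open MeasureTheory Set Filter Topology

noncomputable section

namespace Pool.Agent.Work.MP_56b8f5_nt.WA

open Pool.Agent.Work.MP_56b8f5_nt.EM
open Pool.Agent.Work.MP_56b8f5_nt.WM

namespace I_Sm

lemma ab_nonneg (q y z m j p : ℕ) : 0 ≤ ab q y z m j p := by
  unfold ab
  split_ifs <;> positivity

lemma ab_zero (q y z m j p : ℕ) (hyz : y ≤ z) (hp : z < p) : ab q y z m j p = 0 := by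
  unfold ab
  rw [if_neg (by omega), if_neg (by omega)]

lemma S1_nonneg (y : ℕ) : 0 ≤ S1 y := Finset.sum_nonneg fun _ _ => by positivity

lemma S2_nonneg (y z : ℕ) : 0 ≤ S2 y z := Finset.sum_nonneg fun _ _ => by positivity

lemma sum_pw (y z : ℕ) (hyz : y ≤ z) (A B : ℝ) (f : ℕ → ℝ) (hA : ∀ p, p ≤ y → f p = A)
    (hB : ∀ p, y < p → p ≤ z → f p = B) :
    ∑ p ∈ pr z, f p / (p : ℝ) = A * S1 y + B * S2 y z := by
  unfold S1 S2
  rw [← Finset.sum_filter_add_sum_filter_not (pr z) (fun p => p ≤ y), Finset.mul_sum,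
    Finset.mul_sum]
  congr 1
  · have h : (pr z).filter (fun p => p ≤ y) = pr y := by
      ext p
      simp only [pr, Finset.mem_filter, Finset.mem_range]
      constructor
      · rintro ⟨⟨h1, h2⟩, h3⟩
        exact ⟨by omega, h2⟩
      · rintro ⟨h1, h2⟩
        exact ⟨⟨by omega, h2⟩, by omega⟩
    rw [h]
    refine Finset.sum_congr rfl fun p hp => ?_
    have hp' : p ≤ y := by
      have := (Finset.mem_filter.1 hp).1
      rw [Finset.mem_range] at this
      omega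
    rw [hA p hp', mul_one_div]
  · have h : (pr z).filter (fun p => ¬ p ≤ y) = (pr z).filter (fun p => y < p) := by
      ext p
      simp only [Finset.mem_filter, not_le]
    rw [h]
    refine Finset.sum_congr rfl fun p hp => ?_
    obtain ⟨h1, h2⟩ := Finset.mem_filter.1 hp
    have hp' : p ≤ z := by
      have := (Finset.mem_filter.1 h1).1
      rw [Finset.mem_range] at this
      omega
    rw [hB p h2 hp', mul_one_div]

lemma S1_add (y z : ℕ) (hyz : y ≤ z) : S1 z = S1 y + S2 y z := by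
  have h := sum_pw y z hyz 1 1 (fun _ => 1) (fun _ _ => rfl) (fun _ _ _ => rfl)
  rw [one_mul, one_mul] at h
  exact h

lemma Q2_le (h8 : S_CCp) (h5 : S_Sq) (q y z m j m' k X : ℕ) (hq : 1 ≤ q) (hyz : y ≤ z)
    (hm : m ≤ m') (hj : j ≤ 2 * k) :
    Q2 (CC q y z m j) X ≤ Real.exp (((m' : ℝ) / q) ^ 2 * S1 y + (k : ℝ) ^ 2 * S2 y z) := by
  obtain ⟨h81, -, -, -⟩ := h8 q y z m j hq hyz
  refine le_trans (h5 (ab q y z m j) (CC q y z m j) z X (ab_nonneg q y z m j)
    (fun p hp => ab_zero q y z m j p hyz hp) (fun n => (h81 n).1) (fun n => (h81 n).2)) ?_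
  apply Real.exp_le_exp.mpr
  rw [sum_pw y z hyz (((m : ℝ) / q) ^ 2) (((j : ℝ) / 2) ^ 2) (fun p => ab q y z m j p ^ 2)
    (fun p hp => by simp only [ab]; rw [if_pos hp])
    (fun p hp hp' => by simp only [ab]; rw [if_neg (by omega), if_pos hp'])]
  have hm' : (m : ℝ) ≤ m' := by exact_mod_cast hm
  have hj' : (j : ℝ) / 2 ≤ k := by
    have : (j : ℝ) ≤ 2 * k := by exact_mod_cast hj
    linarith
  have hq' : (0 : ℝ) ≤ q := by positivity
  apply add_le_add
  · apply mul_le_mul_of_nonneg_right _ (S1_nonneg y)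
    exact pow_le_pow_left₀ (by positivity) (div_le_div_of_nonneg_right hm' hq') 2
  · apply mul_le_mul_of_nonneg_right _ (S2_nonneg y z)
    exact pow_le_pow_left₀ (by positivity) hj' 2

end I_Sm

open I_Sm in
theorem Sm_pf (h3 : S_FMr) (h8 : S_CCp) (hU : S_UpF) (h5 : S_Sq) (h6 : S_Mert) : S_Sm := by
  intro w hw hw0 k C hk hC
  obtain ⟨c₁, C₁, T₁, hc₁, hC₁, -, H3⟩ := h3 w hw hw0
  obtain ⟨CM, hCM, HM⟩ := h6
  have hCC : 0 ≤ C * CM := by nlinarith
  refine ⟨(C * CM) ^ (1 / 4 : ℝ) + C₁, max T₁ 3, by positivity, le_max_right _ _, ?_⟩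
  intro T hT q y z m₁ hp hmq
  have hT1 : T₁ ≤ T := le_trans (le_max_left _ _) hT
  have hT3 : 3 ≤ T := le_trans (le_max_right _ _) hT
  have hq := hp.hq
  have hy := hp.hy
  have hyz := hp.hyz
  have hy1 : 1 ≤ y := by omega
  have hz1 : 1 ≤ z := by omega
  set X : ℕ := y ^ (q * k) * z ^ (2 * k) with hX
  have hXT : (X : ℝ) ^ 3 ≤ T := by
    refine le_trans ?_ hp.hlen2
    apply pow_le_pow_left₀ (by positivity)
    have : X ≤ y ^ (q * k + 1) * z ^ (2 * (k + 1)) :=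
      Nat.mul_le_mul (Nat.pow_le_pow_right hy1 (by omega)) (Nat.pow_le_pow_right hz1 (by omega))
    exact_mod_cast this
  -- logarithms
  have hT0 : 0 < T := by linarith
  have hlog : 1 < Real.log T := by
    rw [Real.lt_log_iff_exp_lt hT0]
    exact lt_of_lt_of_le (by have := Real.exp_one_lt_d9; linarith) hT3
  have hlog0 : 0 < Real.log T := by linarith
  have hlogT : Real.log T ≤ T := (Real.log_le_sub_one_of_pos hT0).trans (by linarith)
  have hXb : Xb k q y z m₁ =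
      Real.exp ((((m₁ + q : ℕ) : ℝ) / q) ^ 2 * S1 y + (k : ℝ) ^ 2 * S2 y z) := rfl
  have hX0 : 0 < Xb k q y z m₁ := Real.exp_pos _
  have hS1 := S1_nonneg y
  have hS2 := S2_nonneg y z
  -- the saving
  have hsave : Real.exp (-((S1 y + S2 y z) / 4)) ≤
      (C * CM) ^ (1 / 4 : ℝ) / Real.log T ^ (1 / 4 : ℝ) := by
    have e1 : Real.log T ≤ C * CM * Real.exp (S1 y + S2 y z) := by
      calc Real.log T ≤ C * Real.log z := hp.hz
        _ ≤ C * (CM * Real.exp (S1 z)) :=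
            mul_le_mul_of_nonneg_left (HM z (by omega)).2 (by linarith)
        _ = C * CM * Real.exp (S1 y + S2 y z) := by rw [S1_add y z hyz]; ring
    have e2 : Real.log T ^ (1 / 4 : ℝ) ≤
        (C * CM) ^ (1 / 4 : ℝ) * Real.exp ((S1 y + S2 y z) / 4) := by
      calc Real.log T ^ (1 / 4 : ℝ) ≤ (C * CM * Real.exp (S1 y + S2 y z)) ^ (1 / 4 : ℝ) :=
            Real.rpow_le_rpow hlog0.le e1 (by norm_num)
        _ = (C * CM) ^ (1 / 4 : ℝ) * Real.exp ((S1 y + S2 y z) / 4) := by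
            rw [Real.mul_rpow hCC (Real.exp_pos _).le, ← Real.exp_mul]
            congr 2
            ring
    rw [le_div_iff₀ (Real.rpow_pos_of_pos hlog0 _)]
    calc Real.exp (-((S1 y + S2 y z) / 4)) * Real.log T ^ (1 / 4 : ℝ) ≤
        Real.exp (-((S1 y + S2 y z) / 4)) *
          ((C * CM) ^ (1 / 4 : ℝ) * Real.exp ((S1 y + S2 y z) / 4)) :=
          mul_le_mul_of_nonneg_left e2 (Real.exp_pos _).le
      _ = (C * CM) ^ (1 / 4 : ℝ) * (Real.exp (-((S1 y + S2 y z) / 4)) *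
          Real.exp ((S1 y + S2 y z) / 4)) := by ring
      _ = (C * CM) ^ (1 / 4 : ℝ) := by
          rw [← Real.exp_add, neg_add_cancel, Real.exp_zero, mul_one]
  -- the error
  have herr : C₁ / T ^ (1 / 4 : ℝ) ≤ C₁ / Real.log T ^ (1 / 4 : ℝ) :=
    div_le_div_of_nonneg_left hC₁ (Real.rpow_pos_of_pos hlog0 _)
      (Real.rpow_le_rpow hlog0.le hlogT (by norm_num))
  have hQ : ∀ m j : ℕ, m ≤ m₁ + q → j ≤ 2 * k →
      Real.sqrt (Q2 (CC q y z m j) X) ≤ Real.sqrt (Xb k q y z m₁) := by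
    intro m j hm hj
    apply Real.sqrt_le_sqrt
    rw [hXb]
    exact Q2_le h8 h5 q y z m j (m₁ + q) k X hq hyz hm hj
  -- the main estimate
  have key : ∀ m j m' j' : ℕ, m ≤ m₁ + q → j ≤ 2 * k → m' ≤ m₁ + q → j' ≤ 2 * k →
      ((m : ℝ) / q * ((m' : ℝ) / q) + (m' : ℝ) / q) * S1 y +
        ((j : ℝ) / 2 * ((j' : ℝ) / 2) + (j' : ℝ) / 2) * S2 y z ≤
        (((m₁ + q : ℕ) : ℝ) / q) ^ 2 * S1 y + (k : ℝ) ^ 2 * S2 y z - (S1 y + S2 y z) / 4 →
      ‖∫ u : ℝ, (w u : ℂ) * (zt (T * u) * (MH q y z m j (T * u) *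
        (starRingEnd ℂ) (MH q y z m' j' (T * u))))‖ ≤
        ((C * CM) ^ (1 / 4 : ℝ) + C₁) / Real.log T ^ (1 / 4 : ℝ) * Xb k q y z m₁ := by
    intro m j m' j' hm hj hm' hj' hexp
    obtain ⟨ha1, -, -, ha4⟩ := h8 q y z m j hq hyz
    obtain ⟨hb1, -, -, hb4⟩ := h8 q y z m' j' hq hyz
    have haX : y ^ m * z ^ j ≤ X :=
      Nat.mul_le_mul (Nat.pow_le_pow_right hy1 (by omega)) (Nat.pow_le_pow_right hz1 hj)
    have hbX : y ^ m' * z ^ j' ≤ X :=
      Nat.mul_le_mul (Nat.pow_le_pow_right hy1 (by omega)) (Nat.pow_le_pow_right hz1 hj')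
    have hmain := (H3 T hT1 X hXT (CC q y z m j) (CC q y z m' j')
      (ArithmeticFunction.map_zero) (ArithmeticFunction.map_zero) (fun n => (ha1 n).1)
      (fun n => (hb1 n).1)).2
    have hup := hU (ab q y z m j) (ab q y z m' j') (CC q y z m j) (CC q y z m' j') z X
      (ab_nonneg q y z m j) (ab_nonneg q y z m' j') (fun p hp => ab_zero q y z m j p hyz hp)
      (fun p hp => ab_zero q y z m' j' p hyz hp) (fun n => (ha1 n).1) (fun n => (hb1 n).1)
      (fun n => (ha1 n).2) (fun n => (hb1 n).2)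
    rw [sum_pw y z hyz ((m : ℝ) / q * ((m' : ℝ) / q) + (m' : ℝ) / q)
      ((j : ℝ) / 2 * ((j' : ℝ) / 2) + (j' : ℝ) / 2)
      (fun p => ab q y z m j p * ab q y z m' j' p + ab q y z m' j' p)
      (fun p hp => by simp only [ab]; rw [if_pos hp, if_pos hp])
      (fun p hp hp' => by
        simp only [ab]
        rw [if_neg (by omega), if_pos hp', if_neg (by omega), if_pos hp'])] at hup
    have hint : (∫ u : ℝ, (w u : ℂ) * (zt (T * u) * (DP (CC q y z m j) X (T * u) *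
        (starRingEnd ℂ) (DP (CC q y z m' j') X (T * u))))) =
        ∫ u : ℝ, (w u : ℂ) * (zt (T * u) * (MH q y z m j (T * u) *
        (starRingEnd ℂ) (MH q y z m' j' (T * u)))) := by
      apply integral_congr_ae
      refine Eventually.of_forall fun u => ?_
      show (w u : ℂ) * (zt (T * u) * (DP (CC q y z m j) X (T * u) *
        (starRingEnd ℂ) (DP (CC q y z m' j') X (T * u)))) = (w u : ℂ) * (zt (T * u) *
        (MH q y z m j (T * u) * (starRingEnd ℂ) (MH q y z m' j' (T * u))))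
      rw [ha4 X haX, hb4 X hbX]
    rw [hint] at hmain
    have hQQ : Real.sqrt (Q2 (CC q y z m j) X) *
        Real.sqrt (Q2 (CC q y z m' j') X) ≤ Xb k q y z m₁ := by
      calc _ ≤ Real.sqrt (Xb k q y z m₁) * Real.sqrt (Xb k q y z m₁) :=
            mul_le_mul (hQ _ _ hm hj) (hQ _ _ hm' hj') (Real.sqrt_nonneg _) (Real.sqrt_nonneg _)
        _ = _ := Real.mul_self_sqrt hX0.le
    have e3 : C₁ / T ^ (1 / 4 : ℝ) * (Real.sqrt (Q2 (CC q y z m j) X) *
        Real.sqrt (Q2 (CC q y z m' j') X)) ≤ C₁ / Real.log T ^ (1 / 4 : ℝ) * Xb k q y z m₁ :=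
      (mul_le_mul_of_nonneg_left hQQ (by positivity)).trans
        (mul_le_mul_of_nonneg_right herr hX0.le)
    have e4 : Real.exp (((m : ℝ) / q * ((m' : ℝ) / q) + (m' : ℝ) / q) * S1 y +
        ((j : ℝ) / 2 * ((j' : ℝ) / 2) + (j' : ℝ) / 2) * S2 y z) ≤
        (C * CM) ^ (1 / 4 : ℝ) / Real.log T ^ (1 / 4 : ℝ) * Xb k q y z m₁ := by
      calc _ ≤ Real.exp ((((m₁ + q : ℕ) : ℝ) / q) ^ 2 * S1 y + (k : ℝ) ^ 2 * S2 y z -
            (S1 y + S2 y z) / 4) := Real.exp_le_exp.2 hexp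
        _ = Real.exp (-((S1 y + S2 y z) / 4)) * Xb k q y z m₁ := by
            rw [hXb, ← Real.exp_add]
            congr 1
            ring
        _ ≤ _ := mul_le_mul_of_nonneg_right hsave hX0.le
    calc _ ≤ _ := hmain
      _ ≤ (C * CM) ^ (1 / 4 : ℝ) / Real.log T ^ (1 / 4 : ℝ) * Xb k q y z m₁ +
          C₁ / Real.log T ^ (1 / 4 : ℝ) * Xb k q y z m₁ := add_le_add (hup.trans e4) e3
      _ = _ := by ring
  have hq0 : (q : ℝ) ≠ 0 := by
    have : (1 : ℝ) ≤ q := by exact_mod_cast hq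
    positivity
  constructor
  · apply key (m₁ + q) (2 * k) m₁ (2 * (k - 1)) le_rfl le_rfl (by omega) (by omega)
    have e1 : (((m₁ + q : ℕ) : ℝ) / q) = (m₁ : ℝ) / q + 1 := by
      push_cast
      field_simp
    have e2 : (((2 * k : ℕ) : ℝ) / 2) = k := by push_cast; ring
    have e3 : (((2 * (k - 1) : ℕ) : ℝ) / 2) = (k : ℝ) - 1 := by
      rw [Nat.cast_mul, Nat.cast_sub (by omega)]
      push_cast
      ring
    rw [e1, e2, e3]
    nlinarith
  · obtain ⟨q', hq'⟩ := hp.hev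
    have hqq : q / 2 = q' := by omega
    have hq'0 : (q' : ℝ) ≠ 0 := by
      have : 1 ≤ q' := by omega
      have : (1 : ℝ) ≤ q' := by exact_mod_cast this
      positivity
    apply key (m₁ + q / 2) (2 * k - 1) (m₁ + q / 2) (2 * k - 1) (by omega) (by omega) (by omega)
      (by omega)
    have e1 : (((m₁ + q : ℕ) : ℝ) / q) = (m₁ : ℝ) / q + 1 := by
      push_cast
      field_simp
    have e2 : (((m₁ + q / 2 : ℕ) : ℝ) / q) = (m₁ : ℝ) / q + 1 / 2 := by
      rw [hqq, hq']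
      push_cast
      field_simp
    have e3 : (((2 * k - 1 : ℕ) : ℝ) / 2) = (k : ℝ) - 1 / 2 := by
      rw [Nat.cast_sub (by omega)]
      push_cast
      ring
    rw [e1, e2, e3]
    nlinarith

end Pool.Agent.Work.MP_56b8f5_nt.WA
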