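import Pool.Agent.Work.MP_56b8f5_nt.WA.Stmts

/-!
# MP_56b8f5_nt, block WA, B1: the phase
-/

set_option autoImplicit false

open MeasureTheory Set Filter Topology

noncomputable section

namespace Pool.Agent.Work.MP_56b8f5_nt.WA

open Pool.Agent.Work.MP_56b8f5_nt.EM
open Pool.Agent.Work.MP_56b8f5_nt.WM

namespace I_UZ

theorem arg_pi : Complex.arg (Real.pi : ℂ) ≠ Real.pi := by
  rw [Complex.arg_ofReal_of_nonneg Real.pi_pos.le]
  exact Real.pi_pos.ne

theorem pi_ne : (Real.pi : ℂ) ≠ 0 := by exact_mod_cast Real.pi_ne_zero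

theorem re_s (t : ℝ) : (1 / 4 + (t : ℂ) * Complex.I / 2).re = 1 / 4 := by
  have h : (1 / 4 + (t : ℂ) * Complex.I / 2) = ((1 / 4 : ℝ) : ℂ) + ((t / 2 : ℝ) : ℂ) * Complex.I := by
    push_cast
    ring
  rw [h, Complex.add_re, Complex.ofReal_re, Complex.re_ofReal_mul, Complex.I_re, mul_zero, add_zero]

theorem re_z (t : ℝ) : (1 / 2 + (t : ℂ) * Complex.I).re = 1 / 2 := by
  have h : (1 / 2 + (t : ℂ) * Complex.I) = ((1 / 2 : ℝ) : ℂ) + (t : ℂ) * Complex.I := by
    push_cast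
    ring
  rw [h, Complex.add_re, Complex.ofReal_re, Complex.re_ofReal_mul, Complex.I_re, mul_zero, add_zero]

theorem z_ne0 (t : ℝ) : (1 / 2 + (t : ℂ) * Complex.I) ≠ 0 := by
  intro h
  have h1 := congrArg Complex.re h
  rw [re_z, Complex.zero_re] at h1
  norm_num at h1

theorem z_ne1 (t : ℝ) : (1 / 2 + (t : ℂ) * Complex.I) ≠ 1 := by
  intro h
  have h1 := congrArg Complex.re h
  rw [re_z, Complex.one_re] at h1
  norm_num at h1

theorem Gp_ne (t : ℝ) : Gp t ≠ 0 := by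
  unfold Gp
  refine mul_ne_zero ?_ ?_
  · rw [Ne, Complex.cpow_eq_zero_iff]
    exact fun h => pi_ne h.1
  · refine Complex.Gamma_ne_zero_of_re_pos ?_
    rw [re_s]
    norm_num

theorem Gp_cont : Continuous Gp := by
  unfold Gp
  refine Continuous.mul ?_ ?_
  · refine Continuous.const_cpow ?_ (Or.inl pi_ne)
    fun_prop
  · rw [continuous_iff_continuousAt]
    intro t
    have h1 : ContinuousAt Complex.Gamma (1 / 4 + (t : ℂ) * Complex.I / 2) := by
      refine (Complex.differentiableAt_Gamma _ (fun m h => ?_)).continuousAt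
      have h2 := congrArg Complex.re h
      rw [re_s, Complex.neg_re, Complex.natCast_re] at h2
      have h3 : (0 : ℝ) ≤ m := Nat.cast_nonneg m
      linarith
    exact ContinuousAt.comp (g := Complex.Gamma)
      (f := fun t : ℝ => (1 / 4 + (t : ℂ) * Complex.I / 2)) h1 (by fun_prop)

theorem GR (t : ℝ) : Complex.Gammaℝ (1 / 2 + (t : ℂ) * Complex.I) =
    (Real.pi : ℂ) ^ (-(1 / 4) : ℂ) * Gp t := by
  rw [Complex.Gammaℝ_def]
  unfold Gp
  rw [← mul_assoc, ← Complex.cpow_add _ _ pi_ne]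
  congr 2
  · ring
  · ring

theorem GRc (t : ℝ) : Complex.Gammaℝ ((starRingEnd ℂ) (1 / 2 + (t : ℂ) * Complex.I)) =
    (Real.pi : ℂ) ^ (-(1 / 4) : ℂ) * (starRingEnd ℂ) (Gp t) := by
  rw [Complex.Gammaℝ_def]
  unfold Gp
  rw [map_mul, ← Complex.Gamma_conj]
  have h1 : (starRingEnd ℂ) ((Real.pi : ℂ) ^ (-((t : ℂ) * Complex.I / 2))) =
      (Real.pi : ℂ) ^ (starRingEnd ℂ) (-((t : ℂ) * Complex.I / 2)) := by
    rw [Complex.cpow_conj _ _ arg_pi, Complex.conj_ofReal]
  rw [h1, ← mul_assoc, ← Complex.cpow_add _ _ pi_ne]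
  have h2 : (starRingEnd ℂ) (1 / 2 + (t : ℂ) * Complex.I) = 1 / 2 - (t : ℂ) * Complex.I := by
    simp only [map_add, map_mul, map_neg, Complex.conj_ofReal, Complex.conj_I, map_div₀, map_one,
      map_ofNat]
    ring
  have h3 : (starRingEnd ℂ) (-((t : ℂ) * Complex.I / 2)) = (t : ℂ) * Complex.I / 2 := by
    simp only [map_add, map_mul, map_neg, Complex.conj_ofReal, Complex.conj_I, map_div₀, map_one,
      map_ofNat]
    ring
  have h4 : (starRingEnd ℂ) (1 / 4 + (t : ℂ) * Complex.I / 2) = 1 / 4 - (t : ℂ) * Complex.I / 2 := by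
    simp only [map_add, map_mul, map_neg, Complex.conj_ofReal, Complex.conj_I, map_div₀, map_one,
      map_ofNat]
    ring
  rw [h2, h3, h4]
  congr 2
  · ring
  · ring

end I_UZ

/-- Item UZ. -/
theorem UZ_pf (h0 : S_Conj) : S_UZ := by
  have hne := I_UZ.Gp_ne
  have hcne : ∀ t, (starRingEnd ℂ) (Gp t) ≠ 0 := fun t h => hne t ((map_eq_zero _).1 h)
  refine ⟨?_, ?_, ?_, ?_⟩
  · unfold U
    exact I_UZ.Gp_cont.div (Complex.continuous_conj.comp I_UZ.Gp_cont) hcne
  · unfold zt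
    rw [continuous_iff_continuousAt]
    intro t
    exact ContinuousAt.comp (g := riemannZeta) (f := fun t : ℝ => (1 / 2 + (t : ℂ) * Complex.I))
      (differentiableAt_riemannZeta (I_UZ.z_ne1 t)).continuousAt (by fun_prop)
  · intro t
    unfold U
    rw [norm_div, RCLike.norm_conj, div_self (norm_ne_zero_iff.2 (hne t))]
  · intro t
    unfold zt U
    obtain ⟨s, hs⟩ : ∃ s : ℂ, s = 1 / 2 + (t : ℂ) * Complex.I := ⟨_, rfl⟩
    have hs0 : s ≠ 0 := by rw [hs]; exact I_UZ.z_ne0 t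
    have hs1 : s ≠ 1 := by rw [hs]; exact I_UZ.z_ne1 t
    have hc : (starRingEnd ℂ) s = 1 - s := by
      rw [hs]
      simp only [map_add, map_mul, Complex.conj_ofReal, Complex.conj_I, map_div₀, map_one,
        map_ofNat]
      ring
    have hcs0 : (starRingEnd ℂ) s ≠ 0 := fun h => hs0 ((map_eq_zero _).1 h)
    have hG : Complex.Gammaℝ s ≠ 0 := by
      refine Complex.Gammaℝ_ne_zero_of_re_pos ?_
      rw [hs, I_UZ.re_z]
      norm_num
    have hGc : Complex.Gammaℝ ((starRingEnd ℂ) s) ≠ 0 := by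
      refine Complex.Gammaℝ_ne_zero_of_re_pos ?_
      rw [Complex.conj_re, hs, I_UZ.re_z]
      norm_num
    have h1 : riemannZeta s * Complex.Gammaℝ s = completedRiemannZeta s := by
      rw [riemannZeta_def_of_ne_zero hs0, div_mul_cancel₀ _ hG]
    have h2 : riemannZeta ((starRingEnd ℂ) s) * Complex.Gammaℝ ((starRingEnd ℂ) s) =
        completedRiemannZeta s := by
      rw [riemannZeta_def_of_ne_zero hcs0, div_mul_cancel₀ _ hGc, hc, completedRiemannZeta_one_sub]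
    rw [h0 s hs1] at h2
    rw [← hs]
    have h3 : Complex.Gammaℝ s = (Real.pi : ℂ) ^ (-(1 / 4) : ℂ) * Gp t := by
      rw [hs]; exact I_UZ.GR t
    have h4 : Complex.Gammaℝ ((starRingEnd ℂ) s) =
        (Real.pi : ℂ) ^ (-(1 / 4) : ℂ) * (starRingEnd ℂ) (Gp t) := by
      rw [hs]; exact I_UZ.GRc t
    rw [h3] at h1
    rw [h4] at h2
    have hp : (Real.pi : ℂ) ^ (-(1 / 4) : ℂ) ≠ 0 := by
      rw [Ne, Complex.cpow_eq_zero_iff]
      exact fun h => I_UZ.pi_ne h.1
    have h5 : (starRingEnd ℂ) (riemannZeta s) * (starRingEnd ℂ) (Gp t) = riemannZeta s * Gp t := by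
      have h6 : (Real.pi : ℂ) ^ (-(1 / 4) : ℂ) *
          ((starRingEnd ℂ) (riemannZeta s) * (starRingEnd ℂ) (Gp t)) =
          (Real.pi : ℂ) ^ (-(1 / 4) : ℂ) * (riemannZeta s * Gp t) := by
        linear_combination h2 - h1
      exact mul_left_cancel₀ hp h6
    rw [div_mul_eq_mul_div, eq_div_iff (hcne t), h5]
    ring

end Pool.Agent.Work.MP_56b8f5_nt.WA
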