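import Pool.Agent.Work.MP_56b8f5_nt.WA.Stmts

/-!
MP_56b8f5_nt, block WA, item B2 (Ulim): the phase of zeta as a limit, from the product of Gauss for the
Gamma function.
-/

set_option autoImplicit false

open MeasureTheory Set Filter Topology

noncomputable section

namespace Pool.Agent.Work.MP_56b8f5_nt.WA

namespace I_Ulim

/-- The quotient of a number by its conjugate. -/
def rr (z : ℂ) : ℂ := z / (starRingEnd ℂ) z

theorem rr_mul (z w : ℂ) : rr (z * w) = rr z * rr w := by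
  unfold rr
  rw [map_mul, mul_div_mul_comm]

theorem rr_div (z w : ℂ) : rr (z / w) = rr z / rr w := by
  unfold rr
  rw [map_div₀, div_div_div_comm]

theorem rr_prod {ι : Type*} (s : Finset ι) (f : ι → ℂ) : rr (∏ i ∈ s, f i) = ∏ i ∈ s, rr (f i) := by
  unfold rr
  rw [map_prod, Finset.prod_div_distrib]

theorem rr_exp (z : ℂ) : rr (Complex.exp z) = Complex.exp (Complex.I * ((2 * z.im : ℝ) : ℂ)) := by
  unfold rr
  rw [← Complex.exp_conj, ← Complex.exp_sub]
  congr 1
  apply Complex.ext <;> simp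
  ring

theorem rr_natCast {n : ℕ} (hn : n ≠ 0) : rr (n : ℂ) = 1 := by
  unfold rr
  rw [map_natCast]
  exact div_self (by exact_mod_cast hn)

/-- The phase of `a + b i`. -/
theorem rr_arctan {a b : ℝ} (ha : 0 < a) (z : ℂ) (hz : z = (a : ℂ) + (b : ℂ) * Complex.I) :
    rr z = Complex.exp (Complex.I * ((2 * Real.arctan (b / a) : ℝ) : ℂ)) := by
  have hpos : (0 : ℝ) < 1 + (b / a) ^ 2 := by positivity
  have hs : Real.sqrt (1 + (b / a) ^ 2) ≠ 0 := (Real.sqrt_pos.2 hpos).ne'
  have h1 : z = ((a * Real.sqrt (1 + (b / a) ^ 2) : ℝ) : ℂ) *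
      Complex.exp ((Real.arctan (b / a) : ℝ) * Complex.I) := by
    rw [Complex.exp_mul_I, ← Complex.ofReal_cos, ← Complex.ofReal_sin, Real.cos_arctan,
      Real.sin_arctan, hz]
    apply Complex.ext
    · simp
      field_simp
    · simp
      field_simp
  rw [h1, rr_mul, rr_exp]
  have h2 : rr ((a * Real.sqrt (1 + (b / a) ^ 2) : ℝ) : ℂ) = 1 := by
    unfold rr
    rw [Complex.conj_ofReal]
    apply div_self
    exact_mod_cast mul_ne_zero ha.ne' hs
  rw [h2, one_mul, Complex.mul_I_im, Complex.ofReal_re]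

/-- A power of a positive real number. -/
theorem rr_cpow {x : ℝ} (hx : 0 < x) (w : ℂ) :
    rr ((x : ℂ) ^ w) = Complex.exp (Complex.I * ((2 * (Real.log x * w.im) : ℝ) : ℂ)) := by
  rw [Complex.cpow_def_of_ne_zero (by exact_mod_cast hx.ne'), rr_exp, ← Complex.ofReal_log hx.le]
  congr 2
  simp

/-- The phase of the Gauss product. -/
theorem rr_seq (t : ℝ) {n : ℕ} (hn : n ≠ 0) :
    rr ((Real.pi : ℂ) ^ (-(t * Complex.I / 2)) *
      Complex.GammaSeq (1 / 4 + t * Complex.I / 2) n) =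
        Complex.exp (Complex.I * (Psi n t : ℝ)) := by
  have hn0 : (0 : ℝ) < n := by exact_mod_cast Nat.pos_of_ne_zero hn
  rw [rr_mul, rr_cpow Real.pi_pos, Complex.GammaSeq, rr_div, rr_mul, rr_natCast (Nat.factorial_ne_zero n),
    rr_prod]
  have h1 : rr ((n : ℂ) ^ (1 / 4 + (t : ℂ) * Complex.I / 2)) =
      Complex.exp (Complex.I * ((t * Real.log n : ℝ) : ℂ)) := by
    have := rr_cpow hn0 (1 / 4 + (t : ℂ) * Complex.I / 2)
    rw [Complex.ofReal_natCast] at this
    rw [this]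
    congr 2
    have h2 : (1 / 4 + (t : ℂ) * Complex.I / 2).im = t / 2 := by simp
    rw [h2]
    push_cast
    ring
  have h3 : ∀ k ∈ Finset.range (n + 1), rr (1 / 4 + (t : ℂ) * Complex.I / 2 + k) =
      Complex.exp (Complex.I * ((2 * Real.arctan (2 * t / (4 * (k : ℝ) + 1)) : ℝ) : ℂ)) := by
    intro k _
    have hk : (0 : ℝ) < (k : ℝ) + 1 / 4 := by positivity
    rw [rr_arctan (b := t / 2) hk (1 / 4 + (t : ℂ) * Complex.I / 2 + k) (by push_cast; ring)]
    have h4 : t / 2 / ((k : ℝ) + 1 / 4) = 2 * t / (4 * (k : ℝ) + 1) := by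
      field_simp
      ring
    rw [h4]
  rw [h1, Finset.prod_congr rfl h3, ← Complex.exp_sum, mul_one, ← Complex.exp_sub, ← Complex.exp_add]
  congr 1
  have h5 : (-((t : ℂ) * Complex.I / 2)).im = -(t / 2) := by simp
  rw [h5, ← Finset.mul_sum, ← Complex.ofReal_sum, ← Finset.mul_sum]
  unfold Psi
  rw [Real.log_div hn0.ne' Real.pi_ne_zero]
  push_cast
  ring

end I_Ulim

open I_Ulim in
/-- **B2.** `U` is the limit of `exp (i Psi n)`. -/
theorem Ulim_pf : S_Ulim := by
  intro t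
  have hs : ∀ m : ℕ, (1 / 4 + (t : ℂ) * Complex.I / 2) ≠ -m := by
    intro m h
    have h1 := congrArg Complex.re h
    simp at h1
    have h2 : (0 : ℝ) ≤ m := Nat.cast_nonneg m
    linarith
  have hG : Gp t ≠ 0 := by
    unfold Gp
    refine mul_ne_zero ?_ (Complex.Gamma_ne_zero hs)
    rw [Complex.cpow_def_of_ne_zero (by exact_mod_cast Real.pi_ne_zero)]
    exact Complex.exp_ne_zero _
  have hlim : Tendsto (fun n : ℕ => (Real.pi : ℂ) ^ (-(t * Complex.I / 2)) *
      Complex.GammaSeq (1 / 4 + t * Complex.I / 2) n) atTop (𝓝 (Gp t)) :=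
    (Complex.GammaSeq_tendsto_Gamma _).const_mul _
  have hc : Tendsto (fun n : ℕ => rr ((Real.pi : ℂ) ^ (-(t * Complex.I / 2)) *
      Complex.GammaSeq (1 / 4 + t * Complex.I / 2) n)) atTop (𝓝 (U t)) := by
    refine hlim.div ((Complex.continuous_conj.tendsto _).comp hlim) ?_
    intro h
    exact hG ((map_eq_zero _).1 h)
  refine hc.congr' ?_
  filter_upwards [eventually_ne_atTop 0] with n hn
  exact rr_seq t hn

end Pool.Agent.Work.MP_56b8f5_nt.WA
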