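import Pool.Agent.Work.MP_56b8f5_nt.WA.Stmts
import Pool.Agent.Work.MP_56b8f5_nt.WM.I_WinV

/-!
MP_56b8f5_nt, block WA, item E2 (WinVA): large values in sectors at scale `T`.
-/

set_option autoImplicit false

open MeasureTheory Set Filter Topology

noncomputable section

namespace Pool.Agent.Work.MP_56b8f5_nt.WA

open Pool.Agent.Work.MP_56b8f5_nt.EM
open Pool.Agent.Work.MP_56b8f5_nt.WM

namespace I_WinVA

open Pool.Agent.Work.MP_56b8f5_nt.WM.I_WinV

lemma cont_aH (y z : ℕ) : Continuous (aH y z) := ((cont_DP _ _).norm).pow 2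

lemma ubm_mono {m₁ k q : ℕ} {X v D C : ℝ} {j0 j2 j0' j2' : ℕ → ℕ → ℝ}
    (h : UBm m₁ k q X v D C j0 j2) (h0 : ∀ a b, j0' a b ≤ j0 a b) (h2 : ∀ a b, j2' a b ≤ j2 a b) :
    UBm m₁ k q X v D C j0' j2' where
  a1 := (h2 _ _).trans h.a1
  a2 := (h0 _ _).trans h.a2
  b1 := (h2 _ _).trans h.b1
  b2 := (h0 _ _).trans h.b2
  b3 := (h2 _ _).trans h.b3
  b4 := (h0 _ _).trans h.b4
  c1 := (h2 _ _).trans h.c1
  c2 := (h0 _ _).trans h.c2
  c3 := (h2 _ _).trans h.c3
  c4 := (h0 _ _).trans h.c4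

lemma meas_arc {δ : ℝ} {ω : ℂ} {f : ℝ → ℂ} (hf : Continuous f) : MeasurableSet (arc δ ω f) := by
  unfold arc
  refine measurableSet_lt ?_ ?_
  · exact (continuous_const.mul hf.norm).measurable
  · exact (Complex.continuous_re.comp (continuous_const.mul hf)).measurable

lemma intg {w : ℝ → ℝ} (hw : IsW w) {g : ℝ → ℝ} (hg : Continuous g) :
    Integrable fun x => w x * g x := by
  rw [← integrableOn_iff_integrable_of_support_subset (s := Icc (0 : ℝ) 1)]
  · exact (hw.smooth.continuous.mul hg).integrableOn_Icc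
  · intro x hx
    refine supp_Icc hw ?_
    intro h0
    exact hx (by simp [h0])

lemma set_le {w : ℝ → ℝ} (hw : IsW w) {g : ℝ → ℝ} (hg : Continuous g) (h0 : ∀ x, 0 ≤ g x)
    (S : Set ℝ) : ∫ x in S, w x * g x ≤ ∫ x, w x * g x :=
  setIntegral_le_integral (intg hw hg) (ae_of_all _ fun x => mul_nonneg (hw.nonneg x) (h0 x))

end I_WinVA

open I_WinVA Pool.Agent.Work.MP_56b8f5_nt.WM.I_WinV in
/-- **E2 (WinVA).** -/
theorem WinVA_pf (h1 : S_FinG) (h2 : S_TenRh) (h3 : S_ArcF) (h4 : S_GWr) (h7 : S_Num)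
    (h0 : S_UZ) : S_WinVA := by
  intro w hw hW0 k C δ hk hC hδ
  obtain ⟨c₀, T₁, hc₀, hLow⟩ := h3 w hw hW0 k C δ hk hC hδ
  obtain ⟨C₀, T₂, hC₀, hTen⟩ := h2 w hw k C hk hC
  obtain ⟨A, η, κ, hA, hη, hη1, hκ, hFin⟩ := h1 k c₀ C₀ hk hc₀ (by linarith)
  obtain ⟨C', T₃, hC', hGW⟩ := h4 k C A η κ hk hC hA hη hη1 hκ
  obtain ⟨K, T₅, hK, hT₅, hNum⟩ := h7 k C hC
  have hlK : 0 ≤ Real.log K := Real.log_nonneg hK
  refine ⟨C' + (k : ℝ) ^ 2 * Real.log K + |Real.log (c₀ / 2)|,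
    max (max T₁ T₂) (max (max T₃ T₅) (Real.exp (Real.exp 1))), ?_, ?_⟩
  · have : 0 ≤ (k : ℝ) ^ 2 * Real.log K := by positivity
    have := abs_nonneg (Real.log (c₀ / 2))
    linarith
  intro T hT q y z hpa α hα1 hα2 ω hω
  have hpar : IsPar k C T q y z := hpa.toIsPar
  have hT1 : T₁ ≤ T := le_trans (le_trans (le_max_left _ _) (le_max_left _ _)) hT
  have hT2 : T₂ ≤ T := le_trans (le_trans (le_max_right _ _) (le_max_left _ _)) hT
  have hT3 : T₃ ≤ T :=
    le_trans (le_trans (le_max_left _ _) (le_trans (le_max_left _ _) (le_max_right _ _))) hT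
  have hT5 : T₅ ≤ T :=
    le_trans (le_trans (le_max_right _ _) (le_trans (le_max_left _ _) (le_max_right _ _))) hT
  have hT6 : Real.exp (Real.exp 1) ≤ T :=
    le_trans (le_trans (le_max_right _ _) (le_max_right _ _)) hT
  have hT4 : 3 ≤ T := hT₅.trans hT5
  have hlog1 : Real.exp 1 ≤ Real.log T := by
    rw [Real.le_log_iff_exp_le (by linarith)]
    exact hT6
  have hLL : 1 ≤ Real.log (Real.log T) := by
    rw [Real.le_log_iff_exp_le (lt_of_lt_of_le (Real.exp_pos 1) hlog1)]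
    exact hlog1
  obtain ⟨hm1, hmk, hbα, hba, hb0⟩ := floor_facts hpar.hq hα1 hα2
  set m₁ : ℕ := ⌊(q : ℝ) * (α - 1)⌋₊ with hm₁
  have hLow' := hLow T hT1 q y z m₁ hpa hm1 hmk ω hω
  have hTen' := hTen T hT2 q y z m₁ hpa hm1 hmk
  have hGW' := hGW T hT3 q y z m₁ hpar hmk α hba
  obtain ⟨hS1, hS2, -, -, -, hS1e, -⟩ := hNum T hT5 q y z hpar
  set Ac : Set ℝ := arc δ ω (fun u => zt (T * u)) with hAc
  have hAcm : MeasurableSet Ac := meas_arc (h0.2.1.comp (by fun_prop))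
  set ν₀ : Measure ℝ := volume.withDensity fun u => ENNReal.ofReal (w u) with hν₀
  have : IsFiniteMeasure ν₀ := fin_nu hw
  set ν : Measure ℝ := ν₀.restrict Ac with hν
  have cφ : Continuous fun u : ℝ => az (T * u) := cont_az.comp (by fun_prop)
  have cm : Continuous fun u : ℝ => aM q y (T * u) := (cont_aM q y).comp (by fun_prop)
  have cr : Continuous fun u : ℝ => aH y z (T * u) := (cont_aH y z).comp (by fun_prop)
  have hr0 : ∀ t, 0 ≤ aH y z t := fun t => sq_nonneg _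
  have hint1 : ∀ g : ℝ → ℝ, ∫ x, g x ∂ν = ∫ x in Ac, w x * g x := by
    intro g
    rw [hν]
    exact intS_nu hw g hAcm
  -- bound
  obtain ⟨B₁, hB₁⟩ := (isCompact_Icc (a := (0 : ℝ)) (b := 1)).bddAbove_image cφ.continuousOn
  obtain ⟨B₂, hB₂⟩ := (isCompact_Icc (a := (0 : ℝ)) (b := 1)).bddAbove_image cm.continuousOn
  obtain ⟨B₃, hB₃⟩ := (isCompact_Icc (a := (0 : ℝ)) (b := 1)).bddAbove_image cr.continuousOn
  have hbd : ∀ᵐ x ∂ν, az (T * x) ≤ max B₁ (max B₂ B₃) ∧ aM q y (T * x) ≤ max B₁ (max B₂ B₃) ∧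
      aH y z (T * x) ≤ max B₁ (max B₂ B₃) := by
    refine ae_restrict_of_ae ?_
    rw [hν₀, ae_withDensity_iff hw.smooth.continuous.measurable.ennreal_ofReal]
    refine ae_of_all _ fun x hx => ?_
    have hx' : x ∈ Icc (0 : ℝ) 1 := by
      refine supp_Icc hw ?_
      intro h0
      apply hx
      rw [h0, ENNReal.ofReal_zero]
    refine ⟨(hB₁ (mem_image_of_mem _ hx')).trans (le_max_left _ _),
      (hB₂ (mem_image_of_mem _ hx')).trans ((le_max_left _ _).trans (le_max_right _ _)),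
      (hB₃ (mem_image_of_mem _ hx')).trans ((le_max_right _ _).trans (le_max_right _ _))⟩
  have hX : 0 < Xb k q y z m₁ := Real.exp_pos _
  have hq1 : (1 : ℝ) ≤ q := by exact_mod_cast hpar.hq
  have hD : 1 ≤ (q : ℝ) ^ (2 * k + 1) := one_le_pow₀ hq1
  have hUB : UBm m₁ k q (Xb k q y z m₁) (Real.exp (be q m₁ / q * S1 y)) ((q : ℝ) ^ (2 * k + 1)) C₀
      (fun a b : ℕ => ∫ x, aM q y (T * x) ^ (2 * a) * aH y z (T * x) ^ (2 * b) ∂ν)
      (fun a b : ℕ => ∫ x, az (T * x) ^ 2 *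
        (aM q y (T * x) ^ (2 * a) * aH y z (T * x) ^ (2 * b)) ∂ν) := by
    refine ubm_mono hTen' (fun a b => ?_) (fun a b => ?_)
    · show ∫ x, aM q y (T * x) ^ (2 * a) * aH y z (T * x) ^ (2 * b) ∂ν ≤ J0h w q y z T a b
      rw [hint1]
      exact set_le hw ((cm.pow _).mul (cr.pow _))
        (fun x => mul_nonneg (pow_nonneg (norm_nonneg _) _) (pow_nonneg (hr0 _) _)) Ac
    · show ∫ x, az (T * x) ^ 2 * (aM q y (T * x) ^ (2 * a) * aH y z (T * x) ^ (2 * b)) ∂ν ≤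
        J2h w q y z T a b
      rw [hint1]
      exact set_le hw ((cφ.pow _).mul ((cm.pow _).mul (cr.pow _)))
        (fun x => mul_nonneg (sq_nonneg _)
          (mul_nonneg (pow_nonneg (norm_nonneg _) _) (pow_nonneg (hr0 _) _))) Ac
  have key := hFin ν (fun u => az (T * u)) (fun u => aM q y (T * u)) (fun u => aH y z (T * u))
    (max B₁ (max B₂ B₃)) cφ.measurable cm.measurable cr.measurable
    (fun x => norm_nonneg _) (fun x => norm_nonneg _) (fun x => hr0 _) hbd q m₁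
    (Xb k q y z m₁) (Real.exp (be q m₁ / q * S1 y)) ((q : ℝ) ^ (2 * k + 1)) hpar.hq hm1 hX
    (Real.exp_pos _) hD hUB (by rw [hint1]; exact hLow')
  set v : ℝ := Real.exp (be q m₁ / q * S1 y) with hv
  set D : ℝ := (q : ℝ) ^ (2 * k + 1) with hDd
  set S : Set ℝ := {x | az (T * x) ≤ A * (aM q y (T * x) ^ q * aH y z (T * x)) ∧
    η * (aM q y (T * x) ^ q * aH y z (T * x)) ≤ az (T * x) ∧
      v / κ ≤ aM q y (T * x) ∧ aM q y (T * x) ≤ κ * v ∧
      1 / (κ * Real.sqrt D) ≤ aH y z (T * x) ∧ aH y z (T * x) ≤ κ * Real.sqrt D} with hSd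
  have hSm : MeasurableSet S := by
    have m1 : MeasurableSet {x | az (T * x) ≤ A * (aM q y (T * x) ^ q * aH y z (T * x))} :=
      measurableSet_le cφ.measurable (by fun_prop)
    have m2 : MeasurableSet {x | η * (aM q y (T * x) ^ q * aH y z (T * x)) ≤ az (T * x)} :=
      measurableSet_le (by fun_prop) cφ.measurable
    have m3 : MeasurableSet {x | v / κ ≤ aM q y (T * x)} :=
      measurableSet_le measurable_const cm.measurable
    have m4 : MeasurableSet {x | aM q y (T * x) ≤ κ * v} :=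
      measurableSet_le cm.measurable measurable_const
    have m5 : MeasurableSet {x | 1 / (κ * Real.sqrt D) ≤ aH y z (T * x)} :=
      measurableSet_le measurable_const cr.measurable
    have m6 : MeasurableSet {x | aH y z (T * x) ≤ κ * Real.sqrt D} :=
      measurableSet_le cr.measurable measurable_const
    exact m1.inter (m2.inter (m3.inter (m4.inter (m5.inter m6))))
  have hwm : MeasurableSet {u | w u ≠ 0} :=
    (measurableSet_eq_fun hw.smooth.continuous.measurable measurable_const).compl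
  have cF : Continuous fun u : ℝ =>
      w u * (az (T * u) * (aM q y (T * u) ^ (2 * m₁ + q) * aH y z (T * u) ^ (2 * k - 1))) :=
    hw.smooth.continuous.mul (cφ.mul ((cm.pow _).mul (cr.pow _)))
  have hint : IntegrableOn (fun u =>
      w u * (az (T * u) * (aM q y (T * u) ^ (2 * m₁ + q) * aH y z (T * u) ^ (2 * k - 1))))
      {u | w u ≠ 0} :=
    (cF.integrableOn_Icc (a := 0) (b := 1)).mono_set (supp_Icc hw)
  have hfin : ∀ G : Set ℝ, G ⊆ {u | w u ≠ 0} → volume G ≠ ⊤ := fun G hG =>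
    ((measure_mono (hG.trans (supp_Icc hw))).trans_lt measure_Icc_lt_top).ne
  have hst : (∫ x in S, az (T * x) *
      (aM q y (T * x) ^ (2 * m₁ + q) * aH y z (T * x) ^ (2 * k - 1)) ∂ν) =
      ∫ x in S ∩ Ac, w x * (az (T * x) *
        (aM q y (T * x) ^ (2 * m₁ + q) * aH y z (T * x) ^ (2 * k - 1))) := by
    rw [hν, Measure.restrict_restrict hSm]
    exact intS_nu hw _ (hSm.inter hAcm)
  rw [hst] at key
  have h5 : ∫ x in S ∩ Ac, w x * (az (T * x) *
        (aM q y (T * x) ^ (2 * m₁ + q) * aH y z (T * x) ^ (2 * k - 1))) =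
      ∫ x in (S ∩ Ac) ∩ {u | w u ≠ 0}, w x * (az (T * x) *
        (aM q y (T * x) ^ (2 * m₁ + q) * aH y z (T * x) ^ (2 * k - 1))) := by
    refine setIntegral_eq_of_subset_of_forall_sdiff_eq_zero (hSm.inter hAcm) inter_subset_left ?_
    intro x hx
    have : w x = 0 := by
      by_contra h
      exact hx.2 ⟨hx.1, h⟩
    rw [this, zero_mul]
  rw [h5] at key
  set M : ℝ := Real.exp (2 * be q m₁ ^ 2 * S1 y + C' * Real.sqrt (Real.log (Real.log T))) with hM
  have hM0 : 0 < M := Real.exp_pos _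
  have h6 : ∫ x in (S ∩ Ac) ∩ {u | w u ≠ 0}, w x * (az (T * x) *
        (aM q y (T * x) ^ (2 * m₁ + q) * aH y z (T * x) ^ (2 * k - 1))) ≤
      ∫ x in (S ∩ Ac) ∩ {u | w u ≠ 0}, M := by
    refine setIntegral_mono_on (hint.mono_set inter_subset_right)
      (integrableOn_const (hfin _ inter_subset_right)) ((hSm.inter hAcm).inter hwm) ?_
    rintro x ⟨⟨⟨a1, a2, a3, a4, a5, a6⟩, -⟩, hx⟩
    have h := (hGW' _ _ _ v D hv hDd a1 a2 a3 a4 a5 a6).2
    refine le_trans ?_ h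
    refine mul_le_of_le_one_left ?_ (hw.le_one x)
    exact mul_nonneg (norm_nonneg _)
      (mul_nonneg (pow_nonneg (norm_nonneg _) _) (pow_nonneg (hr0 _) _))
  rw [setIntegral_const, smul_eq_mul] at h6
  have h7 : volume.real ((S ∩ Ac) ∩ {u | w u ≠ 0}) ≤ volume.real (({u | w u ≠ 0} ∩ Ac) ∩
      {u | |Real.log (az (T * u)) - α * Real.log (Real.log T)| ≤
        (C' + (k : ℝ) ^ 2 * Real.log K + |Real.log (c₀ / 2)|) *
          Real.sqrt (Real.log (Real.log T))}) := by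
    refine measureReal_mono ?_ (hfin _ (inter_subset_left.trans inter_subset_left))
    rintro x ⟨⟨⟨a1, a2, a3, a4, a5, a6⟩, hxA⟩, hx⟩
    refine ⟨⟨hx, hxA⟩, ?_⟩
    have h := (hGW' _ _ _ v D hv hDd a1 a2 a3 a4 a5 a6).1
    refine h.trans ?_
    refine mul_le_mul_of_nonneg_right ?_ (Real.sqrt_nonneg _)
    have : 0 ≤ (k : ℝ) ^ 2 * Real.log K := by positivity
    have := abs_nonneg (Real.log (c₀ / 2))
    linarith
  refine le_trans ?_ h7
  have hs : S1 y ≤ Real.log K + Real.log (Real.log T) := by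
    have hlT : 0 < Real.log T := lt_of_lt_of_le (Real.exp_pos 1) hlog1
    rw [← Real.log_mul (by linarith) hlT.ne',
      Real.le_log_iff_exp_le (mul_pos (by linarith) hlT)]
    exact hS1e
  have h8 := num (C' := C') hb0 hbα hα2 hS1 hK hs (by positivity : 0 < c₀ / 2) hLL
  refine h8.trans ?_
  have h9 : c₀ / 2 * Xb k q y z m₁ ≤ volume.real ((S ∩ Ac) ∩ {u | w u ≠ 0}) * M := key.trans h6
  have h10 : Real.exp (be q m₁ ^ 2 * S1 y) ≤ Xb k q y z m₁ := by
    unfold Xb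
    rw [Real.exp_le_exp]
    have : 0 ≤ (k : ℝ) ^ 2 * S2 y z := by positivity
    linarith
  have h11 : c₀ / 2 * Real.exp (be q m₁ ^ 2 * S1 y) ≤
      volume.real ((S ∩ Ac) ∩ {u | w u ≠ 0}) * M :=
    (mul_le_mul_of_nonneg_left h10 (by positivity)).trans h9
  have h12 : Real.exp (-(be q m₁ ^ 2 * S1 y) - C' * Real.sqrt (Real.log (Real.log T))) * M =
      Real.exp (be q m₁ ^ 2 * S1 y) := by
    rw [hM, ← Real.exp_add]
    congr 1
    ring
  refine le_of_mul_le_mul_right ?_ hM0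
  rw [mul_assoc, h12]
  exact h11

end Pool.Agent.Work.MP_56b8f5_nt.WA
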