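import Pool.Agent.Work.MP_56b8f5_nt.WM.All
import Pool.Agent.Work.MP_56b8f5_nt.WA.I_CCp
import Pool.Agent.Work.MP_56b8f5_nt.WA.I_LowMh
import Pool.Agent.Work.MP_56b8f5_nt.WA.I_UpF
import Pool.Agent.Work.MP_56b8f5_nt.WA.I_Conj
import Pool.Agent.Work.MP_56b8f5_nt.WA.I_UZ
import Pool.Agent.Work.MP_56b8f5_nt.WA.I_Ulim
import Pool.Agent.Work.MP_56b8f5_nt.WA.I_PsiD
import Pool.Agent.Work.MP_56b8f5_nt.WA.I_PsiB
import Pool.Agent.Work.MP_56b8f5_nt.WA.I_NS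
import Pool.Agent.Work.MP_56b8f5_nt.WA.I_Osc
import Pool.Agent.Work.MP_56b8f5_nt.WA.I_FMr
import Pool.Agent.Work.MP_56b8f5_nt.WA.I_OscZ
import Pool.Agent.Work.MP_56b8f5_nt.WA.I_Jbh
import Pool.Agent.Work.MP_56b8f5_nt.WA.I_TenRh
import Pool.Agent.Work.MP_56b8f5_nt.WA.I_ParA
import Pool.Agent.Work.MP_56b8f5_nt.WA.I_Mn
import Pool.Agent.Work.MP_56b8f5_nt.WA.I_Sm
import Pool.Agent.Work.MP_56b8f5_nt.WA.I_Os
import Pool.Agent.Work.MP_56b8f5_nt.WA.I_Har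
import Pool.Agent.Work.MP_56b8f5_nt.WA.I_Trig
import Pool.Agent.Work.MP_56b8f5_nt.WA.I_ArcF
import Pool.Agent.Work.MP_56b8f5_nt.WA.I_WinA
import Pool.Agent.Work.MP_56b8f5_nt.WA.I_WinVA
import Pool.Agent.Work.MP_56b8f5_nt.WA.I_MainA
import Pool.Agent.Work.MP_56b8f5_nt.WA.I_MainVA

/-!
MP_56b8f5_nt, block WA (sectors): assembly.
-/

set_option autoImplicit false

noncomputable section

namespace Pool.Agent.Work.MP_56b8f5_nt.WA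

open Pool.Agent.Work.MP_56b8f5_nt.EM
open Pool.Agent.Work.MP_56b8f5_nt.WM

theorem wa_CCp : S_CCp := CCp_pf wm_PeMul wm_PeBas
theorem wa_LowMh : S_LowMh := LowMh_pf wm_PeBas wm_Mert wa_CCp wm_LowR wm_LowSr
theorem wa_UpF : S_UpF := UpF_pf wm_PeBas wm_PeSum
theorem wa_Conj : S_Conj := Conj_pf
theorem wa_UZ : S_UZ := UZ_pf wa_Conj
theorem wa_Ulim : S_Ulim := Ulim_pf
theorem wa_PsiD : S_PsiD := PsiD_pf
theorem wa_PsiB : S_PsiB := PsiB_pf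
theorem wa_NS : S_NS := NS_pf
theorem wa_Osc : S_Osc := Osc_pf wa_UZ wa_Ulim wa_PsiD wa_PsiB wa_NS
theorem wa_FMr : S_FMr := FMr_pf all_W all_Pc wm_ZP wm_MVb wm_FMx
theorem wa_OscZ : S_OscZ := OscZ_pf all_Pc wm_ZP wm_MVb wa_UZ wa_Osc
theorem wa_Jbh : S_Jbh := Jbh_pf wm_MVb wm_TSb wm_Gcd wm_Sq wa_CCp
theorem wa_TenRh : S_TenRh := TenRh_pf wa_Jbh wm_Mert wm_Num
theorem wa_ParA : S_ParA := ParA_pf
theorem wa_Mn : S_Mn := Mn_pf wa_FMr wa_CCp wa_LowMh wm_Sq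
theorem wa_Sm : S_Sm := Sm_pf wa_FMr wa_CCp wa_UpF wm_Sq wm_Mert
theorem wa_Os : S_Os := Os_pf wa_OscZ wa_CCp wm_Sq
theorem wa_Har : S_Har := Har_pf wa_Mn wa_Sm wa_Os wa_TenRh wa_UZ
theorem wa_Trig : S_Trig := Trig_pf
theorem wa_ArcF : S_ArcF := ArcF_pf wa_Har wa_Trig wa_UZ
theorem wa_WinA : S_WinA := WinA_pf wm_FinG wa_TenRh wa_ArcF wm_GWr wm_Mert wa_UZ
theorem wa_WinVA : S_WinVA := WinVA_pf wm_FinG wa_TenRh wa_ArcF wm_GWr wm_Num wa_UZ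

/-- The window theorem in sectors. -/
theorem wa_MainA : S_MainA := MainA_pf wa_ParA wa_WinA wm_Wts

/-- Large values in sectors. -/
theorem wa_MainVA : S_MainVA := MainVA_pf wa_ParA wa_WinVA wm_Wts

end Pool.Agent.Work.MP_56b8f5_nt.WA
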