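import Pool.Agent.Work.MP_56b8f5_nt.WA.StmtsB
import Pool.Agent.Work.MP_56b8f5_nt.WA.I_ArcF

/-!
MP_56b8f5_nt, block WB (sectors, linear in the angle), item R2 (ArcFu): sectors for `F` at scale `T`, linear in `θ`.
-/

set_option autoImplicit false

open MeasureTheory Set Filter Topology

noncomputable section

namespace Pool.Agent.Work.MP_56b8f5_nt.WA

open Pool.Agent.Work.MP_56b8f5_nt.EM
open Pool.Agent.Work.MP_56b8f5_nt.WM

open I_ArcF in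
/-- **R2 (ArcFu).** -/
theorem ArcFu_pf (h1 : S_Har) (h2 : S_TrigL) (h3 : S_UZ) : S_ArcFu := by
  intro w hw hW k C hk hC
  obtain ⟨c₀, C₀, hc₀, hC₀, H⟩ := h1 w hw hW k C hk hC
  obtain ⟨c₁, hc₁, Ht0⟩ := h2 c₀ C₀ hc₀ hC₀
  refine ⟨c₁, hc₁, fun θ hθ hθπ => ?_⟩
  obtain ⟨n, ε, hε, Ht⟩ := Ht0 θ hθ hθπ
  obtain ⟨T₀, HT⟩ := H n ε hε
  refine ⟨T₀, fun T hT q y z m₁ hp hm₁ hm₁k ω hω => ?_⟩
  have hcont : Continuous fun u : ℝ => T * u := continuous_const.mul continuous_id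
  have hX : 0 ≤ Xb k q y z m₁ := (Real.exp_pos _).le
  have h := Ht w hw.smooth.continuous (I_Har.hcs hw) hw.nonneg (Xb k q y z m₁)
    (fun u => zt (T * u)) (fun u => U (T * u))
    (fun u => MH q y z m₁ (2 * (k - 1)) (T * u)) (fun u => MH q y z (m₁ + q) (2 * k) (T * u))
    (fun u => MH q y z (m₁ + q / 2) (2 * k - 1) (T * u)) hX
    (h3.2.1.comp hcont) (h3.1.comp hcont)
    ((I_Har.cMH q y z m₁ (2 * (k - 1))).comp hcont)
    ((I_Har.cMH q y z (m₁ + q) (2 * k)).comp hcont)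
    ((I_Har.cMH q y z (m₁ + q / 2) (2 * k - 1)).comp hcont)
    (fun u => h3.2.2.1 _) (fun u => h3.2.2.2 _) (fun u => nQ hp.hev hk _)
    (HT T hT q y z m₁ hp hm₁ hm₁k) ω hω
  refine h.trans (le_of_eq ?_)
  congr 1
  funext u
  rw [nAB hk]
  rfl

end Pool.Agent.Work.MP_56b8f5_nt.WA
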