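import Pool.Agent.Work.MP_56b8f5_nt.WA.StmtsB
import Pool.Agent.Work.MP_56b8f5_nt.WM.I_FMx
import Pool.Agent.Work.MP_56b8f5_nt.WA.I_FMr

/-!
MP_56b8f5_nt, block WB: item Q3 (FM2), the second moment of zeta (without absolute values) twisted by `|A|²`, upper bound.
-/

set_option autoImplicit false

open MeasureTheory Set Filter Topology

noncomputable section

namespace Pool.Agent.Work.MP_56b8f5_nt.WA

open Pool.Agent.Work.MP_56b8f5_nt.EM
open Pool.Agent.Work.MP_56b8f5_nt.WM

namespace I_FM2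

open Pool.Agent.Work.MP_56b8f5_nt.WM.I_FMx (bc bc_nonneg bc_zero term_eq exp_norm dp_eq dp_conj
  one_int one_integral)
open Pool.Agent.Work.MP_56b8f5_nt.WM.I_FMb (intw cDP Q2nn l1 loglow caz)
open Pool.Agent.Work.MP_56b8f5_nt.WA.I_FMr (czt intwc)

/-- Expansion of the twisted second moment of `P` (no absolute values). -/
theorem two_integral {w : ℝ → ℝ} (hw : IsW w) (hP : StPc) {K : ℝ} (hK : 1 ≤ K) (T x : ℝ) :
    ∫ u : ℝ, (w u : ℂ) * (P K (T * u) ^ 2 * Complex.exp (Complex.I * ((T * u * x : ℝ) : ℂ))) =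
      ∑' k : ℕ, (bc K k : ℂ) * ∑' k' : ℕ, (bc K k' : ℂ) *
        W w 0 (T * (x - Real.log k - Real.log k')) := by
  have hbs : Summable (bc K) := (hP K hK).2.2.2.1
  set g : ℕ → ℝ → ℂ := fun k u => (bc K k : ℂ) * ((w u : ℂ) * (P K (T * u) *
    Complex.exp (Complex.I * ((T * u * (x - Real.log k) : ℝ) : ℂ)))) with hg
  have gint : ∀ k, Integrable (g k) := fun k => (one_int hw hP hK T _).const_mul _
  have gn : ∀ k u, ‖g k u‖ = bc K k * (w u * ‖P K (T * u)‖) := by
    intro k u
    simp only [hg]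
    rw [norm_mul, norm_mul, norm_mul, exp_norm, mul_one, Complex.norm_real, Complex.norm_real,
      Real.norm_of_nonneg (bc_nonneg K k), Real.norm_of_nonneg (hw.nonneg u)]
  have hsum : Summable fun k : ℕ => ∫ u, ‖g k u‖ := by
    have h1 : ∀ k : ℕ, ∫ u, ‖g k u‖ = bc K k * ∫ u, w u * ‖P K (T * u)‖ := by
      intro k
      rw [← integral_const_mul]
      exact integral_congr_ae (Filter.Eventually.of_forall fun u => gn k u)
    simp only [h1]
    exact hbs.mul_right _
  have hS := hasSum_integral_of_summable_integral_norm gint hsum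
  have e1 : ∀ u, ∑' k, g k u =
      (w u : ℂ) * (P K (T * u) ^ 2 * Complex.exp (Complex.I * ((T * u * x : ℝ) : ℂ))) := by
    intro u
    have h1 : P K (T * u) = ∑' k : ℕ, (bc K k : ℂ) *
        Complex.exp (Complex.I * ((-(T * u * Real.log k) : ℝ) : ℂ)) := by
      unfold P
      exact tsum_congr fun k => term_eq K (T * u) k
    have h2 : (w u : ℂ) * (P K (T * u) ^ 2 * Complex.exp (Complex.I * ((T * u * x : ℝ) : ℂ))) =
        (∑' k : ℕ, (bc K k : ℂ) * Complex.exp (Complex.I * ((-(T * u * Real.log k) : ℝ) : ℂ))) *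
          ((w u : ℂ) * (P K (T * u) * Complex.exp (Complex.I * ((T * u * x : ℝ) : ℂ)))) := by
      rw [← h1]
      ring
    rw [h2, ← tsum_mul_right]
    refine tsum_congr fun k => ?_
    have e4 : Complex.exp (Complex.I * ((T * u * (x - Real.log k) : ℝ) : ℂ)) =
        Complex.exp (Complex.I * ((-(T * u * Real.log k) : ℝ) : ℂ)) *
          Complex.exp (Complex.I * ((T * u * x : ℝ) : ℂ)) := by
      rw [← Complex.exp_add]
      congr 1
      push_cast
      ring
    simp only [hg]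
    rw [e4]
    ring
  have e2 : (∫ u, ∑' k, g k u) = ∫ u : ℝ, (w u : ℂ) *
      (P K (T * u) ^ 2 * Complex.exp (Complex.I * ((T * u * x : ℝ) : ℂ))) :=
    integral_congr_ae (Filter.Eventually.of_forall e1)
  rw [← e2, ← hS.tsum_eq]
  refine tsum_congr fun k => ?_
  simp only [hg]
  rw [integral_const_mul, one_integral hw hP hK]

/-- The expansion of the product of the two Dirichlet polynomials. -/
theorem expandDP (w : ℝ → ℝ) (G : ℝ → ℂ) (T : ℝ) (X : ℕ) (a b : ℕ → ℝ) (ha : a 0 = 0)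
    (hb : b 0 = 0) (u : ℝ) :
    (w u : ℂ) * (G u * (DP a X (T * u) * (starRingEnd ℂ) (DP b X (T * u)))) =
      ∑ l ∈ Finset.range (X + 1), ∑ h ∈ Finset.range (X + 1),
        ((a h * b l / Real.sqrt ((h : ℝ) * l) : ℝ) : ℂ) * ((w u : ℂ) * (G u *
          Complex.exp (Complex.I * ((T * u * (Real.log l - Real.log h) : ℝ) : ℂ)))) := by
  rw [dp_eq a ha, dp_conj b hb, Finset.sum_mul_sum, Finset.sum_comm, Finset.mul_sum,
    Finset.mul_sum]
  refine Finset.sum_congr rfl fun l _ => ?_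
  rw [Finset.mul_sum, Finset.mul_sum]
  refine Finset.sum_congr rfl fun h _ => ?_
  have hs : Real.sqrt ((h : ℝ) * l) = Real.sqrt h * Real.sqrt l := Real.sqrt_mul (Nat.cast_nonneg h) _
  have e4 : Complex.exp (Complex.I * ((T * u * (Real.log l - Real.log h) : ℝ) : ℂ)) =
      Complex.exp (Complex.I * ((-(T * u * Real.log h) : ℝ) : ℂ)) *
        Complex.exp (Complex.I * ((T * u * Real.log l : ℝ) : ℂ)) := by
    rw [← Complex.exp_add]
    congr 1
    push_cast
    ring
  rw [hs, e4]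
  have e5 : (a h * b l / (Real.sqrt h * Real.sqrt l) : ℝ) =
      (a h / Real.sqrt h) * (b l / Real.sqrt l) := (div_mul_div_comm _ _ _ _).symm
  rw [e5]
  push_cast
  ring

/-- The inner sum. -/
theorem inner (hW : StW) (hP : StPc) (w : ℝ → ℝ) (hw : IsW w) (C2 : ℝ)
    (hC2 : ∀ y, ‖W w 0 y‖ ≤ C2 / (1 + |y|) ^ 6) (hC : 0 ≤ C2) (T K : ℝ) (hT : 1 ≤ T) (hK : 1 ≤ K)
    (X : ℕ) (hX : (X : ℝ) ^ 3 ≤ T) (l h : ℕ) (hl : 1 ≤ l) (hlX : l ≤ X) (hh : 1 ≤ h) :
    ‖∑' k : ℕ, ((bc K k : ℝ) : ℂ) * W w 0 (T * Real.log ((l : ℝ) / ((k : ℝ) * h)))‖ ≤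
      (if h ∣ l then bc K (l / h) else 0) + 2 * Real.sqrt K * (64 * C2 / T ^ 4) := by
  classical
  obtain ⟨-, -, -, hsum, hsle⟩ := hP K hK
  obtain ⟨-, -, hWle, hW0, hW0n, hW01⟩ := hW w hw
  set D : ℝ := 64 * C2 / T ^ 4 with hD
  have hDn : 0 ≤ D := by positivity
  have hT0 : 0 < T := by linarith
  have hgn := bc_nonneg K
  set e : ℕ → ℝ := fun k => if k * h = l then bc K k else 0 with he
  have hen : ∀ k, 0 ≤ e k := by
    intro k
    simp only [he]
    split_ifs
    · exact hgn k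
    · exact le_refl _
  have hb : ∀ k, ‖((bc K k : ℝ) : ℂ) * W w 0 (T * Real.log ((l : ℝ) / ((k : ℝ) * h)))‖ ≤
      e k + bc K k * D := by
    intro k
    rw [norm_mul, Complex.norm_real, Real.norm_of_nonneg (hgn k)]
    rcases Nat.eq_zero_or_pos k with hk0 | hk0
    · subst hk0
      rw [bc_zero, zero_mul, zero_mul, add_zero]
      exact hen 0
    · by_cases hkl : k * h = l
      · have h1 : bc K k * ‖W w 0 (T * Real.log ((l : ℝ) / ((k : ℝ) * h)))‖ ≤ bc K k * 1 :=
          mul_le_mul_of_nonneg_left ((hWle _).trans hW01) (hgn k)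
        have h2 : e k = bc K k := by
          simp only [he]
          rw [if_pos hkl]
        have h3 := mul_nonneg (hgn k) hDn
        rw [h2]
        linarith
      · have h2 : e k = 0 := by
          simp only [he]
          rw [if_neg hkl]
        rw [h2, zero_add]
        apply mul_le_mul_of_nonneg_left _ (hgn k)
        refine (hC2 _).trans ?_
        have h3 := loglow X l h k hl hlX hh hk0 hkl
        rw [abs_mul, abs_of_pos hT0]
        have hX1 : 1 ≤ X := hl.trans hlX
        have hX' : (1 : ℝ) ≤ X := by exact_mod_cast hX1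
        have h4 : T / (2 * (X : ℝ)) ≤ 1 + T * |Real.log ((l : ℝ) / ((k : ℝ) * h))| := by
          have h5 := mul_le_mul_of_nonneg_left h3 hT0.le
          have h6 : T * (1 / (2 * (X : ℝ))) = T / (2 * (X : ℝ)) := by ring
          linarith
        have h5 : (T / (2 * (X : ℝ))) ^ 6 ≤ (1 + T * |Real.log ((l : ℝ) / ((k : ℝ) * h))|) ^ 6 :=
          pow_le_pow_left₀ (by positivity) h4 6
        have h6 : T ^ 4 / 64 ≤ (T / (2 * (X : ℝ))) ^ 6 := by
          have h7 : (X : ℝ) ^ 6 ≤ T ^ 2 := by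
            have := pow_le_pow_left₀ (by positivity) hX 2
            calc (X : ℝ) ^ 6 = ((X : ℝ) ^ 3) ^ 2 := by ring
              _ ≤ T ^ 2 := this
          rw [div_pow, mul_pow, div_le_div_iff₀ (by norm_num) (by positivity)]
          calc T ^ 4 * (2 ^ 6 * (X : ℝ) ^ 6) ≤ T ^ 4 * (2 ^ 6 * T ^ 2) := by
                gcongr
            _ = T ^ 6 * 64 := by ring
        have h7 : T ^ 4 / 64 ≤ (1 + T * |Real.log ((l : ℝ) / ((k : ℝ) * h))|) ^ 6 := h6.trans h5
        rw [hD]
        calc C2 / (1 + T * |Real.log ((l : ℝ) / ((k : ℝ) * h))|) ^ 6 ≤ C2 / (T ^ 4 / 64) := by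
              apply div_le_div_of_nonneg_left hC (by positivity) h7
          _ = 64 * C2 / T ^ 4 := by
              field_simp
  have hes : HasSum e (if h ∣ l then bc K (l / h) else 0) := by
    by_cases hd : h ∣ l
    · rw [if_pos hd]
      have h4 : e (l / h) = bc K (l / h) := by
        simp only [he]
        rw [if_pos (Nat.div_mul_cancel hd)]
      rw [← h4]
      apply hasSum_single
      intro k hk
      simp only [he]
      rw [if_neg]
      intro hkl
      apply hk
      rw [← hkl]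
      exact (Nat.mul_div_cancel k hh).symm
    · rw [if_neg hd]
      have h4 : e = fun _ => 0 := by
        funext k
        simp only [he]
        rw [if_neg]
        intro hkl
        exact hd ⟨k, by rw [← hkl]; ring⟩
      rw [h4]
      exact hasSum_zero
  have hbs : HasSum (fun k => e k + bc K k * D)
      ((if h ∣ l then bc K (l / h) else 0) + (∑' k, bc K k) * D) :=
    hes.add (hsum.hasSum.mul_right D)
  refine (tsum_of_norm_bounded hbs hb).trans ?_
  have h5 : (∑' k, bc K k) * D ≤ 2 * Real.sqrt K * D := mul_le_mul_of_nonneg_right hsle hDn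
  linarith

/-- The product of two coefficients. -/
theorem bcmul (K : ℝ) (hK : 1 ≤ K) (k m : ℕ) : bc K k * bc K m ≤ 1 / Real.sqrt ((k * m : ℕ) : ℝ) := by
  unfold bc
  have h1 : Real.exp (-((k : ℝ) / K)) ≤ 1 := by
    rw [Real.exp_le_one_iff]
    have : 0 ≤ (k : ℝ) / K := by positivity
    linarith
  have h2 : Real.exp (-((m : ℝ) / K)) ≤ 1 := by
    rw [Real.exp_le_one_iff]
    have : 0 ≤ (m : ℝ) / K := by positivity
    linarith
  rw [div_mul_div_comm]
  push_cast
  rw [Real.sqrt_mul (Nat.cast_nonneg k)]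
  apply div_le_div_of_nonneg_right _ (by positivity)
  have := mul_le_mul h1 h2 (Real.exp_pos _).le (by norm_num)
  linarith

/-- The double sum. -/
theorem outer (hW : StW) (hP : StPc) (w : ℝ → ℝ) (hw : IsW w) (C2 : ℝ)
    (hC2 : ∀ y, ‖W w 0 y‖ ≤ C2 / (1 + |y|) ^ 6) (hC : 0 ≤ C2) (T K : ℝ) (hT : 1 ≤ T) (hK : 1 ≤ K)
    (X : ℕ) (hX : (X : ℝ) ^ 3 ≤ T) (l h : ℕ) (hl : 1 ≤ l) (hlX : l ≤ X) (hh : 1 ≤ h) :
    ‖∑' k : ℕ, (bc K k : ℂ) * ∑' k' : ℕ, (bc K k' : ℂ) *
        W w 0 (T * (Real.log l - Real.log h - Real.log k - Real.log k'))‖ ≤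
      (if h ∣ l then ((l / h).divisors.card : ℝ) / Real.sqrt ((l / h : ℕ) : ℝ) else 0) +
        256 * C2 * K / T ^ 4 := by
  classical
  obtain ⟨-, -, -, hsum, hsle⟩ := hP K hK
  have hgn := bc_nonneg K
  set D : ℝ := 2 * Real.sqrt K * (64 * C2 / T ^ 4) with hD
  have hDn : 0 ≤ D := by positivity
  set e : ℕ → ℝ := fun k => bc K k * (if k * h ∣ l then bc K (l / (k * h)) else 0) with he
  have hb : ∀ k, ‖(bc K k : ℂ) * ∑' k' : ℕ, (bc K k' : ℂ) *
        W w 0 (T * (Real.log l - Real.log h - Real.log k - Real.log k'))‖ ≤ e k + bc K k * D := by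
    intro k
    rcases Nat.eq_zero_or_pos k with hk0 | hk0
    · subst hk0
      simp only [he]
      rw [bc_zero]
      simp
    · have h1 : (∑' k' : ℕ, (bc K k' : ℂ) *
          W w 0 (T * (Real.log l - Real.log h - Real.log k - Real.log k'))) =
          ∑' k' : ℕ, ((bc K k' : ℝ) : ℂ) *
            W w 0 (T * Real.log ((l : ℝ) / ((k' : ℝ) * ((k * h : ℕ) : ℝ)))) := by
        refine tsum_congr fun k' => ?_
        rcases Nat.eq_zero_or_pos k' with hk' | hk'
        · subst hk'
          rw [bc_zero]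
          simp
        · have hh' : (0 : ℝ) < h := by exact_mod_cast hh
          have hl' : (0 : ℝ) < l := by exact_mod_cast hl
          have hk1 : (0 : ℝ) < k := by exact_mod_cast hk0
          have hk2 : (0 : ℝ) < k' := by exact_mod_cast hk'
          have e1 : Real.log ((l : ℝ) / ((k' : ℝ) * ((k * h : ℕ) : ℝ))) =
              Real.log l - Real.log h - Real.log k - Real.log k' := by
            push_cast
            rw [Real.log_div hl'.ne' (by positivity), Real.log_mul hk2.ne' (by positivity),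
              Real.log_mul hk1.ne' hh'.ne']
            ring
          rw [e1]
      rw [h1, norm_mul, Complex.norm_real, Real.norm_of_nonneg (hgn k)]
      have hkh : 1 ≤ k * h := Nat.mul_pos hk0 hh
      have h2 := inner hW hP w hw C2 hC2 hC T K hT hK X hX l (k * h) hl hlX hkh
      have h3 := mul_le_mul_of_nonneg_left h2 (hgn k)
      refine h3.trans (le_of_eq ?_)
      simp only [he]
      rw [hD]
      ring
  have hes : HasSum e (if h ∣ l then ∑ k ∈ (l / h).divisors, e k else 0) := by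
    by_cases hd : h ∣ l
    · rw [if_pos hd]
      apply hasSum_sum_of_ne_finset_zero
      intro k hk
      simp only [he]
      rcases Nat.eq_zero_or_pos k with hk0 | hk0
      · subst hk0
        rw [bc_zero, zero_mul]
      · rw [if_neg, mul_zero]
        intro h5
        apply hk
        rw [Nat.mem_divisors]
        obtain ⟨n, rfl⟩ := hd
        rw [Nat.mul_div_cancel_left n hh]
        have h6 : k ∣ n := by
          rw [mul_comm k h] at h5
          exact Nat.dvd_of_mul_dvd_mul_left hh h5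
        refine ⟨h6, ?_⟩
        rintro rfl
        simp at hl
    · rw [if_neg hd]
      have h4 : e = fun _ => 0 := by
        funext k
        simp only [he]
        rw [if_neg, mul_zero]
        intro hkl
        exact hd ((Dvd.intro_left k rfl).trans hkl)
      rw [h4]
      exact hasSum_zero
  have hbs : HasSum (fun k => e k + bc K k * D)
      ((if h ∣ l then ∑ k ∈ (l / h).divisors, e k else 0) + (∑' k, bc K k) * D) :=
    hes.add (hsum.hasSum.mul_right D)
  refine (tsum_of_norm_bounded hbs hb).trans ?_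
  have h5 : (∑' k, bc K k) * D ≤ 2 * Real.sqrt K * D := mul_le_mul_of_nonneg_right hsle hDn
  have h6 : 2 * Real.sqrt K * D = 256 * C2 * K / T ^ 4 := by
    have := Real.mul_self_sqrt (by linarith : (0 : ℝ) ≤ K)
    rw [hD]
    linear_combination (256 * C2 / T ^ 4) * this
  have h7 : (if h ∣ l then ∑ k ∈ (l / h).divisors, e k else 0) ≤
      (if h ∣ l then ((l / h).divisors.card : ℝ) / Real.sqrt ((l / h : ℕ) : ℝ) else 0) := by
    by_cases hd : h ∣ l
    · rw [if_pos hd, if_pos hd]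
      obtain ⟨n, rfl⟩ := hd
      rw [Nat.mul_div_cancel_left n hh]
      have h8 : ∀ k ∈ n.divisors, e k ≤ 1 / Real.sqrt (n : ℝ) := by
        intro k hk
        rw [Nat.mem_divisors] at hk
        obtain ⟨⟨m, rfl⟩, hn0⟩ := hk
        have hk0 : 0 < k := by
          rcases Nat.eq_zero_or_pos k with h9 | h9
          · subst h9
            simp at hn0
          · exact h9
        simp only [he]
        have h9 : k * h ∣ h * (k * m) := ⟨m, by ring⟩
        have h10 : h * (k * m) / (k * h) = m := by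
          have : h * (k * m) = (k * h) * m := by ring
          rw [this]
          exact Nat.mul_div_cancel_left m (Nat.mul_pos hk0 hh)
        rw [if_pos h9, h10]
        exact bcmul K hK k m
      refine (Finset.sum_le_sum h8).trans (le_of_eq ?_)
      rw [Finset.sum_const, nsmul_eq_mul]
      ring
    · rw [if_neg hd, if_neg hd]
  linarith

/-- The diagonal terms. -/
theorem Q2GS (b : ℕ → ℝ) (hb : ∀ n, 0 ≤ b n) (X : ℕ) : Q2 b X ≤ GS b X := by
  unfold Q2 GS
  apply Finset.sum_le_sum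
  intro h hh
  have h1 : b h ^ 2 / (h : ℝ) ≤ b h * b h * (Nat.gcd h h : ℝ) / ((h : ℝ) * (h : ℝ)) := by
    rcases Nat.eq_zero_or_pos h with h0 | h0
    · subst h0
      simp
    · have h2 : (0 : ℝ) < h := by exact_mod_cast h0
      rw [Nat.gcd_self]
      apply le_of_eq
      field_simp
  refine h1.trans ?_
  exact Finset.single_le_sum (f := fun l : ℕ => b h * b l * (Nat.gcd h l : ℝ) / ((h : ℝ) * (l : ℝ)))
    (fun l _ => by
      have := hb h
      have := hb l
      positivity) hh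

/-- The sum over divisors. -/
theorem sumdiv (X : ℕ) (b : ℕ → ℝ) :
    ∑ l ∈ Finset.range (X + 1), ∑ h ∈ Finset.range (X + 1),
      (if h ∣ l ∧ l ≠ 0 then b l / (l : ℝ) * (b h * ((l / h).divisors.card : ℝ)) else 0) =
      ∑ l ∈ Finset.range (X + 1), b l / (l : ℝ) * ∑ h ∈ l.divisors,
        b h * ((l / h).divisors.card : ℝ) := by
  classical
  apply Finset.sum_congr rfl
  intro l hl
  rw [Finset.mul_sum, ← Finset.sum_filter]
  apply Finset.sum_congr
  · ext h
    rw [Finset.mem_filter, Nat.mem_divisors, Finset.mem_range]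
    constructor
    · rintro ⟨_, h2⟩
      exact h2
    · rintro ⟨h2, h3⟩
      refine ⟨?_, h2, h3⟩
      have h4 := Nat.le_of_dvd (Nat.pos_of_ne_zero h3) h2
      have h5 := Finset.mem_range.1 hl
      omega
  · intro h _
    rfl

end I_FM2

open Pool.Agent.Work.MP_56b8f5_nt.WM.I_FMx (bc bc_nonneg bc_zero one_int) in
open Pool.Agent.Work.MP_56b8f5_nt.WM.I_FMb (intw cDP Q2nn l1 caz) in
open Pool.Agent.Work.MP_56b8f5_nt.WA.I_FMr (czt intwc) in
open I_FM2 in
/-- **Q3 (FM2).** -/
theorem FM2_pf (hW : StW) (hP : StPc) (h0 : S_ZPK) (h1 : S_MVb) (h4 : S_TSb) : S_FM2 := by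
  classical
  intro w hw
  obtain ⟨C0, T0, hC0, hT0, hz⟩ := h0 w hw
  obtain ⟨C1, hC1, hm⟩ := h1 w hw
  obtain ⟨C2, hC2, hd⟩ := (hW w hw).2.1 0 6
  obtain ⟨C4, T4, hC4, ht⟩ := h4 w hw
  refine ⟨C0 * (20 * C4 + (1 + C0) * C1) + 512 * C2, max T0 T4, by positivity,
    hT0.trans (le_max_left _ _), ?_⟩
  intro T hT X hX b hb0 hb
  have hTT0 : T0 ≤ T := (le_max_left _ _).trans hT
  have hTT4 : T4 ≤ T := (le_max_right _ _).trans hT
  have hT1 : 1 ≤ T := hT0.trans hTT0
  have hTpos : 0 < T := by linarith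
  set K : ℝ := T ^ (11 / 5 : ℝ) with hKdef
  have hK : (1 : ℝ) ≤ K := Real.one_le_rpow hT1 (by norm_num)
  have hGn : 0 ≤ GS b X := (Q2nn b X).trans (Q2GS b hb X)
  have hQG := Q2GS b hb X
  have hQn := Q2nn b X
  -- continuity
  have hA : Continuous fun u : ℝ => DP b X (T * u) :=
    (cDP b X).comp (continuous_const.mul continuous_id)
  have hZ : Continuous fun u : ℝ => zt (T * u) := czt.comp (continuous_const.mul continuous_id)
  have hz' : Continuous fun u : ℝ => az (T * u) := caz.comp (continuous_const.mul continuous_id)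
  have hPc : Continuous fun u : ℝ => P K (T * u) :=
    (hP K hK).1.comp (continuous_const.mul continuous_id)
  have hAc : Continuous fun u : ℝ => (starRingEnd ℂ) (DP b X (T * u)) :=
    Complex.continuous_conj.comp hA
  have hAn := hA.norm
  set I1 : ℂ := ∫ u : ℝ, (w u : ℂ) * (zt (T * u) ^ 2 * (DP b X (T * u) *
      (starRingEnd ℂ) (DP b X (T * u)))) with hI1
  set I2 : ℂ := ∫ u : ℝ, (w u : ℂ) * (P K (T * u) ^ 2 * (DP b X (T * u) *
      (starRingEnd ℂ) (DP b X (T * u)))) with hI2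
  have hr10 : 0 < T ^ (1 / 10 : ℝ) := Real.rpow_pos_of_pos hTpos _
  have hr20 : 0 < T ^ (1 / 20 : ℝ) := Real.rpow_pos_of_pos hTpos _
  have hr1 : 1 ≤ T ^ (1 / 10 : ℝ) := Real.one_le_rpow hT1 (by norm_num)
  -- step 1
  have s1 : ‖I1 - I2‖ ≤ C0 / T ^ (1 / 10 : ℝ) *
      (C4 * Real.log T * GS b X + (1 + C0) * (C1 * Q2 b X)) := by
    have i1 : Integrable (fun u : ℝ => (w u : ℂ) * (zt (T * u) ^ 2 * (DP b X (T * u) *
      (starRingEnd ℂ) (DP b X (T * u))))) := intwc hw ((hZ.pow 2).mul (hA.mul hAc))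
    have i2 : Integrable (fun u : ℝ => (w u : ℂ) * (P K (T * u) ^ 2 * (DP b X (T * u) *
      (starRingEnd ℂ) (DP b X (T * u))))) := intwc hw ((hPc.pow 2).mul (hA.mul hAc))
    have i3 : Integrable (fun u : ℝ => w u * (az (T * u) ^ 2 * ‖DP b X (T * u)‖ ^ 2)) :=
      intw hw ((hz'.pow 2).mul (hAn.pow 2))
    have i4 : Integrable (fun u : ℝ => w u * ‖DP b X (T * u)‖ ^ 2) := intw hw (hAn.pow 2)
    have i5 : Integrable (fun u : ℝ => C0 / T ^ (1 / 10 : ℝ) * (w u * (az (T * u) ^ 2 *
        ‖DP b X (T * u)‖ ^ 2)) + C0 / T ^ (1 / 10 : ℝ) * (1 + C0) *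
          (w u * ‖DP b X (T * u)‖ ^ 2)) := (i3.const_mul _).add (i4.const_mul _)
    rw [hI1, hI2, ← integral_sub i1 i2]
    refine (norm_integral_le_integral_norm _).trans ?_
    have h2 : ∫ u : ℝ, ‖(w u : ℂ) * (zt (T * u) ^ 2 * (DP b X (T * u) *
      (starRingEnd ℂ) (DP b X (T * u)))) - (w u : ℂ) * (P K (T * u) ^ 2 * (DP b X (T * u) *
      (starRingEnd ℂ) (DP b X (T * u))))‖ ≤
        ∫ u : ℝ, (C0 / T ^ (1 / 10 : ℝ) * (w u * (az (T * u) ^ 2 *
        ‖DP b X (T * u)‖ ^ 2)) + C0 / T ^ (1 / 10 : ℝ) * (1 + C0) *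
          (w u * ‖DP b X (T * u)‖ ^ 2)) := by
      apply integral_mono (i1.sub i2).norm i5
      intro u
      change ‖(w u : ℂ) * (zt (T * u) ^ 2 * (DP b X (T * u) *
      (starRingEnd ℂ) (DP b X (T * u)))) - (w u : ℂ) * (P K (T * u) ^ 2 * (DP b X (T * u) *
      (starRingEnd ℂ) (DP b X (T * u))))‖ ≤ C0 / T ^ (1 / 10 : ℝ) * (w u * (az (T * u) ^ 2 *
        ‖DP b X (T * u)‖ ^ 2)) + C0 / T ^ (1 / 10 : ℝ) * (1 + C0) *
          (w u * ‖DP b X (T * u)‖ ^ 2)
      have h3 : (w u : ℂ) * (zt (T * u) ^ 2 * (DP b X (T * u) *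
        (starRingEnd ℂ) (DP b X (T * u)))) - (w u : ℂ) * (P K (T * u) ^ 2 * (DP b X (T * u) *
        (starRingEnd ℂ) (DP b X (T * u)))) =
          (w u : ℂ) * ((zt (T * u) - P K (T * u)) * (zt (T * u) + P K (T * u)) *
            (DP b X (T * u) * (starRingEnd ℂ) (DP b X (T * u)))) := by ring
      rw [h3, norm_mul, norm_mul, norm_mul, norm_mul, RCLike.norm_conj, Complex.norm_real,
        Real.norm_of_nonneg (hw.nonneg u)]
      by_cases hwu : w u = 0
      · rw [hwu]
        simp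
      · have h4 : ‖zt (T * u) - P K (T * u)‖ ≤ C0 / T ^ (1 / 10 : ℝ) := hz T hTT0 u hwu
        have h4' : C0 / T ^ (1 / 10 : ℝ) ≤ C0 := div_le_self hC0 hr1
        have h5 : ‖zt (T * u) + P K (T * u)‖ ≤ 2 * az (T * u) + C0 := by
          have h6 : zt (T * u) + P K (T * u) = 2 * zt (T * u) - (zt (T * u) - P K (T * u)) := by
            ring
          have h7 : ‖zt (T * u)‖ = az (T * u) := by
            simp only [zt, az]
          rw [h6]
          refine (norm_sub_le _ _).trans ?_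
          rw [norm_mul, h7]
          have h8 : ‖(2 : ℂ)‖ = 2 := by norm_num
          rw [h8]
          linarith
        have h6 : 2 * az (T * u) + C0 ≤ az (T * u) ^ 2 + (1 + C0) := by
          nlinarith [sq_nonneg (az (T * u) - 1)]
        have h7 : ‖zt (T * u) - P K (T * u)‖ * ‖zt (T * u) + P K (T * u)‖ ≤
            C0 / T ^ (1 / 10 : ℝ) * (az (T * u) ^ 2 + (1 + C0)) :=
          mul_le_mul h4 (h5.trans h6) (norm_nonneg _) (by positivity)
        have h8 : 0 ≤ w u * (‖DP b X (T * u)‖ * ‖DP b X (T * u)‖) := by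
          have := hw.nonneg u
          positivity
        have h9 := mul_le_mul_of_nonneg_right h7 h8
        refine le_trans (le_of_eq ?_) (h9.trans (le_of_eq ?_))
        · ring
        · ring
    refine h2.trans ?_
    rw [integral_add (i3.const_mul _) (i4.const_mul _), integral_const_mul, integral_const_mul]
    have h5 := mul_le_mul_of_nonneg_left (ht T hTT4 X hX b hb0 hb)
      (by positivity : 0 ≤ C0 / T ^ (1 / 10 : ℝ))
    have h6 := mul_le_mul_of_nonneg_left (hm T hT1 X hX b hb0)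
      (by positivity : 0 ≤ C0 / T ^ (1 / 10 : ℝ) * (1 + C0))
    refine (add_le_add h5 h6).trans (le_of_eq ?_)
    ring
  -- step 2
  have hcoef : ∀ l h : ℕ, b h * b l / Real.sqrt ((h : ℝ) * l) =
      (b h / Real.sqrt h) * (b l / Real.sqrt l) := by
    intro l h
    rw [Real.sqrt_mul (by positivity), div_mul_div_comm]
  have hcn : ∀ l h : ℕ, 0 ≤ b h * b l / Real.sqrt ((h : ℝ) * l) := by
    intro l h
    have := hb h
    have := hb l
    positivity
  have hI2' : I2 = ∑ l ∈ Finset.range (X + 1), ∑ h ∈ Finset.range (X + 1),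
      ((b h * b l / Real.sqrt ((h : ℝ) * l) : ℝ) : ℂ) *
        ∑' k : ℕ, (bc K k : ℂ) * ∑' k' : ℕ, (bc K k' : ℂ) *
        W w 0 (T * (Real.log l - Real.log h - Real.log k - Real.log k')) := by
    have e1 : ∀ x : ℝ, Integrable fun u : ℝ => (w u : ℂ) * (P K (T * u) ^ 2 *
        Complex.exp (Complex.I * ((T * u * x : ℝ) : ℂ))) := by
      intro x
      apply intwc hw
      apply (hPc.pow 2).mul
      fun_prop
    have h2 : ∀ u : ℝ, (w u : ℂ) * (P K (T * u) ^ 2 * (DP b X (T * u) *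
      (starRingEnd ℂ) (DP b X (T * u)))) = _ :=
      fun u => expandDP w (fun u => P K (T * u) ^ 2) T X b b hb0 hb0 u
    rw [hI2, integral_congr_ae (Filter.Eventually.of_forall h2), integral_finsetSum]
    swap
    · intro l _
      refine integrable_finsetSum _ fun h _ => ?_
      exact (e1 _).const_mul _
    refine Finset.sum_congr rfl fun l _ => ?_
    rw [integral_finsetSum]
    swap
    · intro h _
      exact (e1 _).const_mul _
    refine Finset.sum_congr rfl fun h _ => ?_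
    rw [integral_const_mul, two_integral hw hP hK]
  have s4 : ‖I2‖ ≤ (∑ l ∈ Finset.range (X + 1), b l / (l : ℝ) * ∑ h ∈ l.divisors,
        b h * ((l / h).divisors.card : ℝ)) +
      256 * C2 * K / T ^ 4 * ((∑ h ∈ Finset.range (X + 1), b h / Real.sqrt h) *
          ∑ l ∈ Finset.range (X + 1), b l / Real.sqrt l) := by
    rw [hI2', ← sumdiv]
    have e1 : 256 * C2 * K / T ^ 4 * ((∑ h ∈ Finset.range (X + 1), b h / Real.sqrt h) *
          ∑ l ∈ Finset.range (X + 1), b l / Real.sqrt l) =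
        ∑ l ∈ Finset.range (X + 1), ∑ h ∈ Finset.range (X + 1),
          (b h * b l / Real.sqrt ((h : ℝ) * l)) * (256 * C2 * K / T ^ 4) := by
      rw [Finset.sum_mul_sum, Finset.mul_sum, Finset.sum_comm]
      apply Finset.sum_congr rfl
      intro h _
      rw [Finset.mul_sum]
      apply Finset.sum_congr rfl
      intro l _
      rw [hcoef]
      ring
    rw [e1, ← Finset.sum_add_distrib]
    refine (norm_sum_le _ _).trans (Finset.sum_le_sum fun l hl => ?_)
    rw [← Finset.sum_add_distrib]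
    refine (norm_sum_le _ _).trans (Finset.sum_le_sum fun h hh => ?_)
    rw [norm_mul, Complex.norm_real, Real.norm_of_nonneg (hcn l h)]
    rcases Nat.eq_zero_or_pos l with hl0 | hl0
    · subst hl0
      rw [hb0]
      simp
    · rcases Nat.eq_zero_or_pos h with hh0 | hh0
      · subst hh0
        rw [hb0]
        simp only [zero_mul, zero_div, mul_zero, add_zero, ite_self, le_refl]
      · have hlX : l ≤ X := by
          have := Finset.mem_range.1 hl
          omega
        have h2 := outer hW hP w hw C2 hd hC2 T K hT1 hK X hX l h hl0 hlX hh0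
        have h3 := mul_le_mul_of_nonneg_left h2 (hcn l h)
        refine h3.trans ?_
        rw [mul_add]
        apply add_le_add_left
        by_cases hdv : h ∣ l
        · rw [if_pos hdv, if_pos ⟨hdv, hl0.ne'⟩]
          apply le_of_eq
          obtain ⟨n, rfl⟩ := hdv
          rw [Nat.mul_div_cancel_left n hh0]
          have hn : 0 < n := by
            rcases Nat.eq_zero_or_pos n with h9 | h9
            · subst h9
              simp at hl0
            · exact h9
          have hn' : (0 : ℝ) < n := by exact_mod_cast hn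
          have hh' : (0 : ℝ) < h := by exact_mod_cast hh0
          have h5 : Real.sqrt ((h : ℝ) * ((h * n : ℕ) : ℝ)) * Real.sqrt (n : ℝ) =
              ((h * n : ℕ) : ℝ) := by
            rw [← Real.sqrt_mul (by positivity)]
            have : (h : ℝ) * ((h * n : ℕ) : ℝ) * (n : ℝ) = ((h * n : ℕ) : ℝ) ^ 2 := by
              push_cast
              ring
            rw [this, Real.sqrt_sq (by positivity)]
          rw [div_mul_div_comm, h5]
          ring
        · rw [if_neg hdv, if_neg (fun h9 => hdv h9.1), mul_zero]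
  -- the error term
  have hnn : 0 ≤ ∑ h ∈ Finset.range (X + 1), b h / Real.sqrt h :=
    Finset.sum_nonneg fun n _ => div_nonneg (hb n) (Real.sqrt_nonneg _)
  have hXT : (X : ℝ) ≤ T := by
    rcases Nat.eq_zero_or_pos X with h2 | h2
    · rw [h2]
      simpa using hTpos.le
    · have h3 : (1 : ℝ) ≤ X := by exact_mod_cast h2
      have h4 : (X : ℝ) ≤ (X : ℝ) ^ 3 := by
        calc (X : ℝ) = (X : ℝ) ^ 1 := by ring
          _ ≤ (X : ℝ) ^ 3 := pow_le_pow_right₀ h3 (by norm_num)
      linarith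
  have hKT : K * T ^ (1 / 20 : ℝ) ≤ T ^ 3 := by
    rw [hKdef, ← Real.rpow_add hTpos, ← Real.rpow_natCast T 3]
    apply Real.rpow_le_rpow_of_exponent_le hT1
    norm_num
  have s8 : 256 * C2 * K / T ^ 4 * ((∑ h ∈ Finset.range (X + 1), b h / Real.sqrt h) *
          ∑ l ∈ Finset.range (X + 1), b l / Real.sqrt l) ≤ 512 * C2 / T ^ (1 / 20 : ℝ) *
            GS b X := by
    have e1 := l1 b X
    have e3 : (∑ h ∈ Finset.range (X + 1), b h / Real.sqrt h) *
          ∑ l ∈ Finset.range (X + 1), b l / Real.sqrt l ≤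
        (Real.sqrt ((X : ℝ) + 1) * Real.sqrt (Q2 b X)) *
          (Real.sqrt ((X : ℝ) + 1) * Real.sqrt (Q2 b X)) :=
      mul_le_mul e1 e1 hnn (by positivity)
    have e4 : (Real.sqrt ((X : ℝ) + 1) * Real.sqrt (Q2 b X)) *
          (Real.sqrt ((X : ℝ) + 1) * Real.sqrt (Q2 b X)) = ((X : ℝ) + 1) * Q2 b X := by
      have h2 := Real.mul_self_sqrt (by positivity : (0 : ℝ) ≤ (X : ℝ) + 1)
      have h3 := Real.mul_self_sqrt hQn
      calc (Real.sqrt ((X : ℝ) + 1) * Real.sqrt (Q2 b X)) *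
          (Real.sqrt ((X : ℝ) + 1) * Real.sqrt (Q2 b X)) =
          (Real.sqrt ((X : ℝ) + 1) * Real.sqrt ((X : ℝ) + 1)) *
            (Real.sqrt (Q2 b X) * Real.sqrt (Q2 b X)) := by ring
        _ = ((X : ℝ) + 1) * Q2 b X := by rw [h2, h3]
    rw [e4] at e3
    have e5 : ((X : ℝ) + 1) * Q2 b X ≤ (2 * T) * GS b X :=
      mul_le_mul (by linarith) hQG hQn (by positivity)
    have e6 : K / T ^ 3 ≤ 1 / T ^ (1 / 20 : ℝ) := by
      rw [div_le_div_iff₀ (by positivity) hr20]
      linarith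
    calc 256 * C2 * K / T ^ 4 * ((∑ h ∈ Finset.range (X + 1), b h / Real.sqrt h) *
          ∑ l ∈ Finset.range (X + 1), b l / Real.sqrt l) ≤
          256 * C2 * K / T ^ 4 * ((2 * T) * GS b X) :=
          mul_le_mul_of_nonneg_left (e3.trans e5) (by positivity)
      _ = 512 * C2 * GS b X * (K / T ^ 3) := by
          field_simp
          ring
      _ ≤ 512 * C2 * GS b X * (1 / T ^ (1 / 20 : ℝ)) :=
          mul_le_mul_of_nonneg_left e6 (by positivity)
      _ = 512 * C2 / T ^ (1 / 20 : ℝ) * GS b X := by ring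
  -- logarithm
  have hlog : Real.log T / T ^ (1 / 10 : ℝ) ≤ 20 / T ^ (1 / 20 : ℝ) := by
    have e1 := Real.log_le_rpow_div hTpos.le (by norm_num : (0 : ℝ) < 1 / 20)
    have e2 : T ^ (1 / 10 : ℝ) = T ^ (1 / 20 : ℝ) * T ^ (1 / 20 : ℝ) := by
      rw [← Real.rpow_add hTpos]
      norm_num
    rw [div_le_div_iff₀ hr10 hr20, e2]
    have e3 : Real.log T ≤ 20 * T ^ (1 / 20 : ℝ) := by
      calc Real.log T ≤ T ^ (1 / 20 : ℝ) / (1 / 20) := e1
        _ = 20 * T ^ (1 / 20 : ℝ) := by ring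
    have e4 := mul_le_mul_of_nonneg_right e3 hr20.le
    linarith
  have h10 : 1 / T ^ (1 / 10 : ℝ) ≤ 1 / T ^ (1 / 20 : ℝ) := by
    apply one_div_le_one_div_of_le hr20
    exact Real.rpow_le_rpow_of_exponent_le hT1 (by norm_num)
  have s9 : C0 / T ^ (1 / 10 : ℝ) * (C4 * Real.log T * GS b X + (1 + C0) * (C1 * Q2 b X)) ≤
      C0 * (20 * C4 + (1 + C0) * C1) / T ^ (1 / 20 : ℝ) * GS b X := by
    have e1 : C0 * C4 * GS b X * (Real.log T / T ^ (1 / 10 : ℝ)) ≤
        C0 * C4 * GS b X * (20 / T ^ (1 / 20 : ℝ)) :=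
      mul_le_mul_of_nonneg_left hlog (by positivity)
    have e2 : C0 * (1 + C0) * C1 * Q2 b X * (1 / T ^ (1 / 10 : ℝ)) ≤
        C0 * (1 + C0) * C1 * GS b X * (1 / T ^ (1 / 20 : ℝ)) := by
      apply mul_le_mul _ h10 (by positivity) (by positivity)
      exact mul_le_mul_of_nonneg_left hQG (by positivity)
    calc C0 / T ^ (1 / 10 : ℝ) * (C4 * Real.log T * GS b X + (1 + C0) * (C1 * Q2 b X)) =
          C0 * C4 * GS b X * (Real.log T / T ^ (1 / 10 : ℝ)) +
            C0 * (1 + C0) * C1 * Q2 b X * (1 / T ^ (1 / 10 : ℝ)) := by ring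
      _ ≤ C0 * C4 * GS b X * (20 / T ^ (1 / 20 : ℝ)) +
            C0 * (1 + C0) * C1 * GS b X * (1 / T ^ (1 / 20 : ℝ)) := add_le_add e1 e2
      _ = C0 * (20 * C4 + (1 + C0) * C1) / T ^ (1 / 20 : ℝ) * GS b X := by ring
  have h2 : I1 = I2 + (I1 - I2) := by ring
  have h3 : ‖I1‖ ≤ ‖I2‖ + ‖I1 - I2‖ := by
    calc ‖I1‖ = ‖I2 + (I1 - I2)‖ := by rw [← h2]
      _ ≤ _ := norm_add_le _ _
  have s12 : (C0 * (20 * C4 + (1 + C0) * C1) + 512 * C2) / T ^ (1 / 20 : ℝ) * GS b X =
      C0 * (20 * C4 + (1 + C0) * C1) / T ^ (1 / 20 : ℝ) * GS b X +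
        512 * C2 / T ^ (1 / 20 : ℝ) * GS b X := by ring
  rw [s12]
  linarith

end Pool.Agent.Work.MP_56b8f5_nt.WA
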