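import Pool.Agent.Work.MP_56b8f5_nt.WA.StmtsB
import Pool.Agent.Work.MP_56b8f5_nt.WA.I_Jbh

/-!
MP_56b8f5_nt, block WB, item Q6 (Jah): the harmonics of the twisted moments.
-/

set_option autoImplicit false

open MeasureTheory Set Filter Topology

noncomputable section

namespace Pool.Agent.Work.MP_56b8f5_nt.WA

open Pool.Agent.Work.MP_56b8f5_nt.EM
open Pool.Agent.Work.MP_56b8f5_nt.WM

namespace I_Jah

theorem sq_cast (z : ℂ) : ((‖z‖ ^ 2 : ℝ) : ℂ) = z * (starRingEnd ℂ) z := by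
  rw [Complex.mul_conj, Complex.normSq_eq_norm_sq]

/-- The norm of the integral of the conjugate. -/
theorem norm_conj_int (F G : ℝ → ℂ) (h : ∀ u, F u = (starRingEnd ℂ) (G u)) :
    ‖∫ u : ℝ, F u‖ = ‖∫ u : ℝ, G u‖ := by
  have h1 : ∫ u : ℝ, F u = (starRingEnd ℂ) (∫ u : ℝ, G u) := by
    rw [← integral_conj]
    exact integral_congr_ae (Eventually.of_forall h)
  rw [h1, RCLike.norm_conj]

theorem div_rpow_le {C T : ℝ} (hC : 0 ≤ C) (hT : 1 ≤ T) : C / T ^ (1 / 20 : ℝ) ≤ C := by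
  refine div_le_self hC ?_
  exact Real.one_le_rpow hT (by norm_num)

end I_Jah

open I_Jah I_Jbh in
/-- **Q6.** -/
theorem Jah_pf (h2 : S_UZ) (h8 : S_CCp) (h5 : S_Sq) (h4 : S_Gcd) (h6 : S_OscA) (h7 : S_OscZ2)
    (h9 : S_FM2) (hU : S_UpF2) : S_Jah := by
  intro w hw a ha
  obtain ⟨-, -, -, hconj⟩ := h2
  obtain ⟨CA, TA, hCA, hTA, HA⟩ := h6 w hw a ha
  obtain ⟨CF, TF, hCF, hTF, HF⟩ := h9 w hw
  -- the bound of the second moment with phase
  obtain ⟨CZ, TZ, hCZ, hTZ, HZ⟩ : ∃ C T₀ : ℝ, 0 ≤ C ∧ 1 ≤ T₀ ∧ ∀ T : ℝ, T₀ ≤ T → ∀ X : ℕ,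
      (X : ℝ) ^ 3 ≤ T → ∀ b : ℕ → ℝ, b 0 = 0 → (∀ n, 0 ≤ b n) → 2 ≤ a →
      ‖∫ u : ℝ, (w u : ℂ) * (U (T * u) ^ (a - 1) * ((starRingEnd ℂ) (zt (T * u)) ^ 2 *
        (DP b X (T * u) * (starRingEnd ℂ) (DP b X (T * u)))))‖ ≤ C / T ^ (1 / 20 : ℝ) * GS b X := by
    rcases Nat.lt_or_ge a 2 with h | h
    · exact ⟨0, 1, le_rfl, le_rfl, fun _ _ _ _ _ _ _ h' => absurd h' (by omega)⟩
    · obtain ⟨C, T₀, hC, hT, H⟩ := h7 w hw (a - 1) (by omega)
      exact ⟨C, T₀, hC, hT, fun T hT X hX b hb0 hb _ => H T hT X hX b hb0 hb⟩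
  refine ⟨CA + (1 + CF) + CZ, max 3 (max TA (max TF TZ)), by linarith, le_max_left _ _,
    fun T hT q y z m j hq hyz hX => ?_⟩
  have hT3 : 3 ≤ T := le_trans (le_max_left _ _) hT
  have hTA' : TA ≤ T := le_trans (le_trans (le_max_left _ _) (le_max_right _ _)) hT
  have hTF' : TF ≤ T := le_trans (le_trans (le_trans (le_max_left _ _) (le_max_right _ _))
    (le_max_right _ _)) hT
  have hTZ' : TZ ≤ T := le_trans (le_trans (le_trans (le_max_right _ _) (le_max_right _ _))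
    (le_max_right _ _)) hT
  have hT1 : (1 : ℝ) ≤ T := by linarith
  have hlog : 0 < Real.log T := Real.log_pos (by linarith)
  have hlogT : Real.log T ≤ T := by
    have := Real.log_le_sub_one_of_pos (show (0 : ℝ) < T by linarith)
    linarith
  obtain ⟨b, hb⟩ : ∃ b : ℕ → ℝ, b = CC q y z m (2 * j) := ⟨_, rfl⟩
  obtain ⟨X, hXe⟩ : ∃ X : ℕ, X = y ^ m * z ^ (2 * j) := ⟨_, rfl⟩
  rw [← hXe] at hX
  have hb0 : b 0 = 0 := by rw [hb]; exact ArithmeticFunction.map_zero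
  have hbn : ∀ n, 0 ≤ b n := fun n => by rw [hb]; exact ((h8 q y z m (2 * j) hq hyz).1 n).1
  have hba : ∀ n, b n ≤ pe (ab q y z m (2 * j)) n :=
    fun n => by rw [hb]; exact ((h8 q y z m (2 * j) hq hyz).1 n).2
  have hns : ∀ t : ℝ, ((aM q y t ^ (2 * m) * aH y z t ^ (2 * j) : ℝ) : ℂ) =
      DP b X t * (starRingEnd ℂ) (DP b X t) := by
    intro t
    rw [norm_sq h8 m j hq hyz, hb, hXe]
    exact sq_cast _
  have hns2 : ∀ t : ℝ, ((az t ^ 2 * (aM q y t ^ (2 * m) * aH y z t ^ (2 * j)) : ℝ) : ℂ) =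
      zt t * (starRingEnd ℂ) (zt t) * (DP b X t * (starRingEnd ℂ) (DP b X t)) := by
    intro t
    rw [Complex.ofReal_mul, hns t]
    congr 1
    exact sq_cast (zt t)
  constructor
  · have hA := HA T hTA' X hX b hb0
    have hB := h5 (ab q y z m (2 * j)) b z X
      (ab_nonneg q y z m (2 * j)) (fun p hp => ab_zero hyz hp) hbn hba
    rw [sum_ab q y z m j hyz (fun x => x ^ 2)] at hB
    have hE : ∫ u : ℝ, (w u : ℂ) * (U (T * u) ^ a *
        ((aM q y (T * u) ^ (2 * m) * aH y z (T * u) ^ (2 * j) : ℝ) : ℂ)) =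
        ∫ u : ℝ, (w u : ℂ) * (U (T * u) ^ a *
          (DP b X (T * u) * (starRingEnd ℂ) (DP b X (T * u)))) := by
      congr 1
      funext u
      rw [hns]
    rw [hE]
    have hexp := Real.exp_pos (((m : ℝ) / q) ^ 2 * S1 y + (j : ℝ) ^ 2 * S2 y z)
    have h3 : CA / T ≤ (CA + (1 + CF) + CZ) / Real.log T := by
      calc CA / T ≤ CA / Real.log T := div_le_div_of_nonneg_left hCA hlog hlogT
        _ ≤ _ := div_le_div_of_nonneg_right (by linarith) hlog.le
    calc _ ≤ CA / T * Q2 b X := hA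
      _ ≤ CA / T * Real.exp (((m : ℝ) / q) ^ 2 * S1 y + (j : ℝ) ^ 2 * S2 y z) :=
        mul_le_mul_of_nonneg_left hB (div_nonneg hCA (by linarith))
      _ ≤ _ := mul_le_mul_of_nonneg_right h3 hexp.le
  · have hG := h4 (ab q y z m (2 * j)) b z X
      (ab_nonneg q y z m (2 * j)) (fun p hp => ab_zero hyz hp) hbn hba
    rw [sum_ab q y z m j hyz (fun x => 2 * x + x ^ 2)] at hG
    have hV := hU (ab q y z m (2 * j)) b z X
      (ab_nonneg q y z m (2 * j)) (fun p hp => ab_zero hyz hp) hbn hba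
    rw [sum_ab q y z m j hyz (fun x => 2 * x + x ^ 2)] at hV
    obtain ⟨Ex, hEx⟩ : ∃ Ex : ℝ, Ex = Real.exp ((2 * ((m : ℝ) / q) + ((m : ℝ) / q) ^ 2) * S1 y +
      (2 * (j : ℝ) + (j : ℝ) ^ 2) * S2 y z) := ⟨_, rfl⟩
    rw [← hEx] at hG hV ⊢
    have hEx0 : 0 < Ex := by rw [hEx]; exact Real.exp_pos _
    rcases Nat.lt_or_ge a 2 with h | h
    · -- `a = 1`
      have ha1 : a = 1 := by omega
      subst ha1
      have hN := norm_conj_int
        (fun u : ℝ => (w u : ℂ) * (U (T * u) ^ 1 *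
          ((az (T * u) ^ 2 * (aM q y (T * u) ^ (2 * m) * aH y z (T * u) ^ (2 * j)) : ℝ) : ℂ)))
        (fun u : ℝ => (w u : ℂ) * (zt (T * u) ^ 2 *
          (DP b X (T * u) * (starRingEnd ℂ) (DP b X (T * u))))) (fun u => by
          rw [hns2, map_mul, map_mul, map_mul, map_pow, Complex.conj_ofReal, Complex.conj_conj,
            hconj]
          ring)
      rw [hN]
      calc _ ≤ _ := HF T hTF' X hX b hb0 hbn
        _ ≤ Ex + CF * Ex := by
          refine add_le_add hV ?_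
          exact mul_le_mul (div_rpow_le hCF hT1) hG
            (by
              unfold GS
              exact Finset.sum_nonneg fun h _ => Finset.sum_nonneg fun l _ =>
                div_nonneg (mul_nonneg (mul_nonneg (hbn h) (hbn l)) (Nat.cast_nonneg _))
                  (by positivity)) hCF
        _ ≤ (CA + (1 + CF) + CZ) * Ex := by nlinarith
    · -- `a ≥ 2`
      have hE : ∫ u : ℝ, (w u : ℂ) * (U (T * u) ^ a *
          ((az (T * u) ^ 2 * (aM q y (T * u) ^ (2 * m) * aH y z (T * u) ^ (2 * j)) : ℝ) : ℂ)) =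
          ∫ u : ℝ, (w u : ℂ) * (U (T * u) ^ (a - 1) * ((starRingEnd ℂ) (zt (T * u)) ^ 2 *
            (DP b X (T * u) * (starRingEnd ℂ) (DP b X (T * u))))) := by
        congr 1
        funext u
        obtain ⟨a', rfl⟩ : ∃ a', a = a' + 1 := ⟨a - 1, by omega⟩
        rw [hns2, Nat.add_sub_cancel, hconj, pow_succ]
        ring
      rw [hE]
      calc _ ≤ _ := HZ T hTZ' X hX b hb0 hbn h
        _ ≤ CZ * Ex := by
          exact mul_le_mul (div_rpow_le hCZ hT1) hG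
            (by
              unfold GS
              exact Finset.sum_nonneg fun h _ => Finset.sum_nonneg fun l _ =>
                div_nonneg (mul_nonneg (mul_nonneg (hbn h) (hbn l)) (Nat.cast_nonneg _))
                  (by positivity)) hCZ
        _ ≤ (CA + (1 + CF) + CZ) * Ex := by nlinarith

end Pool.Agent.Work.MP_56b8f5_nt.WA
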