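import Pool.Agent.Work.MP_56b8f5_nt.WA.Stmts

/-!
MP_56b8f5_nt, block WA (window theorem in sectors), item D7 (Har): assembly of the structure `Hy`.
-/

set_option autoImplicit false

open MeasureTheory Set Filter Topology

noncomputable section

namespace Pool.Agent.Work.MP_56b8f5_nt.WA

open Pool.Agent.Work.MP_56b8f5_nt.EM
open Pool.Agent.Work.MP_56b8f5_nt.WM

namespace I_Har

theorem hcs {w : ℝ → ℝ} (hw : IsW w) : HasCompactSupport w := by
  obtain ⟨c, _, h⟩ := hw.supp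
  refine HasCompactSupport.intro (K := Icc c 1) isCompact_Icc fun u hu => ?_
  by_contra hne
  exact hu (h u hne)

theorem cDP (b : ℕ → ℝ) (X : ℕ) : Continuous (DP b X) := by
  unfold DP
  refine continuous_finset_sum _ fun n _ => ?_
  refine continuous_const.mul ?_
  rcases Nat.eq_zero_or_pos n with h | h
  · subst h
    have : (fun t : ℝ => ((0 : ℕ) : ℂ) ^ (-(1 / 2 + (t : ℂ) * Complex.I))) = fun _ => 0 := by
      funext t
      rw [Nat.cast_zero, Complex.zero_cpow]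
      intro h0
      have := congrArg Complex.re h0
      simp at this
    rw [this]
    exact continuous_const
  · have hn : ((n : ℕ) : ℂ) ≠ 0 := by
      exact_mod_cast h.ne'
    exact Continuous.const_cpow (by fun_prop) (Or.inl hn)

theorem cMH (q y z m j : ℕ) : Continuous (MH q y z m j) := by
  unfold MH
  exact ((cDP _ _).pow m).mul ((cDP _ _).pow j)

theorem normMH (q y z m j : ℕ) (t : ℝ) :
    ‖MH q y z m (2 * j) t‖ = aM q y t ^ m * aH y z t ^ j := by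
  unfold MH aM aH
  rw [norm_mul, norm_pow, norm_pow, ← pow_mul]

theorem az_eq (t : ℝ) : ‖zt t‖ = az t := rfl

/-- `C' / T^a ≤ ε` for large `T`. -/
theorem evl (C' a ε : ℝ) (ha : 0 < a) (hε : 0 < ε) : ∀ᶠ T : ℝ in atTop, C' / T ^ a ≤ ε := by
  have h1 : Tendsto (fun T : ℝ => C' / T ^ a) atTop (𝓝 0) :=
    Tendsto.div_atTop tendsto_const_nhds (tendsto_rpow_atTop ha)
  exact (h1.eventually (gt_mem_nhds hε)).mono fun T hT => hT.le

theorem evlog (C' a ε : ℝ) (ha : 0 < a) (hε : 0 < ε) :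
    ∀ᶠ T : ℝ in atTop, C' / Real.log T ^ a ≤ ε :=
  Real.tendsto_log_atTop.eventually (evl C' a ε ha hε)

end I_Har

open I_Har in
/-- **D7 (Har).** -/
theorem Har_pf (h1 : S_Mn) (h2 : S_Sm) (h3 : S_Os) (h4 : S_TenRh) (h5 : S_UZ) : S_Har := by
  intro w hw hW k C hk hC
  obtain ⟨c, Ta, hc, Ha⟩ := h1 w hw hW k C hk hC
  obtain ⟨Cb, Tb, hCb, hTb, Hb⟩ := h2 w hw hW k C hk hC
  obtain ⟨Cd, Td, hCd, Hd⟩ := h4 w hw k C hk hC
  refine ⟨c, Cd, hc, by linarith, fun n ε hε => ?_⟩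
  choose! Cc Tc hCc hTc Hc using fun j : ℕ => h3 w hw k C j hk hC
  have hev : ∀ᶠ T : ℝ in atTop, Ta ≤ T ∧ Tb ≤ T ∧ Td ≤ T ∧ Cb / Real.log T ^ (1 / 4 : ℝ) ≤ ε ∧
      ∀ j ∈ Finset.Icc 1 n, Tc j ≤ T ∧ Cc j / T ^ (1 / 8 : ℝ) ≤ ε := by
    refine (eventually_ge_atTop Ta).and ((eventually_ge_atTop Tb).and ((eventually_ge_atTop Td).and
      ((evlog Cb _ ε (by norm_num) hε).and ?_)))
    rw [Filter.eventually_all_finset]
    intro j _
    exact (eventually_ge_atTop _).and (evl _ _ ε (by norm_num) hε)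
  obtain ⟨T₀, hT₀⟩ := eventually_atTop.1 hev
  refine ⟨T₀, fun T hT q y z m₁ hp hm₁ hm₁k => ?_⟩
  obtain ⟨ha, hb, hd, e1, ec⟩ := hT₀ T hT
  have hX : 0 ≤ Xb k q y z m₁ := (Real.exp_pos _).le
  obtain ⟨hb1, hb2⟩ := Hb T hb q y z m₁ hp hm₁k
  have hU := Hd T hd q y z m₁ hp hm₁ hm₁k
  refine ⟨Ha T ha q y z m₁ hp hm₁k, ?_, ?_, ?_, ?_, ?_, ?_⟩
  · -- the total
    have hcont : Continuous fun u : ℝ => T * u := continuous_const.mul continuous_id
    have hz : Continuous fun u : ℝ => ‖zt (T * u)‖ := (h5.2.1.comp hcont).norm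
    have hA : Continuous fun u : ℝ => ‖MH q y z m₁ (2 * (k - 1)) (T * u)‖ :=
      ((cMH q y z m₁ (2 * (k - 1))).comp hcont).norm
    have hB : Continuous fun u : ℝ => ‖MH q y z (m₁ + q) (2 * k) (T * u)‖ :=
      ((cMH q y z (m₁ + q) (2 * k)).comp hcont).norm
    have hwc : Continuous w := hw.smooth.continuous
    have i1 : Integrable fun u : ℝ => w u * (‖zt (T * u)‖ *
        (‖MH q y z m₁ (2 * (k - 1)) (T * u)‖ * ‖MH q y z (m₁ + q) (2 * k) (T * u)‖)) :=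
      (hwc.mul (hz.mul (hA.mul hB))).integrable_of_hasCompactSupport ((hcs hw).mul_right)
    have i2 : Integrable fun u : ℝ => w u * (‖zt (T * u)‖ ^ 2 *
        ‖MH q y z m₁ (2 * (k - 1)) (T * u)‖ ^ 2) :=
      (hwc.mul ((hz.pow 2).mul (hA.pow 2))).integrable_of_hasCompactSupport ((hcs hw).mul_right)
    have i3 : Integrable fun u : ℝ => w u * ‖MH q y z (m₁ + q) (2 * k) (T * u)‖ ^ 2 :=
      (hwc.mul (hB.pow 2)).integrable_of_hasCompactSupport ((hcs hw).mul_right)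
    have e2 : ∫ u : ℝ, w u * (‖zt (T * u)‖ ^ 2 * ‖MH q y z m₁ (2 * (k - 1)) (T * u)‖ ^ 2) =
        J2h w q y z T m₁ (k - 1) := by
      unfold J2h
      congr 1
      funext u
      rw [normMH, az_eq, mul_pow, ← pow_mul, ← pow_mul, mul_comm m₁ 2, mul_comm (k - 1) 2]
    have e3 : ∫ u : ℝ, w u * ‖MH q y z (m₁ + q) (2 * k) (T * u)‖ ^ 2 =
        J0h w q y z T (m₁ + q) k := by
      unfold J0h
      congr 1
      funext u
      rw [normMH, mul_pow, ← pow_mul, ← pow_mul, mul_comm (m₁ + q) 2, mul_comm k 2]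
    have key : ∫ u : ℝ, w u * (‖zt (T * u)‖ * (‖MH q y z m₁ (2 * (k - 1)) (T * u)‖ *
        ‖MH q y z (m₁ + q) (2 * k) (T * u)‖)) ≤ ∫ u : ℝ, ((1 / 2 : ℝ) * (w u * (‖zt (T * u)‖ ^ 2 *
          ‖MH q y z m₁ (2 * (k - 1)) (T * u)‖ ^ 2)) + (1 / 2 : ℝ) *
          (w u * ‖MH q y z (m₁ + q) (2 * k) (T * u)‖ ^ 2)) := by
      refine integral_mono i1 ((i2.const_mul _).add (i3.const_mul _)) fun u => ?_
      have hwu := hw.nonneg u
      have := sq_nonneg (‖zt (T * u)‖ * ‖MH q y z m₁ (2 * (k - 1)) (T * u)‖ -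
        ‖MH q y z (m₁ + q) (2 * k) (T * u)‖)
      have h6 : ‖zt (T * u)‖ * (‖MH q y z m₁ (2 * (k - 1)) (T * u)‖ *
          ‖MH q y z (m₁ + q) (2 * k) (T * u)‖) ≤ (1 / 2 : ℝ) * (‖zt (T * u)‖ ^ 2 *
          ‖MH q y z m₁ (2 * (k - 1)) (T * u)‖ ^ 2) + (1 / 2 : ℝ) *
          ‖MH q y z (m₁ + q) (2 * k) (T * u)‖ ^ 2 := by nlinarith
      have h7 := mul_le_mul_of_nonneg_left h6 hwu
      show w u * _ ≤ _
      linarith
    rw [integral_add (i2.const_mul _) (i3.const_mul _), integral_const_mul, integral_const_mul,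
      e2, e3] at key
    have h8 := hU.a1
    have h9 := hU.a2
    show ∫ u : ℝ, w u * (‖zt (T * u)‖ * (‖MH q y z m₁ (2 * (k - 1)) (T * u)‖ *
        ‖MH q y z (m₁ + q) (2 * k) (T * u)‖)) ≤ _
    linarith
  · exact hb1.trans (mul_le_mul_of_nonneg_right e1 hX)
  · intro j hj hjn
    obtain ⟨ht, hcj⟩ := ec j (Finset.mem_Icc.2 ⟨hj, hjn⟩)
    exact ((Hc j hj T ht q y z m₁ hp hm₁k).1).trans (mul_le_mul_of_nonneg_right hcj hX)
  · intro j hj hjn
    obtain ⟨ht, hcj⟩ := ec j (Finset.mem_Icc.2 ⟨hj, hjn⟩)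
    exact ((Hc j hj T ht q y z m₁ hp hm₁k).2.1).trans (mul_le_mul_of_nonneg_right hcj hX)
  · exact hb2.trans (mul_le_mul_of_nonneg_right e1 hX)
  · intro j hj hjn
    obtain ⟨ht, hcj⟩ := ec j (Finset.mem_Icc.2 ⟨hj, hjn⟩)
    exact ((Hc j hj T ht q y z m₁ hp hm₁k).2.2).trans (mul_le_mul_of_nonneg_right hcj hX)

end Pool.Agent.Work.MP_56b8f5_nt.WA
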