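import Pool.Agent.Work.MP_56b8f5_nt.WA.StmtsB
import Pool.Agent.Work.MP_56b8f5_nt.WA.I_Har

/-!
MP_56b8f5_nt, block WB (sectors, linear in the angle), item Q7 (Jarc): moments in sectors.
-/

set_option autoImplicit false

open MeasureTheory Set Filter Topology

noncomputable section

namespace Pool.Agent.Work.MP_56b8f5_nt.WA

open Pool.Agent.Work.MP_56b8f5_nt.EM
open Pool.Agent.Work.MP_56b8f5_nt.WM

namespace I_Jarc

theorem caM (q y : ℕ) : Continuous (aM q y) := by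
  unfold aM
  exact (I_Har.cDP _ _).norm

theorem caH (y z : ℕ) : Continuous (aH y z) := by
  unfold aH
  exact (I_Har.cDP _ _).norm.pow 2

theorem caz (hz : Continuous zt) : Continuous az := by
  have : az = fun t => ‖zt t‖ := rfl
  rw [this]
  exact hz.norm

end I_Jarc

open I_Jarc in
/-- **Q7 (Jarc).** -/
theorem Jarc_pf (h1 : S_Jbh) (h2 : S_Jah) (h3 : S_TrigU) (h4 : S_UZ) : S_Jarc := by
  intro w hw
  obtain ⟨C₀, T0, hC₀, hJ⟩ := h1 w hw
  obtain ⟨C₁, hC₁, Ht⟩ := h3 C₀ (by linarith)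
  refine ⟨C₁, hC₁, fun θ hθ hθπ => ?_⟩
  obtain ⟨n, ε, hε, Ht'⟩ := Ht θ hθ hθπ
  have hall : ∀ a : ℕ, ∃ T₁ : ℝ, 1 ≤ a → ∀ T : ℝ, T₁ ≤ T → ∀ q y z m j : ℕ, 1 ≤ q → y ≤ z →
      ((y ^ m * z ^ (2 * j) : ℕ) : ℝ) ^ 3 ≤ T →
      ‖∫ u : ℝ, (w u : ℂ) * (U (T * u) ^ a *
        ((aM q y (T * u) ^ (2 * m) * aH y z (T * u) ^ (2 * j) : ℝ) : ℂ))‖ ≤
          ε * Real.exp (((m : ℝ) / q) ^ 2 * S1 y + (j : ℝ) ^ 2 * S2 y z) ∧
      ‖∫ u : ℝ, (w u : ℂ) * (U (T * u) ^ a *
        ((az (T * u) ^ 2 * (aM q y (T * u) ^ (2 * m) * aH y z (T * u) ^ (2 * j)) : ℝ) : ℂ))‖ ≤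
          ε * (Real.log T * Real.exp ((2 * ((m : ℝ) / q) + ((m : ℝ) / q) ^ 2) * S1 y +
            (2 * (j : ℝ) + (j : ℝ) ^ 2) * S2 y z)) := by
    intro a
    by_cases ha : 1 ≤ a
    · obtain ⟨C, T₂, hC, hT₂, H⟩ := h2 w hw a ha
      have hlog : ∀ᶠ T : ℝ in atTop, C ≤ ε * Real.log T :=
        (Real.tendsto_log_atTop.const_mul_atTop hε).eventually_ge_atTop C
      obtain ⟨T₃, hT₃⟩ := eventually_atTop.1 hlog
      refine ⟨max T₂ T₃, fun _ T hT q y z m j hq hyz hX => ?_⟩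
      have hT2 : T₂ ≤ T := (le_max_left _ _).trans hT
      have hT3 : T₃ ≤ T := (le_max_right _ _).trans hT
      have hCl : C ≤ ε * Real.log T := hT₃ T hT3
      have hl : 0 < Real.log T := Real.log_pos (by linarith)
      obtain ⟨e1, e2⟩ := H T hT2 q y z m j hq hyz hX
      refine ⟨e1.trans ?_, e2.trans ?_⟩
      · refine mul_le_mul_of_nonneg_right ?_ (Real.exp_pos _).le
        rwa [div_le_iff₀ hl]
      · rw [← mul_assoc]
        exact mul_le_mul_of_nonneg_right hCl (Real.exp_pos _).le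
    · exact ⟨0, fun h => absurd h ha⟩
  choose T₁ hT₁ using hall
  refine ⟨max (max 3 T0) (∑ a ∈ Finset.range (n + 1), |T₁ a|),
    fun T hT q y z m j hq hyz hX ω hω => ?_⟩
  have hT3 : 3 ≤ T := (le_max_left _ _).trans ((le_max_left _ _).trans hT)
  have hTT : T0 ≤ T := (le_max_right _ _).trans ((le_max_left _ _).trans hT)
  have hTs : ∀ a : ℕ, a ≤ n → T₁ a ≤ T := by
    intro a ha
    refine le_trans ?_ ((le_max_right _ _).trans hT)
    refine (le_abs_self _).trans ?_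
    exact Finset.single_le_sum (f := fun a => |T₁ a|) (fun _ _ => abs_nonneg _)
      (Finset.mem_range.2 (by omega))
  have hl : 0 < Real.log T := Real.log_pos (by linarith)
  have hcont : Continuous fun u : ℝ => T * u := continuous_const.mul continuous_id
  obtain ⟨j1, j2⟩ := hJ T hTT q y z m j hq hyz hX
  have cG : Continuous fun u : ℝ => aM q y (T * u) ^ (2 * m) * aH y z (T * u) ^ (2 * j) :=
    (((caM q y).comp hcont).pow _).mul (((caH y z).comp hcont).pow _)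
  have gM : ∀ t, 0 ≤ aM q y t := fun t => norm_nonneg _
  have gH : ∀ t, 0 ≤ aH y z t := fun t => sq_nonneg _
  constructor
  · have h := Ht' w hw.smooth.continuous (I_Har.hcs hw) hw.nonneg
      (Real.exp (((m : ℝ) / q) ^ 2 * S1 y + (j : ℝ) ^ 2 * S2 y z))
      (fun u => zt (T * u)) (fun u => U (T * u))
      (fun u => aM q y (T * u) ^ (2 * m) * aH y z (T * u) ^ (2 * j)) (Real.exp_pos _).le
      (h4.2.1.comp hcont) (h4.1.comp hcont) cG
      (fun u => mul_nonneg (pow_nonneg (gM _) _) (pow_nonneg (gH _) _))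
      (fun u => h4.2.2.1 _) (fun u => h4.2.2.2 _) j1
      (fun a ha han => (hT₁ a ha T (hTs a han) q y z m j hq hyz hX).1) ω hω
    exact h
  · have h := Ht' w hw.smooth.continuous (I_Har.hcs hw) hw.nonneg
      (Real.log T * Real.exp ((2 * ((m : ℝ) / q) + ((m : ℝ) / q) ^ 2) * S1 y +
            (2 * (j : ℝ) + (j : ℝ) ^ 2) * S2 y z))
      (fun u => zt (T * u)) (fun u => U (T * u))
      (fun u => az (T * u) ^ 2 * (aM q y (T * u) ^ (2 * m) * aH y z (T * u) ^ (2 * j)))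
      (mul_nonneg hl.le (Real.exp_pos _).le)
      (h4.2.1.comp hcont) (h4.1.comp hcont)
      ((((caz h4.2.1).comp hcont).pow 2).mul cG)
      (fun u => mul_nonneg (sq_nonneg _)
        (mul_nonneg (pow_nonneg (gM _) _) (pow_nonneg (gH _) _)))
      (fun u => h4.2.2.1 _) (fun u => h4.2.2.2 _)
      (by rw [← mul_assoc]; exact j2)
      (fun a ha han => (hT₁ a ha T (hTs a han) q y z m j hq hyz hX).2) ω hω
    rw [← mul_assoc] at h
    exact h

end Pool.Agent.Work.MP_56b8f5_nt.WA
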