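import Pool.Agent.Work.MP_56b8f5_nt.WA.StmtsB

/-!
MP_56b8f5_nt, block WB, item KerL (helper62): the lower kernel (tent).
-/

set_option autoImplicit false

open MeasureTheory Set Filter Topology

noncomputable section

namespace Pool.Agent.Work.MP_56b8f5_nt.WA

namespace I_KerL

/-- The tent of width `θ`. -/
def g (θ x : ℝ) : ℝ := max 0 (1 - Real.arccos (Real.cos x) / θ)

theorem g_cont (θ : ℝ) : Continuous (g θ) := by
  unfold g
  exact continuous_const.max
    (continuous_const.sub ((Real.continuous_arccos.comp Real.continuous_cos).div_const θ))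

theorem g_per (θ x : ℝ) : g θ (x + 2 * Real.pi) = g θ x := by
  unfold g
  rw [Real.cos_add_two_pi]

theorem g_nonneg (θ x : ℝ) : 0 ≤ g θ x := le_max_left _ _

theorem g_le_one (θ x : ℝ) (hθ : 0 < θ) : g θ x ≤ 1 := by
  unfold g
  refine max_le zero_le_one ?_
  have h : 0 ≤ Real.arccos (Real.cos x) / θ := div_nonneg (Real.arccos_nonneg _) hθ.le
  linarith

theorem g_zero (θ x : ℝ) (hθ : 0 < θ) (hπ : θ ≤ Real.pi) (h : Real.cos x ≤ Real.cos θ) :
    g θ x = 0 := by
  unfold g
  refine max_eq_left ?_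
  have h1 : Real.arccos (Real.cos θ) ≤ Real.arccos (Real.cos x) := Real.arccos_le_arccos h
  rw [Real.arccos_cos hθ.le hπ] at h1
  have h2 : 1 ≤ Real.arccos (Real.cos x) / θ := by
    rw [le_div_iff₀ hθ]; linarith
  linarith

theorem g_eq (θ x : ℝ) (hθ : 0 < θ) (hπ : θ ≤ Real.pi) (h0 : 0 ≤ x) (h1 : x ≤ θ) :
    g θ x = 1 - x / θ := by
  unfold g
  rw [Real.arccos_cos h0 (h1.trans hπ)]
  refine max_eq_right ?_
  have h2 : x / θ ≤ 1 := by rw [div_le_one hθ]; exact h1
  linarith

theorem g_symm (θ x : ℝ) : g θ (2 * Real.pi - x) = g θ x := by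
  unfold g
  rw [Real.cos_two_pi_sub]

theorem int_left (θ : ℝ) (hθ : 0 < θ) (hπ : θ ≤ Real.pi) :
    ∫ x in (0 : ℝ)..θ, g θ x = θ / 2 := by
  have h : ∫ x in (0 : ℝ)..θ, g θ x = ∫ x in (0 : ℝ)..θ, (1 - x / θ) := by
    refine intervalIntegral.integral_congr ?_
    intro x hx
    rw [uIcc_of_le hθ.le] at hx
    exact g_eq θ x hθ hπ hx.1 hx.2
  rw [h, intervalIntegral.integral_sub (by simp) (by
    exact (continuous_id.div_const θ).intervalIntegrable _ _)]
  rw [intervalIntegral.integral_div, integral_id]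
  simp
  field_simp
  ring

theorem int_right (θ : ℝ) (hθ : 0 < θ) (hπ : θ ≤ Real.pi) :
    ∫ x in (2 * Real.pi - θ)..(2 * Real.pi), g θ x = θ / 2 := by
  have h := intervalIntegral.integral_comp_sub_left (a := 2 * Real.pi - θ) (b := 2 * Real.pi)
    (g θ) (2 * Real.pi)
  have h2 : ∫ x in (2 * Real.pi - θ)..(2 * Real.pi), g θ x =
      ∫ x in (2 * Real.pi - θ)..(2 * Real.pi), g θ (2 * Real.pi - x) := by
    refine intervalIntegral.integral_congr ?_
    intro x _
    exact (g_symm θ x).symm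
  rw [h2, h]
  have e1 : 2 * Real.pi - 2 * Real.pi = 0 := by ring
  have e2 : 2 * Real.pi - (2 * Real.pi - θ) = θ := by ring
  rw [e1, e2]
  exact int_left θ hθ hπ

theorem int_all (θ : ℝ) (hθ : 0 < θ) (hπ : θ ≤ Real.pi) :
    θ ≤ ∫ x in (0 : ℝ)..(2 * Real.pi), g θ x := by
  have i : ∀ a b : ℝ, IntervalIntegrable (g θ) volume a b := fun a b =>
    (g_cont θ).intervalIntegrable a b
  rw [← intervalIntegral.integral_add_adjacent_intervals (i 0 θ) (i θ (2 * Real.pi)),
    ← intervalIntegral.integral_add_adjacent_intervals (i θ (2 * Real.pi - θ))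
      (i (2 * Real.pi - θ) (2 * Real.pi)), int_left θ hθ hπ, int_right θ hθ hπ]
  have h : 0 ≤ ∫ x in θ..(2 * Real.pi - θ), g θ x := by
    refine intervalIntegral.integral_nonneg (by linarith) ?_
    intro x _
    exact g_nonneg θ x
  linarith

end I_KerL

open I_KerL in
theorem KerL_pf (h1 : S_SWr) : S_KerL := by
  intro θ τ hθ hπ hτ
  obtain ⟨n, p0, p, ha, hb⟩ := h1 (g θ) (g_cont θ) (g_per θ) τ hτ
  refine ⟨n, p0, p, ?_, ?_⟩
  · have h2 := int_all θ hθ hπ
    have h3 := abs_le.1 hb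
    have h4 : θ / (2 * Real.pi) ≤ 1 / (2 * Real.pi) * ∫ x in (0 : ℝ)..(2 * Real.pi), g θ x := by
      rw [div_eq_mul_one_div, mul_comm]
      exact mul_le_mul_of_nonneg_left h2 (by positivity)
    linarith [h3.1]
  · intro z hz
    have hx : Complex.exp (Complex.I * (Complex.arg z : ℝ)) = z := by
      have h := Complex.norm_mul_exp_arg_mul_I z
      rw [hz] at h
      simpa [mul_comm] using h
    have hre : z.re = Real.cos (Complex.arg z) := by
      have h := Complex.norm_mul_cos_arg z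
      rw [hz, one_mul] at h
      exact h.symm
    have h5 := ha (Complex.arg z)
    rw [hx] at h5
    have h6 := abs_le.1 h5
    refine ⟨?_, ?_⟩
    · linarith [g_nonneg θ (Complex.arg z), h6.2]
    · split_ifs with hc
      · linarith [g_le_one θ (Complex.arg z) hθ, h6.1]
      · rw [hre] at hc
        have h7 := g_zero θ (Complex.arg z) hθ hπ (not_lt.1 hc)
        rw [h7] at h6
        linarith [h6.1]

end Pool.Agent.Work.MP_56b8f5_nt.WA
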