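import Pool.Agent.Work.MP_56b8f5_nt.WA.StmtsB

/-!
MP_56b8f5_nt, block WB, item KerU (helper92): the upper kernel (trapezoid in the double angle).
-/

set_option autoImplicit false

open MeasureTheory Set Filter Topology

noncomputable section

namespace Pool.Agent.Work.MP_56b8f5_nt.WA

namespace I_KerU

/-- The trapezoid as a function of the angle in `[0, π]`. -/
def H (θ y : ℝ) : ℝ := min 1 (max 0 (2 - y / (2 * θ)))

/-- The periodic trapezoid. -/
def h (θ y : ℝ) : ℝ := H θ (Real.arccos (Real.cos y))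

theorem H_cont (θ : ℝ) : Continuous (H θ) := by
  unfold H
  exact continuous_const.min
    (continuous_const.max (continuous_const.sub (continuous_id.div_const (2 * θ))))

theorem h_cont (θ : ℝ) : Continuous (h θ) :=
  (H_cont θ).comp (Real.continuous_arccos.comp Real.continuous_cos)

theorem h_per (θ x : ℝ) : h θ (x + 2 * Real.pi) = h θ x := by
  unfold h
  rw [Real.cos_add_two_pi]

theorem H_nonneg (θ x : ℝ) : 0 ≤ H θ x := le_min zero_le_one (le_max_left _ _)

theorem h_symm (θ x : ℝ) : h θ (2 * Real.pi - x) = h θ x := by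
  unfold h
  rw [Real.cos_two_pi_sub]

theorem H_one (θ y : ℝ) (hθ : 0 < θ) (hy : y ≤ 2 * θ) : H θ y = 1 := by
  unfold H
  have h2 : y / (2 * θ) ≤ 1 := by
    rw [div_le_one (by linarith)]; exact hy
  exact min_eq_left (le_max_of_le_right (by linarith))

theorem H_mid (θ y : ℝ) (hθ : 0 < θ) (h1 : 2 * θ ≤ y) (h2 : y ≤ 4 * θ) :
    H θ y = 2 - y / (2 * θ) := by
  unfold H
  have h3 : 1 ≤ y / (2 * θ) := by
    rw [le_div_iff₀ (by linarith)]; linarith
  have h4 : y / (2 * θ) ≤ 2 := by
    rw [div_le_iff₀ (by linarith)]; linarith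
  rw [max_eq_right (by linarith), min_eq_right (by linarith)]

theorem H_zero (θ y : ℝ) (hθ : 0 < θ) (h1 : 4 * θ ≤ y) : H θ y = 0 := by
  unfold H
  have h3 : 2 ≤ y / (2 * θ) := by
    rw [le_div_iff₀ (by linarith)]; linarith
  rw [max_eq_left (by linarith), min_eq_right zero_le_one]

theorem int_H (θ : ℝ) (hθ : 0 < θ) : ∫ y in (0 : ℝ)..Real.pi, H θ y ≤ 3 * θ := by
  have i : ∀ a b : ℝ, IntervalIntegrable (H θ) volume a b := fun a b =>
    (H_cont θ).intervalIntegrable a b
  have e1 : ∫ y in (0 : ℝ)..(2 * θ), H θ y = 2 * θ := by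
    have : ∫ y in (0 : ℝ)..(2 * θ), H θ y = ∫ y in (0 : ℝ)..(2 * θ), (1 : ℝ) := by
      refine intervalIntegral.integral_congr ?_
      intro x hx
      rw [uIcc_of_le (by linarith)] at hx
      exact H_one θ x hθ hx.2
    rw [this]; simp
  have e2 : ∫ y in (2 * θ)..(4 * θ), H θ y = θ := by
    have : ∫ y in (2 * θ)..(4 * θ), H θ y = ∫ y in (2 * θ)..(4 * θ), (2 - y / (2 * θ)) := by
      refine intervalIntegral.integral_congr ?_
      intro x hx
      rw [uIcc_of_le (by linarith)] at hx
      exact H_mid θ x hθ hx.1 hx.2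
    have c1 : IntervalIntegrable (fun _ : ℝ => (2 : ℝ)) volume (2 * θ) (4 * θ) :=
      continuous_const.intervalIntegrable _ _
    have c2 : IntervalIntegrable (fun y : ℝ => y / (2 * θ)) volume (2 * θ) (4 * θ) :=
      (continuous_id.div_const (2 * θ)).intervalIntegrable _ _
    rw [this, intervalIntegral.integral_sub c1 c2, intervalIntegral.integral_div,
      integral_id, intervalIntegral.integral_const, smul_eq_mul]
    field_simp
    ring
  have e3 : ∫ y in (4 * θ)..(max Real.pi (4 * θ)), H θ y = 0 := by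
    have : ∫ y in (4 * θ)..(max Real.pi (4 * θ)), H θ y =
        ∫ y in (4 * θ)..(max Real.pi (4 * θ)), (0 : ℝ) := by
      refine intervalIntegral.integral_congr ?_
      intro x hx
      rw [uIcc_of_le (le_max_right _ _)] at hx
      exact H_zero θ x hθ hx.1
    rw [this]; simp
  have e4 : ∫ y in (0 : ℝ)..(max Real.pi (4 * θ)), H θ y = 3 * θ := by
    rw [← intervalIntegral.integral_add_adjacent_intervals (i 0 (2 * θ))
      (i (2 * θ) (max Real.pi (4 * θ))),
      ← intervalIntegral.integral_add_adjacent_intervals (i (2 * θ) (4 * θ))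
      (i (4 * θ) (max Real.pi (4 * θ))), e1, e2, e3]
    ring
  rw [← e4]
  refine intervalIntegral.integral_mono_interval le_rfl Real.pi_pos.le (le_max_left _ _) ?_
    (i _ _)
  exact Eventually.of_forall (fun x => H_nonneg θ x)

theorem int_h (θ : ℝ) (hθ : 0 < θ) : ∫ y in (0 : ℝ)..(2 * Real.pi), h θ y ≤ 6 * θ := by
  have i : ∀ a b : ℝ, IntervalIntegrable (h θ) volume a b := fun a b =>
    (h_cont θ).intervalIntegrable a b
  have e1 : ∫ y in (0 : ℝ)..Real.pi, h θ y = ∫ y in (0 : ℝ)..Real.pi, H θ y := by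
    refine intervalIntegral.integral_congr ?_
    intro x hx
    rw [uIcc_of_le Real.pi_pos.le] at hx
    unfold h
    rw [Real.arccos_cos hx.1 hx.2]
  have e2 : ∫ y in Real.pi..(2 * Real.pi), h θ y = ∫ y in (0 : ℝ)..Real.pi, h θ y := by
    have h1 := intervalIntegral.integral_comp_sub_left (a := Real.pi) (b := 2 * Real.pi)
      (h θ) (2 * Real.pi)
    have h2 : ∫ x in Real.pi..(2 * Real.pi), h θ x =
        ∫ x in Real.pi..(2 * Real.pi), h θ (2 * Real.pi - x) := by
      refine intervalIntegral.integral_congr ?_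
      intro x _
      exact (h_symm θ x).symm
    rw [h2, h1]
    have e1 : 2 * Real.pi - 2 * Real.pi = 0 := by ring
    have e2 : 2 * Real.pi - Real.pi = Real.pi := by ring
    rw [e1, e2]
  rw [← intervalIntegral.integral_add_adjacent_intervals (i 0 Real.pi)
    (i Real.pi (2 * Real.pi)), e2, e1]
  linarith [int_H θ hθ]

theorem arc2 (x : ℝ) : Real.arccos (Real.cos (2 * x)) ≤ 2 * Real.arccos (Real.cos x) := by
  set a := Real.arccos (Real.cos x) with ha
  have h0 : 0 ≤ a := Real.arccos_nonneg _
  have h1 : Real.cos a = Real.cos x :=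
    Real.cos_arccos (Real.neg_one_le_cos x) (Real.cos_le_one x)
  have h2 : Real.cos (2 * x) = Real.cos (2 * a) := by
    rw [Real.cos_two_mul, Real.cos_two_mul, h1]
  rw [h2]
  rcases le_total (2 * a) Real.pi with h3 | h3
  · rw [Real.arccos_cos (by linarith) h3]
  · exact (Real.arccos_le_pi _).trans h3

end I_KerU

open I_KerU in
theorem KerU_pf (h1 : S_SWr) : S_KerU := by
  intro θ τ hθ hπ hτ
  obtain ⟨n, p0, p, ha, hb⟩ := h1 (h θ) (h_cont θ) (h_per θ) τ hτ
  refine ⟨n, p0, p, ?_, ?_⟩
  · have h2 := int_h θ hθ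
    have h3 := abs_le.1 hb
    have h4 : 1 / (2 * Real.pi) * ∫ x in (0 : ℝ)..(2 * Real.pi), h θ x ≤ θ := by
      have h5 : 1 / (2 * Real.pi) * ∫ x in (0 : ℝ)..(2 * Real.pi), h θ x ≤
          1 / (2 * Real.pi) * (6 * θ) := mul_le_mul_of_nonneg_left h2 (by positivity)
      refine h5.trans ?_
      rw [one_div, inv_mul_le_iff₀ (by positivity)]
      nlinarith [Real.pi_gt_three]
    linarith [h3.2]
  · intro z hz
    have hx : Complex.exp (Complex.I * (Complex.arg z : ℝ)) = z := by
      have h := Complex.norm_mul_exp_arg_mul_I z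
      rw [hz] at h
      simpa [mul_comm] using h
    have hre : z.re = Real.cos (Complex.arg z) := by
      have h := Complex.norm_mul_cos_arg z
      rw [hz, one_mul] at h
      exact h.symm
    have hx2 : Complex.exp (Complex.I * ((2 * Complex.arg z : ℝ) : ℂ)) = z ^ 2 := by
      rw [← hx, ← Complex.exp_nat_mul]
      congr 1
      push_cast
      rw [hx]
      ring
    have h5 := abs_le.1 (ha (Complex.arg z))
    rw [hx] at h5
    have h6 := abs_le.1 (ha (2 * Complex.arg z))
    rw [hx2] at h6
    have hn : ∀ y, 0 ≤ h θ y := fun y => H_nonneg θ _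
    refine ⟨?_, ?_⟩
    · linarith [hn (Complex.arg z), h5.2]
    · split_ifs with hc
      · rw [hre] at hc
        have h7 : Real.arccos (Real.cos (Complex.arg z)) ≤ θ := by
          have h8 := Real.arccos_le_arccos hc.le
          rwa [Real.arccos_cos hθ.le hπ] at h8
        have h9 : h θ (2 * Complex.arg z) = 1 := by
          unfold h
          exact H_one θ _ hθ ((arc2 _).trans (by linarith))
        rw [h9] at h6
        linarith [h6.2]
      · linarith [hn (2 * Complex.arg z), h6.2]

end Pool.Agent.Work.MP_56b8f5_nt.WA
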