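import Pool.Agent.Work.MP_56b8f5_nt.WA.StmtsB
import Pool.Agent.Work.MP_56b8f5_nt.WA.I_MainA

/-!
MP_56b8f5_nt, block WB, item R5 (MainB): the final theorem, parameters at the scale `4T`, `t = 4T u`.
-/

set_option autoImplicit false

open MeasureTheory Set Filter Topology

noncomputable section

namespace Pool.Agent.Work.MP_56b8f5_nt.WA

open Pool.Agent.Work.MP_56b8f5_nt.EM
open Pool.Agent.Work.MP_56b8f5_nt.WM

namespace I_MainB

/-- the length -/
lemma pow6 {k : ℕ} {C T : ℝ} {q y z : ℕ} (hk : 2 ≤ k) (hp : IsPa k C T q y z) :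
    ((y ^ q * z ^ 2 : ℕ) : ℝ) ^ 6 ≤ T := by
  refine le_trans ?_ hp.hlen2
  have hy : 1 ≤ y := le_trans (by norm_num) hp.hy
  have hz : 1 ≤ z := le_trans hy hp.hyz
  have h1 : (y ^ q * z ^ 2) ^ 6 ≤ (y ^ (q * k + 1) * z ^ (2 * (k + 1))) ^ 3 := by
    have e1 : (y ^ q * z ^ 2) ^ 6 = y ^ (q * 6) * z ^ 12 := by
      rw [mul_pow, ← pow_mul, ← pow_mul]
    have e2 : (y ^ (q * k + 1) * z ^ (2 * (k + 1))) ^ 3 =
        y ^ ((q * k + 1) * 3) * z ^ (2 * (k + 1) * 3) := by
      rw [mul_pow, ← pow_mul, ← pow_mul]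
    rw [e1, e2]
    refine Nat.mul_le_mul (Nat.pow_le_pow_right hy ?_) (Nat.pow_le_pow_right hz (by omega))
    nlinarith [Nat.mul_le_mul_left q hk]
  exact_mod_cast h1

/-- the length, final form -/
lemma len6 {N : ℕ} {T : ℝ} (hT : 65536 ≤ T) (h : ((N : ℕ) : ℝ) ^ 6 ≤ 4 * T) :
    (N : ℝ) ≤ T ^ (1 / 5 : ℝ) := by
  have hT0 : (0 : ℝ) < T := by linarith
  set s : ℝ := T ^ (1 / 5 : ℝ) with hs
  have hs0 : 0 ≤ s := Real.rpow_nonneg hT0.le _
  have hs5 : s ^ 5 = T := by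
    rw [hs, ← Real.rpow_natCast, ← Real.rpow_mul hT0.le]
    norm_num
  by_contra hc
  push Not at hc
  have h4 : 4 ≤ s := by
    by_contra h4
    push Not at h4
    have : s ^ 5 < 4 ^ 5 := pow_lt_pow_left₀ h4 hs0 (by norm_num)
    rw [hs5] at this
    norm_num at this
    linarith
  have h5 : s ^ 6 < (N : ℝ) ^ 6 := pow_lt_pow_left₀ hc hs0 (by norm_num)
  have h6 : s ^ 6 = T * s := by rw [pow_succ, hs5]
  nlinarith

/-- the coefficients are at most one -/
lemma coef (h3 : S_CCp) (h5 : S_PeBas) {q y z : ℕ} (hq : 1 ≤ q) (hyz : y ≤ z) (n : ℕ) :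
    0 ≤ CC q y z q 2 n ∧ CC q y z q 2 n ≤ 1 := by
  obtain ⟨h1, -, -, -⟩ := h3 q y z q 2 hq hyz
  refine ⟨(h1 n).1, (h1 n).2.trans ?_⟩
  have hq0 : (0 : ℝ) < q := by exact_mod_cast hq
  have hab0 : ∀ p, 0 ≤ ab q y z q 2 p := by
    intro p
    unfold ab
    split_ifs
    · positivity
    · positivity
    · exact le_rfl
  have hab1 : ∀ p, ab q y z q 2 p ≤ 1 := by
    intro p
    unfold ab
    split_ifs
    · rw [div_self hq0.ne']
    · norm_num
    · norm_num
  obtain ⟨-, -, -, -, -, -, -, -, h6, -⟩ := h5 (ab q y z q 2) hab0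
  exact h6 n fun p _ _ => hab1 p

/-- the absolute value of the polynomial -/
lemma nrm (h3 : S_CCp) {q y z : ℕ} (hq : 1 ≤ q) (hyz : y ≤ z) (t : ℝ) :
    ‖DP (CC q y z q 2) (y ^ q * z ^ 2) t‖ = aM q y t ^ q * aH y z t := by
  obtain ⟨-, -, -, h1⟩ := h3 q y z q 2 hq hyz
  rw [h1 (y ^ q * z ^ 2) le_rfl t]
  unfold MH aM aH
  rw [norm_mul, norm_pow, norm_pow]

lemma meas_sec (c : ℝ) (ω : ℂ) :
    MeasurableSet {t : ℝ | c * az t < ((starRingEnd ℂ) ω * zt t).re} := by
  refine measurableSet_lt ?_ ?_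
  · exact (I_Sca.cont_az.const_mul c : Continuous fun t => c * az t).measurable
  · have h : Continuous fun t : ℝ => ((starRingEnd ℂ) ω * zt t).re :=
      Complex.continuous_re.comp (I_MainA.cont_zt.const_mul _)
    exact h.measurable

lemma meas_dp (A : ℝ) (a : ℕ → ℝ) (X : ℕ) : MeasurableSet {t : ℝ | az t ≤ A * ‖DP a X t‖} :=
  measurableSet_le I_Sca.cont_az.measurable
    ((I_Sca.cont_DP a X).norm.measurable.const_mul A)

lemma meas_win (k : ℕ) (C L : ℝ) : MeasurableSet {t : ℝ | |Real.log (az t) - k * L| ≤ C} := by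
  have h7 : Measurable fun t : ℝ => Real.log (az t) :=
    Real.measurable_log.comp I_Sca.cont_az.measurable
  have h8 : Measurable fun t : ℝ => |Real.log (az t) - k * L| :=
    continuous_abs.measurable.comp (h7.sub_const _)
  exact measurableSet_le h8 measurable_const

end I_MainB

open I_MainB in
/-- **R5 (MainB).** -/
theorem MainB_pf (h1 : S_ParA) (h3 : S_CCp) (h5 : S_PeBas) (h2 : S_WinAu) (h6 : S_UpAu)
    (h4 : S_Wts) : S_MainB := by
  classical
  intro k hk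
  obtain ⟨w₁, w₂, hw1, hw2, hW0, hs1, hs2⟩ := h4
  obtain ⟨C₁, hC₁, hpar⟩ := h1 k (by omega)
  obtain ⟨c₂, C₂, hc₂, hC₂, hWin⟩ := h2 w₁ hw1 hW0 k C₁ hk hC₁
  obtain ⟨C₃, hC₃, hUp⟩ := h6 w₂ hw2 k C₁ hk hC₁
  have hp2 : (1 : ℝ) ≤ 2 ^ (k ^ 2) := one_le_pow₀ (by norm_num)
  have hk0 : (0 : ℝ) ≤ k := Nat.cast_nonneg k
  have hCC : 0 ≤ 4 * 2 ^ (k ^ 2) * C₃ := by positivity
  have h4T : Tendsto (fun T : ℝ => 4 * T) atTop atTop :=
    tendsto_id.const_mul_atTop (by norm_num)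
  -- the choice of the parameters
  have hch : ∃ pq : ℝ → ℕ × ℕ × ℕ, ∀ᶠ T : ℝ in atTop,
      IsPa k C₁ (4 * T) (pq T).1 (pq T).2.1 (pq T).2.2 := by
    refine ⟨fun T => if h : ∃ p : ℕ × ℕ × ℕ, IsPa k C₁ (4 * T) p.1 p.2.1 p.2.2 then
      Classical.choose h else (0, 0, 0), ?_⟩
    filter_upwards [h4T.eventually hpar] with T hpT
    obtain ⟨q, y, z, hp⟩ := hpT
    have h : ∃ p : ℕ × ℕ × ℕ, IsPa k C₁ (4 * T) p.1 p.2.1 p.2.2 := ⟨(q, y, z), hp⟩
    rw [dif_pos h]
    exact Classical.choose_spec h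
  obtain ⟨pq, hpq⟩ := hch
  set C : ℝ := 2 * C₂ + k + 4 * 2 ^ (k ^ 2) * C₃ with hCd
  have hC1 : 1 ≤ C := by linarith
  refine ⟨c₂, C, fun T => (pq T).2.1 ^ (pq T).1 * (pq T).2.2 ^ 2,
    fun T => CC (pq T).1 (pq T).2.1 (pq T).2.2 (pq T).1 2, hc₂, hC1, ?_⟩
  intro θ hθ hθπ
  obtain ⟨T₂, hWin⟩ := hWin θ hθ hθπ
  obtain ⟨T₃, hUp⟩ := hUp θ hθ hθπ
  filter_upwards [hpq, eventually_ge_atTop (65536 : ℝ), eventually_ge_atTop T₂,
    eventually_ge_atTop T₃] with T hp hT hT2 hT3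
  set q : ℕ := (pq T).1 with hqd
  set y : ℕ := (pq T).2.1 with hyd
  set z : ℕ := (pq T).2.2 with hzd
  have hT0 : (0 : ℝ) < T := by linarith
  have h4T0 : (0 : ℝ) < 4 * T := by linarith
  obtain ⟨l1, l2, l3, l4, l5⟩ := I_Sca.logs hT
  have hlog : 0 < Real.log T := Real.log_pos (by linarith : 1 < T)
  have hDP : ∀ t : ℝ, ‖DP (CC q y z q 2) (y ^ q * z ^ 2) t‖ = aM q y t ^ q * aH y z t :=
    nrm h3 hp.hq hp.hyz
  have cφ : Continuous fun u : ℝ => az (4 * T * u) := I_Sca.cont_az.comp (by fun_prop)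
  refine ⟨len6 hT (pow6 hk hp), coef h3 h5 hp.hq hp.hyz, ?_⟩
  intro ω hω
  constructor
  · -- lower bound
    have hW := hWin (4 * T) (by linarith) q y z hp ω hω
    have hSm : MeasurableSet {t | t ∈ Icc T (2 * T) ∧
        Real.cos θ * az t < ((starRingEnd ℂ) ω * zt t).re ∧
        az t ≤ C * ‖DP (CC q y z q 2) (y ^ q * z ^ 2) t‖ ∧
        |Real.log (az t) - k * Real.log (Real.log T)| ≤
          C * Real.sqrt (Real.log (Real.log T))} :=
      measurableSet_Icc.inter ((meas_sec _ ω).inter ((meas_dp C _ _).inter (meas_win k _ _)))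
    rw [I_Sca.cov h4T0 hSm]
    set V : Set ℝ := {u | 4 * T * u ∈ {t | t ∈ Icc T (2 * T) ∧
        Real.cos θ * az t < ((starRingEnd ℂ) ω * zt t).re ∧
        az t ≤ C * ‖DP (CC q y z q 2) (y ^ q * z ^ 2) t‖ ∧
        |Real.log (az t) - k * Real.log (Real.log T)| ≤
          C * Real.sqrt (Real.log (Real.log T))}} with hVd
    have hVI : V ⊆ Icc (0 : ℝ) 1 := by
      intro u hu
      have h5 : T ≤ 4 * T * u := hu.1.1
      have h6 : 4 * T * u ≤ 2 * T := hu.1.2
      refine ⟨?_, ?_⟩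
      · by_contra hc
        push Not at hc
        nlinarith
      · by_contra hc
        push Not at hc
        nlinarith
    have hint : IntegrableOn (fun u => az (4 * T * u) ^ (2 * k)) V :=
      ((cφ.pow (2 * k)).integrableOn_Icc (a := 0) (b := 1)).mono_set hVI
    have hsub : ({u | w₁ u ≠ 0} ∩ sec θ ω (fun u => zt (4 * T * u))) ∩
        {u | az (4 * T * u) ≤ C₂ * (aM q y (4 * T * u) ^ q * aH y z (4 * T * u)) ∧
          |Real.log (az (4 * T * u)) - k * Real.log (Real.log (4 * T))| ≤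
            C₂ * Real.sqrt (Real.log (Real.log (4 * T)))} ⊆ V := by
      rintro u ⟨⟨hu, hu1⟩, hu3, hu2⟩
      obtain ⟨h5, h6⟩ := hs1 u hu
      refine ⟨⟨by nlinarith, by nlinarith⟩, hu1, ?_, ?_⟩
      · rw [hDP]
        refine hu3.trans (mul_le_mul_of_nonneg_right ?_ ?_)
        · rw [hCd]
          linarith
        · exact mul_nonneg (pow_nonneg (norm_nonneg _) _) (pow_nonneg (norm_nonneg _) _)
      · set s : ℝ := Real.sqrt (Real.log (Real.log T)) with hs
        have hs1' : 1 ≤ s := by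
          rw [hs]
          exact Real.one_le_sqrt.2 l1
        have hs2' : Real.sqrt (Real.log (Real.log (4 * T))) ≤ 2 * s := by
          rw [Real.sqrt_le_left (by linarith), mul_pow, hs, Real.sq_sqrt (by linarith)]
          linarith
        have h8 : |Real.log (az (4 * T * u)) - k * Real.log (Real.log (4 * T))| ≤ C₂ * (2 * s) :=
          le_trans hu2 (mul_le_mul_of_nonneg_left hs2' (by linarith))
        have h9 : (k : ℝ) * Real.log (Real.log T) ≤ k * Real.log (Real.log (4 * T)) :=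
          mul_le_mul_of_nonneg_left l4 hk0
        have h10 : (k : ℝ) * Real.log (Real.log (4 * T)) ≤
            k * Real.log (Real.log T) + k * s := by
          nlinarith [mul_le_mul_of_nonneg_left l5 hk0, mul_le_mul_of_nonneg_left hs1' hk0]
        have h11 : 0 ≤ 4 * 2 ^ (k ^ 2) * C₃ * s := mul_nonneg hCC (by linarith)
        have h12 : C * s = C₂ * (2 * s) + k * s + 4 * 2 ^ (k ^ 2) * C₃ * s := by
          rw [hCd]
          ring
        have h13 : 0 ≤ (k : ℝ) * s := mul_nonneg hk0 (by linarith)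
        rw [abs_le] at h8 ⊢
        rw [h12]
        constructor
        · linarith [h8.1]
        · linarith [h8.2]
    have e1 : ∫ u in ({u | w₁ u ≠ 0} ∩ sec θ ω (fun u => zt (4 * T * u))) ∩
        {u | az (4 * T * u) ≤ C₂ * (aM q y (4 * T * u) ^ q * aH y z (4 * T * u)) ∧
          |Real.log (az (4 * T * u)) - k * Real.log (Real.log (4 * T))| ≤
            C₂ * Real.sqrt (Real.log (Real.log (4 * T)))}, az (4 * T * u) ^ (2 * k) ≤
        ∫ u in V, az (4 * T * u) ^ (2 * k) :=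
      setIntegral_mono_set hint (ae_of_all _ fun x => pow_nonneg (norm_nonneg _) _)
        (LE.le.eventuallyLE hsub)
    have e2 : Real.log T ^ (k ^ 2) ≤ Real.log (4 * T) ^ (k ^ 2) :=
      pow_le_pow_left₀ hlog.le l2 _
    have e3 : c₂ * θ * Real.log T ^ (k ^ 2) ≤ ∫ u in V, az (4 * T * u) ^ (2 * k) :=
      (mul_le_mul_of_nonneg_left e2 (by positivity)).trans (hW.trans e1)
    have e4 : 0 ≤ c₂ * θ * Real.log T ^ (k ^ 2) := by positivity
    calc c₂ * θ * T * Real.log T ^ (k ^ 2) = T * (c₂ * θ * Real.log T ^ (k ^ 2)) := by ring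
      _ ≤ 4 * T * (c₂ * θ * Real.log T ^ (k ^ 2)) := by nlinarith
      _ ≤ 4 * T * ∫ u in V, az (4 * T * u) ^ (2 * k) := mul_le_mul_of_nonneg_left e3 h4T0.le
  · -- upper bound
    intro A hA
    have hU := hUp (4 * T) (by linarith) q y z hp ω hω A hA
    have hSm : MeasurableSet {t | t ∈ Icc T (2 * T) ∧
        Real.cos θ * az t < ((starRingEnd ℂ) ω * zt t).re ∧
        az t ≤ A * ‖DP (CC q y z q 2) (y ^ q * z ^ 2) t‖} :=
      measurableSet_Icc.inter ((meas_sec _ ω).inter (meas_dp A _ _))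
    rw [I_Sca.cov h4T0 hSm]
    set U' : Set ℝ := sec θ ω (fun u => zt (4 * T * u)) ∩
      {u | az (4 * T * u) ≤ A * (aM q y (4 * T * u) ^ q * aH y z (4 * T * u))} with hUd
    set V : Set ℝ := {u | 4 * T * u ∈ {t | t ∈ Icc T (2 * T) ∧
        Real.cos θ * az t < ((starRingEnd ℂ) ω * zt t).re ∧
        az t ≤ A * ‖DP (CC q y z q 2) (y ^ q * z ^ 2) t‖}} with hVd
    have hVm : MeasurableSet V := (measurable_const_mul (4 * T)) hSm
    have hVU : V ⊆ U' := by
      intro u hu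
      refine ⟨hu.2.1, ?_⟩
      have h7 := hu.2.2
      rw [hDP] at h7
      exact h7
    have hV1 : ∀ u ∈ V, w₂ u = 1 := by
      intro u hu
      have h5 : T ≤ 4 * T * u := hu.1.1
      have h6 : 4 * T * u ≤ 2 * T := hu.1.2
      apply hs2
      · by_contra hc
        push Not at hc
        nlinarith
      · by_contra hc
        push Not at hc
        nlinarith
    have hint : Integrable fun u => w₂ u * az (4 * T * u) ^ (2 * k) := by
      have h7 : Continuous fun u => w₂ u * az (4 * T * u) ^ (2 * k) :=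
        hw2.smooth.continuous.mul (cφ.pow _)
      rw [← integrableOn_iff_integrable_of_support_subset (s := Icc (0 : ℝ) 1)]
      · exact h7.integrableOn_Icc
      · intro u hu
        obtain ⟨c, hc, h⟩ := hw2.supp
        have hu' : w₂ u ≠ 0 := by
          intro h0
          apply hu
          simp [h0]
        exact ⟨hc.le.trans (h u hu').1, (h u hu').2⟩
    have e1 : ∫ u in V, az (4 * T * u) ^ (2 * k) =
        ∫ u in V, w₂ u * az (4 * T * u) ^ (2 * k) := by
      refine setIntegral_congr_fun hVm fun u hu => ?_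
      simp only [hV1 u hu, one_mul]
    have e2 : ∫ u in V, w₂ u * az (4 * T * u) ^ (2 * k) ≤
        ∫ u in U', w₂ u * az (4 * T * u) ^ (2 * k) := by
      refine setIntegral_mono_set hint.integrableOn
        (ae_of_all _ fun x => mul_nonneg (hw2.nonneg x) (pow_nonneg (norm_nonneg _) _))
        (LE.le.eventuallyLE hVU)
    have e3 : ∫ u in V, az (4 * T * u) ^ (2 * k) ≤
        C₃ * A ^ (2 * k - 2) * θ * Real.log (4 * T) ^ (k ^ 2) := by
      rw [e1]
      exact e2.trans hU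
    have e4 : Real.log (4 * T) ^ (k ^ 2) ≤ 2 ^ (k ^ 2) * Real.log T ^ (k ^ 2) := by
      rw [← mul_pow]
      exact pow_le_pow_left₀ (by linarith) l3 _
    have hA0 : 0 ≤ A ^ (2 * k - 2) := pow_nonneg (by linarith) _
    calc 4 * T * ∫ u in V, az (4 * T * u) ^ (2 * k)
        ≤ 4 * T * (C₃ * A ^ (2 * k - 2) * θ * Real.log (4 * T) ^ (k ^ 2)) :=
          mul_le_mul_of_nonneg_left e3 h4T0.le
      _ ≤ 4 * T * (C₃ * A ^ (2 * k - 2) * θ * (2 ^ (k ^ 2) * Real.log T ^ (k ^ 2))) := by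
          refine mul_le_mul_of_nonneg_left ?_ h4T0.le
          exact mul_le_mul_of_nonneg_left e4 (by positivity)
      _ = (4 * 2 ^ (k ^ 2) * C₃) * (A ^ (2 * k - 2) * θ * T * Real.log T ^ (k ^ 2)) := by ring
      _ ≤ C * (A ^ (2 * k - 2) * θ * T * Real.log T ^ (k ^ 2)) := by
          refine mul_le_mul_of_nonneg_right (by linarith) ?_
          positivity
      _ = C * A ^ (2 * k - 2) * θ * T * Real.log T ^ (k ^ 2) := by ring

end Pool.Agent.Work.MP_56b8f5_nt.WA
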