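import Pool.Agent.Work.MP_56b8f5_nt.WA.StmtsB

/-!
MP_56b8f5_nt, block WB, item NS3: oscillatory integral without stationary point, three integrations by parts.
-/

set_option autoImplicit false

open MeasureTheory Set Filter Topology

noncomputable section

namespace Pool.Agent.Work.MP_56b8f5_nt.WA

open Pool.Agent.Work.MP_56b8f5_nt.EM
open Pool.Agent.Work.MP_56b8f5_nt.WM

namespace I_NS3

theorem zero_left {f : ℝ → ℝ} (hf : Continuous f) {c : ℝ} (h : ∀ u, u < c → f u = 0) :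
    f c = 0 := by
  have h1 : closure (Iio c) ⊆ {u | f u = 0} :=
    closure_minimal (fun u hu => h u hu) (isClosed_eq hf continuous_const)
  rw [closure_Iio] at h1
  exact h1 self_mem_Iic

theorem zero_right {f : ℝ → ℝ} (hf : Continuous f) {c : ℝ} (h : ∀ u, c < u → f u = 0) :
    f c = 0 := by
  have h1 : closure (Ioi c) ⊆ {u | f u = 0} :=
    closure_minimal (fun u hu => h u hu) (isClosed_eq hf continuous_const)
  rw [closure_Ioi] at h1
  exact h1 self_mem_Ici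

theorem deriv_left {f : ℝ → ℝ} {c : ℝ} (h : ∀ u, u < c → f u = 0) :
    ∀ u, u < c → deriv f u = 0 := by
  intro u hu
  have h1 : f =ᶠ[𝓝 u] fun _ => 0 := by
    filter_upwards [Iio_mem_nhds hu] with v hv
    exact h v hv
  rw [h1.deriv_eq, deriv_const]

theorem deriv_right {f : ℝ → ℝ} {c : ℝ} (h : ∀ u, c < u → f u = 0) :
    ∀ u, c < u → deriv f u = 0 := by
  intro u hu
  have h1 : f =ᶠ[𝓝 u] fun _ => 0 := by
    filter_upwards [Ioi_mem_nhds hu] with v hv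
    exact h v hv
  rw [h1.deriv_eq, deriv_const]

/-- the first coefficient after one integration by parts -/
def a1 (w D D1 : ℝ → ℝ) (u : ℝ) : ℝ := deriv w u / D u - w u * D1 u / D u ^ 2

/-- the coefficient of the second integration by parts -/
def b0 (w D D1 : ℝ → ℝ) (u : ℝ) : ℝ := deriv w u / D u ^ 2 - w u * D1 u / D u ^ 3

/-- its derivative -/
def b1 (w D D1 D2 : ℝ → ℝ) (u : ℝ) : ℝ :=
  deriv (deriv w) u / D u ^ 2 - 3 * (deriv w u * D1 u / D u ^ 3) - w u * D2 u / D u ^ 3 +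
    3 * (w u * D1 u ^ 2 / D u ^ 4)

theorem hasDeriv_a (w D D1 : ℝ → ℝ) (u : ℝ) (hw : HasDerivAt w (deriv w u) u)
    (hD : HasDerivAt D (D1 u) u) (h0 : D u ≠ 0) :
    HasDerivAt (fun v => w v / D v) (a1 w D D1 u) u := by
  refine (hw.div hD h0).congr_deriv ?_
  unfold a1
  field_simp

theorem hasDeriv_b (w D D1 D2 : ℝ → ℝ) (u : ℝ) (hw : HasDerivAt w (deriv w u) u)
    (hw' : HasDerivAt (deriv w) (deriv (deriv w) u) u)
    (hD : HasDerivAt D (D1 u) u) (hD1 : HasDerivAt D1 (D2 u) u) (h0 : D u ≠ 0) :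
    HasDerivAt (b0 w D D1) (b1 w D D1 D2 u) u := by
  have h1 := (hw'.div (hD.pow 2) (pow_ne_zero 2 h0)).sub
    ((hw.mul hD1).div (hD.pow 3) (pow_ne_zero 3 h0))
  refine h1.congr_deriv ?_
  simp only [Pi.pow_apply, Pi.mul_apply]
  unfold b1
  field_simp
  ring

/-- the coefficient of the third integration by parts -/
def c0 (w D D1 D2 : ℝ → ℝ) (u : ℝ) : ℝ :=
  deriv (deriv w) u / D u ^ 3 - 3 * (deriv w u * D1 u / D u ^ 4) - w u * D2 u / D u ^ 4 +
    3 * (w u * D1 u ^ 2 / D u ^ 5)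

/-- its derivative -/
def c1 (w D D1 D2 D3 : ℝ → ℝ) (u : ℝ) : ℝ :=
  deriv (deriv (deriv w)) u / D u ^ 3 - 6 * (deriv (deriv w) u * D1 u / D u ^ 4) -
    4 * (deriv w u * D2 u / D u ^ 4) - w u * D3 u / D u ^ 4 +
    15 * (deriv w u * D1 u ^ 2 / D u ^ 5) + 10 * (w u * (D1 u * D2 u) / D u ^ 5) -
    15 * (w u * D1 u ^ 3 / D u ^ 6)

theorem hasDeriv_c (w D D1 D2 D3 : ℝ → ℝ) (u : ℝ) (hw : HasDerivAt w (deriv w u) u)
    (hw' : HasDerivAt (deriv w) (deriv (deriv w) u) u)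
    (hw'' : HasDerivAt (deriv (deriv w)) (deriv (deriv (deriv w)) u) u)
    (hD : HasDerivAt D (D1 u) u) (hD1 : HasDerivAt D1 (D2 u) u) (hD2 : HasDerivAt D2 (D3 u) u)
    (h0 : D u ≠ 0) :
    HasDerivAt (c0 w D D1 D2) (c1 w D D1 D2 D3 u) u := by
  have h1 := (((hw''.div (hD.pow 3) (pow_ne_zero 3 h0)).sub
    (((hw'.mul hD1).div (hD.pow 4) (pow_ne_zero 4 h0)).const_mul 3)).sub
    ((hw.mul hD2).div (hD.pow 4) (pow_ne_zero 4 h0))).add
    (((hw.mul (hD1.pow 2)).div (hD.pow 5) (pow_ne_zero 5 h0)).const_mul 3)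
  refine h1.congr_deriv ?_
  simp only [Pi.pow_apply, Pi.mul_apply]
  unfold c1
  field_simp
  ring

theorem c1_bound (w D D1 D2 D3 : ℝ → ℝ) (u C₁ K₁ K₂ K₃ : ℝ) (h1 : |w u| ≤ 1)
    (h2 : |deriv w u| ≤ K₁) (h3 : |deriv (deriv w) u| ≤ K₂)
    (h4 : |deriv (deriv (deriv w)) u| ≤ K₃) (hD : 1 ≤ D u)
    (hD1 : |D1 u| ≤ C₁) (hD2 : |D2 u| ≤ C₁) (hD3 : |D3 u| ≤ C₁) :
    |c1 w D D1 D2 D3 u| ≤ K₃ + 6 * (K₂ * C₁) + 4 * (K₁ * C₁) + C₁ + 15 * (K₁ * C₁ ^ 2) +
      10 * (C₁ * C₁) + 15 * C₁ ^ 3 := by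
  have hK₁ : 0 ≤ K₁ := (abs_nonneg _).trans h2
  have hK₂ : 0 ≤ K₂ := (abs_nonneg _).trans h3
  have hC₁ : 0 ≤ C₁ := (abs_nonneg _).trans hD1
  have key : ∀ (x B : ℝ) (k : ℕ), |x| ≤ B → |x / D u ^ k| ≤ B := by
    intro x B k hx
    have hp : 1 ≤ D u ^ k := one_le_pow₀ hD
    rw [abs_div, abs_of_pos (lt_of_lt_of_le one_pos hp)]
    exact (div_le_self (abs_nonneg _) hp).trans hx
  have e1 : |deriv (deriv (deriv w)) u / D u ^ 3| ≤ K₃ := key _ _ 3 h4
  have e2 : |deriv (deriv w) u * D1 u / D u ^ 4| ≤ K₂ * C₁ := key _ _ 4 (by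
    rw [abs_mul]
    exact mul_le_mul h3 hD1 (abs_nonneg _) hK₂)
  have e3 : |deriv w u * D2 u / D u ^ 4| ≤ K₁ * C₁ := key _ _ 4 (by
    rw [abs_mul]
    exact mul_le_mul h2 hD2 (abs_nonneg _) hK₁)
  have e4 : |w u * D3 u / D u ^ 4| ≤ C₁ := key _ _ 4 (by
    rw [abs_mul]
    calc |w u| * |D3 u| ≤ 1 * C₁ := mul_le_mul h1 hD3 (abs_nonneg _) zero_le_one
      _ = C₁ := one_mul _)
  have e5 : |deriv w u * D1 u ^ 2 / D u ^ 5| ≤ K₁ * C₁ ^ 2 := key _ _ 5 (by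
    rw [abs_mul, abs_pow]
    exact mul_le_mul h2 (pow_le_pow_left₀ (abs_nonneg _) hD1 2) (by positivity) hK₁)
  have e6 : |w u * (D1 u * D2 u) / D u ^ 5| ≤ C₁ * C₁ := key _ _ 5 (by
    rw [abs_mul, abs_mul]
    calc |w u| * (|D1 u| * |D2 u|) ≤ 1 * (C₁ * C₁) :=
          mul_le_mul h1 (mul_le_mul hD1 hD2 (abs_nonneg _) hC₁) (by positivity) zero_le_one
      _ = C₁ * C₁ := one_mul _)
  have e7 : |w u * D1 u ^ 3 / D u ^ 6| ≤ C₁ ^ 3 := key _ _ 6 (by
    rw [abs_mul, abs_pow]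
    calc |w u| * |D1 u| ^ 3 ≤ 1 * C₁ ^ 3 :=
          mul_le_mul h1 (pow_le_pow_left₀ (abs_nonneg _) hD1 3) (by positivity) zero_le_one
      _ = C₁ ^ 3 := one_mul _)
  unfold c1
  rw [abs_le] at e1 e2 e3 e4 e5 e6 e7 ⊢
  obtain ⟨a1, a2⟩ := e1
  obtain ⟨a3, a4⟩ := e2
  obtain ⟨a5, a6⟩ := e3
  obtain ⟨a7, a8⟩ := e4
  obtain ⟨a9, a10⟩ := e5
  obtain ⟨a11, a12⟩ := e6
  obtain ⟨a13, a14⟩ := e7
  constructor <;> linarith

end I_NS3

open I_NS3 in
theorem NS3_pf : S_NS3 := by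
  intro w hw c C₁ hc hC₁ hsupp
  -- `w` is twice differentiable and vanishes outside of `[c, 1]`
  obtain ⟨hwd, hw1⟩ := contDiff_infty_iff_deriv.1 hw.smooth
  obtain ⟨hwd1, hw2⟩ := contDiff_infty_iff_deriv.1 hw1
  obtain ⟨hwd2, hw3⟩ := contDiff_infty_iff_deriv.1 hw2
  have hwc : Continuous w := hw.smooth.continuous
  have hw1c : Continuous (deriv w) := hw1.continuous
  have hw2c : Continuous (deriv (deriv w)) := hw2.continuous
  have hw3c : Continuous (deriv (deriv (deriv w))) := hw3.continuous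
  have hl : ∀ u, u < c → w u = 0 := by
    intro u hu
    by_contra h
    have := (hsupp u h).1
    linarith
  have hr : ∀ u, 1 < u → w u = 0 := by
    intro u hu
    by_contra h
    have := (hsupp u h).2
    linarith
  have w0c : w c = 0 := zero_left hwc hl
  have w01 : w 1 = 0 := zero_right hwc hr
  have w1c : deriv w c = 0 := zero_left hw1c (deriv_left hl)
  have w11 : deriv w 1 = 0 := zero_right hw1c (deriv_right hr)
  have w2c : deriv (deriv w) c = 0 := zero_left hw2c (deriv_left (deriv_left hl))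
  have w21 : deriv (deriv w) 1 = 0 := zero_right hw2c (deriv_right (deriv_right hr))
  rcases lt_or_ge 1 c with hc1 | hc1
  · -- `w = 0`
    refine ⟨0, le_rfl, fun T hT g D D1 D2 D3 _ _ _ _ _ _ => ?_⟩
    have : ∀ u, w u = 0 := by
      intro u
      by_contra h
      have := hsupp u h
      linarith
    simp [this]
  obtain ⟨K₁, hK₁⟩ := isCompact_Icc.exists_bound_of_continuousOn (s := Icc c 1) hw1c.continuousOn
  obtain ⟨K₂, hK₂⟩ := isCompact_Icc.exists_bound_of_continuousOn (s := Icc c 1) hw2c.continuousOn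
  obtain ⟨K₃, hK₃⟩ := isCompact_Icc.exists_bound_of_continuousOn (s := Icc c 1) hw3c.continuousOn
  have hK₃0 : 0 ≤ K₃ := (norm_nonneg _).trans (hK₃ c ⟨le_rfl, hc1⟩)
  have hK₁0 : 0 ≤ K₁ := (norm_nonneg _).trans (hK₁ c ⟨le_rfl, hc1⟩)
  have hK₂0 : 0 ≤ K₂ := (norm_nonneg _).trans (hK₂ c ⟨le_rfl, hc1⟩)
  obtain ⟨B, hB⟩ : ∃ B : ℝ, B = K₃ + 6 * (K₂ * C₁) + 4 * (K₁ * C₁) + C₁ + 15 * (K₁ * C₁ ^ 2) +
      10 * (C₁ * C₁) + 15 * C₁ ^ 3 := ⟨_, rfl⟩
  have hB0 : 0 ≤ B := by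
    rw [hB]
    positivity
  refine ⟨B * |1 - c|, by positivity, ?_⟩
  intro T hT g D D1 D2 D3 hg hD hD1 hD2 hD3 hDb
  have hpos : ∀ u ∈ Icc c 1, 0 < u := fun u hu => lt_of_lt_of_le hc hu.1
  have hDne : ∀ u ∈ Icc c 1, D u ≠ 0 := fun u hu => by
    have := (hDb u hu.1 hu.2).1
    linarith
  have hIT : Complex.I * (T : ℂ) ≠ 0 :=
    mul_ne_zero Complex.I_ne_zero (by exact_mod_cast hT.ne')
  -- the exponential
  obtain ⟨F, hF⟩ : ∃ F : ℝ → ℂ, F = fun u => Complex.exp (Complex.I * (g u : ℝ)) := ⟨_, rfl⟩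
  have hFd : ∀ u, 0 < u → HasDerivAt F (F u * (Complex.I * (T * D u : ℝ))) u := by
    intro u hu
    rw [hF]
    exact (((hg u hu).ofReal_comp).const_mul Complex.I).cexp
  have hFn : ∀ u, ‖F u‖ = 1 := by
    intro u
    rw [hF]
    show ‖Complex.exp (Complex.I * (g u : ℝ))‖ = 1
    rw [mul_comm]
    exact Complex.norm_exp_ofReal_mul_I _
  -- the primitive
  obtain ⟨G, hG⟩ : ∃ G : ℝ → ℂ, G = fun u => (((w u / D u : ℝ) : ℂ) / (Complex.I * T) -
      ((b0 w D D1 u : ℝ) : ℂ) / (Complex.I * T) ^ 2 +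
      ((c0 w D D1 D2 u : ℝ) : ℂ) / (Complex.I * T) ^ 3) * F u := ⟨_, rfl⟩
  obtain ⟨G', hG'⟩ : ∃ G' : ℝ → ℂ, G' = fun u => (w u : ℂ) * F u +
      ((c1 w D D1 D2 D3 u : ℝ) : ℂ) / (Complex.I * T) ^ 3 * F u := ⟨_, rfl⟩
  have hGd : ∀ u ∈ uIcc c 1, HasDerivAt G (G' u) u := by
    intro u hu
    rw [uIcc_of_le hc1] at hu
    have h0 := hpos u hu
    have hne := hDne u hu
    have hwu : HasDerivAt w (deriv w u) u := (hwd u).hasDerivAt
    have hwu1 : HasDerivAt (deriv w) (deriv (deriv w) u) u := (hwd1 u).hasDerivAt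
    have ha := (hasDeriv_a w D D1 u hwu (hD u h0) hne).ofReal_comp
    have hb := (hasDeriv_b w D D1 D2 u hwu hwu1 (hD u h0) (hD1 u h0) hne).ofReal_comp
    have hwu2 : HasDerivAt (deriv (deriv w)) (deriv (deriv (deriv w)) u) u := (hwd2 u).hasDerivAt
    have hcc := (hasDeriv_c w D D1 D2 D3 u hwu hwu1 hwu2 (hD u h0) (hD1 u h0) (hD2 u h0)
      hne).ofReal_comp
    have h1 := (((ha.div_const (Complex.I * T)).sub (hb.div_const ((Complex.I * T) ^ 2))).add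
      (hcc.div_const ((Complex.I * T) ^ 3))).mul (hFd u h0)
    rw [hG, hG']
    refine h1.congr_deriv ?_
    have hA : ((w u / D u : ℝ) : ℂ) * ((D u : ℝ) : ℂ) = (w u : ℂ) := by
      rw [← Complex.ofReal_mul, div_mul_cancel₀ _ hne]
    have hBB : ((b0 w D D1 u : ℝ) : ℂ) * ((D u : ℝ) : ℂ) = ((a1 w D D1 u : ℝ) : ℂ) := by
      rw [← Complex.ofReal_mul]
      congr 1
      unfold b0 a1
      field_simp
    have hCC : ((c0 w D D1 D2 u : ℝ) : ℂ) * ((D u : ℝ) : ℂ) = ((b1 w D D1 D2 u : ℝ) : ℂ) := by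
      rw [← Complex.ofReal_mul]
      congr 1
      unfold c0 b1
      field_simp
    have hT' : ((T * D u : ℝ) : ℂ) = (T : ℂ) * ((D u : ℝ) : ℂ) := by
      rw [Complex.ofReal_mul]
    simp only [Pi.sub_apply, Pi.add_apply]
    rw [hT', ← hBB, ← hCC]
    rw [← hA]
    have hT0 : (T : ℂ) ≠ 0 := by exact_mod_cast hT.ne'
    have hI0 : Complex.I ≠ 0 := Complex.I_ne_zero
    field_simp
    ring
  have hD_c : ContinuousOn D (Icc c 1) := fun u hu => (hD u (hpos u hu)).continuousAt.continuousWithinAt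
  have hD1_c : ContinuousOn D1 (Icc c 1) :=
    fun u hu => (hD1 u (hpos u hu)).continuousAt.continuousWithinAt
  have hD2_c : ContinuousOn D2 (Icc c 1) :=
    fun u hu => (hD2 u (hpos u hu)).continuousAt.continuousWithinAt
  have hD3_c : ContinuousOn D3 (Icc c 1) := hD3.mono fun u hu => hpos u hu
  have hF_c : ContinuousOn F (Icc c 1) :=
    fun u hu => (hFd u (hpos u hu)).continuousAt.continuousWithinAt
  have hb_c : ContinuousOn (c1 w D D1 D2 D3) (Icc c 1) := by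
    have hp : ∀ n : ℕ, ∀ u ∈ Icc c 1, D u ^ n ≠ 0 := fun n u hu => pow_ne_zero n (hDne u hu)
    unfold c1
    refine ((((((hw3c.continuousOn.div (hD_c.pow 3) (hp 3)).sub
      (continuousOn_const.mul ((hw2c.continuousOn.mul hD1_c).div (hD_c.pow 4) (hp 4)))).sub
      (continuousOn_const.mul ((hw1c.continuousOn.mul hD2_c).div (hD_c.pow 4) (hp 4)))).sub
      ((hwc.continuousOn.mul hD3_c).div (hD_c.pow 4) (hp 4))).add
      (continuousOn_const.mul ((hw1c.continuousOn.mul (hD1_c.pow 2)).div (hD_c.pow 5) (hp 5)))).add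
      (continuousOn_const.mul ((hwc.continuousOn.mul (hD1_c.mul hD2_c)).div (hD_c.pow 5)
        (hp 5)))).sub
      (continuousOn_const.mul ((hwc.continuousOn.mul (hD1_c.pow 3)).div (hD_c.pow 6) (hp 6)))
  have hwF_c : ContinuousOn (fun u => (w u : ℂ) * F u) (Icc c 1) :=
    (Complex.continuous_ofReal.comp hwc).continuousOn.mul hF_c
  have hbF_c : ContinuousOn (fun u => ((c1 w D D1 D2 D3 u : ℝ) : ℂ) / (Complex.I * T) ^ 3 * F u)
      (Icc c 1) :=
    ((Complex.continuous_ofReal.comp_continuousOn hb_c).div_const _).mul hF_c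
  have hi1 : IntervalIntegrable (fun u => (w u : ℂ) * F u) volume c 1 := by
    refine ContinuousOn.intervalIntegrable ?_
    rw [uIcc_of_le hc1]
    exact hwF_c
  have hi2 : IntervalIntegrable (fun u => ((c1 w D D1 D2 D3 u : ℝ) : ℂ) / (Complex.I * T) ^ 3 * F u)
      volume c 1 := by
    refine ContinuousOn.intervalIntegrable ?_
    rw [uIcc_of_le hc1]
    exact hbF_c
  have hfund : ∫ u in c..1, G' u = G 1 - G c := by
    refine intervalIntegral.integral_eq_sub_of_hasDerivAt hGd ?_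
    rw [hG']
    exact hi1.add hi2
  have hG1 : G 1 = 0 := by
    rw [hG]
    simp [b0, c0, w01, w11, w21]
  have hGc : G c = 0 := by
    rw [hG]
    simp [b0, c0, w0c, w1c, w2c]
  have hsplit : ∫ u in c..1, (w u : ℂ) * F u =
      -∫ u in c..1, ((c1 w D D1 D2 D3 u : ℝ) : ℂ) / (Complex.I * T) ^ 3 * F u := by
    rw [hG1, hGc, sub_zero, hG'] at hfund
    rw [intervalIntegral.integral_add hi1 hi2] at hfund
    exact eq_neg_of_add_eq_zero_left hfund
  have hwhole : ∫ u : ℝ, (w u : ℂ) * Complex.exp (Complex.I * (g u : ℝ)) =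
      ∫ u in c..1, (w u : ℂ) * F u := by
    rw [intervalIntegral.integral_of_le hc1, hF]
    symm
    refine setIntegral_eq_integral_of_forall_compl_eq_zero ?_
    intro u hu
    have : w u = 0 := by
      by_contra h
      obtain ⟨h1, h2⟩ := hsupp u h
      rcases h1.lt_or_eq with h3 | h3
      · exact hu ⟨h3, h2⟩
      · rw [← h3] at h
        exact h w0c
    rw [this]
    simp
  rw [hwhole, hsplit, norm_neg]
  have hbd : ∀ u ∈ uIoc c 1,
      ‖((c1 w D D1 D2 D3 u : ℝ) : ℂ) / (Complex.I * T) ^ 3 * F u‖ ≤ B / T ^ 3 := by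
    intro u hu
    rw [uIoc_of_le hc1] at hu
    have hu' : u ∈ Icc c 1 := ⟨hu.1.le, hu.2⟩
    obtain ⟨h1, h2, h3, h4⟩ := hDb u hu'.1 hu'.2
    rw [norm_mul, hFn, mul_one, norm_div, norm_pow, norm_mul, Complex.norm_I, one_mul,
      Complex.norm_real, Complex.norm_real, Real.norm_eq_abs, Real.norm_eq_abs, abs_of_pos hT]
    refine div_le_div_of_nonneg_right ?_ (by positivity)
    rw [hB]
    refine c1_bound w D D1 D2 D3 u C₁ K₁ K₂ K₃ ?_ (hK₁ u hu') (hK₂ u hu') (hK₃ u hu') h1 h2 h3 h4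
    rw [abs_of_nonneg (hw.nonneg u)]
    exact hw.le_one u
  refine (intervalIntegral.norm_integral_le_of_norm_le_const hbd).trans (le_of_eq ?_)
  ring

end Pool.Agent.Work.MP_56b8f5_nt.WA
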