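import Pool.Agent.Work.MP_56b8f5_nt.WA.StmtsB
import Pool.Agent.Work.MP_56b8f5_nt.WA.I_OscZ

/-!
MP_56b8f5_nt, block WB: item Q5 (OscA), the zeroth moment with `U^a`.
-/

set_option autoImplicit false

open MeasureTheory Set Filter Topology

noncomputable section

namespace Pool.Agent.Work.MP_56b8f5_nt.WA

open Pool.Agent.Work.MP_56b8f5_nt.EM
open Pool.Agent.Work.MP_56b8f5_nt.WM

namespace I_OscA

open WM.I_FMx (dp_eq dp_conj)

lemma integrand_eq (w : ℝ → ℝ) (a : ℕ) (T : ℝ) (X : ℕ) (b : ℕ → ℝ) (hb : b 0 = 0) (u : ℝ) :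
    (w u : ℂ) * (U (T * u) ^ a *
      (DP b X (T * u) * (starRingEnd ℂ) (DP b X (T * u)))) =
      ∑ l ∈ Finset.range (X + 1), ∑ h ∈ Finset.range (X + 1),
        (((b h / Real.sqrt h) * (b l / Real.sqrt l) : ℝ) : ℂ) * ((w u : ℂ) * (U (T * u) ^ a *
          Complex.exp (Complex.I * ((T * u * (Real.log l - Real.log h) : ℝ) : ℂ)))) := by
  rw [dp_conj b hb, dp_eq b hb, Finset.sum_mul_sum, Finset.sum_comm, Finset.mul_sum,
    Finset.mul_sum]
  refine Finset.sum_congr rfl fun l _ => ?_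
  rw [Finset.mul_sum, Finset.mul_sum]
  refine Finset.sum_congr rfl fun h _ => ?_
  have e4 : Complex.exp (Complex.I * ((T * u * (Real.log l - Real.log h) : ℝ) : ℂ)) =
      Complex.exp (Complex.I * ((-(T * u * Real.log h) : ℝ) : ℂ)) *
        Complex.exp (Complex.I * ((T * u * Real.log l : ℝ) : ℂ)) := by
    rw [← Complex.exp_add]
    congr 1
    push_cast
    ring
  rw [e4]
  push_cast
  ring

end I_OscA

open I_OscA in
/-- **Q5 (OscA).** -/
theorem OscA_pf (h2 : S_UZ) (h3 : S_Osc) : S_OscA := by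
  intro w hw a ha
  obtain ⟨hUc, -, hU, -⟩ := h2
  obtain ⟨C3, T3, hC3, hT3, ho⟩ := h3 w hw a ha
  refine ⟨2 * C3, T3, by positivity, hT3, ?_⟩
  intro T hT X hX b hb0
  have hT1 : 1 ≤ T := hT3.trans hT
  have hTpos : 0 < T := by linarith
  have hQb := WM.I_FMb.Q2nn b X
  have hUj : Continuous fun u : ℝ => U (T * u) ^ a :=
    (hUc.comp (continuous_const.mul continuous_id)).pow a
  have hX1 : ∀ h ∈ Finset.range (X + 1), h ≠ 0 → 0 ≤ Real.log h ∧
      Real.log h ≤ 1 / 3 * Real.log T := by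
    intro h hh hne
    have hhX : h ≤ X := by
      have := Finset.mem_range.1 hh
      omega
    have hh1 : (1 : ℝ) ≤ h := by exact_mod_cast Nat.pos_of_ne_zero hne
    have hhX' : (h : ℝ) ≤ X := by exact_mod_cast hhX
    refine ⟨Real.log_nonneg hh1, ?_⟩
    have h5 : (h : ℝ) ^ 3 ≤ T := (pow_le_pow_left₀ (by positivity) hhX' 3).trans hX
    have h6 := Real.log_le_log (by positivity) h5
    rw [Real.log_pow] at h6
    push_cast at h6
    linarith
  have hlT : 0 ≤ Real.log T := Real.log_nonneg hT1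
  have s2 : ∀ l ∈ Finset.range (X + 1), ∀ h ∈ Finset.range (X + 1),
      ‖∫ u : ℝ, (((b h / Real.sqrt h) * (b l / Real.sqrt l) : ℝ) : ℂ) * ((w u : ℂ) *
        (U (T * u) ^ a *
          Complex.exp (Complex.I * ((T * u * (Real.log l - Real.log h) : ℝ) : ℂ))))‖ ≤
      |b h / Real.sqrt h| * |b l / Real.sqrt l| * (C3 / T ^ 2) := by
    intro l hl h hh
    rw [integral_const_mul, norm_mul, Complex.norm_real, Real.norm_eq_abs, abs_mul]
    by_cases hl0 : l = 0
    · subst hl0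
      rw [hb0]
      simp
    by_cases hh0 : h = 0
    · subst hh0
      rw [hb0]
      simp
    apply mul_le_mul_of_nonneg_left _ (by positivity)
    apply ho T hT
    have e1 := (hX1 l hl hl0).1
    have e2 := (hX1 h hh hh0).2
    linarith
  have hi : ∀ l h : ℕ, Integrable (fun u : ℝ =>
      (((b h / Real.sqrt h) * (b l / Real.sqrt l) : ℝ) : ℂ) * ((w u : ℂ) *
      (U (T * u) ^ a *
        Complex.exp (Complex.I * ((T * u * (Real.log l - Real.log h) : ℝ) : ℂ))))) := by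
    intro l h
    apply Integrable.const_mul
    apply I_OscZ.cs_mul hw
    exact hUj.mul (by fun_prop)
  have e0 : ∀ u : ℝ, _ := fun u => integrand_eq w a T X b hb0 u
  rw [integral_congr_ae (Filter.Eventually.of_forall e0), integral_finsetSum]
  swap
  · intro l _
    exact integrable_finsetSum _ fun h _ => hi l h
  refine (norm_sum_le _ _).trans ?_
  have e1 : ∀ l ∈ Finset.range (X + 1), ‖∫ u : ℝ, ∑ h ∈ Finset.range (X + 1),
      (((b h / Real.sqrt h) * (b l / Real.sqrt l) : ℝ) : ℂ) * ((w u : ℂ) *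
      (U (T * u) ^ a *
        Complex.exp (Complex.I * ((T * u * (Real.log l - Real.log h) : ℝ) : ℂ))))‖ ≤
      ∑ h ∈ Finset.range (X + 1), |b h / Real.sqrt h| * |b l / Real.sqrt l| *
        (C3 / T ^ 2) := by
    intro l hl
    rw [integral_finsetSum]
    swap
    · intro h _
      exact hi l h
    refine (norm_sum_le _ _).trans ?_
    exact Finset.sum_le_sum (s2 l hl)
  refine (Finset.sum_le_sum e1).trans ?_
  have e2 : ∑ l ∈ Finset.range (X + 1), ∑ h ∈ Finset.range (X + 1),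
      |b h / Real.sqrt h| * |b l / Real.sqrt l| * (C3 / T ^ 2) =
      ((∑ h ∈ Finset.range (X + 1), |b h / Real.sqrt h|) *
        ∑ l ∈ Finset.range (X + 1), |b l / Real.sqrt l|) * (C3 / T ^ 2) := by
    rw [Finset.sum_mul_sum, Finset.sum_comm, Finset.sum_mul]
    exact Finset.sum_congr rfl fun h _ => by rw [Finset.sum_mul]
  rw [e2]
  have e4 := I_OscZ.l1abs b X
  have e5 := mul_le_mul e4 e4 (Finset.sum_nonneg fun n _ => abs_nonneg _) (by positivity)
  have e6 : (Real.sqrt ((X : ℝ) + 1) * Real.sqrt (Q2 b X)) *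
        (Real.sqrt ((X : ℝ) + 1) * Real.sqrt (Q2 b X)) = ((X : ℝ) + 1) * Q2 b X := by
    have h7 := Real.mul_self_sqrt (by positivity : (0 : ℝ) ≤ (X : ℝ) + 1)
    have h8 := Real.mul_self_sqrt hQb
    calc (Real.sqrt ((X : ℝ) + 1) * Real.sqrt (Q2 b X)) *
          (Real.sqrt ((X : ℝ) + 1) * Real.sqrt (Q2 b X)) =
          (Real.sqrt ((X : ℝ) + 1) * Real.sqrt ((X : ℝ) + 1)) *
            (Real.sqrt (Q2 b X) * Real.sqrt (Q2 b X)) := by ring
      _ = ((X : ℝ) + 1) * Q2 b X := by rw [h7, h8]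
  rw [e6] at e5
  have hXT : (X : ℝ) ≤ T := by
    rcases Nat.eq_zero_or_pos X with h0 | h0
    · subst h0
      simpa using hTpos.le
    · have h9 : (1 : ℝ) ≤ X := by exact_mod_cast h0
      have h10 : (X : ℝ) ≤ (X : ℝ) ^ 3 := by nlinarith [sq_nonneg ((X : ℝ) - 1)]
      exact h10.trans hX
  have hc : 0 ≤ C3 / T ^ 2 := by positivity
  calc ((∑ h ∈ Finset.range (X + 1), |b h / Real.sqrt h|) *
        ∑ l ∈ Finset.range (X + 1), |b l / Real.sqrt l|) * (C3 / T ^ 2)
      ≤ (((X : ℝ) + 1) * Q2 b X) * (C3 / T ^ 2) := mul_le_mul_of_nonneg_right e5 hc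
    _ ≤ ((2 * T) * Q2 b X) * (C3 / T ^ 2) := by
        apply mul_le_mul_of_nonneg_right _ hc
        apply mul_le_mul_of_nonneg_right _ hQb
        linarith
    _ = 2 * C3 / T * Q2 b X := by
        field_simp

end Pool.Agent.Work.MP_56b8f5_nt.WA
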