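import Pool.Agent.Work.MP_56b8f5_nt.WA.StmtsB
import Pool.Agent.Work.MP_56b8f5_nt.WA.I_OscZ
import Pool.Agent.Work.MP_56b8f5_nt.WA.I_FM2

/-!
MP_56b8f5_nt, block WB: item Q2 (OscZ2), the second moment with `U^j conj zeta^2` twisted by `|A|²`.
-/

set_option autoImplicit false

open MeasureTheory Set Filter Topology

noncomputable section

namespace Pool.Agent.Work.MP_56b8f5_nt.WA

open Pool.Agent.Work.MP_56b8f5_nt.EM
open Pool.Agent.Work.MP_56b8f5_nt.WM

namespace I_OscZ2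

open Pool.Agent.Work.MP_56b8f5_nt.WM.I_FMx (bc bc_nonneg bc_zero exp_norm w_cont w_comp)
open Pool.Agent.Work.MP_56b8f5_nt.WA.I_OscZ (conjP cs_mul one_bd)

/-- multiplication by `conj P` -/
lemma one_gen (hP : StPc) {w : ℝ → ℝ} (hw : IsW w) {K : ℝ} (hK : 1 ≤ K) (T M : ℝ)
    (F : ℝ → ℂ) (hF : Continuous F)
    (hM : ∀ k : ℕ, 1 ≤ k → ‖∫ u : ℝ, (w u : ℂ) * (F u *
      Complex.exp (Complex.I * ((T * u * Real.log k : ℝ) : ℂ)))‖ ≤ M) :
    ‖∫ u : ℝ, (w u : ℂ) * (F u * (starRingEnd ℂ) (P K (T * u)))‖ ≤ 2 * Real.sqrt K * M := by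
  have hM0 : 0 ≤ M := (norm_nonneg _).trans (hM 1 le_rfl)
  obtain ⟨-, -, -, hbs, hbl⟩ := hP K hK
  have hbs' : Summable (bc K) := hbs
  have hbl' : ∑' k, bc K k ≤ 2 * Real.sqrt K := hbl
  set g : ℕ → ℝ → ℂ := fun k u => (bc K k : ℂ) * ((w u : ℂ) * (F u *
      Complex.exp (Complex.I * ((T * u * Real.log k : ℝ) : ℂ)))) with hg
  have gint : ∀ k, Integrable (g k) := by
    intro k
    simp only [hg]
    apply Integrable.const_mul
    apply cs_mul hw
    fun_prop
  have gn : ∀ k u, ‖g k u‖ = bc K k * (w u * ‖F u‖) := by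
    intro k u
    simp only [hg]
    rw [norm_mul, norm_mul, norm_mul, exp_norm, mul_one, Complex.norm_real, Complex.norm_real,
      Real.norm_of_nonneg (bc_nonneg K k), Real.norm_of_nonneg (hw.nonneg u)]
  have hsum : Summable fun k : ℕ => ∫ u, ‖g k u‖ := by
    have h1 : ∀ k : ℕ, ∫ u, ‖g k u‖ = bc K k * ∫ u, w u * ‖F u‖ := by
      intro k
      rw [← integral_const_mul]
      exact integral_congr_ae (Filter.Eventually.of_forall fun u => gn k u)
    simp only [h1]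
    exact hbs'.mul_right _
  have hS := hasSum_integral_of_summable_integral_norm gint hsum
  have e1 : ∀ u, ∑' k, g k u = (w u : ℂ) * (F u * (starRingEnd ℂ) (P K (T * u))) := by
    intro u
    rw [conjP, ← tsum_mul_left, ← tsum_mul_left]
    refine tsum_congr fun k => ?_
    simp only [hg]
    ring
  have e2 : (∫ u, ∑' k, g k u) = ∫ u : ℝ, (w u : ℂ) * (F u * (starRingEnd ℂ) (P K (T * u))) :=
    integral_congr_ae (Filter.Eventually.of_forall e1)
  rw [← e2, ← hS.tsum_eq]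
  have h3 : ∀ k : ℕ, ‖∫ u, g k u‖ ≤ bc K k * M := by
    intro k
    simp only [hg]
    rw [integral_const_mul, norm_mul, Complex.norm_real, Real.norm_of_nonneg (bc_nonneg _ _)]
    rcases Nat.eq_zero_or_pos k with hk | hk
    · subst hk
      rw [bc_zero]
      simp
    · exact mul_le_mul_of_nonneg_left (hM k hk) (bc_nonneg _ _)
  have h5 : ‖∑' k, ∫ u, g k u‖ ≤ ∑' k, bc K k * M :=
    tsum_of_norm_bounded (hbs'.mul_right M).hasSum h3
  rw [tsum_mul_right] at h5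
  exact h5.trans (mul_le_mul_of_nonneg_right hbl' hM0)

/-- two factors `conj P` -/
lemma two_bd (hP : StPc) (hUc : Continuous U) (hU : ∀ t, ‖U t‖ = 1) {w : ℝ → ℝ} (hw : IsW w)
    (j : ℕ) {K : ℝ} (hK : 1 ≤ K) (T x M : ℝ)
    (hM : ∀ k k' : ℕ, 1 ≤ k → 1 ≤ k' → ‖∫ u : ℝ, (w u : ℂ) * (U (T * u) ^ j *
      Complex.exp (Complex.I * ((T * u * (x + Real.log k + Real.log k') : ℝ) : ℂ)))‖ ≤ M) :
    ‖∫ u : ℝ, (w u : ℂ) * ((U (T * u) ^ j * (starRingEnd ℂ) (P K (T * u)) ^ 2) *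
      Complex.exp (Complex.I * ((T * u * x : ℝ) : ℂ)))‖ ≤ 4 * K * M := by
  have hPc : Continuous fun u : ℝ => (starRingEnd ℂ) (P K (T * u)) :=
    Complex.continuous_conj.comp ((hP K hK).1.comp (continuous_const.mul continuous_id))
  have hUj : Continuous fun u : ℝ => U (T * u) ^ j :=
    (hUc.comp (continuous_const.mul continuous_id)).pow j
  have h1 : ‖∫ u : ℝ, (w u : ℂ) * ((U (T * u) ^ j * ((starRingEnd ℂ) (P K (T * u)) *
      Complex.exp (Complex.I * ((T * u * x : ℝ) : ℂ)))) * (starRingEnd ℂ) (P K (T * u)))‖ ≤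
      2 * Real.sqrt K * (2 * Real.sqrt K * M) := by
    apply one_gen hP hw hK T (2 * Real.sqrt K * M) (fun u => U (T * u) ^ j *
      ((starRingEnd ℂ) (P K (T * u)) * Complex.exp (Complex.I * ((T * u * x : ℝ) : ℂ))))
    · exact hUj.mul (hPc.mul (by fun_prop))
    · intro k hk
      have e1 : ∀ u : ℝ, (w u : ℂ) * ((U (T * u) ^ j * ((starRingEnd ℂ) (P K (T * u)) *
          Complex.exp (Complex.I * ((T * u * x : ℝ) : ℂ)))) *
          Complex.exp (Complex.I * ((T * u * Real.log k : ℝ) : ℂ))) =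
          (w u : ℂ) * (U (T * u) ^ j * ((starRingEnd ℂ) (P K (T * u)) *
          Complex.exp (Complex.I * ((T * u * (x + Real.log k) : ℝ) : ℂ)))) := by
        intro u
        have e4 : Complex.exp (Complex.I * ((T * u * (x + Real.log k) : ℝ) : ℂ)) =
            Complex.exp (Complex.I * ((T * u * x : ℝ) : ℂ)) *
              Complex.exp (Complex.I * ((T * u * Real.log k : ℝ) : ℂ)) := by
          rw [← Complex.exp_add]
          congr 1
          push_cast
          ring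
        rw [e4]
        ring
      rw [integral_congr_ae (Filter.Eventually.of_forall e1)]
      exact one_bd hP hUc hU hw j hK T (x + Real.log k) M fun k' hk' => hM k k' hk hk'
  have e2 : ∀ u : ℝ, (w u : ℂ) * ((U (T * u) ^ j * (starRingEnd ℂ) (P K (T * u)) ^ 2) *
      Complex.exp (Complex.I * ((T * u * x : ℝ) : ℂ))) =
      (w u : ℂ) * ((U (T * u) ^ j * ((starRingEnd ℂ) (P K (T * u)) *
      Complex.exp (Complex.I * ((T * u * x : ℝ) : ℂ)))) * (starRingEnd ℂ) (P K (T * u))) := by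
    intro u
    ring
  rw [integral_congr_ae (Filter.Eventually.of_forall e2)]
  refine h1.trans (le_of_eq ?_)
  have := Real.mul_self_sqrt (by linarith : (0 : ℝ) ≤ K)
  linear_combination (4 * M) * this

end I_OscZ2

open Pool.Agent.Work.MP_56b8f5_nt.WM.I_FMb (intw cDP Q2nn l1 caz) in
open Pool.Agent.Work.MP_56b8f5_nt.WA.I_OscZ (cs_mul) in
open Pool.Agent.Work.MP_56b8f5_nt.WA.I_FM2 (expandDP Q2GS) in
open I_OscZ2 in
/-- **Q2 (OscZ2).** -/
theorem OscZ2_pf (hP : StPc) (h0 : S_ZPK) (h1 : S_MVb) (h4 : S_TSb) (h2 : S_UZ) (h3 : S_Osc3) :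
    S_OscZ2 := by
  classical
  intro w hw j hj
  obtain ⟨hUc, hzc, hU, -⟩ := h2
  obtain ⟨C0, T0, hC0, hT0, hz⟩ := h0 w hw
  obtain ⟨C1, hC1, hm⟩ := h1 w hw
  obtain ⟨C3, T3, hC3, hT3, ho⟩ := h3 w hw j hj
  obtain ⟨C4, T4, hC4, ht⟩ := h4 w hw
  refine ⟨C0 * (20 * C4 + (1 + C0) * C1) + 8 * C3, max T0 (max T3 T4), by positivity,
    hT0.trans (le_max_left _ _), ?_⟩
  intro T hT X hX b hb0 hb
  have hTT0 : T0 ≤ T := (le_max_left _ _).trans hT
  have hTT3 : T3 ≤ T := (le_max_left _ _).trans ((le_max_right _ _).trans hT)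
  have hTT4 : T4 ≤ T := (le_max_right _ _).trans ((le_max_right _ _).trans hT)
  have hT1 : 1 ≤ T := hT0.trans hTT0
  have hTpos : 0 < T := by linarith
  set K : ℝ := T ^ (11 / 5 : ℝ) with hKdef
  have hK : (1 : ℝ) ≤ K := Real.one_le_rpow hT1 (by norm_num)
  have hGn : 0 ≤ GS b X := (Q2nn b X).trans (Q2GS b hb X)
  have hQG := Q2GS b hb X
  have hQn := Q2nn b X
  -- continuity
  have hA : Continuous fun u : ℝ => DP b X (T * u) :=
    (cDP b X).comp (continuous_const.mul continuous_id)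
  have hZ : Continuous fun u : ℝ => (starRingEnd ℂ) (zt (T * u)) :=
    Complex.continuous_conj.comp (hzc.comp (continuous_const.mul continuous_id))
  have hz' : Continuous fun u : ℝ => az (T * u) := caz.comp (continuous_const.mul continuous_id)
  have hPc : Continuous fun u : ℝ => (starRingEnd ℂ) (P K (T * u)) :=
    Complex.continuous_conj.comp ((hP K hK).1.comp (continuous_const.mul continuous_id))
  have hAc : Continuous fun u : ℝ => (starRingEnd ℂ) (DP b X (T * u)) :=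
    Complex.continuous_conj.comp hA
  have hUj : Continuous fun u : ℝ => U (T * u) ^ j :=
    (hUc.comp (continuous_const.mul continuous_id)).pow j
  have hAn := hA.norm
  set I1 : ℂ := ∫ u : ℝ, (w u : ℂ) * (U (T * u) ^ j * ((starRingEnd ℂ) (zt (T * u)) ^ 2 *
      (DP b X (T * u) * (starRingEnd ℂ) (DP b X (T * u))))) with hI1
  set I2 : ℂ := ∫ u : ℝ, (w u : ℂ) * (U (T * u) ^ j * ((starRingEnd ℂ) (P K (T * u)) ^ 2 *
      (DP b X (T * u) * (starRingEnd ℂ) (DP b X (T * u))))) with hI2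
  have hr10 : 0 < T ^ (1 / 10 : ℝ) := Real.rpow_pos_of_pos hTpos _
  have hr20 : 0 < T ^ (1 / 20 : ℝ) := Real.rpow_pos_of_pos hTpos _
  have hr1 : 1 ≤ T ^ (1 / 10 : ℝ) := Real.one_le_rpow hT1 (by norm_num)
  -- step 1
  have s1 : ‖I1 - I2‖ ≤ C0 / T ^ (1 / 10 : ℝ) *
      (C4 * Real.log T * GS b X + (1 + C0) * (C1 * Q2 b X)) := by
    have i1 : Integrable (fun u : ℝ => (w u : ℂ) * (U (T * u) ^ j *
      ((starRingEnd ℂ) (zt (T * u)) ^ 2 * (DP b X (T * u) *
      (starRingEnd ℂ) (DP b X (T * u)))))) := cs_mul hw (hUj.mul ((hZ.pow 2).mul (hA.mul hAc)))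
    have i2 : Integrable (fun u : ℝ => (w u : ℂ) * (U (T * u) ^ j *
      ((starRingEnd ℂ) (P K (T * u)) ^ 2 * (DP b X (T * u) *
      (starRingEnd ℂ) (DP b X (T * u)))))) := cs_mul hw (hUj.mul ((hPc.pow 2).mul (hA.mul hAc)))
    have i3 : Integrable (fun u : ℝ => w u * (az (T * u) ^ 2 * ‖DP b X (T * u)‖ ^ 2)) :=
      intw hw ((hz'.pow 2).mul (hAn.pow 2))
    have i4 : Integrable (fun u : ℝ => w u * ‖DP b X (T * u)‖ ^ 2) := intw hw (hAn.pow 2)
    have i5 : Integrable (fun u : ℝ => C0 / T ^ (1 / 10 : ℝ) * (w u * (az (T * u) ^ 2 *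
        ‖DP b X (T * u)‖ ^ 2)) + C0 / T ^ (1 / 10 : ℝ) * (1 + C0) *
          (w u * ‖DP b X (T * u)‖ ^ 2)) := (i3.const_mul _).add (i4.const_mul _)
    rw [hI1, hI2, ← integral_sub i1 i2]
    refine (norm_integral_le_integral_norm _).trans ?_
    have h2 : ∫ u : ℝ, ‖(w u : ℂ) * (U (T * u) ^ j * ((starRingEnd ℂ) (zt (T * u)) ^ 2 *
      (DP b X (T * u) * (starRingEnd ℂ) (DP b X (T * u))))) -
      (w u : ℂ) * (U (T * u) ^ j * ((starRingEnd ℂ) (P K (T * u)) ^ 2 *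
      (DP b X (T * u) * (starRingEnd ℂ) (DP b X (T * u)))))‖ ≤
        ∫ u : ℝ, (C0 / T ^ (1 / 10 : ℝ) * (w u * (az (T * u) ^ 2 *
        ‖DP b X (T * u)‖ ^ 2)) + C0 / T ^ (1 / 10 : ℝ) * (1 + C0) *
          (w u * ‖DP b X (T * u)‖ ^ 2)) := by
      apply integral_mono (i1.sub i2).norm i5
      intro u
      change ‖(w u : ℂ) * (U (T * u) ^ j * ((starRingEnd ℂ) (zt (T * u)) ^ 2 *
      (DP b X (T * u) * (starRingEnd ℂ) (DP b X (T * u))))) -
      (w u : ℂ) * (U (T * u) ^ j * ((starRingEnd ℂ) (P K (T * u)) ^ 2 *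
      (DP b X (T * u) * (starRingEnd ℂ) (DP b X (T * u)))))‖ ≤
        C0 / T ^ (1 / 10 : ℝ) * (w u * (az (T * u) ^ 2 *
        ‖DP b X (T * u)‖ ^ 2)) + C0 / T ^ (1 / 10 : ℝ) * (1 + C0) *
          (w u * ‖DP b X (T * u)‖ ^ 2)
      have h3 : (w u : ℂ) * (U (T * u) ^ j * ((starRingEnd ℂ) (zt (T * u)) ^ 2 *
      (DP b X (T * u) * (starRingEnd ℂ) (DP b X (T * u))))) -
      (w u : ℂ) * (U (T * u) ^ j * ((starRingEnd ℂ) (P K (T * u)) ^ 2 *
      (DP b X (T * u) * (starRingEnd ℂ) (DP b X (T * u))))) =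
          (w u : ℂ) * (U (T * u) ^ j * (((starRingEnd ℂ) (zt (T * u) - P K (T * u)) *
            (starRingEnd ℂ) (zt (T * u) + P K (T * u))) *
            (DP b X (T * u) * (starRingEnd ℂ) (DP b X (T * u))))) := by
        rw [map_sub, map_add]
        ring
      rw [h3, norm_mul, norm_mul, norm_mul, norm_mul, norm_mul, norm_pow, hU, one_pow, one_mul,
        RCLike.norm_conj, RCLike.norm_conj, RCLike.norm_conj, Complex.norm_real,
        Real.norm_of_nonneg (hw.nonneg u)]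
      by_cases hwu : w u = 0
      · rw [hwu]
        simp
      · have h4 : ‖zt (T * u) - P K (T * u)‖ ≤ C0 / T ^ (1 / 10 : ℝ) := hz T hTT0 u hwu
        have h4' : C0 / T ^ (1 / 10 : ℝ) ≤ C0 := div_le_self hC0 hr1
        have h5 : ‖zt (T * u) + P K (T * u)‖ ≤ 2 * az (T * u) + C0 := by
          have h6 : zt (T * u) + P K (T * u) = 2 * zt (T * u) - (zt (T * u) - P K (T * u)) := by
            ring
          have h7 : ‖zt (T * u)‖ = az (T * u) := by
            simp only [zt, az]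
          rw [h6]
          refine (norm_sub_le _ _).trans ?_
          rw [norm_mul, h7]
          have h8 : ‖(2 : ℂ)‖ = 2 := by norm_num
          rw [h8]
          linarith
        have h6 : 2 * az (T * u) + C0 ≤ az (T * u) ^ 2 + (1 + C0) := by
          nlinarith [sq_nonneg (az (T * u) - 1)]
        have h7 : ‖zt (T * u) - P K (T * u)‖ * ‖zt (T * u) + P K (T * u)‖ ≤
            C0 / T ^ (1 / 10 : ℝ) * (az (T * u) ^ 2 + (1 + C0)) :=
          mul_le_mul h4 (h5.trans h6) (norm_nonneg _) (by positivity)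
        have h8 : 0 ≤ w u * (‖DP b X (T * u)‖ * ‖DP b X (T * u)‖) := by
          have := hw.nonneg u
          positivity
        have h9 := mul_le_mul_of_nonneg_right h7 h8
        refine le_trans (le_of_eq ?_) (h9.trans (le_of_eq ?_))
        · ring
        · ring
    refine h2.trans ?_
    rw [integral_add (i3.const_mul _) (i4.const_mul _), integral_const_mul, integral_const_mul]
    have h5 := mul_le_mul_of_nonneg_left (ht T hTT4 X hX b hb0 hb)
      (by positivity : 0 ≤ C0 / T ^ (1 / 10 : ℝ))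
    have h6 := mul_le_mul_of_nonneg_left (hm T hT1 X hX b hb0)
      (by positivity : 0 ≤ C0 / T ^ (1 / 10 : ℝ) * (1 + C0))
    refine (add_le_add h5 h6).trans (le_of_eq ?_)
    ring
  -- step 2
  have hX1 : ∀ h ∈ Finset.range (X + 1), h ≠ 0 → 0 ≤ Real.log h ∧
      Real.log h ≤ 1 / 3 * Real.log T := by
    intro h hh hne
    have hhX : h ≤ X := by
      have := Finset.mem_range.1 hh
      omega
    have hh1 : (1 : ℝ) ≤ h := by exact_mod_cast Nat.pos_of_ne_zero hne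
    have hhX' : (h : ℝ) ≤ X := by exact_mod_cast hhX
    refine ⟨Real.log_nonneg hh1, ?_⟩
    have h5 : (h : ℝ) ^ 3 ≤ T := (pow_le_pow_left₀ (by positivity) hhX' 3).trans hX
    have h6 := Real.log_le_log (by positivity) h5
    rw [Real.log_pow] at h6
    push_cast at h6
    linarith
  have hlT : 0 ≤ Real.log T := Real.log_nonneg hT1
  have hcoef : ∀ l h : ℕ, b h * b l / Real.sqrt ((h : ℝ) * l) =
      (b h / Real.sqrt h) * (b l / Real.sqrt l) := by
    intro l h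
    rw [Real.sqrt_mul (by positivity), div_mul_div_comm]
  have hcn : ∀ l h : ℕ, 0 ≤ b h * b l / Real.sqrt ((h : ℝ) * l) := by
    intro l h
    have := hb h
    have := hb l
    positivity
  have s2 : ∀ l ∈ Finset.range (X + 1), ∀ h ∈ Finset.range (X + 1),
      ‖∫ u : ℝ, ((b h * b l / Real.sqrt ((h : ℝ) * l) : ℝ) : ℂ) * ((w u : ℂ) *
        ((U (T * u) ^ j * (starRingEnd ℂ) (P K (T * u)) ^ 2) *
          Complex.exp (Complex.I * ((T * u * (Real.log l - Real.log h) : ℝ) : ℂ))))‖ ≤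
      (b h * b l / Real.sqrt ((h : ℝ) * l)) * (4 * K * (C3 / T ^ 3)) := by
    intro l hl h hh
    rw [integral_const_mul, norm_mul, Complex.norm_real, Real.norm_of_nonneg (hcn l h)]
    by_cases hl0 : l = 0
    · subst hl0
      rw [hb0]
      simp
    by_cases hh0 : h = 0
    · subst hh0
      rw [hb0]
      simp
    apply mul_le_mul_of_nonneg_left _ (hcn l h)
    apply two_bd hP hUc hU hw j hK
    intro k k' hk hk'
    apply ho T hTT3
    have e1 := (hX1 l hl hl0).1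
    have e2 := (hX1 h hh hh0).2
    have e3 : 0 ≤ Real.log k := Real.log_nonneg (by exact_mod_cast hk)
    have e4 : 0 ≤ Real.log k' := Real.log_nonneg (by exact_mod_cast hk')
    linarith
  have s4 : ‖I2‖ ≤ 4 * K * (C3 / T ^ 3) * ((∑ h ∈ Finset.range (X + 1), b h / Real.sqrt h) *
          ∑ l ∈ Finset.range (X + 1), b l / Real.sqrt l) := by
    have hi : ∀ l h : ℕ, Integrable (fun u : ℝ =>
        ((b h * b l / Real.sqrt ((h : ℝ) * l) : ℝ) : ℂ) * ((w u : ℂ) *
        ((U (T * u) ^ j * (starRingEnd ℂ) (P K (T * u)) ^ 2) *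
          Complex.exp (Complex.I * ((T * u * (Real.log l - Real.log h) : ℝ) : ℂ))))) := by
      intro l h
      apply Integrable.const_mul
      apply cs_mul hw
      exact (hUj.mul (hPc.pow 2)).mul (by fun_prop)
    have e0 : ∀ u : ℝ, (w u : ℂ) * (U (T * u) ^ j * ((starRingEnd ℂ) (P K (T * u)) ^ 2 *
        (DP b X (T * u) * (starRingEnd ℂ) (DP b X (T * u))))) =
        ∑ l ∈ Finset.range (X + 1), ∑ h ∈ Finset.range (X + 1),
        ((b h * b l / Real.sqrt ((h : ℝ) * l) : ℝ) : ℂ) * ((w u : ℂ) *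
        ((U (T * u) ^ j * (starRingEnd ℂ) (P K (T * u)) ^ 2) *
          Complex.exp (Complex.I * ((T * u * (Real.log l - Real.log h) : ℝ) : ℂ)))) := by
      intro u
      rw [← expandDP w (fun u => U (T * u) ^ j * (starRingEnd ℂ) (P K (T * u)) ^ 2) T X b b
        hb0 hb0 u]
      ring
    rw [hI2, integral_congr_ae (Filter.Eventually.of_forall e0), integral_finsetSum]
    swap
    · intro l _
      exact integrable_finsetSum _ fun h _ => hi l h
    refine (norm_sum_le _ _).trans ?_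
    have e1 : ∀ l ∈ Finset.range (X + 1), ‖∫ u : ℝ, ∑ h ∈ Finset.range (X + 1),
        ((b h * b l / Real.sqrt ((h : ℝ) * l) : ℝ) : ℂ) * ((w u : ℂ) *
        ((U (T * u) ^ j * (starRingEnd ℂ) (P K (T * u)) ^ 2) *
          Complex.exp (Complex.I * ((T * u * (Real.log l - Real.log h) : ℝ) : ℂ))))‖ ≤
        ∑ h ∈ Finset.range (X + 1), (b h * b l / Real.sqrt ((h : ℝ) * l)) *
          (4 * K * (C3 / T ^ 3)) := by
      intro l hl
      rw [integral_finsetSum]
      swap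
      · intro h _
        exact hi l h
      refine (norm_sum_le _ _).trans ?_
      exact Finset.sum_le_sum (s2 l hl)
    refine (Finset.sum_le_sum e1).trans (le_of_eq ?_)
    rw [Finset.sum_mul_sum, Finset.mul_sum, Finset.sum_comm]
    apply Finset.sum_congr rfl
    intro h _
    rw [Finset.mul_sum]
    apply Finset.sum_congr rfl
    intro l _
    rw [hcoef]
    ring
  -- powers of T
  have hnn : 0 ≤ ∑ h ∈ Finset.range (X + 1), b h / Real.sqrt h :=
    Finset.sum_nonneg fun n _ => div_nonneg (hb n) (Real.sqrt_nonneg _)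
  have hX13 : (X : ℝ) ≤ T ^ (1 / 3 : ℝ) := by
    have h5 : ((X : ℝ) ^ 3) ^ (1 / 3 : ℝ) ≤ T ^ (1 / 3 : ℝ) :=
      Real.rpow_le_rpow (by positivity) hX (by norm_num)
    have h6 : ((X : ℝ) ^ 3) ^ (1 / 3 : ℝ) = X := by
      rw [← Real.rpow_natCast, ← Real.rpow_mul (by positivity)]
      norm_num
    rwa [h6] at h5
  have h13 : 1 ≤ T ^ (1 / 3 : ℝ) := Real.one_le_rpow hT1 (by norm_num)
  have hXp : (X : ℝ) + 1 ≤ 2 * T ^ (1 / 3 : ℝ) := by linarith
  have hKT : K * T ^ (1 / 3 : ℝ) / T ^ 3 ≤ 1 / T ^ (1 / 20 : ℝ) := by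
    rw [div_le_div_iff₀ (by positivity) hr20, one_mul, hKdef, ← Real.rpow_add hTpos,
      ← Real.rpow_add hTpos, ← Real.rpow_natCast T 3]
    apply Real.rpow_le_rpow_of_exponent_le hT1
    norm_num
  have s8 : 4 * K * (C3 / T ^ 3) * ((∑ h ∈ Finset.range (X + 1), b h / Real.sqrt h) *
          ∑ l ∈ Finset.range (X + 1), b l / Real.sqrt l) ≤ 8 * C3 / T ^ (1 / 20 : ℝ) *
            GS b X := by
    have e1 := l1 b X
    have e3 : (∑ h ∈ Finset.range (X + 1), b h / Real.sqrt h) *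
          ∑ l ∈ Finset.range (X + 1), b l / Real.sqrt l ≤
        (Real.sqrt ((X : ℝ) + 1) * Real.sqrt (Q2 b X)) *
          (Real.sqrt ((X : ℝ) + 1) * Real.sqrt (Q2 b X)) :=
      mul_le_mul e1 e1 hnn (by positivity)
    have e4 : (Real.sqrt ((X : ℝ) + 1) * Real.sqrt (Q2 b X)) *
          (Real.sqrt ((X : ℝ) + 1) * Real.sqrt (Q2 b X)) = ((X : ℝ) + 1) * Q2 b X := by
      have h2 := Real.mul_self_sqrt (by positivity : (0 : ℝ) ≤ (X : ℝ) + 1)
      have h3 := Real.mul_self_sqrt hQn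
      calc (Real.sqrt ((X : ℝ) + 1) * Real.sqrt (Q2 b X)) *
          (Real.sqrt ((X : ℝ) + 1) * Real.sqrt (Q2 b X)) =
          (Real.sqrt ((X : ℝ) + 1) * Real.sqrt ((X : ℝ) + 1)) *
            (Real.sqrt (Q2 b X) * Real.sqrt (Q2 b X)) := by ring
        _ = ((X : ℝ) + 1) * Q2 b X := by rw [h2, h3]
    rw [e4] at e3
    have e5 : ((X : ℝ) + 1) * Q2 b X ≤ (2 * T ^ (1 / 3 : ℝ)) * GS b X :=
      mul_le_mul hXp hQG hQn (by positivity)
    calc 4 * K * (C3 / T ^ 3) * ((∑ h ∈ Finset.range (X + 1), b h / Real.sqrt h) *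
          ∑ l ∈ Finset.range (X + 1), b l / Real.sqrt l) ≤
          4 * K * (C3 / T ^ 3) * ((2 * T ^ (1 / 3 : ℝ)) * GS b X) :=
          mul_le_mul_of_nonneg_left (e3.trans e5) (by positivity)
      _ = 8 * C3 * GS b X * (K * T ^ (1 / 3 : ℝ) / T ^ 3) := by ring
      _ ≤ 8 * C3 * GS b X * (1 / T ^ (1 / 20 : ℝ)) :=
          mul_le_mul_of_nonneg_left hKT (by positivity)
      _ = 8 * C3 / T ^ (1 / 20 : ℝ) * GS b X := by ring
  -- logarithm
  have hlog : Real.log T / T ^ (1 / 10 : ℝ) ≤ 20 / T ^ (1 / 20 : ℝ) := by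
    have e1 := Real.log_le_rpow_div hTpos.le (by norm_num : (0 : ℝ) < 1 / 20)
    have e2 : T ^ (1 / 10 : ℝ) = T ^ (1 / 20 : ℝ) * T ^ (1 / 20 : ℝ) := by
      rw [← Real.rpow_add hTpos]
      norm_num
    rw [div_le_div_iff₀ hr10 hr20, e2]
    have e3 : Real.log T ≤ 20 * T ^ (1 / 20 : ℝ) := by
      calc Real.log T ≤ T ^ (1 / 20 : ℝ) / (1 / 20) := e1
        _ = 20 * T ^ (1 / 20 : ℝ) := by ring
    have e4 := mul_le_mul_of_nonneg_right e3 hr20.le
    linarith
  have h10 : 1 / T ^ (1 / 10 : ℝ) ≤ 1 / T ^ (1 / 20 : ℝ) := by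
    apply one_div_le_one_div_of_le hr20
    exact Real.rpow_le_rpow_of_exponent_le hT1 (by norm_num)
  have s9 : C0 / T ^ (1 / 10 : ℝ) * (C4 * Real.log T * GS b X + (1 + C0) * (C1 * Q2 b X)) ≤
      C0 * (20 * C4 + (1 + C0) * C1) / T ^ (1 / 20 : ℝ) * GS b X := by
    have e1 : C0 * C4 * GS b X * (Real.log T / T ^ (1 / 10 : ℝ)) ≤
        C0 * C4 * GS b X * (20 / T ^ (1 / 20 : ℝ)) :=
      mul_le_mul_of_nonneg_left hlog (by positivity)
    have e2 : C0 * (1 + C0) * C1 * Q2 b X * (1 / T ^ (1 / 10 : ℝ)) ≤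
        C0 * (1 + C0) * C1 * GS b X * (1 / T ^ (1 / 20 : ℝ)) := by
      apply mul_le_mul _ h10 (by positivity) (by positivity)
      exact mul_le_mul_of_nonneg_left hQG (by positivity)
    calc C0 / T ^ (1 / 10 : ℝ) * (C4 * Real.log T * GS b X + (1 + C0) * (C1 * Q2 b X)) =
          C0 * C4 * GS b X * (Real.log T / T ^ (1 / 10 : ℝ)) +
            C0 * (1 + C0) * C1 * Q2 b X * (1 / T ^ (1 / 10 : ℝ)) := by ring
      _ ≤ C0 * C4 * GS b X * (20 / T ^ (1 / 20 : ℝ)) +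
            C0 * (1 + C0) * C1 * GS b X * (1 / T ^ (1 / 20 : ℝ)) := add_le_add e1 e2
      _ = C0 * (20 * C4 + (1 + C0) * C1) / T ^ (1 / 20 : ℝ) * GS b X := by ring
  have h2 : I1 = I2 + (I1 - I2) := by ring
  have h3 : ‖I1‖ ≤ ‖I2‖ + ‖I1 - I2‖ := by
    calc ‖I1‖ = ‖I2 + (I1 - I2)‖ := by rw [← h2]
      _ ≤ _ := norm_add_le _ _
  have s12 : (C0 * (20 * C4 + (1 + C0) * C1) + 8 * C3) / T ^ (1 / 20 : ℝ) * GS b X =
      C0 * (20 * C4 + (1 + C0) * C1) / T ^ (1 / 20 : ℝ) * GS b X +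
        8 * C3 / T ^ (1 / 20 : ℝ) * GS b X := by ring
  rw [s12]
  linarith

end Pool.Agent.Work.MP_56b8f5_nt.WA
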