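import Pool.Agent.Work.MP_56b8f5_nt.WA.StmtsB
import Pool.Agent.Work.MP_56b8f5_nt.WA.I_PsiB

/-!
MP_56b8f5_nt, block WB, item P2 (PsiB3): bound for `psi3`.
-/

set_option autoImplicit false

open MeasureTheory Set Filter Topology

noncomputable section

namespace Pool.Agent.Work.MP_56b8f5_nt.WA

open Pool.Agent.Work.MP_56b8f5_nt.EM
open Pool.Agent.Work.MP_56b8f5_nt.WM

namespace I_PsiB3

theorem sum4 {t : ℝ} (ht : 0 < t) (n : ℕ) :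
    t ^ 2 * ∑ k ∈ Finset.range (n + 1), (4 * (k : ℝ) + 1) /
      ((4 * (k : ℝ) + 1) ^ 2 + 4 * t ^ 2) ^ 4 ≤ 1 / 4 *
    ∑ k ∈ Finset.range (n + 1), (4 * (k : ℝ) + 1) / ((4 * (k : ℝ) + 1) ^ 2 + 4 * t ^ 2) ^ 3 := by
  rw [Finset.mul_sum, Finset.mul_sum]
  apply Finset.sum_le_sum
  intro k _
  have ha : (0 : ℝ) < 4 * (k : ℝ) + 1 := by positivity
  have hY : 0 < (4 * (k : ℝ) + 1) ^ 2 + 4 * t ^ 2 := by positivity
  have e : 1 / 4 * ((4 * (k : ℝ) + 1) / ((4 * (k : ℝ) + 1) ^ 2 + 4 * t ^ 2) ^ 3) -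
      t ^ 2 * ((4 * (k : ℝ) + 1) / ((4 * (k : ℝ) + 1) ^ 2 + 4 * t ^ 2) ^ 4) =
      1 / 4 * ((4 * (k : ℝ) + 1) ^ 3 / ((4 * (k : ℝ) + 1) ^ 2 + 4 * t ^ 2) ^ 4) := by
    field_simp
    ring
  have h : 0 ≤ 1 / 4 * ((4 * (k : ℝ) + 1) ^ 3 / ((4 * (k : ℝ) + 1) ^ 2 + 4 * t ^ 2) ^ 4) := by
    positivity
  linarith

theorem nonneg4 (t : ℝ) (n : ℕ) : 0 ≤
    ∑ k ∈ Finset.range (n + 1), (4 * (k : ℝ) + 1) / ((4 * (k : ℝ) + 1) ^ 2 + 4 * t ^ 2) ^ 4 := by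
  apply Finset.sum_nonneg
  intro k _
  positivity

end I_PsiB3

open I_PsiB I_PsiB3 in
theorem PsiB3_pf : S_PsiB3 := by
  refine ⟨768, by norm_num, ?_⟩
  intro t ht n
  have ht0 : 0 < t := by linarith
  unfold psi3
  have h2 := sum2' ht0 n
  have h3 := sum3 ht0 n
  have h4 := sum4 ht0 n
  have p3 := nonneg3 t n
  have p4 := nonneg4 t n
  generalize (∑ k ∈ Finset.range (n + 1), (4 * (k : ℝ) + 1) /
    ((4 * (k : ℝ) + 1) ^ 2 + 4 * t ^ 2) ^ 2) = S2 at h2 h3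
  generalize (∑ k ∈ Finset.range (n + 1), (4 * (k : ℝ) + 1) /
    ((4 * (k : ℝ) + 1) ^ 2 + 4 * t ^ 2) ^ 3) = S3 at h3 h4 p3 ⊢
  generalize (∑ k ∈ Finset.range (n + 1), (4 * (k : ℝ) + 1) /
    ((4 * (k : ℝ) + 1) ^ 2 + 4 * t ^ 2) ^ 4) = S4 at h4 p4 ⊢
  have h5 : t ^ 2 * S3 ≤ 1 / 4 * (1 / t ^ 2) := by linarith
  have h6 : t * S3 ≤ 1 / 4 * (1 / t ^ 3) := by
    have h7 : t * S3 = (t ^ 2 * S3) / t := by field_simp
    have h8 : 1 / 4 * (1 / t ^ 3) = (1 / 4 * (1 / t ^ 2)) / t := by field_simp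
    rw [h7, h8]
    exact div_le_div_of_nonneg_right h5 ht0.le
  have h7 : t ^ 3 * S4 ≤ 1 / 4 * (t * S3) := by
    have h8 : t ^ 3 * S4 = t * (t ^ 2 * S4) := by ring
    have h9 : 1 / 4 * (t * S3) = t * (1 / 4 * S3) := by ring
    rw [h8, h9]
    exact mul_le_mul_of_nonneg_left h4 ht0.le
  have h8 : 0 ≤ t ^ 3 * S4 := by positivity
  have h9 : 0 ≤ t * S3 := by positivity
  have h10 : 768 / t ^ 3 = 768 * (1 / t ^ 3) := by ring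
  have h11 : 0 ≤ 1 / t ^ 3 := by positivity
  rw [h10, abs_le]
  constructor
  · have e1 : 12288 * t ^ 3 * S4 - 1536 * t * S3 = 12288 * (t ^ 3 * S4) - 1536 * (t * S3) := by ring
    rw [e1]
    linarith
  · have e1 : 12288 * t ^ 3 * S4 - 1536 * t * S3 = 12288 * (t ^ 3 * S4) - 1536 * (t * S3) := by ring
    rw [e1]
    linarith

end Pool.Agent.Work.MP_56b8f5_nt.WA
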