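import Pool.Agent.Work.MP_56b8f5_nt.WA.StmtsB
import Pool.Agent.Work.MP_56b8f5_nt.WA.I_PsiD

/-!
MP_56b8f5_nt, block WB, item P1 (PsiD3): fourth derivative of `Psi n`.
-/

set_option autoImplicit false

open MeasureTheory Set Filter Topology

noncomputable section

namespace Pool.Agent.Work.MP_56b8f5_nt.WA

open Pool.Agent.Work.MP_56b8f5_nt.EM
open Pool.Agent.Work.MP_56b8f5_nt.WM

namespace I_PsiD3

theorem d4 (k : ℕ) (t : ℝ) :
    HasDerivAt (fun t : ℝ => (4 * (k : ℝ) + 1) / ((4 * (k : ℝ) + 1) ^ 2 + 4 * t ^ 2) ^ 3)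
      (-(24 * t * ((4 * (k : ℝ) + 1) / ((4 * (k : ℝ) + 1) ^ 2 + 4 * t ^ 2) ^ 4))) t := by
  have hd := I_PsiD.dpos k t
  have h := (hasDerivAt_const t (4 * (k : ℝ) + 1)).div ((I_PsiD.dden k t).pow 3) (pow_pos hd 3).ne'
  refine h.congr_deriv ?_
  simp only [Pi.pow_apply]
  push_cast
  field_simp
  ring

theorem dpsi2 (n : ℕ) (t : ℝ) : HasDerivAt (psi2 n) (psi3 n t) t := by
  have hs2 : HasDerivAt (fun t : ℝ => ∑ k ∈ Finset.range (n + 1),
      (4 * (k : ℝ) + 1) / ((4 * (k : ℝ) + 1) ^ 2 + 4 * t ^ 2) ^ 2)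
      (∑ k ∈ Finset.range (n + 1),
        (-(16 * t * ((4 * (k : ℝ) + 1) / ((4 * (k : ℝ) + 1) ^ 2 + 4 * t ^ 2) ^ 3)))) t :=
    HasDerivAt.fun_sum fun k _ => I_PsiD.d3 k t
  have hs3 : HasDerivAt (fun t : ℝ => ∑ k ∈ Finset.range (n + 1),
      (4 * (k : ℝ) + 1) / ((4 * (k : ℝ) + 1) ^ 2 + 4 * t ^ 2) ^ 3)
      (∑ k ∈ Finset.range (n + 1),
        (-(24 * t * ((4 * (k : ℝ) + 1) / ((4 * (k : ℝ) + 1) ^ 2 + 4 * t ^ 2) ^ 4)))) t :=
    HasDerivAt.fun_sum fun k _ => d4 k t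
  have hq : HasDerivAt (fun t : ℝ => 512 * t ^ 2) (1024 * t) t := by
    have h := ((hasDerivAt_id t).pow 2).const_mul (512 : ℝ)
    refine h.congr_deriv ?_
    simp
    ring
  have h := (hs2.const_mul 32).sub (hq.mul hs3)
  refine h.congr_deriv ?_
  unfold psi3
  rw [Finset.sum_neg_distrib, Finset.sum_neg_distrib, ← Finset.mul_sum, ← Finset.mul_sum]
  ring

theorem cpsi3 (n : ℕ) : Continuous (psi3 n) := by
  unfold psi3
  have h1 : ∀ (e : ℕ) (k : ℕ), Continuous fun t : ℝ =>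
      (4 * (k : ℝ) + 1) / ((4 * (k : ℝ) + 1) ^ 2 + 4 * t ^ 2) ^ e := by
    intro e k
    refine continuous_const.div (by fun_prop) fun t => (pow_pos (I_PsiD.dpos k t) e).ne'
  refine ((by fun_prop : Continuous fun t : ℝ => 12288 * t ^ 3).mul
      (continuous_finsetSum _ fun k _ => h1 4 k)).sub
    ((by fun_prop : Continuous fun t : ℝ => 1536 * t).mul
      (continuous_finsetSum _ fun k _ => h1 3 k))

end I_PsiD3

theorem PsiD3_pf : S_PsiD3 := fun n t => ⟨I_PsiD3.dpsi2 n t, I_PsiD3.cpsi3 n⟩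

end Pool.Agent.Work.MP_56b8f5_nt.WA
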