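import Pool.Agent.Work.MP_56b8f5_nt.WA.StmtsB
import Mathlib.Analysis.Fourier.AddCircle

/-! MP_56b8f5_nt, block WB: item `SWr` (T1), helper64. -/

set_option autoImplicit false

open MeasureTheory Set Filter Topology

noncomputable section

namespace Pool.Agent.Work.MP_56b8f5_nt.WA

open Pool.Agent.Work.MP_56b8f5_nt.EM
open Pool.Agent.Work.MP_56b8f5_nt.WM

namespace I_SWr

/-- `z` on the circle -/
def ze (x : ℝ) : ℂ := Complex.exp (Complex.I * (x : ℝ))

lemma ze_pow (x : ℝ) (m : ℕ) : ze x ^ m = Complex.exp (((m : ℂ) * Complex.I) * x) := by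
  unfold ze
  rw [← Complex.exp_nat_mul]
  congr 1
  ring

lemma cont_ze : Continuous ze := by
  unfold ze
  fun_prop

lemma int_pow (m : ℕ) (hm : 1 ≤ m) : ∫ x in (0 : ℝ)..(2 * Real.pi), ze x ^ m = 0 := by
  simp_rw [ze_pow]
  have hc : ((m : ℂ) * Complex.I) ≠ 0 :=
    mul_ne_zero (by exact_mod_cast (by omega : m ≠ 0)) Complex.I_ne_zero
  rw [integral_exp_mul_complex hc]
  have h1 : Complex.exp ((m : ℂ) * Complex.I * ((2 * Real.pi : ℝ) : ℂ)) = 1 := by
    rw [Complex.exp_eq_one_iff]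
    refine ⟨m, ?_⟩
    push_cast
    ring
  rw [h1]
  simp

lemma cont_sum (n : ℕ) (p : ℕ → ℂ) : Continuous fun x : ℝ => ∑ m ∈ Finset.Icc 1 n, p m * ze x ^ m := by
  refine continuous_finsetSum _ fun m _ => ?_
  exact continuous_const.mul (cont_ze.pow m)

lemma cont_TP (n : ℕ) (p0 : ℝ) (p : ℕ → ℂ) : Continuous fun x : ℝ => TP n p0 p (ze x) := by
  unfold TP
  exact continuous_const.add (continuous_const.mul (Complex.continuous_re.comp (cont_sum n p)))

lemma int_TP (n : ℕ) (p0 : ℝ) (p : ℕ → ℂ) :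
    ∫ x in (0 : ℝ)..(2 * Real.pi), TP n p0 p (ze x) = 2 * Real.pi * p0 := by
  have hre : ∫ x in (0 : ℝ)..(2 * Real.pi), (∑ m ∈ Finset.Icc 1 n, p m * ze x ^ m).re = 0 := by
    have := Complex.reCLM.intervalIntegral_comp_comm (μ := volume) (a := 0) (b := 2 * Real.pi)
      (f := fun x : ℝ => ∑ m ∈ Finset.Icc 1 n, p m * ze x ^ m)
      ((cont_sum n p).intervalIntegrable _ _)
    simp only [Complex.reCLM_apply] at this
    rw [this, intervalIntegral.integral_finsetSum]
    · rw [Finset.sum_eq_zero]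
      · simp
      · intro m hm
        rw [intervalIntegral.integral_const_mul, int_pow m (Finset.mem_Icc.1 hm).1, mul_zero]
    · intro m _
      exact (continuous_const.mul (cont_ze.pow m)).intervalIntegrable _ _
  have hc : Continuous fun x : ℝ => 2 * (∑ m ∈ Finset.Icc 1 n, p m * ze x ^ m).re :=
    continuous_const.mul (Complex.continuous_re.comp (cont_sum n p))
  unfold TP
  rw [intervalIntegral.integral_add (by simp) (hc.intervalIntegrable _ _),
    intervalIntegral.integral_const_mul, hre]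
  simp

/-- the class of functions whose multiples have real part `TP` -/
def Good (h : C(AddCircle (2 * Real.pi), ℂ)) : Prop := ∀ c : ℂ, ∃ (n : ℕ) (p0 : ℝ) (p : ℕ → ℂ),
  ∀ x : ℝ, (c * h (x : AddCircle (2 * Real.pi))).re = TP n p0 p (ze x)

lemma TP_ext (n N : ℕ) (h : n ≤ N) (p0 : ℝ) (p : ℕ → ℂ) (z : ℂ) :
    TP n p0 p z = TP N p0 (fun m => if m ≤ n then p m else 0) z := by
  unfold TP
  congr 3
  have hsub : Finset.Icc 1 n ⊆ Finset.Icc 1 N := Finset.Icc_subset_Icc le_rfl h
  rw [← Finset.sum_subset hsub (f := fun m => (if m ≤ n then p m else 0) * z ^ m)]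
  · refine Finset.sum_congr rfl fun m hm => ?_
    rw [if_pos (Finset.mem_Icc.1 hm).2]
  · intro m hm hm'
    have : ¬ m ≤ n := fun hle => hm' (Finset.mem_Icc.2 ⟨(Finset.mem_Icc.1 hm).1, hle⟩)
    rw [if_neg this, zero_mul]

lemma TP_add (n : ℕ) (p0 q0 : ℝ) (p q : ℕ → ℂ) (z : ℂ) :
    TP n p0 p z + TP n q0 q z = TP n (p0 + q0) (fun m => p m + q m) z := by
  unfold TP
  simp only [add_mul, Finset.sum_add_distrib, Complex.add_re]
  ring

lemma good_add (h k : C(AddCircle (2 * Real.pi), ℂ)) (hh : Good h) (hk : Good k) : Good (h + k) := by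
  intro c
  obtain ⟨n, p0, p, hp⟩ := hh c
  obtain ⟨n', q0, q, hq⟩ := hk c
  refine ⟨max n n', p0 + q0, fun m => (if m ≤ n then p m else 0) + (if m ≤ n' then q m else 0), ?_⟩
  intro x
  rw [← TP_add, ← TP_ext n _ (le_max_left _ _), ← TP_ext n' _ (le_max_right _ _), ← hp, ← hq,
    ContinuousMap.add_apply, mul_add, Complex.add_re]

lemma good_smul (a : ℂ) (h : C(AddCircle (2 * Real.pi), ℂ)) (hh : Good h) : Good (a • h) := by
  intro c
  obtain ⟨n, p0, p, hp⟩ := hh (c * a)
  refine ⟨n, p0, p, fun x => ?_⟩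
  rw [← hp, ContinuousMap.smul_apply, smul_eq_mul, mul_assoc]

lemma good_zero : Good 0 := by
  intro c
  refine ⟨0, 0, 0, fun x => ?_⟩
  simp [TP]

lemma TP_single (k : ℕ) (hk : 1 ≤ k) (a z : ℂ) :
    TP k 0 (fun m => if m = k then a / 2 else 0) z = (a * z ^ k).re := by
  unfold TP
  rw [Finset.sum_eq_single k]
  · simp only [if_true]
    have : a / 2 * z ^ k = ((1 / 2 : ℝ) : ℂ) * (a * z ^ k) := by
      push_cast
      ring
    rw [this, Complex.re_ofReal_mul]
    ring
  · intro m _ hm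
    simp only [if_neg hm, zero_mul]
  · intro h
    exact absurd (Finset.mem_Icc.2 ⟨hk, le_rfl⟩) h

lemma fourier_ze (k : ℕ) (x : ℝ) :
    fourier (T := 2 * Real.pi) (k : ℤ) (x : AddCircle (2 * Real.pi)) = ze x ^ k := by
  rw [fourier_coe_apply, ze_pow]
  congr 1
  have : (Real.pi : ℂ) ≠ 0 := by exact_mod_cast Real.pi_ne_zero
  push_cast
  field_simp

lemma good_fourier (k : ℤ) : Good (fourier (T := 2 * Real.pi) k) := by
  intro c
  rcases Int.eq_nat_or_neg k with ⟨m, rfl | rfl⟩
  · rcases Nat.eq_zero_or_pos m with rfl | hm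
    · refine ⟨0, c.re, 0, fun x => ?_⟩
      simp [TP]
    · refine ⟨m, 0, fun j => if j = m then c / 2 else 0, fun x => ?_⟩
      rw [TP_single m hm, fourier_ze]
  · rcases Nat.eq_zero_or_pos m with rfl | hm
    · refine ⟨0, c.re, 0, fun x => ?_⟩
      simp [TP]
    · refine ⟨m, 0, fun j => if j = m then (starRingEnd ℂ) c / 2 else 0, fun x => ?_⟩
      rw [TP_single m hm, fourier_neg, fourier_ze, ← Complex.conj_re, map_mul, Complex.conj_conj]

lemma good_span (h : C(AddCircle (2 * Real.pi), ℂ))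
    (hh : h ∈ Submodule.span ℂ (range (@fourier (2 * Real.pi)))) : Good h := by
  induction hh using Submodule.span_induction with
  | mem x hx =>
    obtain ⟨k, rfl⟩ := hx
    exact good_fourier k
  | zero => exact good_zero
  | add x y _ _ hx hy => exact good_add x y hx hy
  | smul a x _ hx => exact good_smul a x hx

end I_SWr

open I_SWr in
theorem SWr_pf : S_SWr := by
  intro g hg hper τ hτ
  have : Fact (0 < 2 * Real.pi) := ⟨Real.two_pi_pos⟩
  have hperG : Function.Periodic (fun x : ℝ => ((g x : ℝ) : ℂ)) (2 * Real.pi) := by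
    intro x
    simp only [hper x]
  let G : C(AddCircle (2 * Real.pi), ℂ) :=
    ⟨hperG.lift, continuous_coinduced_dom.mpr (Complex.continuous_ofReal.comp hg)⟩
  have hG : ∀ x : ℝ, G (x : AddCircle (2 * Real.pi)) = ((g x : ℝ) : ℂ) := fun x => by
    show hperG.lift (x : AddCircle (2 * Real.pi)) = _
    exact hperG.lift_coe x
  have hmem : G ∈ (Submodule.span ℂ (range (@fourier (2 * Real.pi)))).topologicalClosure := by
    rw [span_fourier_closure_eq_top]
    exact Submodule.mem_top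
  obtain ⟨h, hh, hd⟩ := Metric.mem_closure_iff.1 hmem τ hτ
  obtain ⟨n, p0, p, hp⟩ := good_span h hh 1
  have hmain : ∀ x : ℝ, |g x - TP n p0 p (Complex.exp (Complex.I * (x : ℝ)))| ≤ τ := by
    intro x
    have h1 : TP n p0 p (Complex.exp (Complex.I * (x : ℝ))) = (h (x : AddCircle (2 * Real.pi))).re := by
      have := hp x
      rw [one_mul] at this
      rw [this]
      rfl
    rw [h1]
    have h2 : g x - (h (x : AddCircle (2 * Real.pi))).re =
        (G (x : AddCircle (2 * Real.pi)) - h (x : AddCircle (2 * Real.pi))).re := by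
      rw [hG, Complex.sub_re, Complex.ofReal_re]
    rw [h2]
    refine (Complex.abs_re_le_norm _).trans ?_
    rw [← dist_eq_norm]
    exact (ContinuousMap.dist_apply_le_dist _).trans hd.le
  refine ⟨n, p0, p, hmain, ?_⟩
  have hI := int_TP n p0 p
  have hpi := Real.two_pi_pos
  have hsub : ∫ x in (0 : ℝ)..(2 * Real.pi), (TP n p0 p (ze x) - g x) =
      2 * Real.pi * p0 - ∫ x in (0 : ℝ)..(2 * Real.pi), g x := by
    rw [intervalIntegral.integral_sub ((cont_TP n p0 p).intervalIntegrable _ _)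
      (hg.intervalIntegrable _ _), hI]
  have hb : ‖∫ x in (0 : ℝ)..(2 * Real.pi), (TP n p0 p (ze x) - g x)‖ ≤ τ * |2 * Real.pi - 0| := by
    refine intervalIntegral.norm_integral_le_of_norm_le_const fun x _ => ?_
    rw [Real.norm_eq_abs, abs_sub_comm]
    exact hmain x
  rw [hsub, Real.norm_eq_abs, sub_zero, abs_of_pos hpi] at hb
  have heq : p0 - 1 / (2 * Real.pi) * ∫ x in (0 : ℝ)..(2 * Real.pi), g x =
      (2 * Real.pi * p0 - ∫ x in (0 : ℝ)..(2 * Real.pi), g x) / (2 * Real.pi) := by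
    field_simp
  rw [heq, abs_div, abs_of_pos hpi, div_le_iff₀ hpi]
  exact hb

end Pool.Agent.Work.MP_56b8f5_nt.WA
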