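import Pool.Agent.Work.MP_56b8f5_nt.WA.StmtsB

/-!
Item TrigU of block WB: the sector argument for the upper bound.
-/

set_option autoImplicit false

open MeasureTheory Set Filter Topology

noncomputable section

namespace Pool.Agent.Work.MP_56b8f5_nt.WA

open Pool.Agent.Work.MP_56b8f5_nt.EM
open Pool.Agent.Work.MP_56b8f5_nt.WM

namespace I_TrigU

/-- The square of the normalised value. -/
theorem sq_eq {f V ω : ℂ} (hf : f ≠ 0) (hV : ‖V‖ = 1) (h : (starRingEnd ℂ) f = V * f) :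
    ((starRingEnd ℂ) ω * f / (‖f‖ : ℂ)) ^ 2 = ((starRingEnd ℂ) ω) ^ 2 * (starRingEnd ℂ) V := by
  have hn : (‖f‖ : ℂ) ≠ 0 := by exact_mod_cast norm_ne_zero_iff.mpr hf
  have h1 : f * (starRingEnd ℂ) f = (‖f‖ : ℂ) ^ 2 := Complex.mul_conj' f
  have h2 : V * (starRingEnd ℂ) V = 1 := by
    rw [Complex.mul_conj', hV]; norm_num
  rw [div_pow, mul_pow, ← h1, h]
  have hV0 : V ≠ 0 := by
    intro h0; rw [h0, norm_zero] at hV; exact zero_ne_one hV
  rw [div_eq_iff (mul_ne_zero hf (mul_ne_zero hV0 hf))]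
  calc (starRingEnd ℂ) ω ^ 2 * f ^ 2 = (starRingEnd ℂ) ω ^ 2 * f ^ 2 * (V * (starRingEnd ℂ) V) := by
        rw [h2, mul_one]
    _ = (starRingEnd ℂ) ω ^ 2 * (starRingEnd ℂ) V * (f * (V * f)) := by ring

theorem norm_z {f ω : ℂ} (hf : f ≠ 0) (hω : ‖ω‖ = 1) :
    ‖(starRingEnd ℂ) ω * f / (‖f‖ : ℂ)‖ = 1 := by
  have hn : ‖f‖ ≠ 0 := norm_ne_zero_iff.mpr hf
  rw [norm_div, norm_mul, RCLike.norm_conj, hω, one_mul, Complex.norm_real, norm_norm, div_self hn]

theorem re_z {f ω : ℂ} :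
    ((starRingEnd ℂ) ω * f / (‖f‖ : ℂ)).re = ((starRingEnd ℂ) ω * f).re / ‖f‖ :=
  Complex.div_ofReal_re _ _

end I_TrigU

open I_TrigU in
theorem TrigU_pf (h1 : S_KerU) : S_TrigU := by
  intro C₀ hC₀
  refine ⟨2 * C₀ + 1, by linarith, ?_⟩
  intro θ hθ hθπ
  obtain ⟨n, p0, p, hp0, hp⟩ := h1 θ (θ / 4) hθ hθπ (by linarith)
  set P : ℝ := ∑ m ∈ Finset.Icc 1 n, ‖p m‖ with hP
  have hP0 : 0 ≤ P := Finset.sum_nonneg fun m _ => norm_nonneg _
  refine ⟨n, θ / (2 * (P + 1)), by positivity, ?_⟩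
  intro w hwc hws hw0 X f V G hX hf hV hG hG0 hV1 hfV htot hosc ω hω
  set v : ℝ → ℂ := fun u => ((starRingEnd ℂ) ω) ^ 2 * (starRingEnd ℂ) (V u) with hv
  have hcV : Continuous fun u => (starRingEnd ℂ) (V u) := Complex.continuous_conj.comp hV
  have hvc : Continuous v := continuous_const.mul hcV
  have hv1 : ∀ u, ‖v u‖ = 1 := by
    intro u
    rw [hv]
    simp only [norm_mul, norm_pow, RCLike.norm_conj, hω, hV1 u]
    norm_num
  have hwC : Continuous fun u => (w u : ℂ) := Complex.continuous_ofReal.comp hwc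
  have hwCs : HasCompactSupport fun u => (w u : ℂ) := hws.comp_left Complex.ofReal_zero
  have hGC : Continuous fun u => (G u : ℂ) := Complex.continuous_ofReal.comp hG
  have hTc : Continuous fun u => TP n p0 p (v u) := by
    unfold TP
    refine continuous_const.add (continuous_const.mul (Complex.continuous_re.comp ?_))
    exact continuous_finsetSum _ fun m _ => continuous_const.mul (hvc.pow m)
  have hwG : Continuous fun u => w u * G u := hwc.mul hG
  have hIG : Integrable fun u => w u * G u :=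
    hwG.integrable_of_hasCompactSupport hws.mul_right
  have hIm : ∀ m : ℕ, Integrable fun u => (w u : ℂ) * (v u ^ m * (G u : ℂ)) := fun m =>
    (hwC.mul ((hvc.pow m).mul hGC)).integrable_of_hasCompactSupport hwCs.mul_right
  have hIT : Integrable fun u => w u * G u * (TP n p0 p (v u) + θ / 4) :=
    (hwG.mul (hTc.add continuous_const)).integrable_of_hasCompactSupport
      (hws.mul_right.mul_right)
  have hmeas : MeasurableSet (sec θ ω f) := by
    unfold sec
    exact (isOpen_lt (continuous_const.mul hf.norm)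
      (Complex.continuous_re.comp (continuous_const.mul hf))).measurableSet
  -- pointwise bound
  have hle : ∫ u in sec θ ω f, w u * G u ≤ ∫ u, w u * G u * (TP n p0 p (v u) + θ / 4) := by
    rw [← integral_indicator hmeas]
    refine integral_mono (hIG.indicator hmeas) hIT ?_
    intro u
    have hwG0 : 0 ≤ w u * G u := mul_nonneg (hw0 u) (hG0 u)
    have hpos : 0 ≤ TP n p0 p (v u) + θ / 4 := (hp (v u) (hv1 u)).1
    by_cases hu : u ∈ sec θ ω f
    · simp only [Set.indicator_of_mem hu]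
      have hu' : Real.cos θ * ‖f u‖ < ((starRingEnd ℂ) ω * f u).re := hu
      have hfu : f u ≠ 0 := by
        intro h0
        rw [h0] at hu'
        simp at hu'
      have hn : 0 < ‖f u‖ := norm_pos_iff.mpr hfu
      have hz := (hp _ (norm_z hfu hω)).2
      rw [re_z, if_pos ((lt_div_iff₀ hn).mpr hu'), sq_eq hfu (hV1 u) (hfV u)] at hz
      calc w u * G u = w u * G u * 1 := (mul_one _).symm
        _ ≤ w u * G u * (TP n p0 p (v u) + θ / 4) := mul_le_mul_of_nonneg_left hz hwG0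
    · simp only [Set.indicator_of_notMem hu]
      exact mul_nonneg hwG0 hpos
  -- the value of the integral
  have hval : ∫ u, w u * G u * (TP n p0 p (v u) + θ / 4) =
      (p0 + θ / 4) * (∫ u, w u * G u) +
        2 * (∑ m ∈ Finset.Icc 1 n, p m * ∫ u, (w u : ℂ) * (v u ^ m * (G u : ℂ))).re := by
    have hIS : Integrable fun u => ∑ m ∈ Finset.Icc 1 n, p m * ((w u : ℂ) * (v u ^ m * (G u : ℂ))) :=
      integrable_finsetSum _ fun m _ => (hIm m).const_mul _
    have e1 : (∑ m ∈ Finset.Icc 1 n, p m * ∫ u, (w u : ℂ) * (v u ^ m * (G u : ℂ))).re =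
        ∫ u, (∑ m ∈ Finset.Icc 1 n, p m * ((w u : ℂ) * (v u ^ m * (G u : ℂ)))).re := by
      have e2 : (∑ m ∈ Finset.Icc 1 n, p m * ∫ u, (w u : ℂ) * (v u ^ m * (G u : ℂ))) =
          ∫ u, ∑ m ∈ Finset.Icc 1 n, p m * ((w u : ℂ) * (v u ^ m * (G u : ℂ))) := by
        rw [integral_finsetSum _ fun m _ => (hIm m).const_mul _]
        exact Finset.sum_congr rfl fun m _ => (integral_const_mul _ _).symm
      rw [e2]
      have := integral_re hIS
      simpa using this.symm
    have e4 : ∀ u, w u * G u * (TP n p0 p (v u) + θ / 4) = (p0 + θ / 4) * (w u * G u) +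
        2 * (∑ m ∈ Finset.Icc 1 n, p m * ((w u : ℂ) * (v u ^ m * (G u : ℂ)))).re := by
      intro u
      have e3 : (∑ m ∈ Finset.Icc 1 n, p m * ((w u : ℂ) * (v u ^ m * (G u : ℂ)))) =
          ((w u * G u : ℝ) : ℂ) * ∑ m ∈ Finset.Icc 1 n, p m * v u ^ m := by
        rw [Finset.mul_sum]
        refine Finset.sum_congr rfl fun m _ => ?_
        push_cast
        ring
      rw [e3, Complex.re_ofReal_mul]
      unfold TP
      ring
    have hIr : Integrable fun u => 2 * (∑ m ∈ Finset.Icc 1 n, p m * ((w u : ℂ) * (v u ^ m * (G u : ℂ)))).re :=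
      hIS.re.const_mul _
    rw [integral_congr_ae (Eventually.of_forall e4), integral_add (hIG.const_mul _) hIr,
      integral_const_mul, integral_const_mul, e1]
  -- the harmonics
  have hm : ∀ m ∈ Finset.Icc 1 n, ‖∫ u, (w u : ℂ) * (v u ^ m * (G u : ℂ))‖ ≤ θ / (2 * (P + 1)) * X := by
    intro m hm
    rw [Finset.mem_Icc] at hm
    have e : ∀ u : ℝ, (w u : ℂ) * (v u ^ m * (G u : ℂ)) = (((starRingEnd ℂ) ω) ^ 2) ^ m *
        (starRingEnd ℂ) ((w u : ℂ) * (V u ^ m * (G u : ℂ))) := by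
      intro u
      simp only [hv, map_mul, map_pow, Complex.conj_ofReal]
      ring
    simp_rw [e]
    rw [integral_const_mul, integral_conj, norm_mul, RCLike.norm_conj]
    have : ‖(((starRingEnd ℂ) ω) ^ 2) ^ m‖ = 1 := by
      simp only [norm_pow, RCLike.norm_conj, hω, one_pow]
    rw [this, one_mul]
    exact hosc m hm.1 hm.2
  have hsum : (∑ m ∈ Finset.Icc 1 n, p m * ∫ u, (w u : ℂ) * (v u ^ m * (G u : ℂ))).re ≤
      P * (θ / (2 * (P + 1)) * X) := by
    refine (Complex.re_le_norm _).trans ((norm_sum_le _ _).trans ?_)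
    rw [hP, Finset.sum_mul]
    refine Finset.sum_le_sum fun m hmm => ?_
    rw [norm_mul]
    exact mul_le_mul_of_nonneg_left (hm m hmm) (norm_nonneg _)
  have hI0 : 0 ≤ ∫ u, w u * G u := integral_nonneg fun u => mul_nonneg (hw0 u) (hG0 u)
  have h3 : (p0 + θ / 4) * (∫ u, w u * G u) ≤ (3 / 2 * θ) * (C₀ * X) :=
    (mul_le_mul_of_nonneg_right (by linarith) hI0).trans
      (mul_le_mul_of_nonneg_left htot (by positivity))
  have h4 : P * (θ / (2 * (P + 1)) * X) ≤ θ / 2 * X := by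
    have : P * (θ / (2 * (P + 1))) ≤ θ / 2 := by
      rw [← mul_div_assoc, div_le_div_iff₀ (by positivity) (by norm_num)]
      nlinarith
    calc P * (θ / (2 * (P + 1)) * X) = P * (θ / (2 * (P + 1))) * X := by ring
      _ ≤ _ := mul_le_mul_of_nonneg_right this hX
  have h5 : 0 ≤ θ * (C₀ * X) := by positivity
  calc ∫ u in sec θ ω f, w u * G u ≤ _ := hle
    _ = _ := hval
    _ ≤ (3 / 2 * θ) * (C₀ * X) + 2 * (θ / 2 * X) := by linarith
    _ ≤ (2 * C₀ + 1) * θ * X := by nlinarith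

end Pool.Agent.Work.MP_56b8f5_nt.WA
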