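import Pool.Agent.Work.MP_56b8f5_nt.WA.StmtsB

/-!
MP_56b8f5_nt, block WB, item R4 (UpAu): the upper bound in a sector at scale `T`. Adaptation of `WM/I_UpS.lean`.
-/

set_option autoImplicit false

open MeasureTheory Set Filter Topology

noncomputable section

namespace Pool.Agent.Work.MP_56b8f5_nt.WA

open Pool.Agent.Work.MP_56b8f5_nt.EM
open Pool.Agent.Work.MP_56b8f5_nt.WM

namespace I_UpAu

lemma cont_DP (b : ℕ → ℝ) (X : ℕ) : Continuous (DP b X) := by
  unfold DP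
  refine continuous_finsetSum _ fun n _ => ?_
  refine continuous_const.mul ?_
  rcases Nat.eq_zero_or_pos n with rfl | hn
  · have : (fun t : ℝ => ((0 : ℕ) : ℂ) ^ (-(1 / 2 + (t : ℂ) * Complex.I))) = fun _ => 0 := by
      funext t
      rw [Nat.cast_zero, Complex.zero_cpow]
      intro h
      have := congrArg Complex.re h
      simp at this
    rw [this]
    exact continuous_const
  · refine Continuous.const_cpow (by fun_prop) (Or.inl ?_)
    exact_mod_cast hn.ne'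

lemma cont_aM (q y : ℕ) : Continuous (aM q y) := (cont_DP _ _).norm

lemma cont_aH (y z : ℕ) : Continuous (aH y z) := (cont_DP _ _).norm.pow 2

lemma az_nonneg (t : ℝ) : 0 ≤ az t := norm_nonneg _

lemma aM_nonneg (q y : ℕ) (t : ℝ) : 0 ≤ aM q y t := norm_nonneg _

lemma aH_nonneg (y z : ℕ) (t : ℝ) : 0 ≤ aH y z t := by
  unfold aH
  positivity

lemma az_eq (t : ℝ) : az t = ‖zt t‖ := rfl

/-- `w` times a continuous function is integrable. -/
lemma int_mul {w : ℝ → ℝ} (hw : IsW w) {g : ℝ → ℝ} (hg : Continuous g) :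
    Integrable fun u => w u * g u := by
  have hc : Continuous fun u => w u * g u := hw.smooth.continuous.mul hg
  rw [← integrableOn_iff_integrable_of_support_subset (s := Icc (0 : ℝ) 1)]
  · exact hc.integrableOn_Icc
  · obtain ⟨c, hc, h⟩ := hw.supp
    intro u hu
    have hu' : w u ≠ 0 := fun h0 => hu (by simp [h0])
    exact ⟨hc.le.trans (h u hu').1, (h u hu').2⟩

/-- The sector is measurable. -/
lemma meas_sec {θ : ℝ} {ω : ℂ} {f : ℝ → ℂ} (hf : Continuous f) : MeasurableSet (sec θ ω f) := by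
  unfold sec
  refine measurableSet_lt (by fun_prop : Continuous fun u => Real.cos θ * ‖f u‖).measurable ?_
  exact (Complex.continuous_re.comp (continuous_const.mul hf)).measurable

/-- The exponential. -/
lemma expo {k : ℕ} {C7 L s1 s2 x : ℝ} (hk : 2 ≤ k) (hC7 : 1 ≤ C7) (hL : 1 ≤ L)
    (hx : x = (k : ℝ) - 1) (e2 : Real.exp (s1 + s2) ≤ C7 * L) :
    L * Real.exp ((2 * x + x ^ 2) * s1 + (2 * ((k - 1 : ℕ) : ℝ) + ((k - 1 : ℕ) : ℝ) ^ 2) * s2) ≤
      C7 ^ (k ^ 2) * L ^ (k ^ 2) := by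
  have hk1 : ((k - 1 : ℕ) : ℝ) = (k : ℝ) - 1 := by
    rw [Nat.cast_sub (by omega)]
    simp
  have hk2 : ((k ^ 2 - 1 : ℕ) : ℝ) = (k : ℝ) ^ 2 - 1 := by
    rw [Nat.cast_sub (by nlinarith)]
    push_cast
    ring
  have h1 : (2 * x + x ^ 2) * s1 + (2 * ((k - 1 : ℕ) : ℝ) + ((k - 1 : ℕ) : ℝ) ^ 2) * s2 =
      ((k ^ 2 - 1 : ℕ) : ℝ) * (s1 + s2) := by
    rw [hk2, hk1, hx]
    ring
  rw [h1, Real.exp_nat_mul]
  have h2 : Real.exp (s1 + s2) ^ (k ^ 2 - 1) ≤ (C7 * L) ^ (k ^ 2 - 1) :=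
    pow_le_pow_left₀ (Real.exp_pos _).le e2 _
  have h3 : k ^ 2 = (k ^ 2 - 1) + 1 := by
    have : 1 ≤ k ^ 2 := Nat.one_le_pow _ _ (by omega)
    omega
  have h4 : C7 ^ (k ^ 2 - 1) ≤ C7 ^ (k ^ 2) := pow_le_pow_right₀ hC7 (by omega)
  calc L * Real.exp (s1 + s2) ^ (k ^ 2 - 1) ≤ L * (C7 * L) ^ (k ^ 2 - 1) :=
        mul_le_mul_of_nonneg_left h2 (by linarith)
    _ = C7 ^ (k ^ 2 - 1) * L ^ ((k ^ 2 - 1) + 1) := by
        rw [mul_pow]
        ring
    _ = C7 ^ (k ^ 2 - 1) * L ^ (k ^ 2) := by rw [← h3]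
    _ ≤ C7 ^ (k ^ 2) * L ^ (k ^ 2) := mul_le_mul_of_nonneg_right h4 (by positivity)

/-- Lengths. -/
lemma len {y z a b m j : ℕ} {T : ℝ} (hy : 1 ≤ y) (hz : 1 ≤ z)
    (h : ((y ^ a * z ^ b : ℕ) : ℝ) ^ 3 ≤ T) (hm : m ≤ a) (hj : j ≤ b) :
    ((y ^ m * z ^ j : ℕ) : ℝ) ^ 3 ≤ T := by
  refine le_trans ?_ h
  have h1 : y ^ m * z ^ j ≤ y ^ a * z ^ b :=
    Nat.mul_le_mul (Nat.pow_le_pow_right hy hm) (Nat.pow_le_pow_right hz hj)
  have h2 : ((y ^ m * z ^ j : ℕ) : ℝ) ≤ ((y ^ a * z ^ b : ℕ) : ℝ) := by exact_mod_cast h1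
  exact pow_le_pow_left₀ (Nat.cast_nonneg _) h2 3

end I_UpAu

open I_UpAu in
/-- **R4 (UpAu).** -/
theorem UpAu_pf (h1 : S_Jarc) (_h6 : S_Mert) (h7 : S_Num) (h0 : S_UZ) : S_UpAu := by
  intro w hw k C hk hC
  obtain ⟨C₁, hC₁, hJ⟩ := h1 w hw
  obtain ⟨C7, T7, hC7, hT7, H7⟩ := h7 k C hC
  refine ⟨max 1 (C₁ * C7 ^ (k ^ 2)), le_max_left _ _, fun θ hθ hθπ => ?_⟩
  obtain ⟨T₀, hT₀⟩ := hJ θ hθ hθπ
  refine ⟨max T₀ T7, fun T hT q y z hpar ω hω A hA => ?_⟩
  have hT1 : T₀ ≤ T := (le_max_left _ _).trans hT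
  have hT2 : T7 ≤ T := (le_max_right _ _).trans hT
  have hT3 : 3 ≤ T := hT7.trans hT2
  have hL1 : 1 ≤ Real.log T := by
    rw [Real.le_log_iff_exp_le (by linarith)]
    have := Real.exp_one_lt_d9
    linarith
  obtain ⟨-, -, e2, -, -, -, -⟩ := H7 T hT2 q y z hpar.toIsPar
  have hz1 : 1 ≤ z := by
    have := hpar.hy
    have := hpar.hyz
    omega
  have hlen : ((y ^ (q * (k - 1)) * z ^ (2 * (k - 1)) : ℕ) : ℝ) ^ 3 ≤ T := by
    refine len (by have := hpar.hy; omega) hz1 hpar.hlen2 ?_ (by omega)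
    calc q * (k - 1) ≤ q * k := Nat.mul_le_mul_left _ (by omega)
      _ ≤ q * k + 1 := by omega
  have hJ2 := (hT₀ T hT1 q y z (q * (k - 1)) (k - 1) hpar.hq hpar.hyz hlen ω hω).2
  have hA0 : 0 ≤ A := by linarith
  have hq0 : (0 : ℝ) < q := by exact_mod_cast hpar.hq
  have hx : ((q * (k - 1) : ℕ) : ℝ) / q = (k : ℝ) - 1 := by
    rw [Nat.cast_mul, Nat.cast_sub (by omega)]
    field_simp
    simp
  have cz : Continuous fun u : ℝ => zt (T * u) := h0.2.1.comp (by fun_prop)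
  have cφ : Continuous fun u : ℝ => az (T * u) := cz.norm
  have cm : Continuous fun u : ℝ => aM q y (T * u) := (cont_aM q y).comp (by fun_prop)
  have cr : Continuous fun u : ℝ => aH y z (T * u) := (cont_aH y z).comp (by fun_prop)
  have cG : Continuous fun u : ℝ => az (T * u) ^ 2 *
      (aM q y (T * u) ^ (2 * (q * (k - 1))) * aH y z (T * u) ^ (2 * (k - 1))) := by fun_prop
  have cF : Continuous fun u : ℝ => az (T * u) ^ (2 * k) := by fun_prop
  have iG := int_mul hw cG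
  have iF := int_mul hw cF
  have hS1 : MeasurableSet (sec θ ω (fun u => zt (T * u))) := meas_sec cz
  have hS : MeasurableSet {u | az (T * u) ≤ A * (aM q y (T * u) ^ q * aH y z (T * u))} :=
    measurableSet_le cφ.measurable (by fun_prop : Continuous fun u : ℝ =>
      A * (aM q y (T * u) ^ q * aH y z (T * u))).measurable
  calc ∫ u in sec θ ω (fun u => zt (T * u)) ∩
        {u | az (T * u) ≤ A * (aM q y (T * u) ^ q * aH y z (T * u))}, w u * az (T * u) ^ (2 * k)
      ≤ ∫ u in sec θ ω (fun u => zt (T * u)) ∩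
        {u | az (T * u) ≤ A * (aM q y (T * u) ^ q * aH y z (T * u))},
        A ^ (2 * k - 2) * (w u * (az (T * u) ^ 2 *
          (aM q y (T * u) ^ (2 * (q * (k - 1))) * aH y z (T * u) ^ (2 * (k - 1))))) := by
        refine setIntegral_mono_on iF.integrableOn (iG.const_mul _).integrableOn
          (hS1.inter hS) ?_
        intro u hu'
        have hu := hu'.2
        simp only [mem_setOf_eq] at hu
        have e1 : 2 * k = 2 + 2 * (k - 1) := by omega
        have e2 : 2 * k - 2 = 2 * (k - 1) := by omega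
        have h3 : az (T * u) ^ (2 * (k - 1)) ≤
            (A * (aM q y (T * u) ^ q * aH y z (T * u))) ^ (2 * (k - 1)) :=
          pow_le_pow_left₀ (az_nonneg _) hu _
        have h4 : (A * (aM q y (T * u) ^ q * aH y z (T * u))) ^ (2 * (k - 1)) =
            A ^ (2 * (k - 1)) * (aM q y (T * u) ^ (2 * (q * (k - 1))) *
              aH y z (T * u) ^ (2 * (k - 1))) := by
          rw [mul_pow, mul_pow, ← pow_mul]
          congr 3
          ring
        rw [e2]
        calc w u * az (T * u) ^ (2 * k)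
            = w u * (az (T * u) ^ 2 * az (T * u) ^ (2 * (k - 1))) := by
              rw [← pow_add, ← e1]
          _ ≤ w u * (az (T * u) ^ 2 * (A ^ (2 * (k - 1)) * (aM q y (T * u) ^ (2 * (q * (k - 1))) *
              aH y z (T * u) ^ (2 * (k - 1))))) := by
              refine mul_le_mul_of_nonneg_left ?_ (hw.nonneg u)
              refine mul_le_mul_of_nonneg_left ?_ (by positivity)
              exact h3.trans h4.le
          _ = _ := by ring
    _ ≤ ∫ u in sec θ ω (fun u => zt (T * u)), A ^ (2 * k - 2) * (w u * (az (T * u) ^ 2 *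
          (aM q y (T * u) ^ (2 * (q * (k - 1))) * aH y z (T * u) ^ (2 * (k - 1))))) := by
        refine setIntegral_mono_set (iG.const_mul _).integrableOn ?_
          (Filter.Eventually.of_forall fun u hu => hu.1)
        refine ae_of_all _ fun u => ?_
        have a1 := hw.nonneg u
        have a2 := aM_nonneg q y (T * u)
        have a3 := aH_nonneg y z (T * u)
        simp only [Pi.zero_apply]
        positivity
    _ = A ^ (2 * k - 2) * ∫ u in sec θ ω (fun u => zt (T * u)), (w u * (az (T * u) ^ 2 *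
          (aM q y (T * u) ^ (2 * (q * (k - 1))) * aH y z (T * u) ^ (2 * (k - 1))))) := by
        rw [integral_const_mul]
    _ ≤ A ^ (2 * k - 2) * (C₁ * θ * (C7 ^ (k ^ 2) * Real.log T ^ (k ^ 2))) := by
        refine mul_le_mul_of_nonneg_left (hJ2.trans ?_) (by positivity)
        rw [mul_assoc (C₁ * θ)]
        refine mul_le_mul_of_nonneg_left ?_ (by positivity)
        exact expo hk hC7 hL1 hx e2
    _ = C₁ * C7 ^ (k ^ 2) * (A ^ (2 * k - 2) * θ * Real.log T ^ (k ^ 2)) := by ring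
    _ ≤ max 1 (C₁ * C7 ^ (k ^ 2)) * (A ^ (2 * k - 2) * θ * Real.log T ^ (k ^ 2)) := by
        refine mul_le_mul_of_nonneg_right (le_max_right _ _) (by positivity)
    _ = _ := by ring

end Pool.Agent.Work.MP_56b8f5_nt.WA
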