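import Pool.Agent.Work.MP_56b8f5_nt.WA.StmtsB

/-!
MP_56b8f5_nt, block WB, item Q4 (UpF2): upper bound of the divisor-type sum.
-/

set_option autoImplicit false

noncomputable section

namespace Pool.Agent.Work.MP_56b8f5_nt.WA

open Pool.Agent.Work.MP_56b8f5_nt.EM
open Pool.Agent.Work.MP_56b8f5_nt.WM

namespace I_UpF2

theorem pe_zero (a : ℕ → ℝ) : pe a 0 = 0 := by simp [pe]

/-- `d(n) pe a n ≤ pe (2 a) n` as `v + 1 ≤ 2 ^ v`. -/
theorem card_mul_pe {a : ℕ → ℝ} (ha : ∀ p, 0 ≤ a p) (n : ℕ) :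
    pe a n * (n.divisors.card : ℝ) ≤ pe (fun p => 2 * a p) n := by
  rcases eq_or_ne n 0 with h | h
  · rw [h, pe_zero, pe_zero]
    simp
  · simp only [pe, if_neg h, Finsupp.prod]
    rw [Nat.card_divisors h, Nat.cast_prod, Nat.support_factorization, ← Finset.prod_mul_distrib]
    refine Finset.prod_le_prod (fun p _ => ?_) fun p _ => ?_
    · have := ha p
      positivity
    · set v := n.factorization p
      have h1 : (((v + 1 : ℕ)) : ℝ) ≤ 2 ^ v := by exact_mod_cast Nat.succ_le_of_lt Nat.lt_two_pow_self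
      have h2 : 0 ≤ a p ^ v / (v.factorial : ℝ) := div_nonneg (pow_nonneg (ha p) v) (Nat.cast_nonneg _)
      calc a p ^ v / (v.factorial : ℝ) * ((v + 1 : ℕ) : ℝ)
          ≤ a p ^ v / (v.factorial : ℝ) * 2 ^ v := mul_le_mul_of_nonneg_left h1 h2
        _ = (2 * a p) ^ v / (v.factorial : ℝ) := by rw [mul_pow]; ring

/-- the sum over the divisors is at most the product of the sums -/
theorem sum_le (F G : ℕ → ℝ) (hF : ∀ n, 0 ≤ F n) (hG : ∀ n, 0 ≤ G n) (X : ℕ) :
    ∑ l ∈ Finset.range (X + 1), ∑ x ∈ l.divisorsAntidiagonal, F x.1 * G x.2 ≤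
      (∑ h ∈ Finset.range (X + 1), F h) * ∑ n ∈ Finset.range (X + 1), G n := by
  rw [Finset.sum_mul_sum, ← Finset.sum_product', Finset.sum_sigma']
  have hinj : Set.InjOn (fun s : (_ : ℕ) × (ℕ × ℕ) => s.2)
      ((Finset.range (X + 1)).sigma fun l => l.divisorsAntidiagonal : Finset _) := by
    rintro ⟨l, x⟩ hx ⟨l', x'⟩ hx' h
    simp only [Finset.coe_sigma, Set.mem_sigma_iff, Finset.mem_coe,
      Nat.mem_divisorsAntidiagonal] at hx hx'
    simp only at h
    subst h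
    have : l = l' := hx.2.1.symm.trans hx'.2.1
    subst this
    rfl
  have e : ∑ s ∈ (Finset.range (X + 1)).sigma fun l => l.divisorsAntidiagonal,
      F s.2.1 * G s.2.2 = ∑ x ∈ ((Finset.range (X + 1)).sigma fun l =>
        l.divisorsAntidiagonal).image fun s => s.2, F x.1 * G x.2 :=
    (Finset.sum_image (f := fun x : ℕ × ℕ => F x.1 * G x.2) hinj).symm
  refine e.le.trans (Finset.sum_le_sum_of_subset_of_nonneg ?_ fun x _ _ =>
    mul_nonneg (hF _) (hG _))
  intro x hx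
  rw [Finset.mem_image] at hx
  obtain ⟨⟨l, y⟩, hl, rfl⟩ := hx
  simp only [Finset.mem_sigma, Finset.mem_range, Nat.mem_divisorsAntidiagonal] at hl
  obtain ⟨hl, hy, hl0⟩ := hl
  rw [Finset.mem_product, Finset.mem_range, Finset.mem_range]
  constructor
  · exact lt_of_le_of_lt (Nat.le_of_dvd (Nat.pos_of_ne_zero hl0) ⟨_, hy.symm⟩) hl
  · exact lt_of_le_of_lt (Nat.le_of_dvd (Nat.pos_of_ne_zero hl0)
      ⟨y.1, by rw [← hy, mul_comm]⟩) hl

end I_UpF2

open I_UpF2 in
/-- **Q4 (UpF2).** -/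
theorem UpF2_pf (h2 : S_PeBas) (h3 : S_PeSum) : S_UpF2 := by
  intro a' b z X ha' haz hb hbb
  obtain ⟨a1, -, -, -, a5, -, a7, -, -, -, -⟩ := h2 a' ha'
  have hsq : ∀ p, 0 ≤ a' p ^ 2 := fun p => sq_nonneg _
  have htw : ∀ p, 0 ≤ 2 * a' p := fun p => mul_nonneg zero_le_two (ha' p)
  obtain ⟨c1, -, -, -, -, -, -, c8, -, -, -⟩ := h2 (fun p => a' p ^ 2) hsq
  obtain ⟨d1, -, -, -, -, -, -, d8, -, -, -⟩ := h2 (fun p => 2 * a' p) htw
  set F : ℕ → ℝ := fun h => pe (fun p => a' p ^ 2) h / (h : ℝ) with hFdef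
  set G : ℕ → ℝ := fun n => pe (fun p => 2 * a' p) n / (n : ℝ) with hGdef
  have hF : ∀ n, 0 ≤ F n := fun n => div_nonneg (c1 n) (Nat.cast_nonneg n)
  have hG : ∀ n, 0 ≤ G n := fun n => div_nonneg (d1 n) (Nat.cast_nonneg n)
  have step1 : ∑ l ∈ Finset.range (X + 1), b l / (l : ℝ) * ∑ h ∈ l.divisors,
      b h * ((l / h).divisors.card : ℝ) ≤
      ∑ l ∈ Finset.range (X + 1), ∑ x ∈ l.divisorsAntidiagonal, F x.1 * G x.2 := by
    refine Finset.sum_le_sum fun l _ => ?_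
    rw [← Nat.map_div_right_divisors, Finset.sum_map, Finset.mul_sum]
    refine Finset.sum_le_sum fun h hh => ?_
    obtain ⟨hdvd, hl0⟩ := Nat.mem_divisors.mp hh
    simp only [Function.Embedding.coeFn_mk]
    obtain ⟨n, rfl⟩ := hdvd
    have hh0 : h ≠ 0 := fun h0 => hl0 (by rw [h0, zero_mul])
    have hn0 : n ≠ 0 := fun h0 => hl0 (by rw [h0, mul_zero])
    have hhp : (0 : ℝ) < (h : ℝ) := by exact_mod_cast Nat.pos_of_ne_zero hh0
    have hnp : (0 : ℝ) < (n : ℝ) := by exact_mod_cast Nat.pos_of_ne_zero hn0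
    rw [Nat.mul_div_cancel_left n (Nat.pos_of_ne_zero hh0)]
    rw [hFdef, hGdef]
    simp only
    have e1 : b (h * n) * (b h * (n.divisors.card : ℝ)) ≤
        pe (fun p => a' p ^ 2) h * pe (fun p => 2 * a' p) n := by
      calc b (h * n) * (b h * (n.divisors.card : ℝ)) ≤
            (pe a' h * pe a' n) * (pe a' h * (n.divisors.card : ℝ)) :=
            mul_le_mul ((hbb _).trans (a5 h n))
              (mul_le_mul_of_nonneg_right (hbb h) (Nat.cast_nonneg _))
              (mul_nonneg (hb h) (Nat.cast_nonneg _)) (mul_nonneg (a1 h) (a1 n))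
        _ = pe a' h ^ 2 * (pe a' n * (n.divisors.card : ℝ)) := by ring
        _ ≤ _ := mul_le_mul (a7 h) (card_mul_pe ha' n)
              (mul_nonneg (a1 n) (Nat.cast_nonneg _)) (c1 h)
    have e2 : b (h * n) / ((h * n : ℕ) : ℝ) * (b h * (n.divisors.card : ℝ)) =
        b (h * n) * (b h * (n.divisors.card : ℝ)) / ((h : ℝ) * (n : ℝ)) := by
      rw [Nat.cast_mul]
      ring
    rw [e2, div_mul_div_comm]
    exact div_le_div_of_nonneg_right e1 (mul_pos hhp hnp).le
  have step2 : ∑ h ∈ Finset.range (X + 1), F h ≤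
      Real.exp (∑ p ∈ pr z, a' p ^ 2 / (p : ℝ)) := by
    refine le_trans ?_ (h3 (fun p => a' p ^ 2 / (p : ℝ)) z X
      (fun p => div_nonneg (hsq p) (Nat.cast_nonneg p)) fun p hp => by rw [haz p hp]; simp)
    refine Finset.sum_le_sum fun n _ => ?_
    rcases Nat.eq_zero_or_pos n with rfl | hn
    · rw [hFdef]
      simp [pe_zero]
    · exact (c8 n hn).le
  have step3 : ∑ n ∈ Finset.range (X + 1), G n ≤
      Real.exp (∑ p ∈ pr z, 2 * a' p / (p : ℝ)) := by
    refine le_trans ?_ (h3 (fun p => 2 * a' p / (p : ℝ)) z X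
      (fun p => div_nonneg (htw p) (Nat.cast_nonneg p)) fun p hp => by rw [haz p hp]; simp)
    refine Finset.sum_le_sum fun n _ => ?_
    rcases Nat.eq_zero_or_pos n with rfl | hn
    · rw [hGdef]
      simp [pe_zero]
    · exact (d8 n hn).le
  refine step1.trans ((sum_le F G hF hG X).trans ?_)
  refine (mul_le_mul step2 step3 (Finset.sum_nonneg fun n _ => hG n) (Real.exp_pos _).le).trans ?_
  rw [← Real.exp_add, ← Finset.sum_add_distrib]
  refine le_of_eq ?_
  congr 1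
  refine Finset.sum_congr rfl fun p _ => ?_
  ring

end Pool.Agent.Work.MP_56b8f5_nt.WA
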