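import Pool.Agent.Work.MP_56b8f5_nt.WA.StmtsB

/-!
MP_56b8f5_nt, block WB, item ZPK (Q1): approximation of zeta on the support of the weight by the smooth
Dirichlet series of length T^(11/5).
-/

set_option autoImplicit false

open MeasureTheory Set Filter Topology

noncomputable section

namespace Pool.Agent.Work.MP_56b8f5_nt.WA

open Pool.Agent.Work.MP_56b8f5_nt.EM
open Pool.Agent.Work.MP_56b8f5_nt.WM

theorem ZPK_pf (hZ : StZ) : S_ZPK := by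
  intro w hw
  obtain ⟨c, hc, hsup⟩ := hw.supp
  obtain ⟨C, hC, hb⟩ := hZ
  refine ⟨C * (1 + 1 / c ^ 3), max 1 (1 / c), by positivity, le_max_left _ _, ?_⟩
  intro T hT u hu
  obtain ⟨hcu, hu1⟩ := hsup u hu
  have hT1 : 1 ≤ T := (le_max_left _ _).trans hT
  have hT0 : 0 < T := by linarith
  have hTc : 1 / c ≤ T := (le_max_right _ _).trans hT
  have hu0 : 0 < u := lt_of_lt_of_le hc hcu
  have hTu : 1 ≤ T * u := by
    calc (1 : ℝ) = 1 / c * c := by field_simp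
      _ ≤ T * u := mul_le_mul hTc hcu hc.le hT0.le
  have habs : |T * u| = T * u := abs_of_pos (by positivity)
  have h1 := hb (T ^ (11 / 5 : ℝ)) (Real.one_le_rpow hT1 (by norm_num)) (T * u)
    (by rw [habs]; exact hTu)
  have h1' : ‖zt (T * u) - P (T ^ (11 / 5 : ℝ)) (T * u)‖ ≤
      C * (|T * u| / Real.sqrt (T ^ (11 / 5 : ℝ)) +
        Real.sqrt (T ^ (11 / 5 : ℝ)) / |T * u| ^ 3) := h1
  refine h1'.trans ?_
  rw [habs, mul_div_assoc C (1 + 1 / c ^ 3) (T ^ (1 / 10 : ℝ))]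
  refine mul_le_mul_of_nonneg_left ?_ hC
  have hs : 0 < T ^ (1 / 10 : ℝ) := Real.rpow_pos_of_pos hT0 _
  have hs3 : Real.sqrt (T ^ (11 / 5 : ℝ)) = T * T ^ (1 / 10 : ℝ) := by
    rw [Real.sqrt_eq_rpow, ← Real.rpow_mul hT0.le]
    nth_rewrite 2 [← Real.rpow_one T]
    rw [← Real.rpow_add hT0]
    norm_num
  rw [hs3]
  have e1 : T * u / (T * T ^ (1 / 10 : ℝ)) ≤ 1 / T ^ (1 / 10 : ℝ) := by
    rw [mul_div_mul_left _ _ hT0.ne']
    exact div_le_div_of_nonneg_right hu1 hs.le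
  have e2 : T * T ^ (1 / 10 : ℝ) / (T * u) ^ 3 ≤ 1 / c ^ 3 / T ^ (1 / 10 : ℝ) := by
    have hcu3 : c ^ 3 ≤ u ^ 3 := pow_le_pow_left₀ hc.le hcu 3
    rw [div_div, div_le_div_iff₀ (by positivity) (by positivity)]
    have hq : T ^ (1 / 10 : ℝ) * T ^ (1 / 10 : ℝ) ≤ T := by
      rw [← Real.rpow_add hT0]
      calc T ^ ((1 / 10 : ℝ) + 1 / 10) ≤ T ^ (1 : ℝ) :=
            Real.rpow_le_rpow_of_exponent_le hT1 (by norm_num)
        _ = T := Real.rpow_one T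
    have h2 : T * T ^ (1 / 10 : ℝ) * (c ^ 3 * T ^ (1 / 10 : ℝ)) ≤ T ^ 2 * c ^ 3 := by
      calc T * T ^ (1 / 10 : ℝ) * (c ^ 3 * T ^ (1 / 10 : ℝ))
          = T * (T ^ (1 / 10 : ℝ) * T ^ (1 / 10 : ℝ)) * c ^ 3 := by ring
        _ ≤ T * T * c ^ 3 := by gcongr
        _ = T ^ 2 * c ^ 3 := by ring
    refine h2.trans ?_
    rw [one_mul, mul_pow]
    have h3 : T ^ 2 ≤ T ^ 3 := pow_le_pow_right₀ hT1 (by norm_num)
    exact mul_le_mul h3 hcu3 (by positivity) (by positivity)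
  calc T * u / (T * T ^ (1 / 10 : ℝ)) + T * T ^ (1 / 10 : ℝ) / (T * u) ^ 3
      ≤ 1 / T ^ (1 / 10 : ℝ) + 1 / c ^ 3 / T ^ (1 / 10 : ℝ) := add_le_add e1 e2
    _ = (1 + 1 / c ^ 3) / T ^ (1 / 10 : ℝ) := by rw [add_div]

end Pool.Agent.Work.MP_56b8f5_nt.WA
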