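import Pool.Agent.Work.MP_56b8f5_nt.WA.All
import Pool.Agent.Work.MP_56b8f5_nt.WA.I_SWr
import Pool.Agent.Work.MP_56b8f5_nt.WA.I_KerL
import Pool.Agent.Work.MP_56b8f5_nt.WA.I_KerU
import Pool.Agent.Work.MP_56b8f5_nt.WA.I_TrigL
import Pool.Agent.Work.MP_56b8f5_nt.WA.I_TrigU
import Pool.Agent.Work.MP_56b8f5_nt.WA.I_PsiD3
import Pool.Agent.Work.MP_56b8f5_nt.WA.I_PsiB3
import Pool.Agent.Work.MP_56b8f5_nt.WA.I_NS3
import Pool.Agent.Work.MP_56b8f5_nt.WA.I_Osc3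
import Pool.Agent.Work.MP_56b8f5_nt.WA.I_ZPK
import Pool.Agent.Work.MP_56b8f5_nt.WA.I_OscZ2
import Pool.Agent.Work.MP_56b8f5_nt.WA.I_FM2
import Pool.Agent.Work.MP_56b8f5_nt.WA.I_UpF2
import Pool.Agent.Work.MP_56b8f5_nt.WA.I_OscA
import Pool.Agent.Work.MP_56b8f5_nt.WA.I_Jah
import Pool.Agent.Work.MP_56b8f5_nt.WA.I_Jarc
import Pool.Agent.Work.MP_56b8f5_nt.WA.I_TenAbs
import Pool.Agent.Work.MP_56b8f5_nt.WA.I_ArcFu
import Pool.Agent.Work.MP_56b8f5_nt.WA.I_WinAu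
import Pool.Agent.Work.MP_56b8f5_nt.WA.I_UpAu
import Pool.Agent.Work.MP_56b8f5_nt.WA.I_MainB

/-!
MP_56b8f5_nt, block WB (sectors, constants linear in the angle): assembly.
-/

set_option autoImplicit false

noncomputable section

namespace Pool.Agent.Work.MP_56b8f5_nt.WA

open Pool.Agent.Work.MP_56b8f5_nt.EM
open Pool.Agent.Work.MP_56b8f5_nt.WM

theorem wb_SWr : S_SWr := SWr_pf
theorem wb_KerL : S_KerL := KerL_pf wb_SWr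
theorem wb_KerU : S_KerU := KerU_pf wb_SWr
theorem wb_TrigL : S_TrigL := TrigL_pf wb_KerL
theorem wb_TrigU : S_TrigU := TrigU_pf wb_KerU
theorem wb_PsiD3 : S_PsiD3 := PsiD3_pf
theorem wb_PsiB3 : S_PsiB3 := PsiB3_pf
theorem wb_NS3 : S_NS3 := NS3_pf
theorem wb_Osc3 : S_Osc3 := Osc3_pf wa_UZ wa_Ulim wa_PsiD wa_PsiB wb_PsiD3 wb_PsiB3 wb_NS3
theorem wb_ZPK : S_ZPK := ZPK_pf all_Z
theorem wb_OscZ2 : S_OscZ2 := OscZ2_pf all_Pc wb_ZPK wm_MVb wm_TSb wa_UZ wb_Osc3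
theorem wb_FM2 : S_FM2 := FM2_pf all_W all_Pc wb_ZPK wm_MVb wm_TSb
theorem wb_UpF2 : S_UpF2 := UpF2_pf wm_PeBas wm_PeSum
theorem wb_OscA : S_OscA := OscA_pf wa_UZ wa_Osc
theorem wb_Jah : S_Jah := Jah_pf wa_UZ wa_CCp wm_Sq wm_Gcd wb_OscA wb_OscZ2 wb_FM2 wb_UpF2
theorem wb_Jarc : S_Jarc := Jarc_pf wa_Jbh wb_Jah wb_TrigU wa_UZ
theorem wb_TenAbs : S_TenAbs := TenAbs_pf wm_Mert wm_Num
theorem wb_ArcFu : S_ArcFu := ArcFu_pf wa_Har wb_TrigL wa_UZ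
theorem wb_WinAu : S_WinAu := WinAu_pf wm_FinG wb_Jarc wb_TenAbs wb_ArcFu wm_GWr wm_Mert wa_UZ
theorem wb_UpAu : S_UpAu := UpAu_pf wb_Jarc wm_Mert wm_Num wa_UZ

/-- Moments in sectors, constants linear in the angle. -/
theorem wb_MainB : S_MainB := MainB_pf wa_ParA wa_CCp wm_PeBas wb_WinAu wb_UpAu wm_Wts

end Pool.Agent.Work.MP_56b8f5_nt.WA
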