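import Pool.Agent.Work.MP_56b8f5_nt.WM.StmtsR

/-!
MP_56b8f5_nt (eighth moment of the Riemann zeta function), block WA (the window theorem in sectors): definitions
(captain helper98). Weights `IsW`, `W0`, `W`, the function `P` are those of block EM; `pe`, `um`, `DP`, `az`, `aM`,
`S1`, `S2`, `be`, `Xb`, `UBm`, `IsPar` those of block WM.

The rough factor `R` of block WM is replaced by `H²`, where `H` has the coefficients `1/2`; so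
`|ζ| |M|^(2 m₁ + q) |R|^(2k-1)` becomes `|ζ| |M^(m₁ + q/2) H^(2k-1)|²`.
-/

set_option autoImplicit false

open MeasureTheory Set Filter Topology

noncomputable section

namespace Pool.Agent.Work.MP_56b8f5_nt.WA

open Pool.Agent.Work.MP_56b8f5_nt.EM
open Pool.Agent.Work.MP_56b8f5_nt.WM

/-! ### Arithmetic -/

/-- The coefficients of the rough polynomial `H`: exponent `1/2`, primes in `(y, z]`, length `z`. -/
def uh (y z : ℕ) : ArithmeticFunction ℝ :=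
  ⟨fun n => if n ≤ z then pe (fun p => if y < p ∧ p ≤ z then 1 / 2 else 0) n else 0, by simp [pe]⟩

/-- The exponents of `M^m H^j`. -/
def ab (q y z m j : ℕ) (p : ℕ) : ℝ :=
  if p ≤ y then (m : ℝ) / q else if p ≤ z then (j : ℝ) / 2 else 0

/-- The coefficients of `M^m H^j`. -/
def CC (q y z m j : ℕ) : ArithmeticFunction ℝ := um q y ^ m * uh y z ^ j

/-! ### Zeta and its phase -/

/-- `zeta(1/2+it)`. -/
def zt (t : ℝ) : ℂ := riemannZeta (1 / 2 + t * Complex.I)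

/-- `π^(-it/2) Γ(1/4+it/2)`. -/
def Gp (t : ℝ) : ℂ :=
  (Real.pi : ℂ) ^ (-(t * Complex.I / 2)) * Complex.Gamma (1 / 4 + t * Complex.I / 2)

/-- The phase: `conj (zeta(1/2+it)) = U(t) zeta(1/2+it)`. -/
def U (t : ℝ) : ℂ := Gp t / (starRingEnd ℂ) (Gp t)

/-- Approximation of the argument of `U`. -/
def Psi (n : ℕ) (t : ℝ) : ℝ := t * Real.log ((n : ℝ) / Real.pi) -
  2 * ∑ k ∈ Finset.range (n + 1), Real.arctan (2 * t / (4 * (k : ℝ) + 1))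

/-- First derivative of `Psi n`. -/
def psi (n : ℕ) (t : ℝ) : ℝ := Real.log ((n : ℝ) / Real.pi) -
  4 * ∑ k ∈ Finset.range (n + 1), (4 * (k : ℝ) + 1) / ((4 * (k : ℝ) + 1) ^ 2 + 4 * t ^ 2)

/-- Second derivative of `Psi n`. -/
def psi1 (n : ℕ) (t : ℝ) : ℝ :=
  32 * t * ∑ k ∈ Finset.range (n + 1), (4 * (k : ℝ) + 1) / ((4 * (k : ℝ) + 1) ^ 2 + 4 * t ^ 2) ^ 2

/-- Third derivative of `Psi n`. -/
def psi2 (n : ℕ) (t : ℝ) : ℝ :=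
  32 * ∑ k ∈ Finset.range (n + 1), (4 * (k : ℝ) + 1) / ((4 * (k : ℝ) + 1) ^ 2 + 4 * t ^ 2) ^ 2 -
  512 * t ^ 2 * ∑ k ∈ Finset.range (n + 1), (4 * (k : ℝ) + 1) /
    ((4 * (k : ℝ) + 1) ^ 2 + 4 * t ^ 2) ^ 3

/-! ### Moments -/

/-- `|H(t)|²`. -/
def aH (y z : ℕ) (t : ℝ) : ℝ := ‖DP (uh y z) z t‖ ^ 2

/-- Twisted zeroth moment. -/
def J0h (w : ℝ → ℝ) (q y z : ℕ) (T : ℝ) (m j : ℕ) : ℝ :=
  ∫ u : ℝ, w u * (aM q y (T * u) ^ (2 * m) * aH y z (T * u) ^ (2 * j))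

/-- Twisted second moment. -/
def J2h (w : ℝ → ℝ) (q y z : ℕ) (T : ℝ) (m j : ℕ) : ℝ :=
  ∫ u : ℝ, w u * (az (T * u) ^ 2 * (aM q y (T * u) ^ (2 * m) * aH y z (T * u) ^ (2 * j)))

/-- Admissible parameters. -/
structure IsPa (k : ℕ) (C T : ℝ) (q y z : ℕ) : Prop extends IsPar k C T q y z where
  hev : 2 ∣ q
  hlen2 : ((y ^ (q * k + 1) * z ^ (2 * (k + 1)) : ℕ) : ℝ) ^ 3 ≤ T

/-- `M^m H^j`. -/
def MH (q y z m j : ℕ) (t : ℝ) : ℂ := DP (um q y) y t ^ m * DP (uh y z) z t ^ j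

/-- The sector `Re (conj ω f) > (1-δ) |f|` (`|ω| = 1`). -/
def arc (δ : ℝ) (ω : ℂ) (f : ℝ → ℂ) : Set ℝ :=
  {u | (1 - δ) * ‖f u‖ < ((starRingEnd ℂ) ω * f u).re}

/-- The data for the real variable lemma: `f` is zeta, `V` its phase, `‖A‖ ‖B‖ = ‖Q‖²`. -/
structure Hy (w : ℝ → ℝ) (n : ℕ) (c₀ C₀ ε X : ℝ) (f V A B Q : ℝ → ℂ) : Prop where
  main : c₀ * X ≤ (∫ u : ℝ, (w u : ℂ) * (f u * (A u * (starRingEnd ℂ) (B u)))).re
  tot : ∫ u : ℝ, w u * (‖f u‖ * (‖A u‖ * ‖B u‖)) ≤ C₀ * X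
  ev1 : ‖∫ u : ℝ, (w u : ℂ) * (f u * (B u * (starRingEnd ℂ) (A u)))‖ ≤ ε * X
  ev : ∀ j : ℕ, 1 ≤ j → j ≤ n →
    ‖∫ u : ℝ, (w u : ℂ) * (V u ^ j * ((starRingEnd ℂ) (f u) * (A u * (starRingEnd ℂ) (B u))))‖ ≤
      ε * X
  ev' : ∀ j : ℕ, 1 ≤ j → j ≤ n →
    ‖∫ u : ℝ, (w u : ℂ) * (V u ^ j * ((starRingEnd ℂ) (f u) * (B u * (starRingEnd ℂ) (A u))))‖ ≤
      ε * X
  od0 : ‖∫ u : ℝ, (w u : ℂ) * (f u * (Q u * (starRingEnd ℂ) (Q u)))‖ ≤ ε * X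
  od : ∀ j : ℕ, 1 ≤ j → j ≤ n →
    ‖∫ u : ℝ, (w u : ℂ) * (V u ^ j * ((starRingEnd ℂ) (f u) * (Q u * (starRingEnd ℂ) (Q u))))‖ ≤
      ε * X

end Pool.Agent.Work.MP_56b8f5_nt.WA
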