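import Pool.Agent.Work.MP_56b8f5_nt.WA.StmtsB

/-! MP_56b8f5_nt, block WB: item `Osc3` (P4). -/

set_option autoImplicit false

open MeasureTheory Set Filter Topology

noncomputable section

namespace Pool.Agent.Work.MP_56b8f5_nt.WA

open Pool.Agent.Work.MP_56b8f5_nt.EM
open Pool.Agent.Work.MP_56b8f5_nt.WM

namespace I_Osc3

lemma hcs {w : ℝ → ℝ} (hw : IsW w) : HasCompactSupport w := by
  obtain ⟨c, hc, h⟩ := hw.supp
  refine HasCompactSupport.intro (K := Icc c 1) isCompact_Icc ?_
  intro u hu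
  by_contra hne
  exact hu ⟨(h u hne).1, (h u hne).2⟩

lemma wint {w : ℝ → ℝ} (hw : IsW w) : Integrable w :=
  hw.smooth.continuous.integrable_of_hasCompactSupport (hcs hw)

lemma lin (T u : ℝ) : HasDerivAt (fun u : ℝ => T * u) T u := by
  simpa using (hasDerivAt_id u).const_mul T

lemma compLin {f : ℝ → ℝ} {f' T u : ℝ} (h : HasDerivAt f f' (T * u)) :
    HasDerivAt (fun u : ℝ => f (T * u)) (f' * T) u :=
  HasDerivAt.comp u h (lin T u)

lemma contPsi (h3 : S_PsiD) (n : ℕ) : Continuous (Psi n) :=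
  continuous_iff_continuousAt.2 fun t => ((h3 n t).1).continuousAt

lemma lim (h2 : S_Ulim) (h3 : S_PsiD) {w : ℝ → ℝ} (hw : IsW w) (j : ℕ) (T lam : ℝ) :
    Tendsto (fun n : ℕ => ∫ u : ℝ, (w u : ℂ) *
      Complex.exp (Complex.I * ((j * Psi n (T * u) + T * u * lam : ℝ) : ℂ))) atTop
      (𝓝 (∫ u : ℝ, (w u : ℂ) * (U (T * u) ^ j * Complex.exp (Complex.I * (T * u * lam : ℝ))))) := by
  refine tendsto_integral_of_dominated_convergence w ?_ (wint hw) ?_ ?_
  · intro n
    have hc : Continuous (Psi n) := contPsi h3 n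
    have hw' : Continuous w := hw.smooth.continuous
    apply Continuous.aestronglyMeasurable
    fun_prop
  · intro n
    refine Eventually.of_forall fun u => ?_
    rw [norm_mul, mul_comm Complex.I, Complex.norm_exp_ofReal_mul_I, mul_one, Complex.norm_real,
      Real.norm_of_nonneg (hw.nonneg u)]
  · refine Eventually.of_forall fun u => ?_
    have hU := (h2 (T * u)).pow j
    have : ∀ n : ℕ, (w u : ℂ) * Complex.exp (Complex.I * ((j * Psi n (T * u) + T * u * lam : ℝ) : ℂ))
        = (w u : ℂ) * (Complex.exp (Complex.I * (Psi n (T * u) : ℝ)) ^ j *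
            Complex.exp (Complex.I * (T * u * lam : ℝ))) := by
      intro n
      rw [← Complex.exp_nat_mul, ← Complex.exp_add]
      congr 2
      push_cast
      ring
    simp_rw [this]
    exact (hU.mul_const _).const_mul _

end I_Osc3

open I_Osc3 in
theorem Osc3_pf (h1 : S_UZ) (h2 : S_Ulim) (h3 : S_PsiD) (h4 : S_PsiB) (h5 : S_PsiD3)
    (h6 : S_PsiB3) (h7 : S_NS3) : S_Osc3 := by
  intro w hw j hj
  obtain ⟨c, hc, hsupp⟩ := hw.supp
  obtain ⟨B, hB, hpsi⟩ := h4
  obtain ⟨B', hB', hpsi3⟩ := h6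
  have hj1 : (1 : ℝ) ≤ j := by exact_mod_cast hj
  have hj0 : (0 : ℝ) ≤ j := by linarith
  have hC1 : 0 ≤ max (j * B / c) (max (j * B / c ^ 2) (j * B' / c ^ 3)) :=
    le_max_of_le_left (div_nonneg (mul_nonneg hj0 hB) hc.le)
  obtain ⟨C, hC, hNS⟩ := h7 w hw c (max (j * B / c) (max (j * B / c ^ 2) (j * B' / c ^ 3)))
    hc hC1 hsupp
  refine ⟨C, max 1 (max (1 / c) (Real.exp (2 * (1 + B - Real.log c)))), hC, le_max_left _ _, ?_⟩
  intro T hT lam hlam
  have hT1 : 1 ≤ T := (le_max_left _ _).trans hT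
  have hT0 : 0 < T := by linarith
  have hTc : 1 ≤ T * c := by
    have : 1 / c ≤ T := (le_max_left _ _).trans ((le_max_right _ _).trans hT)
    rwa [div_le_iff₀ hc] at this
  have hlog : 2 * (1 + B - Real.log c) ≤ Real.log T := by
    have : Real.exp (2 * (1 + B - Real.log c)) ≤ T :=
      (le_max_right _ _).trans ((le_max_right _ _).trans hT)
    rwa [Real.le_log_iff_exp_le hT0]
  refine le_of_tendsto (I_Osc3.lim h2 h3 hw j T lam).norm ?_
  obtain ⟨N, hN⟩ := exists_nat_ge T
  filter_upwards [eventually_ge_atTop N] with n hn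
  have hnT : T ≤ (n : ℝ) := hN.trans (by exact_mod_cast hn)
  refine hNS T hT0 (fun u => j * Psi n (T * u) + T * u * lam) (fun u => j * psi n (T * u) + lam)
    (fun u => j * (psi1 n (T * u) * T)) (fun u => j * (psi2 n (T * u) * T * T))
    (fun u => j * (psi3 n (T * u) * T * T * T)) ?_ ?_ ?_ ?_ ?_ ?_
  · intro u _
    have hA : HasDerivAt (fun u : ℝ => Psi n (T * u)) (psi n (T * u) * T) u :=
      compLin (h3 n (T * u)).1
    have := (hA.const_mul (j : ℝ)).add ((lin T u).mul_const lam)
    refine this.congr_deriv ?_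
    ring
  · intro u _
    have hA : HasDerivAt (fun u : ℝ => psi n (T * u)) (psi1 n (T * u) * T) u :=
      compLin (h3 n (T * u)).2.1
    exact (hA.const_mul (j : ℝ)).add_const lam
  · intro u _
    have hA : HasDerivAt (fun u : ℝ => psi1 n (T * u)) (psi2 n (T * u) * T) u :=
      compLin (h3 n (T * u)).2.2.1
    exact (hA.mul_const T).const_mul (j : ℝ)
  · intro u _
    have hA : HasDerivAt (fun u : ℝ => psi2 n (T * u)) (psi3 n (T * u) * T) u :=
      compLin (h5 n (T * u)).1
    have := ((hA.mul_const T).mul_const T).const_mul (j : ℝ)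
    exact this
  · have hc3 : Continuous (psi3 n) := (h5 n 0).2
    apply Continuous.continuousOn
    fun_prop
  · intro u hu1 hu2
    have hu0 : 0 < u := hc.trans_le hu1
    have ht1 : 1 ≤ T * u := hTc.trans (mul_le_mul_of_nonneg_left hu1 hT0.le)
    have htn : T * u ≤ (n : ℝ) := by
      have : T * u ≤ T * 1 := mul_le_mul_of_nonneg_left hu2 hT0.le
      linarith
    obtain ⟨hp0, hp1, hp2⟩ := hpsi (T * u) ht1 n htn
    have hp3 := hpsi3 (T * u) ht1 n
    have hlogu : Real.log T + Real.log c ≤ Real.log (T * u) := by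
      rw [Real.log_mul hT0.ne' hu0.ne']
      have := Real.log_le_log hc hu1
      linarith
    refine ⟨?_, ?_, ?_, ?_⟩
    · have hpos : 0 ≤ psi n (T * u) := by
        have : 0 ≤ Real.log T := Real.log_nonneg hT1
        linarith
      have : psi n (T * u) ≤ j * psi n (T * u) := le_mul_of_one_le_left hpos hj1
      show 1 ≤ j * psi n (T * u) + lam
      linarith
    · refine le_trans ?_ (le_max_left _ _)
      rw [abs_mul, abs_mul, abs_of_nonneg hj0, abs_of_pos hT0, mul_div_assoc]
      refine mul_le_mul_of_nonneg_left ?_ hj0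
      calc |psi1 n (T * u)| * T ≤ B / (T * u) * T := mul_le_mul_of_nonneg_right hp1 hT0.le
        _ = B / u := by field_simp
        _ ≤ B / c := div_le_div_of_nonneg_left hB hc hu1
    · refine le_trans ?_ ((le_max_left _ _).trans (le_max_right _ _))
      rw [abs_mul, abs_mul, abs_mul, abs_of_nonneg hj0, abs_of_pos hT0, mul_div_assoc]
      refine mul_le_mul_of_nonneg_left ?_ hj0
      calc |psi2 n (T * u)| * T * T ≤ B / (T * u) ^ 2 * T * T := by
            refine mul_le_mul_of_nonneg_right (mul_le_mul_of_nonneg_right hp2 hT0.le) hT0.le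
        _ = B / u ^ 2 := by field_simp
        _ ≤ B / c ^ 2 := div_le_div_of_nonneg_left hB (by positivity) (by gcongr)
    · refine le_trans ?_ ((le_max_right _ _).trans (le_max_right _ _))
      rw [abs_mul, abs_mul, abs_mul, abs_mul, abs_of_nonneg hj0, abs_of_pos hT0, mul_div_assoc]
      refine mul_le_mul_of_nonneg_left ?_ hj0
      calc |psi3 n (T * u)| * T * T * T ≤ B' / (T * u) ^ 3 * T * T * T := by
            refine mul_le_mul_of_nonneg_right (mul_le_mul_of_nonneg_right
              (mul_le_mul_of_nonneg_right hp3 hT0.le) hT0.le) hT0.le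
        _ = B' / u ^ 3 := by field_simp
        _ ≤ B' / c ^ 3 := div_le_div_of_nonneg_left hB' (by positivity) (by gcongr)

end Pool.Agent.Work.MP_56b8f5_nt.WA
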