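import Pool.Agent.Work.MP_56b8f5_nt.WA.StmtsB
import Pool.Agent.Work.MP_56b8f5_nt.WA.I_WinA

/-!
MP_56b8f5_nt, block WB: item R3 (WinAu), lower bound for the moment in sectors at scale `T`, with a constant linear in the
opening angle. Adaptation of `WA/I_WinA.lean`.
-/

set_option autoImplicit false

open MeasureTheory Set Filter Topology

noncomputable section

namespace Pool.Agent.Work.MP_56b8f5_nt.WA

open Pool.Agent.Work.MP_56b8f5_nt.EM
open Pool.Agent.Work.MP_56b8f5_nt.WM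

namespace I_WinAu

open Pool.Agent.Work.MP_56b8f5_nt.WM.I_WinV (cont_az cont_DP cont_aM int_nu intS_nu supp_Icc fin_nu)

lemma len {y z a b m j : ℕ} {T : ℝ} (hy : 1 ≤ y) (hz : 1 ≤ z)
    (h : ((y ^ a * z ^ b : ℕ) : ℝ) ^ 3 ≤ T) (hm : m ≤ a) (hj : j ≤ b) :
    ((y ^ m * z ^ j : ℕ) : ℝ) ^ 3 ≤ T := by
  refine le_trans ?_ h
  have h1 : y ^ m * z ^ j ≤ y ^ a * z ^ b :=
    Nat.mul_le_mul (Nat.pow_le_pow_right hy hm) (Nat.pow_le_pow_right hz hj)
  have h2 : ((y ^ m * z ^ j : ℕ) : ℝ) ≤ ((y ^ a * z ^ b : ℕ) : ℝ) := by exact_mod_cast h1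
  exact pow_le_pow_left₀ (Nat.cast_nonneg _) h2 3

lemma meas_sec {f : ℝ → ℂ} (hf : Continuous f) (θ : ℝ) (ω : ℂ) : MeasurableSet (sec θ ω f) := by
  unfold sec
  apply IsOpen.measurableSet
  apply isOpen_lt
  · exact continuous_const.mul hf.norm
  · exact Complex.continuous_re.comp (continuous_const.mul hf)

end I_WinAu

open I_WinAu in
open I_WinA (cont_aH Xb_low) in
open Pool.Agent.Work.MP_56b8f5_nt.WM.I_WinV (cont_az cont_DP cont_aM int_nu intS_nu supp_Icc fin_nu) in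
/-- **R3 (WinAu).** -/
theorem WinAu_pf (h1 : S_FinG) (h2 : S_Jarc) (h5 : S_TenAbs) (h3 : S_ArcFu) (h4 : S_GWr)
    (h6 : S_Mert) (h0 : S_UZ) : S_WinAu := by
  intro w hw hW0 k C hk hC
  obtain ⟨c₀, hc₀, hLow⟩ := h3 w hw hW0 k C hk hC
  obtain ⟨C₁, hC₁, hJ⟩ := h2 w hw
  obtain ⟨C₂, T₂, hC₂, hTen⟩ := h5 k C hk hC
  have hcC : 0 < c₀ / C₁ := div_pos hc₀ hC₁
  obtain ⟨A, η, κ, hA, hη, hη1, hκ, hFin⟩ := h1 k (c₀ / C₁) C₂ hk hcC (by linarith)
  obtain ⟨C', T₃, hC', hGW⟩ := h4 k C A η κ hk hC hA hη hη1 hκ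
  obtain ⟨K, hK, hMert⟩ := h6
  refine ⟨c₀ / 2 * η ^ (2 * k - 1) * (1 / (C * K)) ^ (k ^ 2), max A C', by positivity,
    hC'.trans (le_max_right _ _), ?_⟩
  intro θ hθ hθπ
  obtain ⟨T₁, hLow⟩ := hLow θ hθ hθπ
  obtain ⟨T₅, hJ⟩ := hJ θ hθ hθπ
  refine ⟨max (max T₁ T₂) (max (max T₃ T₅) 1), ?_⟩
  intro T hT q y z hpar ω hω
  have hT1 : T₁ ≤ T := le_trans (le_trans (le_max_left _ _) (le_max_left _ _)) hT
  have hT2 : T₂ ≤ T := le_trans (le_trans (le_max_right _ _) (le_max_left _ _)) hT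
  have hT35 : max T₃ T₅ ≤ T := le_trans (le_trans (le_max_left _ _) (le_max_right _ _)) hT
  have hT3 : T₃ ≤ T := le_trans (le_max_left _ _) hT35
  have hT5 : T₅ ≤ T := le_trans (le_max_right _ _) hT35
  have hT4 : 1 ≤ T := le_trans (le_trans (le_max_right _ _) (le_max_right _ _)) hT
  have hlT : 0 ≤ Real.log T := Real.log_nonneg hT4
  have hq1 : 1 ≤ q := hpar.hq
  have hq0 : (0 : ℝ) < q := by exact_mod_cast hq1
  have hy1 : 1 ≤ y := le_trans (by norm_num) hpar.hy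
  have hz1 : 1 ≤ z := hy1.trans hpar.hyz
  set m₁ : ℕ := q * (k - 1) with hm₁
  have hm1 : 1 ≤ m₁ := Nat.mul_pos hq1 (by omega)
  have hmq : m₁ + q = q * k := by
    rw [hm₁]
    obtain ⟨j, rfl⟩ : ∃ j, k = j + 1 := ⟨k - 1, by omega⟩
    simp only [Nat.add_sub_cancel]
    ring
  have hmk : m₁ + q ≤ q * k := hmq.le
  have hbe : be q m₁ = k := by
    unfold be
    rw [hmq]
    push_cast
    field_simp
  have hba : |be q m₁ - (k : ℝ)| ≤ 1 / q := by
    rw [hbe, sub_self, abs_zero]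
    positivity
  have hLow' := hLow T hT1 q y z m₁ hpar hm1 hmk ω hω
  have hGW' := hGW T hT3 q y z m₁ hpar.toIsPar hmk k hba
  have hz2 : 2 ≤ z := hpar.hy.trans hpar.hyz
  have hXb := Xb_low (k := k) (q := q) hC hK hq1 hk hpar.hyz hlT hpar.hz (hMert z hz2).2
  rw [← hm₁] at hXb
  have czt : Continuous fun u : ℝ => zt (T * u) := h0.2.1.comp (by fun_prop)
  set R : Set ℝ := sec θ ω (fun u => zt (T * u)) with hR
  have hRm : MeasurableSet R := meas_sec czt θ ω
  set ν₀ : Measure ℝ := volume.withDensity fun u => ENNReal.ofReal (w u) with hν₀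
  have hfin₀ : IsFiniteMeasure ν₀ := fin_nu hw
  set ν : Measure ℝ := ν₀.restrict R with hν
  have : IsFiniteMeasure ν := by
    rw [hν]
    infer_instance
  have cφ : Continuous fun u : ℝ => az (T * u) := cont_az.comp (by fun_prop)
  have cm : Continuous fun u : ℝ => aM q y (T * u) := (cont_aM q y).comp (by fun_prop)
  have cr : Continuous fun u : ℝ => aH y z (T * u) := (cont_aH y z).comp (by fun_prop)
  have hφ0 : ∀ x : ℝ, 0 ≤ az (T * x) := fun x => norm_nonneg _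
  have hm0 : ∀ x : ℝ, 0 ≤ aM q y (T * x) := fun x => norm_nonneg _
  have hr0 : ∀ x : ℝ, 0 ≤ aH y z (T * x) := fun x => sq_nonneg _
  -- bound
  obtain ⟨B₁, hB₁⟩ := (isCompact_Icc (a := (0 : ℝ)) (b := 1)).bddAbove_image cφ.continuousOn
  obtain ⟨B₂, hB₂⟩ := (isCompact_Icc (a := (0 : ℝ)) (b := 1)).bddAbove_image cm.continuousOn
  obtain ⟨B₃, hB₃⟩ := (isCompact_Icc (a := (0 : ℝ)) (b := 1)).bddAbove_image cr.continuousOn
  have hbd : ∀ᵐ x ∂ν, az (T * x) ≤ max B₁ (max B₂ B₃) ∧ aM q y (T * x) ≤ max B₁ (max B₂ B₃) ∧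
      aH y z (T * x) ≤ max B₁ (max B₂ B₃) := by
    rw [hν]
    apply ae_restrict_of_ae
    rw [hν₀, ae_withDensity_iff hw.smooth.continuous.measurable.ennreal_ofReal]
    refine ae_of_all _ fun x hx => ?_
    have hx' : x ∈ Icc (0 : ℝ) 1 := by
      refine supp_Icc hw ?_
      intro h0
      apply hx
      rw [h0, ENNReal.ofReal_zero]
    refine ⟨(hB₁ (mem_image_of_mem _ hx')).trans (le_max_left _ _),
      (hB₂ (mem_image_of_mem _ hx')).trans ((le_max_left _ _).trans (le_max_right _ _)),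
      (hB₃ (mem_image_of_mem _ hx')).trans ((le_max_right _ _).trans (le_max_right _ _))⟩
  have hXb0 : 0 < Xb k q y z m₁ := Real.exp_pos _
  have hκ' : 0 < C₁ * θ := mul_pos hC₁ hθ
  have hX : 0 < C₁ * θ * Xb k q y z m₁ := mul_pos hκ' hXb0
  have hq1' : (1 : ℝ) ≤ q := by exact_mod_cast hpar.hq
  have hD : 1 ≤ (q : ℝ) ^ (2 * k + 1) := one_le_pow₀ hq1'
  -- the upper bounds in the sector
  have hTen' : UBm m₁ k q (C₁ * θ * Xb k q y z m₁) (Real.exp (be q m₁ / q * S1 y))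
      ((q : ℝ) ^ (2 * k + 1)) C₂
      (fun a b => ∫ x, aM q y (T * x) ^ (2 * a) * aH y z (T * x) ^ (2 * b) ∂ν)
      (fun a b => ∫ x, az (T * x) ^ 2 *
        (aM q y (T * x) ^ (2 * a) * aH y z (T * x) ^ (2 * b)) ∂ν) := by
    refine hTen T hT2 q y z m₁ hpar hm1 hmk (C₁ * θ) _ _ hκ' ?_
    intro a b ha hb _
    have h7 := hJ T hT5 q y z a b hpar.hq hpar.hyz (len hy1 hz1 hpar.hlen2 ha (by omega)) ω hω
    constructor
    · show ∫ x, aM q y (T * x) ^ (2 * a) * aH y z (T * x) ^ (2 * b) ∂ν ≤ _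
      rw [hν, hν₀, intS_nu hw _ hRm]
      exact h7.1
    · show ∫ x, az (T * x) ^ 2 *
        (aM q y (T * x) ^ (2 * a) * aH y z (T * x) ^ (2 * b)) ∂ν ≤ _
      rw [hν, hν₀, intS_nu hw _ hRm]
      exact h7.2
  have hcX : c₀ / C₁ * (C₁ * θ * Xb k q y z m₁) = c₀ * θ * Xb k q y z m₁ := by
    field_simp
  have key := hFin ν (fun u => az (T * u)) (fun u => aM q y (T * u)) (fun u => aH y z (T * u))
    (max B₁ (max B₂ B₃)) cφ.measurable cm.measurable cr.measurable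
    hφ0 hm0 hr0 hbd q m₁
    (C₁ * θ * Xb k q y z m₁) (Real.exp (be q m₁ / q * S1 y)) ((q : ℝ) ^ (2 * k + 1)) hpar.hq hm1 hX
    (Real.exp_pos _) hD hTen'
    (by rw [hν, hν₀, intS_nu hw _ hRm, hcX]; exact hLow')
  set v : ℝ := Real.exp (be q m₁ / q * S1 y) with hv
  set D : ℝ := (q : ℝ) ^ (2 * k + 1) with hDd
  set S : Set ℝ := {x | az (T * x) ≤ A * (aM q y (T * x) ^ q * aH y z (T * x)) ∧
    η * (aM q y (T * x) ^ q * aH y z (T * x)) ≤ az (T * x) ∧
      v / κ ≤ aM q y (T * x) ∧ aM q y (T * x) ≤ κ * v ∧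
      1 / (κ * Real.sqrt D) ≤ aH y z (T * x) ∧ aH y z (T * x) ≤ κ * Real.sqrt D} with hSd
  have hSm : MeasurableSet S := by
    have m1 : MeasurableSet {x | az (T * x) ≤ A * (aM q y (T * x) ^ q * aH y z (T * x))} :=
      measurableSet_le cφ.measurable (continuous_const.mul ((cm.pow _).mul cr)).measurable
    have m2 : MeasurableSet {x | η * (aM q y (T * x) ^ q * aH y z (T * x)) ≤ az (T * x)} :=
      measurableSet_le (continuous_const.mul ((cm.pow _).mul cr)).measurable cφ.measurable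
    have m3 : MeasurableSet {x | v / κ ≤ aM q y (T * x)} :=
      measurableSet_le measurable_const cm.measurable
    have m4 : MeasurableSet {x | aM q y (T * x) ≤ κ * v} :=
      measurableSet_le cm.measurable measurable_const
    have m5 : MeasurableSet {x | 1 / (κ * Real.sqrt D) ≤ aH y z (T * x)} :=
      measurableSet_le measurable_const cr.measurable
    have m6 : MeasurableSet {x | aH y z (T * x) ≤ κ * Real.sqrt D} :=
      measurableSet_le cr.measurable measurable_const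
    exact m1.inter (m2.inter (m3.inter (m4.inter (m5.inter m6))))
  have hwm : MeasurableSet {u | w u ≠ 0} :=
    (measurableSet_eq_fun hw.smooth.continuous.measurable measurable_const).compl
  set F : ℝ → ℝ := fun u => az (T * u) *
    (aM q y (T * u) ^ (2 * m₁ + q) * aH y z (T * u) ^ (2 * k - 1)) with hF
  have cF : Continuous fun u : ℝ => w u * F u :=
    hw.smooth.continuous.mul (cφ.mul ((cm.pow _).mul (cr.pow _)))
  have hint : IntegrableOn (fun u => w u * F u) {u | w u ≠ 0} :=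
    (cF.integrableOn_Icc (a := 0) (b := 1)).mono_set (supp_Icc hw)
  have hint2 : IntegrableOn (fun u => az (T * u) ^ (2 * k)) {u | w u ≠ 0} :=
    ((cφ.pow _).integrableOn_Icc (a := 0) (b := 1)).mono_set (supp_Icc hw)
  have hst : (∫ x in S, F x ∂ν) = ∫ x in S ∩ R, w x * F x := by
    rw [hν, Measure.restrict_restrict hSm, hν₀, intS_nu hw _ (hSm.inter hRm)]
  have key' : c₀ / 2 * (θ * Xb k q y z m₁) ≤ ∫ x in S ∩ R, w x * F x := by
    rw [← hst]
    refine le_trans (le_of_eq ?_) key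
    field_simp
  have h5 : ∫ x in S ∩ R, w x * F x = ∫ x in (S ∩ R) ∩ {u | w u ≠ 0}, w x * F x := by
    refine setIntegral_eq_of_subset_of_forall_sdiff_eq_zero (hSm.inter hRm) inter_subset_left ?_
    intro x hx
    have : w x = 0 := by
      by_contra h
      exact hx.2 ⟨hx.1, h⟩
    rw [this, zero_mul]
  rw [h5] at key'
  have h7 : ∫ x in (S ∩ R) ∩ {u | w u ≠ 0}, w x * F x ≤
      ∫ x in (S ∩ R) ∩ {u | w u ≠ 0}, (1 / η ^ (2 * k - 1)) * az (T * x) ^ (2 * k) := by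
    refine setIntegral_mono_on (hint.mono_set inter_subset_right)
      ((hint2.mono_set inter_subset_right).const_mul _) ((hSm.inter hRm).inter hwm) ?_
    rintro x ⟨⟨⟨-, a2, -, -, -, -⟩, -⟩, -⟩
    have hF0 : 0 ≤ F x := mul_nonneg (hφ0 x)
      (mul_nonneg (pow_nonneg (hm0 x) _) (pow_nonneg (hr0 x) _))
    refine (mul_le_of_le_one_left hF0 (hw.le_one x)).trans ?_
    simp only [hF]
    have b1 : aM q y (T * x) ^ (2 * m₁ + q) * aH y z (T * x) ^ (2 * k - 1) =
        (aM q y (T * x) ^ q * aH y z (T * x)) ^ (2 * k - 1) := by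
      rw [mul_pow, ← pow_mul]
      congr 2
      have : 2 * m₁ + q + q = 2 * (q * k) := by omega
      have h9 : q * (2 * k - 1) + q = 2 * (q * k) := by
        obtain ⟨j, rfl⟩ : ∃ j, k = j + 1 := ⟨k - 1, by omega⟩
        have : 2 * (j + 1) - 1 = 2 * j + 1 := by omega
        rw [this]
        ring
      omega
    rw [b1]
    have b2 : aM q y (T * x) ^ q * aH y z (T * x) ≤ az (T * x) / η := by
      rw [le_div_iff₀ hη]
      linarith
    have b3 : (aM q y (T * x) ^ q * aH y z (T * x)) ^ (2 * k - 1) ≤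
        (az (T * x) / η) ^ (2 * k - 1) :=
      pow_le_pow_left₀ (mul_nonneg (pow_nonneg (hm0 x) _) (hr0 x)) b2 _
    refine (mul_le_mul_of_nonneg_left b3 (hφ0 x)).trans (le_of_eq ?_)
    have b4 : az (T * x) ^ (2 * k) = az (T * x) * az (T * x) ^ (2 * k - 1) := by
      rw [← pow_succ']
      congr 1
      omega
    rw [b4, div_pow]
    ring
  rw [integral_const_mul] at h7
  have h8 : ∫ x in (S ∩ R) ∩ {u | w u ≠ 0}, az (T * x) ^ (2 * k) ≤
      ∫ u in ({u | w u ≠ 0} ∩ R) ∩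
        {u | az (T * u) ≤ max A C' * (aM q y (T * u) ^ q * aH y z (T * u)) ∧
          |Real.log (az (T * u)) - k * Real.log (Real.log T)| ≤
            max A C' * Real.sqrt (Real.log (Real.log T))}, az (T * u) ^ (2 * k) := by
    refine setIntegral_mono_set (hint2.mono_set (inter_subset_left.trans inter_subset_left)) ?_ ?_
    · exact ae_of_all _ fun x => pow_nonneg (hφ0 x) _
    · refine HasSubset.Subset.eventuallyLE ?_
      rintro x ⟨⟨⟨a1, a2, a3, a4, a5, a6⟩, hxR⟩, hx⟩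
      refine ⟨⟨hx, hxR⟩, a1.trans ?_, (hGW' _ _ _ v D hv hDd a1 a2 a3 a4 a5 a6).1.trans ?_⟩
      · exact mul_le_mul_of_nonneg_right (le_max_left _ _)
          (mul_nonneg (pow_nonneg (hm0 x) _) (hr0 x))
      · exact mul_le_mul_of_nonneg_right (le_max_right _ _) (Real.sqrt_nonneg _)
  have hηp : 0 < η ^ (2 * k - 1) := by positivity
  have h9 : c₀ / 2 * (θ * Xb k q y z m₁) ≤ 1 / η ^ (2 * k - 1) *
      ∫ u in ({u | w u ≠ 0} ∩ R) ∩
        {u | az (T * u) ≤ max A C' * (aM q y (T * u) ^ q * aH y z (T * u)) ∧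
          |Real.log (az (T * u)) - k * Real.log (Real.log T)| ≤
            max A C' * Real.sqrt (Real.log (Real.log T))}, az (T * u) ^ (2 * k) :=
    key'.trans (h7.trans (mul_le_mul_of_nonneg_left h8 (by positivity)))
  have h10 := mul_le_mul_of_nonneg_left h9 hηp.le
  rw [← mul_assoc (η ^ (2 * k - 1)) (1 / η ^ (2 * k - 1)), mul_one_div_cancel hηp.ne', one_mul] at h10
  refine le_trans ?_ h10
  have h11 := mul_le_mul_of_nonneg_left hXb (by positivity : 0 ≤ η ^ (2 * k - 1) * (c₀ / 2) * θ)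
  calc c₀ / 2 * η ^ (2 * k - 1) * (1 / (C * K)) ^ (k ^ 2) * θ * Real.log T ^ (k ^ 2) =
        η ^ (2 * k - 1) * (c₀ / 2) * θ * ((1 / (C * K)) ^ (k ^ 2) * Real.log T ^ (k ^ 2)) := by
          ring
    _ ≤ η ^ (2 * k - 1) * (c₀ / 2) * θ * Xb k q y z m₁ := h11
    _ = η ^ (2 * k - 1) * (c₀ / 2 * (θ * Xb k q y z m₁)) := by ring

end Pool.Agent.Work.MP_56b8f5_nt.WA
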